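import Pool.Agent.H15.JD.Un
import Pool.Agent.H15.FD.Fin

/-! The number of primes in windows of logarithmic length, averaged over typical tuples of dilations. -/

set_option autoImplicit false

namespace Pool.Agent.H15.JD
open Finset Filter Pool.Agent.H15.FD

/-- variance of sums: induction over the number of dilations -/
lemma indv (I : Finset ℕ) (V W ε K₀ τ : ℝ) (hε : 0 ≤ ε) : ∀ (r : ℕ) (A : Fin r → Finset ℕ)
    (Y : Fin r → ℕ → ℕ → ℝ), (∀ j, ∀ a ∈ A j, ∀ i ∈ I, |Y j a i| ≤ V) → (∀ j, ∀ a ∈ A j, ∑ i ∈ I, Y j a i ^ 2 ≤ K₀) →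
    (∀ j, ∀ w : ℕ → ℝ, (∀ i ∈ I, |w i| ≤ W) → ∃ E ⊆ A j, (E.card : ℝ) ≤ ε * (A j).card ∧
      ∀ a ∈ A j, a ∉ E → |∑ i ∈ I, w i * Y j a i| ≤ τ) →
    ∀ (W0 : ℝ) (u : ℕ → ℝ), W0 + r * V ≤ W → 0 ≤ V → (∀ i ∈ I, |u i| ≤ W0) →
    ∃ E ⊆ Fintype.piFinset A, (E.card : ℝ) ≤ r * ε * ∏ j, ((A j).card : ℝ) ∧
      ∀ a ∈ Fintype.piFinset A, a ∉ E → ∑ i ∈ I, (u i + ∑ j, Y j (a j) i) ^ 2 ≤ ∑ i ∈ I, u i ^ 2 + r * (K₀ + 2 * τ) := by
  classical
  intro r
  induction r with
  | zero =>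
    intro A Y _ _ _ W0 u _ _ _
    refine ⟨∅, empty_subset _, by simp, ?_⟩
    intro a _ _
    simp
  | succ r ih =>
    intro A Y hV hK hE W0 u hW hV0 hu
    have hWW : W0 ≤ W := by
      have : 0 ≤ ((r + 1 : ℕ) : ℝ) * V := by positivity
      linarith
    obtain ⟨E0, hE0, hE0c, hE0b⟩ := hE 0 u (fun i hi => (hu i hi).trans hWW)
    have hih : ∀ a0 ∈ A 0, ∃ E ⊆ Fintype.piFinset (Fin.tail A), (E.card : ℝ) ≤ r * ε * ∏ j, ((Fin.tail A j).card : ℝ) ∧
        ∀ a ∈ Fintype.piFinset (Fin.tail A), a ∉ E →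
          ∑ i ∈ I, ((u i + Y 0 a0 i) + ∑ j, Fin.tail Y j (a j) i) ^ 2 ≤ ∑ i ∈ I, (u i + Y 0 a0 i) ^ 2 + r * (K₀ + 2 * τ) := by
      intro a0 ha0
      apply ih (Fin.tail A) (Fin.tail Y) (fun j a ha i hi => hV j.succ a ha i hi) (fun j a ha => hK j.succ a ha)
        (fun j => hE j.succ) (W0 + V) (fun i => u i + Y 0 a0 i)
      · push_cast at hW; linarith
      · exact hV0
      · intro i hi
        exact (abs_add_le _ _).trans (add_le_add (hu i hi) (hV 0 a0 ha0 i hi))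
    choose! G hG1 hG2 hG3 using hih
    obtain ⟨E, hEd⟩ : ∃ E : Finset (Fin (r + 1) → ℕ), E = (Fintype.piFinset A).filter (fun a : Fin (r + 1) → ℕ => a 0 ∈ E0 ∨ (Fin.tail a : Fin r → ℕ) ∈ G (a 0)) := ⟨_, rfl⟩
    refine ⟨E, by rw [hEd]; exact filter_subset _ _, ?_, ?_⟩
    · obtain ⟨Q, hQ⟩ : ∃ Q : ℝ, Q = ∏ j, ((Fin.tail A j).card : ℝ) := ⟨_, rfl⟩
      have hQ0 : 0 ≤ Q := by rw [hQ]; exact prod_nonneg fun _ _ => Nat.cast_nonneg _
      have hprod : ∏ j, ((A j).card : ℝ) = (A 0).card * Q := by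
        rw [Fin.prod_univ_succ, hQ]; rfl
      have hsub : E ⊆ (A 0).biUnion (fun a0 => (if a0 ∈ E0 then Fintype.piFinset (Fin.tail A) else G a0).image (fun b => (Fin.cons a0 b : Fin (r + 1) → ℕ))) := by
        intro a ha
        rw [hEd, mem_filter, Fin.mem_piFinset_iff_zero_tail] at ha
        rw [mem_biUnion]
        refine ⟨a 0, ha.1.1, ?_⟩
        rw [mem_image]
        refine ⟨Fin.tail a, ?_, Fin.cons_self_tail a⟩
        by_cases h0 : a 0 ∈ E0
        · rw [if_pos h0]; exact ha.1.2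
        · rw [if_neg h0]
          exact ha.2.resolve_left h0
      have h1 := (card_le_card hsub).trans card_biUnion_le
      have h2 : (E.card : ℝ) ≤ ∑ a0 ∈ A 0, ((if a0 ∈ E0 then Q else 0) + r * ε * Q) := by
        refine ((Nat.cast_le (α := ℝ)).2 h1).trans ?_
        push_cast
        apply sum_le_sum
        intro a0 ha0
        have h3 : (((if a0 ∈ E0 then Fintype.piFinset (Fin.tail A) else G a0).image (fun b => (Fin.cons a0 b : Fin (r + 1) → ℕ))).card : ℝ) ≤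
            ((if a0 ∈ E0 then Fintype.piFinset (Fin.tail A) else G a0).card : ℝ) := by exact_mod_cast card_image_le
        refine h3.trans ?_
        by_cases h0 : a0 ∈ E0
        · rw [if_pos h0, if_pos h0, Fintype.card_piFinset]
          push_cast
          rw [← hQ]
          have : 0 ≤ (r : ℝ) * ε * Q := by positivity
          linarith
        · rw [if_neg h0, if_neg h0, zero_add]
          have := hG2 a0 ha0
          rw [← hQ] at this
          exact this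
      refine h2.trans ?_
      rw [sum_add_distrib, ← sum_filter, sum_const, sum_const, nsmul_eq_mul, nsmul_eq_mul, hprod]
      have h3 : (A 0).filter (fun a0 => a0 ∈ E0) = E0 := by
        ext a; rw [mem_filter]; exact ⟨fun h => h.2, fun h => ⟨hE0 h, h⟩⟩
      rw [h3]
      have h4 := mul_le_mul_of_nonneg_right hE0c hQ0
      push_cast
      linarith
    · intro a ha haE
      rw [hEd, mem_filter, not_and, not_or] at haE
      obtain ⟨h1, h2⟩ := haE ha
      rw [Fin.mem_piFinset_iff_zero_tail] at ha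
      have h3 := hE0b (a 0) ha.1 h1
      have h4 := hG3 (a 0) ha.1 (Fin.tail a) ha.2 h2
      have h5 := hK 0 (a 0) ha.1
      have e1 : ∀ i, u i + ∑ j, Y j (a j) i = (u i + Y 0 (a 0) i) + ∑ j, Fin.tail Y j (Fin.tail a j) i := by
        intro i
        rw [Fin.sum_univ_succ, add_assoc]
        rfl
      rw [sum_congr rfl (fun i _ => by rw [e1 i])]
      refine h4.trans ?_
      have e2 : ∑ i ∈ I, (u i + Y 0 (a 0) i) ^ 2 = ∑ i ∈ I, u i ^ 2 + 2 * ∑ i ∈ I, u i * Y 0 (a 0) i + ∑ i ∈ I, Y 0 (a 0) i ^ 2 := by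
        rw [mul_sum, ← sum_add_distrib, ← sum_add_distrib]
        apply sum_congr rfl
        intro i _
        ring
      rw [e2]
      have h6 := (abs_le.1 h3).2
      push_cast
      linarith

/-- sums over cells as sums over points -/
lemma sum_cells (I : Finset ℕ) (h : ℝ) (hh : 0 < h) (f : ℝ → ℝ) :
    ∑ x ∈ I.image (fun i : ℕ => (i : ℝ) * h), f x = ∑ i ∈ I, f (i * h) := by
  classical
  apply sum_image
  intro i _ j _ hij
  have h1 := mul_right_cancel₀ hh.ne' hij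
  exact_mod_cast h1

lemma cells_sep (I : Finset ℕ) (h : ℝ) (hh : 0 < h) : ∀ x ∈ I.image (fun i : ℕ => (i : ℝ) * h),
    ∀ x' ∈ I.image (fun i : ℕ => (i : ℝ) * h), x ≠ x' → h ≤ |x - x'| := by
  classical
  intro x hx x' hx' hne
  rw [mem_image] at hx hx'
  obtain ⟨i, _, hi⟩ := hx
  obtain ⟨j, _, hj⟩ := hx'
  rw [← hi, ← hj, ← sub_mul, abs_mul, abs_of_pos hh]
  have hij : i ≠ j := by
    rintro rfl
    exact hne (hi.symm.trans hj)
  have h1 : (1 : ℝ) ≤ |(i : ℝ) - j| := by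
    have h2 : ((i : ℤ) - j) ≠ 0 := by omega
    have h3 := Int.one_le_abs h2
    have h4 : ((1 : ℤ) : ℝ) ≤ ((|(i : ℤ) - j| : ℤ) : ℝ) := by exact_mod_cast h3
    push_cast at h4
    exact h4
  exact le_mul_of_one_le_left hh.le h1

/-- duality, cells in one dyadic range -/
lemma dual_one (B B' : ℕ) : ∃ (C : ℕ) (N₀ : ℝ), ∀ (N N' P h : ℝ) (A : Finset ℕ) (I : Finset ℕ) (w : ℕ → ℝ), N₀ ≤ N →
    N / 2 ≤ N' → N' ≤ 2 * N → Real.log N ^ C ≤ P → P ≤ N ^ B → (∀ a ∈ A, a.Prime ∧ P / 2 < a ∧ (a : ℝ) ≤ P) →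
    P / Real.log N ^ B ≤ A.card → 1 / P ≤ h → h ≤ 1 → (∀ i ∈ I, N' ≤ i * h ∧ i * h ≤ 2 * N') →
    (∀ i ∈ I, |w i| ≤ Real.log N ^ B') →
    ∃ E ⊆ A, (E.card : ℝ) ≤ 1 / (3 * Real.log N ^ B') * A.card ∧
      ∀ a ∈ A, a ∉ E → |∑ i ∈ I, w i * (Th1 a (i * h) h / (a * h) - 1)| ≤ N / h / (3 * Real.log N ^ B') := by
  classical
  obtain ⟨C, N₁, hR⟩ := dual (B + 1) (B' + 2)
  have hev : ∀ᶠ N : ℝ in atTop, 2 * N₁ ≤ N ∧ (8 * 2 ^ (B + 2) + 24 * 2 ^ (B' + 2) : ℝ) ≤ Real.log N ∧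
      (2 ^ C * Real.log N ^ C : ℝ) ≤ N ^ (1 / 2 : ℝ) ∧ 4 ≤ N ∧ (2 : ℝ) ^ (B + 1) ≤ N ∧ (2 : ℝ) ≤ N ^ (1 / 2 : ℝ) :=
    (eventually_ge_atTop _).and ((Real.tendsto_log_atTop.eventually_ge_atTop _).and
      ((Pool.Agent.H15.FD.ev_pow _ _ (1 / 2) (by norm_num)).and ((eventually_ge_atTop _).and ((eventually_ge_atTop _).and
        ((tendsto_rpow_atTop (by norm_num : (0 : ℝ) < 1 / 2)).eventually_ge_atTop _)))))
  obtain ⟨N₀, hN₀⟩ := eventually_atTop.1 hev
  refine ⟨2 * C, N₀, ?_⟩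
  intro N N' P h A I w hN hN1 hN2 hCP hPN hA hcard hh hh1 hI hw
  obtain ⟨hE1, hE2, hE3, hE4, hE5, hE6⟩ := hN₀ N hN
  have hNp : 0 < N := by linarith
  have hN'p : 0 < N' := by linarith
  obtain ⟨L, hL⟩ : ∃ L : ℝ, L = Real.log N := ⟨_, rfl⟩
  obtain ⟨L', hL'⟩ : ∃ L' : ℝ, L' = Real.log N' := ⟨_, rfl⟩
  rw [← hL] at hE2 hE3 hCP hcard hw ⊢
  have h2B : (1 : ℝ) ≤ 2 ^ (B + 2) := one_le_pow₀ (by norm_num)
  have h2B' : (1 : ℝ) ≤ 2 ^ (B' + 2) := one_le_pow₀ (by norm_num)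
  have hL8 : 8 ≤ L := by linarith
  have hL0 : 0 < L := by linarith
  have hL1 : 1 ≤ L := by linarith
  have hlog2 : Real.log 2 ≤ 1 := by linarith [Real.log_two_lt_d9]
  have hL'1 : L / 2 ≤ L' := by
    have h1 : Real.log (N / 2) ≤ L' := by rw [hL']; exact Real.log_le_log (by linarith) hN1
    rw [Real.log_div hNp.ne' (by norm_num), ← hL] at h1
    linarith
  have hL'2 : L' ≤ 2 * L := by
    have h1 : L' ≤ Real.log (2 * N) := by rw [hL']; exact Real.log_le_log hN'p hN2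
    rw [Real.log_mul (by norm_num) hNp.ne', ← hL] at h1
    linarith
  have hL'0 : 0 < L' := by linarith
  have hP1 : 1 ≤ P := (one_le_pow₀ hL1).trans hCP
  have hP0 : 0 < P := by linarith
  have hh0 : 0 < h := lt_of_lt_of_le (by positivity) hh
  have hLB : L ^ B ≤ L' ^ (B + 1) := by
    calc L ^ B = (L / 2) ^ B * 2 ^ B := by rw [div_pow]; field_simp
      _ ≤ (L / 2) ^ B * (L / 2) := by
        apply mul_le_mul_of_nonneg_left _ (by positivity)
        have : (2 : ℝ) ^ (B + 2) = 4 * 2 ^ B := by rw [pow_add]; ring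
        rw [this] at hE2
        have : 0 < (2 : ℝ) ^ B := by positivity
        have : 0 < (2 : ℝ) ^ (B' + 2) := by positivity
        linarith
      _ = (L / 2) ^ (B + 1) := (pow_succ _ _).symm
      _ ≤ L' ^ (B + 1) := pow_le_pow_left₀ (by linarith) hL'1 _
  have hLB' : 6 * L ^ B' ≤ L' ^ (B' + 2) := by
    calc 6 * L ^ B' = 6 * ((L / 2) ^ B' * 2 ^ B') := by rw [div_pow]; field_simp
      _ ≤ (L / 2) ^ B' * (L / 2) ^ 2 := by
        have h1 : 6 * (2 : ℝ) ^ B' ≤ (L / 2) ^ 2 := by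
          have h2 : (2 : ℝ) ^ (B' + 2) = 4 * 2 ^ B' := by rw [pow_add]; ring
          rw [h2] at hE2
          have h3 : 0 < (2 : ℝ) ^ B' := by positivity
          have h4 : 24 * (2 : ℝ) ^ B' ≤ L := by linarith [show 0 < (2 : ℝ) ^ (B + 2) by positivity]
          nlinarith only [h4, hL8, h3]
        have h2 : 0 ≤ (L / 2) ^ B' := by positivity
        nlinarith only [h1, h2]
      _ = (L / 2) ^ (B' + 2) := (pow_add _ _ _).symm
      _ ≤ L' ^ (B' + 2) := pow_le_pow_left₀ (by linarith) hL'1 _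
  -- apply duality
  obtain ⟨w', hw'⟩ : ∃ w' : ℝ → ℝ, w' = fun x => w ⌊x / h + 1 / 2⌋₊ := ⟨_, rfl⟩
  have hw'i : ∀ i : ℕ, w' (i * h) = w i := by
    intro i
    rw [hw']
    simp only
    congr 1
    rw [mul_div_cancel_right₀ _ hh0.ne', Nat.floor_eq_iff (by positivity)]
    constructor <;> linarith
  obtain ⟨E, hE, hEc, hEb⟩ := hR N' P h h 0 A (I.image (fun i : ℕ => (i : ℝ) * h)) w' (by linarith)
    (by
      rw [← hL']
      calc L' ^ C ≤ (2 * L) ^ C := pow_le_pow_left₀ hL'0.le hL'2 _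
        _ ≤ L ^ (2 * C) := by
          rw [pow_mul]
          apply pow_le_pow_left₀ (by positivity)
          nlinarith only [hL8]
        _ ≤ P := hCP)
    (by
      have h1 : N ^ B ≤ N' ^ (B + 1) := by
        have h2 : (N / 2) ^ (B + 1) ≤ N' ^ (B + 1) := pow_le_pow_left₀ (by linarith) hN1 _
        refine le_trans ?_ h2
        rw [div_pow, le_div_iff₀ (by positivity), pow_succ N]
        exact mul_le_mul_of_nonneg_left hE5 (by positivity)
      exact hPN.trans h1)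
    hA
    (by
      refine le_trans ?_ hcard
      rw [← hL']
      exact div_le_div_of_nonneg_left hP0.le (by positivity) hLB)
    (by
      rw [← hL']
      refine le_trans ?_ hh
      apply one_div_le_one_div_of_le hP0
      exact le_mul_of_one_le_right hP0.le (one_le_pow₀ (by linarith)))
    hh1
    (by
      intro x hx
      rw [mem_image] at hx
      obtain ⟨i, hi, rfl⟩ := hx
      exact hI i hi)
    (cells_sep I h hh0) le_rfl hN'p.le le_rfl
    (by
      rw [← hL']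
      refine hh1.trans ?_
      rw [le_div_iff₀ (by positivity), one_mul]
      have h1 : L' ^ C ≤ 2 ^ C * L ^ C := by rw [← mul_pow]; exact pow_le_pow_left₀ hL'0.le hL'2 _
      refine h1.trans (hE3.trans ?_)
      have h2 : N = N ^ (1 / 2 : ℝ) * N ^ (1 / 2 : ℝ) := by rw [← Real.rpow_add hNp]; norm_num
      have h3 : 0 < N ^ (1 / 2 : ℝ) := by positivity
      nlinarith only [h2, h3, hE6, hN1])
    (by
      intro x hx
      rw [mem_image] at hx
      obtain ⟨i, hi, rfl⟩ := hx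
      rw [hw'i, ← hL']
      refine (hw i hi).trans ?_
      have : 0 ≤ L ^ B' := by positivity
      linarith)
  rw [← hL'] at hEc hEb
  refine ⟨E, hE, ?_, ?_⟩
  · refine hEc.trans ?_
    apply mul_le_mul_of_nonneg_right _ (Nat.cast_nonneg _)
    apply one_div_le_one_div_of_le (by positivity)
    have : 0 ≤ L ^ B' := by positivity
    linarith
  · intro a ha haE
    have h1 := hEb a ha haE
    rw [sum_cells I h hh0] at h1
    simp only [hw'i, add_zero] at h1
    refine h1.trans ?_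
    rw [div_le_div_iff₀ (by positivity) (by positivity)]
    have h2 : N' / h ≤ 2 * (N / h) := by
      rw [← mul_div_assoc]; exact div_le_div_of_nonneg_right hN2 hh0.le
    have h3 : 0 ≤ N / h := by positivity
    calc N' / h * (3 * L ^ B') ≤ 2 * (N / h) * (3 * L ^ B') := mul_le_mul_of_nonneg_right h2 (by positivity)
      _ = N / h * (6 * L ^ B') := by ring
      _ ≤ N / h * L' ^ (B' + 2) := mul_le_mul_of_nonneg_left hLB' h3

end Pool.Agent.H15.JD
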