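import Pool.Agent.H15.JD.Av

/-! The number of primes in windows of logarithmic length, averaged over typical tuples of dilations. -/

set_option autoImplicit false

namespace Pool.Agent.H15.JD
open Finset Filter Pool.Agent.H15.FD

/-- second moment, cells in one dyadic range -/
lemma mom_one (B : ℕ) : ∃ K : ℝ, 0 < K ∧ ∃ N₀ : ℝ, ∀ (N N' P h lam : ℝ) (a : ℕ) (I : Finset ℕ), N₀ ≤ N →
    N / 2 ≤ N' → N' ≤ 2 * N → P ≤ N ^ B → P / 2 < a → (a : ℝ) ≤ P → 0 < lam → lam ≤ 1 → 32 ≤ lam * Real.log N →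
    lam * Real.log N ≤ P * h → 0 < h → h ≤ 1 → (∀ i ∈ I, N' ≤ i * h ∧ i * h ≤ 2 * N') →
    ∑ i ∈ I, (Th1 a (i * h) h / (a * h) - 1) ^ 2 ≤ K / lam * (N / h) := by
  classical
  obtain ⟨K₁, hK₁, N₁, hR⟩ := mom_pts (B + 1) 1
  have hev : ∀ᶠ N : ℝ in atTop, 2 * N₁ ≤ N ∧ 4 ≤ Real.log N ∧ 4 ≤ N ∧ (2 : ℝ) ^ (B + 1) ≤ N :=
    (eventually_ge_atTop _).and ((Real.tendsto_log_atTop.eventually_ge_atTop _).and
      ((eventually_ge_atTop _).and (eventually_ge_atTop _)))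
  obtain ⟨N₀, hN₀⟩ := eventually_atTop.1 hev
  refine ⟨8 * K₁ + 8, by positivity, N₀, ?_⟩
  intro N N' P h lam a I hN hN1 hN2 hPN haP haP2 hlam hlam1 hlam32 hlamP hh0 hh1 hI
  obtain ⟨hE1, hE2, hE4, hE5⟩ := hN₀ N hN
  have hNp : 0 < N := by linarith
  have hN'p : 0 < N' := by linarith
  obtain ⟨L, hL⟩ : ∃ L : ℝ, L = Real.log N := ⟨_, rfl⟩
  obtain ⟨L', hL'⟩ : ∃ L' : ℝ, L' = Real.log N' := ⟨_, rfl⟩
  rw [← hL] at hE2 hlam32 hlamP
  have hlog2 : Real.log 2 ≤ 1 := by linarith [Real.log_two_lt_d9]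
  have hL'1 : L / 2 ≤ L' := by
    have h1 : Real.log (N / 2) ≤ L' := by rw [hL']; exact Real.log_le_log (by linarith) hN1
    rw [Real.log_div hNp.ne' (by norm_num), ← hL] at h1
    linarith
  have hL'2 : L' ≤ 2 * L := by
    have h1 : L' ≤ Real.log (2 * N) := by rw [hL']; exact Real.log_le_log hN'p hN2
    rw [Real.log_mul (by norm_num) hNp.ne', ← hL] at h1
    linarith
  have h1 := hR N' P h (lam / 2) a (I.image (fun i : ℕ => (i : ℝ) * h)) (by linarith)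
    (by
      have h1 : N ^ B ≤ N' ^ (B + 1) := by
        have h2 : (N / 2) ^ (B + 1) ≤ N' ^ (B + 1) := pow_le_pow_left₀ (by linarith) hN1 _
        refine le_trans ?_ h2
        rw [div_pow, le_div_iff₀ (by positivity), pow_succ N]
        exact mul_le_mul_of_nonneg_left hE5 (by positivity)
      exact hPN.trans h1)
    haP haP2 (by linarith) (by linarith)
    (by
      rw [← hL']
      have := mul_le_mul_of_nonneg_left hL'1 (show 0 ≤ lam / 2 by linarith)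
      linarith)
    (by
      rw [← hL']
      have := mul_le_mul_of_nonneg_left hL'2 (show 0 ≤ lam / 2 by linarith)
      linarith)
    hh0 hh1
    (by
      intro x hx
      rw [mem_image] at hx
      obtain ⟨i, hi, rfl⟩ := hx
      exact hI i hi)
    (cells_sep I h hh0)
  rw [sum_cells I h hh0] at h1
  have hcard : (I.card : ℝ) ≤ 4 * (N / h) := by
    have h2 := card_sep (I.image (fun i : ℕ => (i : ℝ) * h)) N' h hh0 (by linarith)
      (by
        intro x hx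
        rw [mem_image] at hx
        obtain ⟨i, hi, rfl⟩ := hx
        exact hI i hi)
      (cells_sep I h hh0)
    rw [card_image_of_injective _ (by
      intro i j hij
      have h3 := mul_right_cancel₀ hh0.ne' hij
      exact_mod_cast h3)] at h2
    have h3 : N' / h ≤ 2 * (N / h) := by
      rw [← mul_div_assoc]; exact div_le_div_of_nonneg_right hN2 hh0.le
    linarith
  have h2 : ∑ i ∈ I, (Th1 a (i * h) h / (a * h) - 1) ^ 2 ≤ ∑ i ∈ I, (2 * (Th1 a (i * h) h / (a * h)) ^ (1 + 1) + 2) := by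
    apply sum_le_sum
    intro i _
    nlinarith only [sq_nonneg (Th1 a (i * h) h / (a * h) + 1)]
  refine h2.trans ?_
  rw [sum_add_distrib, ← mul_sum, sum_const, nsmul_eq_mul]
  have h3 : N' / h ≤ 2 * (N / h) := by
    rw [← mul_div_assoc]; exact div_le_div_of_nonneg_right hN2 hh0.le
  have h4 : K₁ / (lam / 2) ^ 1 * (N' / h) ≤ 4 * K₁ / lam * (N / h) := by
    rw [pow_one]
    calc K₁ / (lam / 2) * (N' / h) ≤ K₁ / (lam / 2) * (2 * (N / h)) := mul_le_mul_of_nonneg_left h3 (by positivity)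
      _ = _ := by field_simp; ring
  have h5 : 8 * (N / h) ≤ 8 / lam * (N / h) := by
    apply mul_le_mul_of_nonneg_right _ (by positivity)
    rw [le_div_iff₀ hlam]
    linarith
  have e : (8 * K₁ + 8) / lam * (N / h) = 2 * (4 * K₁ / lam * (N / h)) + 8 / lam * (N / h) := by ring
  rw [e]
  linarith

/-- the three dyadic ranges -/
lemma split3 (N h : ℝ) (n0 n : ℕ) (hN0 : 0 < N) (hh : 0 < h) (h1 : N / 2 ≤ n0 * h) (h2 : n * h ≤ 4 * N) :
    ∃ I : Fin 3 → Finset ℕ, (∀ j, I j ⊆ Ico n0 n) ∧ (∀ f : ℕ → ℝ, ∑ i ∈ Ico n0 n, f i = ∑ j, ∑ i ∈ I j, f i) ∧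
      (∀ j, ∃ N' : ℝ, N / 2 ≤ N' ∧ N' ≤ 2 * N ∧ ∀ i ∈ I j, N' ≤ i * h ∧ i * h ≤ 2 * N') := by
  classical
  have hr : ∀ i ∈ Ico n0 n, N / 2 ≤ i * h ∧ i * h ≤ 4 * N := by
    intro i hi
    rw [mem_Ico] at hi
    constructor
    · refine h1.trans (mul_le_mul_of_nonneg_right (by exact_mod_cast hi.1) hh.le)
    · refine le_trans (mul_le_mul_of_nonneg_right (by exact_mod_cast hi.2.le) hh.le) h2
  obtain ⟨I1, hI1⟩ : ∃ I1 : Finset ℕ, I1 = (Ico n0 n).filter (fun i : ℕ => (i : ℝ) * h < N) := ⟨_, rfl⟩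
  obtain ⟨J, hJ⟩ : ∃ J : Finset ℕ, J = (Ico n0 n).filter (fun i : ℕ => ¬ (i : ℝ) * h < N) := ⟨_, rfl⟩
  obtain ⟨I2, hI2⟩ : ∃ I2 : Finset ℕ, I2 = J.filter (fun i : ℕ => (i : ℝ) * h < 2 * N) := ⟨_, rfl⟩
  obtain ⟨I3, hI3⟩ : ∃ I3 : Finset ℕ, I3 = J.filter (fun i : ℕ => ¬ (i : ℝ) * h < 2 * N) := ⟨_, rfl⟩
  have hJs : J ⊆ Ico n0 n := by rw [hJ]; exact filter_subset _ _
  refine ⟨![I1, I2, I3], ?_, ?_, ?_⟩
  · intro j
    fin_cases j
    · show I1 ⊆ _
      rw [hI1]; exact filter_subset _ _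
    · show I2 ⊆ _
      rw [hI2]; exact (filter_subset _ _).trans hJs
    · show I3 ⊆ _
      rw [hI3]; exact (filter_subset _ _).trans hJs
  · intro f
    rw [Fin.sum_univ_three]
    show _ = ∑ i ∈ I1, f i + ∑ i ∈ I2, f i + ∑ i ∈ I3, f i
    rw [← sum_filter_add_sum_filter_not (Ico n0 n) (fun i : ℕ => (i : ℝ) * h < N), ← hI1, ← hJ,
      ← sum_filter_add_sum_filter_not J (fun i : ℕ => (i : ℝ) * h < 2 * N), ← hI2, ← hI3]
    ring
  · intro j
    fin_cases j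
    · refine ⟨N / 2, le_rfl, by linarith, ?_⟩
      show ∀ i ∈ I1, _
      intro i hi
      rw [hI1] at hi
      have hi' := mem_filter.1 hi
      have := hr i hi'.1
      exact ⟨this.1, by linarith [hi'.2]⟩
    · refine ⟨N, by linarith, by linarith, ?_⟩
      show ∀ i ∈ I2, _
      intro i hi
      rw [hI2] at hi
      have hi' := mem_filter.1 hi
      have hi1 := hi'.1
      rw [hJ] at hi1
      have hi'' := mem_filter.1 hi1
      exact ⟨not_lt.1 hi''.2, hi'.2.le⟩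
    · refine ⟨2 * N, by linarith, le_rfl, ?_⟩
      show ∀ i ∈ I3, _
      intro i hi
      rw [hI3] at hi
      have hi' := mem_filter.1 hi
      have hi1 := hi'.1
      rw [hJ] at hi1
      have hi'' := mem_filter.1 hi1
      have := hr i hi''.1
      exact ⟨not_lt.1 hi'.2, by linarith⟩

/-- duality, all cells -/
lemma dual_cells (B B' : ℕ) : ∃ (C : ℕ) (N₀ : ℝ), ∀ (N P h : ℝ) (A : Finset ℕ) (n0 n : ℕ) (w : ℕ → ℝ), N₀ ≤ N →
    Real.log N ^ C ≤ P → P ≤ N ^ B → (∀ a ∈ A, a.Prime ∧ P / 2 < a ∧ (a : ℝ) ≤ P) →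
    P / Real.log N ^ B ≤ A.card → 1 / P ≤ h → h ≤ 1 → N / 2 ≤ n0 * h → n * h ≤ 4 * N →
    (∀ i ∈ Ico n0 n, |w i| ≤ Real.log N ^ B') →
    ∃ E ⊆ A, (E.card : ℝ) ≤ 1 / Real.log N ^ B' * A.card ∧
      ∀ a ∈ A, a ∉ E → |∑ i ∈ Ico n0 n, w i * Yn P h a i| ≤ N / h / Real.log N ^ B' := by
  classical
  obtain ⟨C, N₁, hR⟩ := dual_one B B'
  refine ⟨C, max N₁ 100, ?_⟩
  intro N P h A n0 n w hN hCP hPN hA hcard hh hh1 hn0 hn hw
  have hN1 : N₁ ≤ N := (le_max_left _ _).trans hN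
  have hN100 : 100 ≤ N := (le_max_right _ _).trans hN
  have hNp : 0 < N := by linarith
  have hL1 : 1 ≤ Real.log N := by
    rw [Real.le_log_iff_exp_le hNp]
    linarith [Real.exp_one_lt_d9]
  have hL0 : 0 < Real.log N := by linarith
  have hP1 : 1 ≤ P := (one_le_pow₀ hL1).trans hCP
  have hP0 : 0 < P := by linarith
  have hh0 : 0 < h := lt_of_lt_of_le (by positivity) hh
  obtain ⟨I, hI1, hI2, hI3⟩ := split3 N h n0 n hNp hh0 hn0 hn
  have hE : ∀ j, ∃ E ⊆ A, (E.card : ℝ) ≤ 1 / (3 * Real.log N ^ B') * A.card ∧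
      ∀ a ∈ A, a ∉ E → |∑ i ∈ I j, w i * (Th1 a (i * h) h / (a * h) - 1)| ≤ N / h / (3 * Real.log N ^ B') := by
    intro j
    obtain ⟨N', h1, h2, h3⟩ := hI3 j
    exact hR N N' P h A (I j) w hN1 h1 h2 hCP hPN hA hcard hh hh1 h3 (fun i hi => hw i (hI1 j hi))
  choose E hE1 hE2 hE3 using hE
  refine ⟨(univ : Finset (Fin 3)).biUnion E, ?_, ?_, ?_⟩
  · intro a ha
    rw [mem_biUnion] at ha
    obtain ⟨j, _, hj⟩ := ha
    exact hE1 j hj
  · have h1 : (((univ : Finset (Fin 3)).biUnion E).card : ℝ) ≤ ∑ j, ((E j).card : ℝ) := by exact_mod_cast card_biUnion_le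
    refine h1.trans ((sum_le_sum fun j _ => hE2 j).trans (le_of_eq ?_))
    rw [sum_const, card_univ, Fintype.card_fin, nsmul_eq_mul]
    push_cast
    field_simp
  · intro a ha haE
    have haE' : ∀ j, a ∉ E j := fun j hj => haE (mem_biUnion.2 ⟨j, mem_univ _, hj⟩)
    have haP := hA a ha
    have hap : (0 : ℝ) < a := by linarith
    have e1 : ∀ i, Yn P h a i = (a / P) * (Th1 a (i * h) h / (a * h) - 1) := by
      intro i
      unfold Yn St
      have h0 : (0 : ℝ) ≤ a * (i * h) := by positivity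
      rw [theta_sub (a * (i * h)) (a * ((i + 1) * h)) h0 (by
        apply mul_le_mul_of_nonneg_left _ hap.le
        linarith [add_mul (i : ℝ) 1 h])]
      have e2 : (a : ℝ) * ((i + 1) * h) = a * (i * h + h) := by ring
      rw [e2]
      unfold Th1
      field_simp
    have e2 : ∑ i ∈ Ico n0 n, w i * Yn P h a i = (a / P) * ∑ j, ∑ i ∈ I j, w i * (Th1 a (i * h) h / (a * h) - 1) := by
      rw [← hI2 (fun i => w i * (Th1 a (i * h) h / (a * h) - 1)), mul_sum]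
      apply sum_congr rfl
      intro i _
      rw [e1 i]; ring
    rw [e2, abs_mul, abs_of_pos (by positivity)]
    have h1 : |∑ j, ∑ i ∈ I j, w i * (Th1 a (i * h) h / (a * h) - 1)| ≤ N / h / Real.log N ^ B' := by
      refine (abs_sum_le_sum_abs _ _).trans ((sum_le_sum fun j _ => hE3 j a ha (haE' j)).trans (le_of_eq ?_))
      rw [sum_const, card_univ, Fintype.card_fin, nsmul_eq_mul]
      push_cast
      field_simp
    have h2 : (a : ℝ) / P ≤ 1 := by rw [div_le_one hP0]; exact haP.2.2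
    calc (a : ℝ) / P * |∑ j, ∑ i ∈ I j, w i * (Th1 a (i * h) h / (a * h) - 1)| ≤ 1 * (N / h / Real.log N ^ B') :=
          mul_le_mul h2 h1 (abs_nonneg _) zero_le_one
      _ = _ := one_mul _

/-- second moment, all cells -/
lemma mom_cells (B : ℕ) : ∃ K : ℝ, 0 < K ∧ ∃ N₀ : ℝ, ∀ (N P h lam : ℝ) (a n0 n : ℕ), N₀ ≤ N →
    P ≤ N ^ B → P / 2 < a → (a : ℝ) ≤ P → 0 < lam → lam ≤ 1 → 32 ≤ lam * Real.log N →
    lam * Real.log N ≤ P * h → 0 < h → h ≤ 1 → N / 2 ≤ n0 * h → n * h ≤ 4 * N →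
    ∑ i ∈ Ico n0 n, Yn P h a i ^ 2 ≤ K / lam * (N / h) := by
  classical
  obtain ⟨K, hK, N₁, hR⟩ := mom_one B
  refine ⟨3 * K, by positivity, max N₁ 100, ?_⟩
  intro N P h lam a n0 n hN hPN haP haP2 hlam hlam1 hlam32 hlamP hh0 hh1 hn0 hn
  have hN1 : N₁ ≤ N := (le_max_left _ _).trans hN
  have hN100 : 100 ≤ N := (le_max_right _ _).trans hN
  have hNp : 0 < N := by linarith
  have hP0 : 0 < P := by
    by_contra hc
    push Not at hc
    have : P * h ≤ 0 := mul_nonpos_of_nonpos_of_nonneg hc hh0.le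
    linarith
  have hap : (0 : ℝ) < a := by linarith
  obtain ⟨I, hI1, hI2, hI3⟩ := split3 N h n0 n hNp hh0 hn0 hn
  have e1 : ∀ i, Yn P h a i = (a / P) * (Th1 a (i * h) h / (a * h) - 1) := by
    intro i
    unfold Yn St
    have h0 : (0 : ℝ) ≤ a * (i * h) := by positivity
    rw [theta_sub (a * (i * h)) (a * ((i + 1) * h)) h0 (by
      apply mul_le_mul_of_nonneg_left _ hap.le
      linarith [add_mul (i : ℝ) 1 h])]
    have e2 : (a : ℝ) * ((i + 1) * h) = a * (i * h + h) := by ring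
    rw [e2]
    unfold Th1
    field_simp
  have h1 : ∑ i ∈ Ico n0 n, Yn P h a i ^ 2 ≤ ∑ i ∈ Ico n0 n, (Th1 a (i * h) h / (a * h) - 1) ^ 2 := by
    apply sum_le_sum
    intro i _
    rw [e1 i, mul_pow]
    have h2 : (a : ℝ) / P ≤ 1 := by rw [div_le_one hP0]; exact haP2
    exact mul_le_of_le_one_left (sq_nonneg _) (pow_le_one₀ (by positivity) h2)
  refine h1.trans ?_
  rw [hI2]
  have h2 : ∀ j ∈ (univ : Finset (Fin 3)), ∑ i ∈ I j, (Th1 a (i * h) h / (a * h) - 1) ^ 2 ≤ K / lam * (N / h) := by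
    intro j _
    obtain ⟨N', h1, h2, h3⟩ := hI3 j
    exact hR N N' P h lam a (I j) hN1 h1 h2 hPN haP haP2 hlam hlam1 hlam32 hlamP hh0 hh1 h3
  refine (sum_le_sum h2).trans (le_of_eq ?_)
  rw [sum_const, card_univ, Fintype.card_fin, nsmul_eq_mul]
  push_cast
  ring

end Pool.Agent.H15.JD
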