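import Pool.Agent.H15.JD.Aw

/-! The number of primes in windows of logarithmic length, averaged over typical tuples of dilations: main theorem. -/

set_option autoImplicit false

namespace Pool.Agent.H15.JD
open Finset Filter Pool.Agent.H15.FD

/-- **Sums over typical tuples of dilations.** -/
theorem avg (B : ℕ) : ∃ (C : ℕ) (K N₀ : ℝ), 0 < K ∧ ∀ (N P δ lam : ℝ) (A : Finset ℕ) (k : ℕ), N₀ ≤ N →
    Real.log N ^ C ≤ P → P ≤ N ^ B → (∀ a ∈ A, a.Prime ∧ P / 2 < a ∧ (a : ℝ) ≤ P) → P / Real.log N ^ B ≤ A.card →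
    0 < δ → δ ≤ 1 → lam ≤ 1 → 2048 ≤ δ * lam * Real.log N → 1 ≤ k → (k : ℝ) ≤ Real.log N ^ B →
    ∃ E ⊆ Fintype.piFinset (fun _ : Fin k => A), (E.card : ℝ) ≤ (A.card : ℝ) ^ k / Real.log N ^ B ∧
      ∀ a ∈ Fintype.piFinset (fun _ : Fin k => A), a ∉ E → ∀ (η : ℝ) (X : Finset ℝ), lam * Real.log N / P ≤ η →
        (∀ x ∈ X, N ≤ x ∧ x ≤ 2 * N) → (∀ x ∈ X, ∀ x' ∈ X, x ≠ x' → η ≤ |x - x'|) →
        (∀ x ∈ X, ∃ ℓ : ℝ, η ≤ ℓ ∧ ℓ ≤ N ∧ δ * (ℓ * ∑ j, (a j : ℝ)) < |FF a (x + ℓ) - FF a x - ℓ * ∑ j, (a j : ℝ)|) →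
        (X.card : ℝ) ≤ (K / (δ ^ 4 * lam * k) + 1 / Real.log N ^ B) * (N / η) := by
  classical
  obtain ⟨B', hB'⟩ : ∃ B' : ℕ, B' = 3 * B + 20 := ⟨_, rfl⟩
  obtain ⟨C, N₁, hD⟩ := dual_cells B B'
  obtain ⟨K, hK, N₂, hM⟩ := mom_cells B
  obtain ⟨b, hb⟩ : ∃ b : ℝ, b = (B : ℝ) + 2 := ⟨_, rfl⟩
  have hb2 : 2 ≤ b := by rw [hb]; have : (0 : ℝ) ≤ B := Nat.cast_nonneg B; linarith
  have hev : ∀ᶠ N : ℝ in atTop, (N₁ ≤ N ∧ N₂ ≤ N) ∧ 20000 * b + 100 ≤ Real.log N ∧ 100 ≤ N :=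
    ((eventually_ge_atTop _).and (eventually_ge_atTop _)).and
      ((Real.tendsto_log_atTop.eventually_ge_atTop _).and (eventually_ge_atTop _))
  obtain ⟨N₀, hN₀⟩ := eventually_atTop.1 hev
  refine ⟨C + 1, 524288 * K, N₀, by positivity, ?_⟩
  intro N P δ lam A k hN hCP hPN hA hcard hδ0 hδ1 hlam1 hlam hk hkL
  obtain ⟨⟨hE1, hE2⟩, hE3, hE4⟩ := hN₀ N hN
  have hDD := hD N P
  have hMM := hM N P
  obtain ⟨L, hL⟩ : ∃ L : ℝ, L = Real.log N := ⟨_, rfl⟩
  rw [← hL] at hE3 hCP hcard hkL hlam hDD hMM ⊢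
  have hL100 : 100 ≤ L := by linarith
  have hL0 : 0 < L := by linarith
  have hL1 : 1 ≤ L := by linarith
  have hNp : 0 < N := by linarith
  have hLB : 1 ≤ L ^ B := one_le_pow₀ hL1
  have hlam0 : 0 < lam := by
    by_contra h
    push Not at h
    have : δ * lam * L ≤ 0 := mul_nonpos_of_nonpos_of_nonneg (mul_nonpos_of_nonneg_of_nonpos hδ0.le h) hL0.le
    linarith
  have hCP' : L ^ C ≤ P := (pow_le_pow_right₀ hL1 (by omega)).trans hCP
  have hPL : L ≤ P := by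
    refine le_trans ?_ hCP
    calc L = L ^ 1 := (pow_one L).symm
      _ ≤ L ^ (C + 1) := pow_le_pow_right₀ hL1 (by omega)
  have hP1 : 1 ≤ P := hL1.trans hPL
  have hP0 : 0 < P := by linarith
  have hk0 : (1 : ℝ) ≤ k := by exact_mod_cast hk
  -- cells
  obtain ⟨h, hh⟩ : ∃ h : ℝ, h = δ * lam * L / 64 / P := ⟨_, rfl⟩
  have hPh : P * h = δ * lam * L / 64 := by rw [hh]; field_simp
  have hh0 : 0 < h := by rw [hh]; positivity
  have hδlam : δ * lam ≤ 1 := mul_le_one₀ hδ1 hlam0.le hlam1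
  have hh1 : h ≤ 1 := by
    rw [hh, div_le_one hP0]
    have : δ * lam * L ≤ 1 * L := mul_le_mul_of_nonneg_right hδlam hL0.le
    linarith
  have hPh1 : 32 ≤ P * h := by rw [hPh]; linarith
  have hPh0 : 0 < P * h := by linarith
  have hPinv : 1 / P ≤ h := by rw [div_le_iff₀ hP0]; linarith
  obtain ⟨n0, hn0⟩ : ∃ n0 : ℕ, n0 = ⌈N / (2 * h)⌉₊ := ⟨_, rfl⟩
  obtain ⟨n, hn⟩ : ∃ n : ℕ, n = ⌊4 * N / h⌋₊ := ⟨_, rfl⟩
  have hn1 : (n : ℝ) * h ≤ 4 * N := by
    rw [hn, ← le_div_iff₀ hh0]; exact Nat.floor_le (by positivity)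
  have hn2 : 4 * N - h < n * h := by
    have := Nat.lt_floor_add_one (4 * N / h)
    rw [← hn, div_lt_iff₀ hh0] at this
    linarith
  have hn01 : N / 2 ≤ n0 * h := by
    have h1 := Nat.le_ceil (N / (2 * h))
    rw [← hn0, div_le_iff₀ (by positivity)] at h1
    linarith
  have hn02 : n0 * h ≤ N / 2 + h := by
    have h1 := Nat.ceil_lt_add_one (a := N / (2 * h)) (by positivity)
    rw [← hn0] at h1
    have h2 := mul_lt_mul_of_pos_right h1 hh0
    have h3 : (N / (2 * h) + 1) * h = N / 2 + h := by field_simp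
    linarith
  obtain ⟨R, hR⟩ : ∃ R : ℝ, R = N / h := ⟨_, rfl⟩
  have hR0 : 0 < R := by rw [hR]; positivity
  have hlog : Real.log (4 * (P * N)) ≤ b * L := by
    have h1 : 4 * (P * N) ≤ N ^ (B + 2) := by
      have h2 : 4 * (P * N) ≤ N ^ B * (4 * N) := by
        have := mul_le_mul_of_nonneg_right hPN hNp.le
        linarith
      refine h2.trans ?_
      rw [pow_add]
      refine mul_le_mul_of_nonneg_left ?_ (by positivity)
      nlinarith only [hE4]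
    refine (Real.log_le_log (by positivity) h1).trans (le_of_eq ?_)
    rw [Real.log_pow, ← hL, hb]
    push_cast
    ring
  -- the parameters of the induction
  have hV : ∀ a ∈ A, ∀ i ∈ Ico n0 n, |Yn P h a i| ≤ 2 * (b * L) := by
    intro a ha i hi
    rw [mem_Ico] at hi
    have h1 := Yn_bound P h N b L a i n hP1 hh0 (by linarith) (hA a ha).2.2 hi.2 hn1 (by linarith) hlog
    rw [abs_le]
    constructor
    · have : 0 ≤ 2 * (b * L) - 1 := by nlinarith only [hb2, hL100]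
      linarith [h1.1]
    · exact h1.2
  obtain ⟨K₀, hK₀⟩ : ∃ K₀ : ℝ, K₀ = K / (δ * lam / 64) * R := ⟨_, rfl⟩
  have hmom : ∀ a ∈ A, ∑ i ∈ Ico n0 n, Yn P h a i ^ 2 ≤ K₀ := by
    intro a ha
    rw [hK₀, hR]
    apply hMM h (δ * lam / 64) a n0 n hE2 hPN (hA a ha).2.1 (hA a ha).2.2 (by positivity) (by linarith) (by linarith) _ hh0 hh1 hn01 hn1
    rw [hPh]; apply le_of_eq; ring
  obtain ⟨τ, hτ⟩ : ∃ τ : ℝ, τ = R / L ^ B' := ⟨_, rfl⟩
  have hdual : ∀ w : ℕ → ℝ, (∀ i ∈ Ico n0 n, |w i| ≤ L ^ B') → ∃ E ⊆ A, (E.card : ℝ) ≤ 1 / L ^ B' * A.card ∧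
      ∀ a ∈ A, a ∉ E → |∑ i ∈ Ico n0 n, w i * Yn P h a i| ≤ τ := by
    intro w hw
    obtain ⟨E, hE, hEc, hEb⟩ := hDD h A n0 n w hE1 hCP' hPN hA hcard hPinv hh1 hn01 hn1 hw
    refine ⟨E, hE, hEc, ?_⟩
    rw [hτ, hR]
    exact hEb
  have hkV : 0 + (k : ℝ) * (2 * (b * L)) ≤ L ^ B' := by
    have h1 : 2 * (b * L) ≤ L ^ 2 := by nlinarith only [hE3, hL100]
    have h2 : (k : ℝ) * (2 * (b * L)) ≤ L ^ B * L ^ 2 := mul_le_mul hkL h1 (by positivity) (by positivity)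
    rw [← pow_add] at h2
    rw [zero_add]
    exact h2.trans (pow_le_pow_right₀ hL1 (by omega))
  obtain ⟨E, hE, hEc, hEb⟩ := indv (Ico n0 n) (2 * (b * L)) (L ^ B') (1 / L ^ B') K₀ τ (by positivity) k (fun _ => A)
    (fun _ a i => Yn P h a i) (fun _ a ha i hi => hV a ha i hi) (fun _ a ha => hmom a ha) (fun _ w hw => hdual w hw)
    0 (fun _ => 0) hkV (by positivity) (fun i _ => by simp)
  refine ⟨E, hE, ?_, ?_⟩
  · refine hEc.trans ?_
    rw [prod_const, card_univ, Fintype.card_fin]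
    have h1 : (k : ℝ) * (1 / L ^ B') ≤ 1 / L ^ B := by
      rw [mul_one_div, div_le_div_iff₀ (by positivity) (by positivity), one_mul]
      have h2 : (k : ℝ) * L ^ B ≤ L ^ B * L ^ B := mul_le_mul_of_nonneg_right hkL (by positivity)
      rw [← pow_add] at h2
      exact h2.trans (pow_le_pow_right₀ hL1 (by omega))
    have h2 := mul_le_mul_of_nonneg_right h1 (by positivity : 0 ≤ (A.card : ℝ) ^ k)
    linarith [show 1 / L ^ B * (A.card : ℝ) ^ k = (A.card : ℝ) ^ k / L ^ B by ring]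
  · intro a ha haE η X hη hX hsep hbad
    have h1 := hEb a ha haE
    simp only [zero_add, ne_eq, OfNat.ofNat_ne_zero, not_false_eq_true, zero_pow, sum_const_zero] at h1
    have haA := fun j => Fintype.mem_piFinset.1 ha j
    -- large values
    obtain ⟨U, hU⟩ : ∃ U : ℕ → ℝ, U = fun i => ∑ j, Yn P h (a j) i := ⟨_, rfl⟩
    have h2 : ∑ i ∈ (Ico n0 n).filter (fun i => δ / 16 * k < |∑ j, Yn P h (a j) i|), |∑ j, Yn P h (a j) i| ≤
        16 / δ * (K₀ + 2 * τ) := by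
      have h3 : ∀ i ∈ (Ico n0 n).filter (fun i => δ / 16 * k < |∑ j, Yn P h (a j) i|),
          |∑ j, Yn P h (a j) i| ≤ 16 / (δ * k) * (∑ j, Yn P h (a j) i) ^ 2 := by
        intro i hi
        have h4 := (mem_filter.1 hi).2
        have h5 : 0 < δ / 16 * k := by positivity
        rw [div_mul_eq_mul_div, le_div_iff₀ (by positivity), ← sq_abs (∑ j, Yn P h (a j) i)]
        nlinarith only [h4, h5]
      refine (sum_le_sum h3).trans ?_
      rw [← mul_sum]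
      have h4 : ∑ i ∈ (Ico n0 n).filter (fun i => δ / 16 * k < |∑ j, Yn P h (a j) i|), (∑ j, Yn P h (a j) i) ^ 2 ≤
          k * (K₀ + 2 * τ) :=
        (sum_le_sum_of_subset_of_nonneg (filter_subset _ _) (fun _ _ _ => sq_nonneg _)).trans h1
      calc 16 / (δ * k) * ∑ i ∈ (Ico n0 n).filter (fun i => δ / 16 * k < |∑ j, Yn P h (a j) i|), (∑ j, Yn P h (a j) i) ^ 2 ≤
            16 / (δ * k) * (k * (K₀ + 2 * τ)) := mul_le_mul_of_nonneg_left h4 (by positivity)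
        _ = _ := by field_simp
    have hη0 : 0 < η := lt_of_lt_of_le (by positivity) hη
    have h64 : 64 * h ≤ δ * η := by
      have h3 := mul_le_mul_of_nonneg_left hη hδ0.le
      have e : 64 * h = δ * (lam * L / P) := by rw [hh]; field_simp
      rw [e]; exact h3
    have h3 := tuple_good hk a N P h δ η (16 / δ * (K₀ + 2 * τ)) hP0 hh0 hδ0 hδ1 (fun j => (hA _ (haA j)).2.1.le) h64 X hX hsep
      n0 n (by linarith) (by linarith) hbad h2
    refine h3.trans ?_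
    have hhR : h * R = N := by rw [hR]; field_simp
    have e1 : 512 * h * (16 / δ * (K₀ + 2 * τ)) / (δ ^ 2 * k * η) =
        (524288 * K / (δ ^ 4 * lam * k)) * (N / η) + (16384 / (δ ^ 3 * k) / L ^ B') * (N / η) := by
      rw [hK₀, hτ, ← hhR]
      field_simp
      ring
    rw [e1, add_mul]
    have h4 : 16384 / (δ ^ 3 * k) / L ^ B' ≤ 1 / L ^ B := by
      have hδL : 1 / L ≤ δ := by
        rw [div_le_iff₀ hL0]
        have : δ * lam * L ≤ δ * 1 * L := by gcongr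
        linarith
      have h5 : (1 / L) ^ 3 ≤ δ ^ 3 := pow_le_pow_left₀ (by positivity) hδL 3
      have h6 : 1 ≤ δ ^ 3 * L ^ 3 := by
        have h7 := mul_le_mul_of_nonneg_right h5 (by positivity : 0 ≤ L ^ 3)
        rw [← mul_pow, one_div_mul_cancel hL0.ne', one_pow] at h7
        exact h7
      rw [div_div, div_le_div_iff₀ (by positivity) (by positivity), one_mul]
      have h8 : 16384 ≤ L ^ 3 := by
        have : (100 : ℝ) ^ 3 ≤ L ^ 3 := pow_le_pow_left₀ (by norm_num) hL100 3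
        linarith
      have h9 : 1 ≤ δ ^ 3 * k * L ^ 3 := by
        calc (1 : ℝ) ≤ δ ^ 3 * L ^ 3 := h6
          _ ≤ δ ^ 3 * L ^ 3 * k := le_mul_of_one_le_right (by positivity) hk0
          _ = _ := by ring
      have h10 : L ^ B' = L ^ 3 * (L ^ 3 * (L ^ B * L ^ (B' - B - 6))) := by
        rw [← pow_add, ← pow_add, ← pow_add]; congr 1; omega
      have h11 : 1 ≤ L ^ (B' - B - 6) := one_le_pow₀ hL1
      rw [h10]
      calc 16384 * L ^ B ≤ L ^ 3 * L ^ B := mul_le_mul_of_nonneg_right h8 (by positivity)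
        _ = 1 * (L ^ 3 * L ^ B) := (one_mul _).symm
        _ ≤ (δ ^ 3 * k * L ^ 3) * (L ^ 3 * L ^ B) := mul_le_mul_of_nonneg_right h9 (by positivity)
        _ ≤ (δ ^ 3 * k * L ^ 3) * (L ^ 3 * (L ^ B * L ^ (B' - B - 6))) := by
          apply mul_le_mul_of_nonneg_left _ (by positivity)
          apply mul_le_mul_of_nonneg_left _ (by positivity)
          exact le_mul_of_one_le_right (by positivity) h11
        _ = _ := by ring
    have h5 := mul_le_mul_of_nonneg_right h4 (by positivity : 0 ≤ N / η)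
    linarith

end Pool.Agent.H15.JD
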