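import Pool.Agent.H15.JD.Aw

/-! Higher moments of the number of primes in windows of logarithmic length, averaged over typical tuples of dilations. -/

set_option autoImplicit false

namespace Pool.Agent.H15.JD
open Finset Filter Pool.Agent.H15.FD

lemma mul_pow_le_add (a b : ℝ) (ha : 0 ≤ a) (hb : 0 ≤ b) (m n : ℕ) (hmn : m ≤ n) : a ^ m * b ^ (n - m) ≤ a ^ n + b ^ n := by
  rcases le_total a b with h | h
  · have h1 : a ^ m * b ^ (n - m) ≤ b ^ m * b ^ (n - m) := mul_le_mul_of_nonneg_right (pow_le_pow_left₀ ha h m) (by positivity)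
    rw [← pow_add, Nat.add_sub_cancel' hmn] at h1
    have : 0 ≤ a ^ n := by positivity
    linarith
  · have h1 : a ^ m * b ^ (n - m) ≤ a ^ m * a ^ (n - m) := mul_le_mul_of_nonneg_left (pow_le_pow_left₀ hb h _) (by positivity)
    rw [← pow_add, Nat.add_sub_cancel' hmn] at h1
    have : 0 ≤ b ^ n := by positivity
    linarith

/-- Taylor expansion of an even power -/
lemma taylor (M : ℕ) (hM : 1 ≤ M) (u y : ℝ) :
    (u + y) ^ (2 * M) ≤ u ^ (2 * M) + 2 * M * (u ^ (2 * M - 1) * y) + 2 ^ (2 * M) * (u ^ (2 * M - 2) * y ^ 2 + y ^ (2 * M)) := by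
  obtain ⟨n, hn⟩ : ∃ n : ℕ, 2 * M = n + 2 := ⟨2 * M - 2, by omega⟩
  have e1 : 2 * M - 1 = n + 1 := by omega
  have e2 : 2 * M - 2 = n := by omega
  rw [e1, e2, hn]
  have heven : Even n := ⟨M - 1, by omega⟩
  rw [add_pow, sum_range_succ, sum_range_succ]
  have h1 : ∀ m ∈ range (n + 1), u ^ m * y ^ (n + 2 - m) * ((n + 2).choose m : ℝ) ≤
      (u ^ n + y ^ n) * y ^ 2 * ((n + 2).choose m : ℝ) := by
    intro m hm
    rw [mem_range] at hm
    apply mul_le_mul_of_nonneg_right _ (Nat.cast_nonneg _)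
    have e3 : y ^ (n + 2 - m) = y ^ (n - m) * y ^ 2 := by rw [← pow_add]; congr 1; omega
    rw [e3, ← mul_assoc]
    apply mul_le_mul_of_nonneg_right _ (sq_nonneg _)
    have h2 := mul_pow_le_add |u| |y| (abs_nonneg _) (abs_nonneg _) m n (by omega)
    rw [heven.pow_abs, heven.pow_abs] at h2
    refine le_trans ?_ h2
    rw [← abs_pow, ← abs_pow, ← abs_mul]
    exact le_abs_self _
  have h2 := sum_le_sum h1
  have h3 : ∑ m ∈ range (n + 1), (u ^ n + y ^ n) * y ^ 2 * ((n + 2).choose m : ℝ) ≤ 2 ^ (n + 2) * (u ^ n * y ^ 2 + y ^ (n + 2)) := by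
    rw [← mul_sum]
    have h4 : ∑ m ∈ range (n + 1), ((n + 2).choose m : ℝ) ≤ 2 ^ (n + 2) := by
      have h5 : ∑ m ∈ range (n + 1), ((n + 2).choose m : ℝ) ≤ ∑ m ∈ range (n + 2 + 1), ((n + 2).choose m : ℝ) :=
        sum_le_sum_of_subset_of_nonneg (range_subset_range.2 (by omega)) (fun _ _ _ => Nat.cast_nonneg _)
      refine h5.trans (le_of_eq ?_)
      have h6 := Nat.sum_range_choose (n + 2)
      exact_mod_cast h6
    have h5 : 0 ≤ (u ^ n + y ^ n) * y ^ 2 := mul_nonneg (add_nonneg (heven.pow_nonneg _) (heven.pow_nonneg _)) (sq_nonneg _)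
    calc (u ^ n + y ^ n) * y ^ 2 * ∑ m ∈ range (n + 1), ((n + 2).choose m : ℝ) ≤ (u ^ n + y ^ n) * y ^ 2 * 2 ^ (n + 2) :=
          mul_le_mul_of_nonneg_left h4 h5
      _ = _ := by ring
  have e4 : ((n + 2).choose (n + 1) : ℝ) = (n + 2 : ℕ) := by
    rw [Nat.choose_succ_self_right]
  have e5 : ((n + 2).choose (n + 2) : ℝ) = 1 := by rw [Nat.choose_self]; norm_num
  rw [e4, e5]
  have e6 : n + 2 - (n + 1) = 1 := by omega
  have e7 : n + 2 - (n + 2) = 0 := by omega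
  rw [e6, e7]
  have e8 : 2 * (M : ℝ) = (n + 2 : ℕ) := by exact_mod_cast hn
  rw [e8]
  linarith [show u ^ (n + 1) * y ^ 1 * ((n + 2 : ℕ) : ℝ) = ((n + 2 : ℕ) : ℝ) * (u ^ (n + 1) * y) by ring,
    show u ^ (n + 2) * y ^ 0 * 1 = u ^ (n + 2) by ring]

/-- Young's inequality -/
lemma young (M : ℕ) (hM : 1 ≤ M) (u y k : ℝ) (hk : 0 < k) :
    u ^ (2 * M - 2) * y ^ 2 ≤ 1 / k * u ^ (2 * M) + k ^ (M - 1) * y ^ (2 * M) := by
  obtain ⟨n, hn⟩ : ∃ n : ℕ, M = n + 1 := ⟨M - 1, by omega⟩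
  subst hn
  have e1 : 2 * (n + 1) - 2 = 2 * n := by omega
  rw [e1, pow_mul, pow_mul, pow_mul, Nat.add_sub_cancel]
  obtain ⟨a, ha⟩ : ∃ a : ℝ, a = u ^ 2 := ⟨_, rfl⟩
  obtain ⟨b, hb⟩ : ∃ b : ℝ, b = y ^ 2 := ⟨_, rfl⟩
  have ha0 : 0 ≤ a := by rw [ha]; positivity
  have hb0 : 0 ≤ b := by rw [hb]; positivity
  rw [← ha, ← hb]
  rcases le_total (k * b) a with h | h
  · have h1 : b ≤ 1 / k * a := by rw [div_mul_eq_mul_div, one_mul, le_div_iff₀ hk]; linarith
    calc a ^ n * b ≤ a ^ n * (1 / k * a) := mul_le_mul_of_nonneg_left h1 (by positivity)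
      _ = 1 / k * a ^ (n + 1) := by rw [pow_succ]; ring
      _ ≤ _ := le_add_of_nonneg_right (by positivity)
  · calc a ^ n * b ≤ (k * b) ^ n * b := mul_le_mul_of_nonneg_right (pow_le_pow_left₀ ha0 h n) hb0
      _ = k ^ n * b ^ (n + 1) := by rw [mul_pow, pow_succ]; ring
      _ ≤ _ := le_add_of_nonneg_left (by positivity)

/-- even moments of sums: induction over the number of dilations -/
lemma indw (I : Finset ℕ) (V W ε Q τ κ : ℝ) (M : ℕ) (hM : 1 ≤ M) (hε : 0 ≤ ε) (hκ : 1 ≤ κ) (hQ : 0 ≤ Q) (hτ : 0 ≤ τ) :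
    ∀ (r : ℕ) (A : Fin r → Finset ℕ)
    (Y : Fin r → ℕ → ℕ → ℝ), (∀ j, ∀ a ∈ A j, ∀ i ∈ I, |Y j a i| ≤ V) → (∀ j, ∀ a ∈ A j, ∑ i ∈ I, Y j a i ^ (2 * M) ≤ Q) →
    (∀ j, ∀ w : ℕ → ℝ, (∀ i ∈ I, |w i| ≤ W) → ∃ E ⊆ A j, (E.card : ℝ) ≤ ε * (A j).card ∧
      ∀ a ∈ A j, a ∉ E → |∑ i ∈ I, w i * Y j a i| ≤ τ) →
    ∀ (W0 : ℝ) (u : ℕ → ℝ), 0 ≤ W0 → (W0 + r * V) ^ (2 * M - 1) ≤ W → 0 ≤ V → (∀ i ∈ I, |u i| ≤ W0) →
    ∃ E ⊆ Fintype.piFinset A, (E.card : ℝ) ≤ r * ε * ∏ j, ((A j).card : ℝ) ∧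
      ∀ a ∈ Fintype.piFinset A, a ∉ E → ∑ i ∈ I, (u i + ∑ j, Y j (a j) i) ^ (2 * M) ≤
        (1 + 2 ^ (2 * M) / κ) ^ r * (∑ i ∈ I, u i ^ (2 * M) + r * (2 * M * τ + 2 ^ (2 * M) * (2 * κ ^ (M - 1) * Q))) := by
  classical
  intro r
  induction r with
  | zero =>
    intro A Y _ _ _ W0 u _ _ _ _
    refine ⟨∅, empty_subset _, by simp, ?_⟩
    intro a _ _
    simp
  | succ r ih =>
    intro A Y hV hK hE W0 u hW0 hW hV0 hu
    have hWW : W0 ^ (2 * M - 1) ≤ W := by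
      refine le_trans ?_ hW
      apply pow_le_pow_left₀ hW0
      have : 0 ≤ ((r + 1 : ℕ) : ℝ) * V := by positivity
      linarith
    obtain ⟨E0, hE0, hE0c, hE0b⟩ := hE 0 (fun i => u i ^ (2 * M - 1)) (fun i hi => by
      rw [abs_pow]
      exact (pow_le_pow_left₀ (abs_nonneg _) (hu i hi) _).trans hWW)
    have hih : ∀ a0 ∈ A 0, ∃ E ⊆ Fintype.piFinset (Fin.tail A), (E.card : ℝ) ≤ r * ε * ∏ j, ((Fin.tail A j).card : ℝ) ∧
        ∀ a ∈ Fintype.piFinset (Fin.tail A), a ∉ E →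
          ∑ i ∈ I, ((u i + Y 0 a0 i) + ∑ j, Fin.tail Y j (a j) i) ^ (2 * M) ≤
            (1 + 2 ^ (2 * M) / κ) ^ r * (∑ i ∈ I, (u i + Y 0 a0 i) ^ (2 * M) + r * (2 * M * τ + 2 ^ (2 * M) * (2 * κ ^ (M - 1) * Q))) := by
      intro a0 ha0
      apply ih (Fin.tail A) (Fin.tail Y) (fun j a ha i hi => hV j.succ a ha i hi) (fun j a ha => hK j.succ a ha)
        (fun j => hE j.succ) (W0 + V) (fun i => u i + Y 0 a0 i)
      · positivity
      · refine le_trans (le_of_eq ?_) hW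
        push_cast
        congr 1
        ring
      · exact hV0
      · intro i hi
        exact (abs_add_le _ _).trans (add_le_add (hu i hi) (hV 0 a0 ha0 i hi))
    choose! G hG1 hG2 hG3 using hih
    obtain ⟨E, hEd⟩ : ∃ E : Finset (Fin (r + 1) → ℕ), E = (Fintype.piFinset A).filter (fun a : Fin (r + 1) → ℕ => a 0 ∈ E0 ∨ (Fin.tail a : Fin r → ℕ) ∈ G (a 0)) := ⟨_, rfl⟩
    refine ⟨E, by rw [hEd]; exact filter_subset _ _, ?_, ?_⟩
    · obtain ⟨Q', hQ'⟩ : ∃ Q' : ℝ, Q' = ∏ j, ((Fin.tail A j).card : ℝ) := ⟨_, rfl⟩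
      have hQ0 : 0 ≤ Q' := by rw [hQ']; exact prod_nonneg fun _ _ => Nat.cast_nonneg _
      have hprod : ∏ j, ((A j).card : ℝ) = (A 0).card * Q' := by
        rw [Fin.prod_univ_succ, hQ']; rfl
      have hsub : E ⊆ (A 0).biUnion (fun a0 => (if a0 ∈ E0 then Fintype.piFinset (Fin.tail A) else G a0).image (fun b => (Fin.cons a0 b : Fin (r + 1) → ℕ))) := by
        intro a ha
        rw [hEd, mem_filter, Fin.mem_piFinset_iff_zero_tail] at ha
        rw [mem_biUnion]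
        refine ⟨a 0, ha.1.1, ?_⟩
        rw [mem_image]
        refine ⟨Fin.tail a, ?_, Fin.cons_self_tail a⟩
        by_cases h0 : a 0 ∈ E0
        · rw [if_pos h0]; exact ha.1.2
        · rw [if_neg h0]
          exact ha.2.resolve_left h0
      have h1 := (card_le_card hsub).trans card_biUnion_le
      have h2 : (E.card : ℝ) ≤ ∑ a0 ∈ A 0, ((if a0 ∈ E0 then Q' else 0) + r * ε * Q') := by
        refine ((Nat.cast_le (α := ℝ)).2 h1).trans ?_
        push_cast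
        apply sum_le_sum
        intro a0 ha0
        have h3 : (((if a0 ∈ E0 then Fintype.piFinset (Fin.tail A) else G a0).image (fun b => (Fin.cons a0 b : Fin (r + 1) → ℕ))).card : ℝ) ≤
            ((if a0 ∈ E0 then Fintype.piFinset (Fin.tail A) else G a0).card : ℝ) := by exact_mod_cast card_image_le
        refine h3.trans ?_
        by_cases h0 : a0 ∈ E0
        · rw [if_pos h0, if_pos h0, Fintype.card_piFinset]
          push_cast
          rw [← hQ']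
          have : 0 ≤ (r : ℝ) * ε * Q' := by positivity
          linarith
        · rw [if_neg h0, if_neg h0, zero_add]
          have := hG2 a0 ha0
          rw [← hQ'] at this
          exact this
      refine h2.trans ?_
      rw [sum_add_distrib, ← sum_filter, sum_const, sum_const, nsmul_eq_mul, nsmul_eq_mul, hprod]
      have h3 : (A 0).filter (fun a0 => a0 ∈ E0) = E0 := by
        ext a; rw [mem_filter]; exact ⟨fun h => h.2, fun h => ⟨hE0 h, h⟩⟩
      rw [h3]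
      have h4 := mul_le_mul_of_nonneg_right hE0c hQ0
      push_cast
      linarith
    · intro a ha haE
      rw [hEd, mem_filter, not_and, not_or] at haE
      obtain ⟨h1, h2⟩ := haE ha
      rw [Fin.mem_piFinset_iff_zero_tail] at ha
      have h3 := hE0b (a 0) ha.1 h1
      have h4 := hG3 (a 0) ha.1 (Fin.tail a) ha.2 h2
      have h5 := hK 0 (a 0) ha.1
      have e1 : ∀ i, u i + ∑ j, Y j (a j) i = (u i + Y 0 (a 0) i) + ∑ j, Fin.tail Y j (Fin.tail a j) i := by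
        intro i
        rw [Fin.sum_univ_succ, add_assoc]
        rfl
      rw [sum_congr rfl (fun i _ => by rw [e1 i])]
      refine h4.trans ?_
      obtain ⟨c, hc⟩ : ∃ c : ℝ, c = 2 ^ (2 * M) := ⟨_, rfl⟩
      have hc0 : 0 < c := by rw [hc]; positivity
      rw [← hc]
      have hκ0 : 0 < κ := by linarith
      have hκM : 1 ≤ κ ^ (M - 1) := one_le_pow₀ hκ
      -- one step
      have h6 : ∑ i ∈ I, (u i + Y 0 (a 0) i) ^ (2 * M) ≤ (1 + c / κ) * ∑ i ∈ I, u i ^ (2 * M) + (2 * M * τ + c * (2 * κ ^ (M - 1) * Q)) := by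
        have h7 : ∀ i ∈ I, (u i + Y 0 (a 0) i) ^ (2 * M) ≤ (1 + c / κ) * u i ^ (2 * M) + 2 * M * (u i ^ (2 * M - 1) * Y 0 (a 0) i) +
            c * (2 * κ ^ (M - 1)) * Y 0 (a 0) i ^ (2 * M) := by
          intro i _
          have h8 := taylor M hM (u i) (Y 0 (a 0) i)
          have h9 := young M hM (u i) (Y 0 (a 0) i) κ hκ0
          rw [← hc] at h8
          have h10 : 0 ≤ Y 0 (a 0) i ^ (2 * M) := by rw [pow_mul]; positivity
          have h11 : Y 0 (a 0) i ^ (2 * M) ≤ κ ^ (M - 1) * Y 0 (a 0) i ^ (2 * M) := le_mul_of_one_le_left h10 hκM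
          have h12 := mul_le_mul_of_nonneg_left (add_le_add h9 h11) hc0.le
          refine h8.trans ?_
          have e3 : c * (1 / κ * u i ^ (2 * M) + κ ^ (M - 1) * Y 0 (a 0) i ^ (2 * M) + κ ^ (M - 1) * Y 0 (a 0) i ^ (2 * M)) =
              c / κ * u i ^ (2 * M) + c * (2 * κ ^ (M - 1)) * Y 0 (a 0) i ^ (2 * M) := by ring
          rw [e3] at h12
          linarith
        refine (sum_le_sum h7).trans ?_
        rw [sum_add_distrib, sum_add_distrib, ← mul_sum, ← mul_sum, ← mul_sum]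
        have h8 := (abs_le.1 h3).2
        have h9 : 2 * (M : ℝ) * ∑ i ∈ I, u i ^ (2 * M - 1) * Y 0 (a 0) i ≤ 2 * M * τ := mul_le_mul_of_nonneg_left h8 (by positivity)
        have h10 : c * (2 * κ ^ (M - 1)) * ∑ i ∈ I, Y 0 (a 0) i ^ (2 * M) ≤ c * (2 * κ ^ (M - 1)) * Q :=
          mul_le_mul_of_nonneg_left h5 (by positivity)
        linarith
      obtain ⟨D, hD⟩ : ∃ D : ℝ, D = 2 * M * τ + c * (2 * κ ^ (M - 1) * Q) := ⟨_, rfl⟩
      rw [← hD] at h6 ⊢
      have hD0 : 0 ≤ D := by rw [hD]; positivity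
      have hq : 1 ≤ 1 + c / κ := by
        have : 0 ≤ c / κ := by positivity
        linarith
      have h7 : ∑ i ∈ I, (u i + Y 0 (a 0) i) ^ (2 * M) + r * D ≤ (1 + c / κ) * (∑ i ∈ I, u i ^ (2 * M) + ((r + 1 : ℕ) : ℝ) * D) := by
        have h8 : ((r + 1 : ℕ) : ℝ) * D ≤ (1 + c / κ) * (((r + 1 : ℕ) : ℝ) * D) := le_mul_of_one_le_left (by positivity) hq
        push_cast at h8 ⊢
        linarith
      calc (1 + c / κ) ^ r * (∑ i ∈ I, (u i + Y 0 (a 0) i) ^ (2 * M) + r * D) ≤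
            (1 + c / κ) ^ r * ((1 + c / κ) * (∑ i ∈ I, u i ^ (2 * M) + ((r + 1 : ℕ) : ℝ) * D)) :=
            mul_le_mul_of_nonneg_left h7 (by positivity)
        _ = _ := by rw [pow_succ]; ring

end Pool.Agent.H15.JD
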