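import Pool.Agent.H15.JD.Ay

/-! Higher moments of the number of primes in windows of logarithmic length, averaged over typical tuples of dilations:
main theorem. -/

set_option autoImplicit false

namespace Pool.Agent.H15.JD
open Finset Filter Pool.Agent.H15.FD

lemma sub_one_pow (D : ℝ) (hD : 0 ≤ D) (M : ℕ) : (D - 1) ^ (2 * M) ≤ D ^ (2 * M) + 1 := by
  have heven : Even (2 * M) := ⟨M, by ring⟩
  rcases le_total 1 D with h | h
  · have h1 : (D - 1) ^ (2 * M) ≤ D ^ (2 * M) := pow_le_pow_left₀ (by linarith) (by linarith) _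
    linarith
  · have h1 : (D - 1) ^ (2 * M) = (1 - D) ^ (2 * M) := by rw [← heven.neg_pow]; congr 1; ring
    rw [h1]
    have h2 : (1 - D) ^ (2 * M) ≤ 1 := pow_le_one₀ (by linarith) (by linarith)
    have h3 : 0 ≤ D ^ (2 * M) := by positivity
    linarith

lemma alg_id (m : ℕ) (h δ k c R K lam η e s : ℝ) (hδ : 0 < δ) (hk : 0 < k) (hlam : 0 < lam) (hη : 0 < η) (hs : 0 < s) :
    512 * h * ((16 / (δ * k)) ^ (2 * m + 1) * (e * (k * (2 * ((m : ℝ) + 1) * (R / s) + c * (2 * k ^ m * (K / (δ * lam / 64) ^ (2 * m + 1) * R)))))) / (δ ^ 2 * k * η) =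
        ((512 * 16 ^ (2 * m + 1) * e) * c * 2 * K * 64 ^ (2 * m + 1) * lam / (δ ^ 4 * lam ^ 2 * k) ^ (m + 1)) * (h * R / η) +
        ((512 * 16 ^ (2 * m + 1) * e) * (2 * ((m : ℝ) + 1)) / (δ ^ (2 * (m + 1) + 1) * k ^ (2 * m + 1)) / s) * (h * R / η) := by
  have pw : ∀ x : ℝ, x ^ (2 * m + 1) = (x ^ m) ^ 2 * x := fun x => by ring
  have pw3 : ∀ x : ℝ, x ^ (2 * (m + 1) + 1) = (x ^ m) ^ 2 * x ^ 3 := fun x => by ring
  have pw2 : (δ ^ 4 * lam ^ 2 * k) ^ (m + 1) = (δ ^ m) ^ 4 * (lam ^ m) ^ 2 * k ^ m * (δ ^ 4 * lam ^ 2 * k) := by ring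
  rw [div_pow, div_pow, mul_pow δ k, mul_pow δ lam, pw2, pw3 δ]
  obtain ⟨s16, h16⟩ : ∃ s16 : ℝ, s16 = 16 ^ (2 * m + 1) := ⟨_, rfl⟩
  obtain ⟨s64, h64⟩ : ∃ s64 : ℝ, s64 = 64 ^ (2 * m + 1) := ⟨_, rfl⟩
  have h64p : 0 < s64 := by rw [h64]; positivity
  rw [← h16, ← h64, pw δ, pw k, pw lam]
  have hD : 0 < δ ^ m := by positivity
  have hKk : 0 < k ^ m := by positivity
  have hLm : 0 < lam ^ m := by positivity
  generalize δ ^ m = D at *
  generalize k ^ m = Kk at *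
  generalize lam ^ m = Lm at *
  field_simp
  ring

/-- even moments, cells in one dyadic range -/
lemma momM_one (B M : ℕ) (hM : 1 ≤ M) : ∃ K : ℝ, 0 < K ∧ ∃ N₀ : ℝ, ∀ (N N' P h lam : ℝ) (a : ℕ) (I : Finset ℕ), N₀ ≤ N →
    N / 2 ≤ N' → N' ≤ 2 * N → P ≤ N ^ B → P / 2 < a → (a : ℝ) ≤ P → 0 < lam → lam ≤ 1 → 32 ≤ lam * Real.log N →
    lam * Real.log N ≤ P * h → 0 < h → h ≤ 1 → (∀ i ∈ I, N' ≤ i * h ∧ i * h ≤ 2 * N') →
    ∑ i ∈ I, (Th1 a (i * h) h / (a * h) - 1) ^ (2 * M) ≤ K / lam ^ (2 * M - 1) * (N / h) := by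
  classical
  obtain ⟨K₁, hK₁, N₁, hR⟩ := mom_pts (B + 1) (2 * M - 1)
  have hev : ∀ᶠ N : ℝ in atTop, 2 * N₁ ≤ N ∧ 4 ≤ Real.log N ∧ 4 ≤ N ∧ (2 : ℝ) ^ (B + 1) ≤ N :=
    (eventually_ge_atTop _).and ((Real.tendsto_log_atTop.eventually_ge_atTop _).and
      ((eventually_ge_atTop _).and (eventually_ge_atTop _)))
  obtain ⟨N₀, hN₀⟩ := eventually_atTop.1 hev
  refine ⟨K₁ * 2 ^ (2 * M) + 4, by positivity, N₀, ?_⟩
  intro N N' P h lam a I hN hN1 hN2 hPN haP haP2 hlam hlam1 hlam32 hlamP hh0 hh1 hI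
  obtain ⟨hE1, hE2, hE4, hE5⟩ := hN₀ N hN
  have hNp : 0 < N := by linarith
  have hN'p : 0 < N' := by linarith
  obtain ⟨L, hL⟩ : ∃ L : ℝ, L = Real.log N := ⟨_, rfl⟩
  obtain ⟨L', hL'⟩ : ∃ L' : ℝ, L' = Real.log N' := ⟨_, rfl⟩
  rw [← hL] at hE2 hlam32 hlamP
  have hlog2 : Real.log 2 ≤ 1 := by linarith [Real.log_two_lt_d9]
  have hL'1 : L / 2 ≤ L' := by
    have h1 : Real.log (N / 2) ≤ L' := by rw [hL']; exact Real.log_le_log (by linarith) hN1
    rw [Real.log_div hNp.ne' (by norm_num), ← hL] at h1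
    linarith
  have hL'2 : L' ≤ 2 * L := by
    have h1 : L' ≤ Real.log (2 * N) := by rw [hL']; exact Real.log_le_log hN'p hN2
    rw [Real.log_mul (by norm_num) hNp.ne', ← hL] at h1
    linarith
  have h1 := hR N' P h (lam / 2) a (I.image (fun i : ℕ => (i : ℝ) * h)) (by linarith)
    (by
      have h1 : N ^ B ≤ N' ^ (B + 1) := by
        have h2 : (N / 2) ^ (B + 1) ≤ N' ^ (B + 1) := pow_le_pow_left₀ (by linarith) hN1 _
        refine le_trans ?_ h2
        rw [div_pow, le_div_iff₀ (by positivity), pow_succ N]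
        exact mul_le_mul_of_nonneg_left hE5 (by positivity)
      exact hPN.trans h1)
    haP haP2 (by linarith) (by linarith)
    (by
      rw [← hL']
      have := mul_le_mul_of_nonneg_left hL'1 (show 0 ≤ lam / 2 by linarith)
      linarith)
    (by
      rw [← hL']
      have := mul_le_mul_of_nonneg_left hL'2 (show 0 ≤ lam / 2 by linarith)
      linarith)
    hh0 hh1
    (by
      intro x hx
      rw [mem_image] at hx
      obtain ⟨i, hi, rfl⟩ := hx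
      exact hI i hi)
    (cells_sep I h hh0)
  rw [sum_cells I h hh0] at h1
  have hcard : (I.card : ℝ) ≤ 4 * (N / h) := by
    have h2 := card_sep (I.image (fun i : ℕ => (i : ℝ) * h)) N' h hh0 (by linarith)
      (by
        intro x hx
        rw [mem_image] at hx
        obtain ⟨i, hi, rfl⟩ := hx
        exact hI i hi)
      (cells_sep I h hh0)
    rw [card_image_of_injective _ (by
      intro i j hij
      have h3 := mul_right_cancel₀ hh0.ne' hij
      exact_mod_cast h3)] at h2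
    have h3 : N' / h ≤ 2 * (N / h) := by
      rw [← mul_div_assoc]; exact div_le_div_of_nonneg_right hN2 hh0.le
    linarith
  have ha0 : (0 : ℝ) < a := by
    by_contra hc
    push Not at hc
    have h2 : P < 0 := by linarith
    have h3 : P * h < 0 := mul_neg_of_neg_of_pos h2 hh0
    linarith
  have e1 : 2 * M - 1 + 1 = 2 * M := by omega
  rw [e1] at h1
  have h2 : ∑ i ∈ I, (Th1 a (i * h) h / (a * h) - 1) ^ (2 * M) ≤ ∑ i ∈ I, ((Th1 a (i * h) h / (a * h)) ^ (2 * M) + 1) := by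
    apply sum_le_sum
    intro i _
    exact sub_one_pow _ (div_nonneg (Th1_nonneg _ _ _) (by positivity)) M
  refine h2.trans ?_
  rw [sum_add_distrib, sum_const, nsmul_eq_mul, mul_one]
  have h3 : N' / h ≤ 2 * (N / h) := by
    rw [← mul_div_assoc]; exact div_le_div_of_nonneg_right hN2 hh0.le
  have h4 : K₁ / (lam / 2) ^ (2 * M - 1) * (N' / h) ≤ K₁ * 2 ^ (2 * M) / lam ^ (2 * M - 1) * (N / h) := by
    have e2 : (2 : ℝ) ^ (2 * M) = 2 ^ (2 * M - 1) * 2 := by rw [← pow_succ, e1]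
    calc K₁ / (lam / 2) ^ (2 * M - 1) * (N' / h) ≤ K₁ / (lam / 2) ^ (2 * M - 1) * (2 * (N / h)) :=
          mul_le_mul_of_nonneg_left h3 (by positivity)
      _ = _ := by rw [div_pow, e2]; field_simp
  have h5 : 4 * (N / h) ≤ 4 / lam ^ (2 * M - 1) * (N / h) := by
    apply mul_le_mul_of_nonneg_right _ (by positivity)
    rw [le_div_iff₀ (by positivity)]
    have : lam ^ (2 * M - 1) ≤ 1 := pow_le_one₀ hlam.le hlam1
    linarith
  have e : (K₁ * 2 ^ (2 * M) + 4) / lam ^ (2 * M - 1) * (N / h) = K₁ * 2 ^ (2 * M) / lam ^ (2 * M - 1) * (N / h) +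
      4 / lam ^ (2 * M - 1) * (N / h) := by ring
  rw [e]
  linarith

/-- even moments, all cells -/
lemma momM_cells (B M : ℕ) (hM : 1 ≤ M) : ∃ K : ℝ, 0 < K ∧ ∃ N₀ : ℝ, ∀ (N P h lam : ℝ) (a n0 n : ℕ), N₀ ≤ N →
    P ≤ N ^ B → P / 2 < a → (a : ℝ) ≤ P → 0 < lam → lam ≤ 1 → 32 ≤ lam * Real.log N →
    lam * Real.log N ≤ P * h → 0 < h → h ≤ 1 → N / 2 ≤ n0 * h → n * h ≤ 4 * N →
    ∑ i ∈ Ico n0 n, Yn P h a i ^ (2 * M) ≤ K / lam ^ (2 * M - 1) * (N / h) := by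
  classical
  obtain ⟨K, hK, N₁, hR⟩ := momM_one B M hM
  refine ⟨3 * K, by positivity, max N₁ 100, ?_⟩
  intro N P h lam a n0 n hN hPN haP haP2 hlam hlam1 hlam32 hlamP hh0 hh1 hn0 hn
  have hN1 : N₁ ≤ N := (le_max_left _ _).trans hN
  have hN100 : 100 ≤ N := (le_max_right _ _).trans hN
  have hNp : 0 < N := by linarith
  have hP0 : 0 < P := by
    by_contra hc
    push Not at hc
    have : P * h ≤ 0 := mul_nonpos_of_nonpos_of_nonneg hc hh0.le
    linarith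
  have hap : (0 : ℝ) < a := by linarith
  obtain ⟨I, hI1, hI2, hI3⟩ := split3 N h n0 n hNp hh0 hn0 hn
  have e1 : ∀ i, Yn P h a i = (a / P) * (Th1 a (i * h) h / (a * h) - 1) := by
    intro i
    unfold Yn St
    have h0 : (0 : ℝ) ≤ a * (i * h) := by positivity
    rw [theta_sub (a * (i * h)) (a * ((i + 1) * h)) h0 (by
      apply mul_le_mul_of_nonneg_left _ hap.le
      linarith [add_mul (i : ℝ) 1 h])]
    have e2 : (a : ℝ) * ((i + 1) * h) = a * (i * h + h) := by ring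
    rw [e2]
    unfold Th1
    field_simp
  have h1 : ∑ i ∈ Ico n0 n, Yn P h a i ^ (2 * M) ≤ ∑ i ∈ Ico n0 n, (Th1 a (i * h) h / (a * h) - 1) ^ (2 * M) := by
    apply sum_le_sum
    intro i _
    rw [e1 i, mul_pow]
    have h2 : (a : ℝ) / P ≤ 1 := by rw [div_le_one hP0]; exact haP2
    have h3 : 0 ≤ (Th1 a (i * h) h / (a * h) - 1) ^ (2 * M) := by rw [pow_mul]; positivity
    exact mul_le_of_le_one_left h3 (pow_le_one₀ (by positivity) h2)
  refine h1.trans ?_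
  rw [hI2]
  have h2 : ∀ j ∈ (univ : Finset (Fin 3)), ∑ i ∈ I j, (Th1 a (i * h) h / (a * h) - 1) ^ (2 * M) ≤ K / lam ^ (2 * M - 1) * (N / h) := by
    intro j _
    obtain ⟨N', h1, h2, h3⟩ := hI3 j
    exact hR N N' P h lam a (I j) hN1 h1 h2 hPN haP haP2 hlam hlam1 hlam32 hlamP hh0 hh1 h3
  refine (sum_le_sum h2).trans (le_of_eq ?_)
  rw [sum_const, card_univ, Fintype.card_fin, nsmul_eq_mul]
  push_cast
  ring

/-- **Sums over typical tuples of dilations, windows of logarithmic length.** -/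
theorem avgM (B M : ℕ) (hM : 1 ≤ M) : ∃ (C : ℕ) (K N₀ : ℝ), 0 < K ∧ ∀ (N P δ lam : ℝ) (A : Finset ℕ) (k : ℕ), N₀ ≤ N →
    Real.log N ^ C ≤ P → P ≤ N ^ B → (∀ a ∈ A, a.Prime ∧ P / 2 < a ∧ (a : ℝ) ≤ P) → P / Real.log N ^ B ≤ A.card →
    0 < δ → δ ≤ 1 → lam ≤ 1 → 2048 ≤ δ * lam * Real.log N → 1 ≤ k → (k : ℝ) ≤ Real.log N ^ B →
    ∃ E ⊆ Fintype.piFinset (fun _ : Fin k => A), (E.card : ℝ) ≤ (A.card : ℝ) ^ k / Real.log N ^ B ∧
      ∀ a ∈ Fintype.piFinset (fun _ : Fin k => A), a ∉ E → ∀ (η : ℝ) (X : Finset ℝ), lam * Real.log N / P ≤ η →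
        (∀ x ∈ X, N ≤ x ∧ x ≤ 2 * N) → (∀ x ∈ X, ∀ x' ∈ X, x ≠ x' → η ≤ |x - x'|) →
        (∀ x ∈ X, ∃ ℓ : ℝ, η ≤ ℓ ∧ ℓ ≤ N ∧ δ * (ℓ * ∑ j, (a j : ℝ)) < |FF a (x + ℓ) - FF a x - ℓ * ∑ j, (a j : ℝ)|) →
        (X.card : ℝ) ≤ (K * lam / (δ ^ 4 * lam ^ 2 * k) ^ M + 1 / Real.log N ^ B) * (N / η) := by
  classical
  obtain ⟨B', hB'⟩ : ∃ B' : ℕ, B' = (B + 2) * (2 * M) + B + (2 * M + 1) + 1 := ⟨_, rfl⟩
  obtain ⟨C, N₁, hD⟩ := dual_cells B B'
  obtain ⟨K, hK, N₂, hMo⟩ := momM_cells B M hM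
  obtain ⟨b, hb⟩ : ∃ b : ℝ, b = (B : ℝ) + 2 := ⟨_, rfl⟩
  have hb2 : 2 ≤ b := by rw [hb]; have : (0 : ℝ) ≤ B := Nat.cast_nonneg B; linarith
  obtain ⟨c, hc⟩ : ∃ c : ℝ, c = 2 ^ (2 * M) := ⟨_, rfl⟩
  have hc0 : 0 < c := by rw [hc]; positivity
  obtain ⟨Z, hZ⟩ : ∃ Z : ℝ, Z = 512 * 16 ^ (2 * M - 1) * Real.exp c := ⟨_, rfl⟩
  have hZ0 : 0 < Z := by rw [hZ]; positivity
  have hev : ∀ᶠ N : ℝ in atTop, (N₁ ≤ N ∧ N₂ ≤ N) ∧ (20000 * b + 100 ≤ Real.log N ∧ Z * (2 * M) ≤ Real.log N) ∧ 100 ≤ N :=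
    ((eventually_ge_atTop _).and (eventually_ge_atTop _)).and
      (((Real.tendsto_log_atTop.eventually_ge_atTop _).and (Real.tendsto_log_atTop.eventually_ge_atTop _)).and (eventually_ge_atTop _))
  obtain ⟨N₀, hN₀⟩ := eventually_atTop.1 hev
  refine ⟨C + 1, Z * c * 2 * K * 64 ^ (2 * M - 1), N₀, by positivity, ?_⟩
  intro N P δ lam A k hN hCP hPN hA hcard hδ0 hδ1 hlam1 hlam hk hkL
  obtain ⟨⟨hE1, hE2⟩, ⟨hE3, hE5⟩, hE4⟩ := hN₀ N hN
  have hDD := hD N P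
  have hMM := hMo N P
  obtain ⟨L, hL⟩ : ∃ L : ℝ, L = Real.log N := ⟨_, rfl⟩
  rw [← hL] at hE3 hE5 hCP hcard hkL hlam hDD hMM ⊢
  have hL100 : 100 ≤ L := by linarith
  have hL0 : 0 < L := by linarith
  have hL1 : 1 ≤ L := by linarith
  have hNp : 0 < N := by linarith
  have hLB : 1 ≤ L ^ B := one_le_pow₀ hL1
  have hlam0 : 0 < lam := by
    by_contra h
    push Not at h
    have : δ * lam * L ≤ 0 := mul_nonpos_of_nonpos_of_nonneg (mul_nonpos_of_nonneg_of_nonpos hδ0.le h) hL0.le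
    linarith
  have hCP' : L ^ C ≤ P := (pow_le_pow_right₀ hL1 (by omega)).trans hCP
  have hPL : L ≤ P := by
    refine le_trans ?_ hCP
    calc L = L ^ 1 := (pow_one L).symm
      _ ≤ L ^ (C + 1) := pow_le_pow_right₀ hL1 (by omega)
  have hP1 : 1 ≤ P := hL1.trans hPL
  have hP0 : 0 < P := by linarith
  have hk0 : (1 : ℝ) ≤ k := by exact_mod_cast hk
  -- cells
  obtain ⟨h, hh⟩ : ∃ h : ℝ, h = δ * lam * L / 64 / P := ⟨_, rfl⟩
  have hPh : P * h = δ * lam * L / 64 := by rw [hh]; field_simp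
  have hh0 : 0 < h := by rw [hh]; positivity
  have hδlam : δ * lam ≤ 1 := mul_le_one₀ hδ1 hlam0.le hlam1
  have hh1 : h ≤ 1 := by
    rw [hh, div_le_one hP0]
    have : δ * lam * L ≤ 1 * L := mul_le_mul_of_nonneg_right hδlam hL0.le
    linarith
  have hPh1 : 32 ≤ P * h := by rw [hPh]; linarith
  have hPh0 : 0 < P * h := by linarith
  have hPinv : 1 / P ≤ h := by rw [div_le_iff₀ hP0]; linarith
  obtain ⟨n0, hn0⟩ : ∃ n0 : ℕ, n0 = ⌈N / (2 * h)⌉₊ := ⟨_, rfl⟩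
  obtain ⟨n, hn⟩ : ∃ n : ℕ, n = ⌊4 * N / h⌋₊ := ⟨_, rfl⟩
  have hn1 : (n : ℝ) * h ≤ 4 * N := by
    rw [hn, ← le_div_iff₀ hh0]; exact Nat.floor_le (by positivity)
  have hn2 : 4 * N - h < n * h := by
    have := Nat.lt_floor_add_one (4 * N / h)
    rw [← hn, div_lt_iff₀ hh0] at this
    linarith
  have hn01 : N / 2 ≤ n0 * h := by
    have h1 := Nat.le_ceil (N / (2 * h))
    rw [← hn0, div_le_iff₀ (by positivity)] at h1
    linarith
  have hn02 : n0 * h ≤ N / 2 + h := by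
    have h1 := Nat.ceil_lt_add_one (a := N / (2 * h)) (by positivity)
    rw [← hn0] at h1
    have h2 := mul_lt_mul_of_pos_right h1 hh0
    have h3 : (N / (2 * h) + 1) * h = N / 2 + h := by field_simp
    linarith
  obtain ⟨R, hR⟩ : ∃ R : ℝ, R = N / h := ⟨_, rfl⟩
  have hR0 : 0 < R := by rw [hR]; positivity
  have hlog : Real.log (4 * (P * N)) ≤ b * L := by
    have h1 : 4 * (P * N) ≤ N ^ (B + 2) := by
      have h2 : 4 * (P * N) ≤ N ^ B * (4 * N) := by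
        have := mul_le_mul_of_nonneg_right hPN hNp.le
        linarith
      refine h2.trans ?_
      rw [pow_add]
      refine mul_le_mul_of_nonneg_left ?_ (by positivity)
      nlinarith only [hE4]
    refine (Real.log_le_log (by positivity) h1).trans (le_of_eq ?_)
    rw [Real.log_pow, ← hL, hb]
    push_cast
    ring
  -- the parameters of the induction
  have hV : ∀ a ∈ A, ∀ i ∈ Ico n0 n, |Yn P h a i| ≤ 2 * (b * L) := by
    intro a ha i hi
    rw [mem_Ico] at hi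
    have h1 := Yn_bound P h N b L a i n hP1 hh0 (by linarith) (hA a ha).2.2 hi.2 hn1 (by linarith) hlog
    rw [abs_le]
    constructor
    · have : 0 ≤ 2 * (b * L) - 1 := by nlinarith only [hb2, hL100]
      linarith [h1.1]
    · exact h1.2
  obtain ⟨K₀, hK₀⟩ : ∃ K₀ : ℝ, K₀ = K / (δ * lam / 64) ^ (2 * M - 1) * R := ⟨_, rfl⟩
  have hK₀0 : 0 ≤ K₀ := by rw [hK₀]; positivity
  have hmom : ∀ a ∈ A, ∑ i ∈ Ico n0 n, Yn P h a i ^ (2 * M) ≤ K₀ := by
    intro a ha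
    rw [hK₀, hR]
    apply hMM h (δ * lam / 64) a n0 n hE2 hPN (hA a ha).2.1 (hA a ha).2.2 (by positivity) (by linarith) (by linarith) _ hh0 hh1 hn01 hn1
    rw [hPh]; apply le_of_eq; ring
  obtain ⟨τ, hτ⟩ : ∃ τ : ℝ, τ = R / L ^ B' := ⟨_, rfl⟩
  have hτ0 : 0 ≤ τ := by rw [hτ]; positivity
  have hdual : ∀ w : ℕ → ℝ, (∀ i ∈ Ico n0 n, |w i| ≤ L ^ B') → ∃ E ⊆ A, (E.card : ℝ) ≤ 1 / L ^ B' * A.card ∧
      ∀ a ∈ A, a ∉ E → |∑ i ∈ Ico n0 n, w i * Yn P h a i| ≤ τ := by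
    intro w hw
    obtain ⟨E, hE, hEc, hEb⟩ := hDD h A n0 n w hE1 hCP' hPN hA hcard hPinv hh1 hn01 hn1 hw
    refine ⟨E, hE, hEc, ?_⟩
    rw [hτ, hR]
    exact hEb
  have hkV : (0 + (k : ℝ) * (2 * (b * L))) ^ (2 * M - 1) ≤ L ^ B' := by
    have h1 : 2 * (b * L) ≤ L ^ 2 := by nlinarith only [hE3, hL100]
    have h2 : (k : ℝ) * (2 * (b * L)) ≤ L ^ B * L ^ 2 := mul_le_mul hkL h1 (by positivity) (by positivity)
    rw [← pow_add] at h2
    rw [zero_add]
    refine (pow_le_pow_left₀ (by positivity) h2 _).trans ?_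
    rw [← pow_mul]
    apply pow_le_pow_right₀ hL1
    have h3 : (B + 2) * (2 * M - 1) ≤ (B + 2) * (2 * M) := Nat.mul_le_mul_left _ (Nat.sub_le _ _)
    omega
  obtain ⟨E, hE, hEc, hEb⟩ := indw (Ico n0 n) (2 * (b * L)) (L ^ B') (1 / L ^ B') K₀ τ k M hM (by positivity) hk0 hK₀0 hτ0 k (fun _ => A)
    (fun _ a i => Yn P h a i) (fun _ a ha i hi => hV a ha i hi) (fun _ a ha => hmom a ha) (fun _ w hw => hdual w hw)
    0 (fun _ => 0) le_rfl hkV (by positivity) (fun i _ => by simp)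
  refine ⟨E, hE, ?_, ?_⟩
  · refine hEc.trans ?_
    rw [prod_const, card_univ, Fintype.card_fin]
    have h1 : (k : ℝ) * (1 / L ^ B') ≤ 1 / L ^ B := by
      rw [mul_one_div, div_le_div_iff₀ (by positivity) (by positivity), one_mul]
      have h2 : (k : ℝ) * L ^ B ≤ L ^ B * L ^ B := mul_le_mul_of_nonneg_right hkL (by positivity)
      rw [← pow_add] at h2
      refine h2.trans (pow_le_pow_right₀ hL1 ?_)
      have h3 : (B + 2) * 1 ≤ (B + 2) * (2 * M) := Nat.mul_le_mul_left _ (by omega)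
      omega
    have h2 := mul_le_mul_of_nonneg_right h1 (by positivity : 0 ≤ (A.card : ℝ) ^ k)
    linarith [show 1 / L ^ B * (A.card : ℝ) ^ k = (A.card : ℝ) ^ k / L ^ B by ring]
  · intro a ha haE η X hη hX hsep hbad
    have h1 := hEb a ha haE
    have h2M : 2 * M ≠ 0 := by omega
    simp only [zero_add, ne_eq, h2M, not_false_eq_true, zero_pow, sum_const_zero] at h1
    have haA := fun j => Fintype.mem_piFinset.1 ha j
    -- the moment
    obtain ⟨T, hT⟩ : ∃ T : ℝ, T = 2 * M * τ + c * (2 * (k : ℝ) ^ (M - 1) * K₀) := ⟨_, rfl⟩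
    have hT0 : 0 ≤ T := by rw [hT]; positivity
    rw [← hc, ← hT] at h1
    have hexp : (1 + c / (k : ℝ)) ^ k ≤ Real.exp c := by
      have h3 : 1 + c / (k : ℝ) ≤ Real.exp (c / k) := by
        have := Real.add_one_le_exp (c / (k : ℝ)); linarith
      calc (1 + c / (k : ℝ)) ^ k ≤ Real.exp (c / k) ^ k := pow_le_pow_left₀ (by positivity) h3 k
        _ = Real.exp c := by rw [← Real.exp_nat_mul]; congr 1; field_simp
    have h1' : ∑ i ∈ Ico n0 n, (∑ j, Yn P h (a j) i) ^ (2 * M) ≤ Real.exp c * (k * T) :=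
      h1.trans (mul_le_mul_of_nonneg_right hexp (by positivity))
    -- large values
    have h2 : ∑ i ∈ (Ico n0 n).filter (fun i => δ / 16 * k < |∑ j, Yn P h (a j) i|), |∑ j, Yn P h (a j) i| ≤
        (16 / (δ * k)) ^ (2 * M - 1) * (Real.exp c * (k * T)) := by
      have h3 : ∀ i ∈ (Ico n0 n).filter (fun i => δ / 16 * k < |∑ j, Yn P h (a j) i|),
          |∑ j, Yn P h (a j) i| ≤ (16 / (δ * k)) ^ (2 * M - 1) * (∑ j, Yn P h (a j) i) ^ (2 * M) := by
        intro i hi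
        have h4 := (mem_filter.1 hi).2
        obtain ⟨y, hy⟩ : ∃ y : ℝ, y = |∑ j, Yn P h (a j) i| := ⟨_, rfl⟩
        have heven : Even (2 * M) := ⟨M, by ring⟩
        rw [← heven.pow_abs, ← hy]
        rw [← hy] at h4
        have h5 : 0 < δ / 16 * k := by positivity
        have e3 : 2 * M = (2 * M - 1) + 1 := by omega
        have h6 : 1 ≤ (16 / (δ * k)) * y := by
          rw [div_mul_eq_mul_div, le_div_iff₀ (by positivity)]
          linarith
        have h7 : 1 ≤ ((16 / (δ * k)) * y) ^ (2 * M - 1) := one_le_pow₀ h6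
        have h8 : y ^ (2 * M) = y ^ (2 * M - 1) * y := by rw [← pow_succ, ← e3]
        have hy0 : 0 ≤ y := by linarith
        rw [h8, ← mul_assoc, ← mul_pow]
        exact le_mul_of_one_le_left hy0 h7
      refine (sum_le_sum h3).trans ?_
      rw [← mul_sum]
      apply mul_le_mul_of_nonneg_left _ (by positivity)
      refine le_trans ?_ h1'
      apply sum_le_sum_of_subset_of_nonneg (filter_subset _ _)
      intro i _ _
      rw [pow_mul]; positivity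
    have hη0 : 0 < η := lt_of_lt_of_le (by positivity) hη
    have h64 : 64 * h ≤ δ * η := by
      have h3 := mul_le_mul_of_nonneg_left hη hδ0.le
      have e : 64 * h = δ * (lam * L / P) := by rw [hh]; field_simp
      rw [e]; exact h3
    have h3 := tuple_good hk a N P h δ η ((16 / (δ * k)) ^ (2 * M - 1) * (Real.exp c * (k * T))) hP0 hh0 hδ0 hδ1
      (fun j => (hA _ (haA j)).2.1.le) h64 X hX hsep n0 n (by linarith) (by linarith) hbad h2
    refine h3.trans ?_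
    have hhR : h * R = N := by rw [hR]; field_simp
    -- the algebra
    obtain ⟨m, hm⟩ : ∃ m : ℕ, M = m + 1 := ⟨M - 1, by omega⟩
    have em1 : 2 * M - 1 = 2 * m + 1 := by omega
    have em2 : M - 1 = m := by omega
    have e1 : 512 * h * ((16 / (δ * k)) ^ (2 * M - 1) * (Real.exp c * (k * T))) / (δ ^ 2 * k * η) =
        (Z * c * 2 * K * 64 ^ (2 * M - 1) * lam / (δ ^ 4 * lam ^ 2 * k) ^ M) * (N / η) +
        (Z * (2 * M) / (δ ^ (2 * M + 1) * k ^ (2 * M - 1)) / L ^ B') * (N / η) := by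
      rw [hT, hK₀, hτ, ← hhR, hZ, em1, em2, hm]
      push_cast
      exact alg_id m h δ k c R K lam η (Real.exp c) (L ^ B') hδ0 (by linarith) hlam0 hη0 (by positivity)
    rw [e1, add_mul]
    have h4 : Z * (2 * M) / (δ ^ (2 * M + 1) * k ^ (2 * M - 1)) / L ^ B' ≤ 1 / L ^ B := by
      have hδL : 1 / L ≤ δ := by
        rw [div_le_iff₀ hL0]
        have : δ * lam * L ≤ δ * 1 * L := by gcongr
        linarith
      have h6 : 1 ≤ δ ^ (2 * M + 1) * L ^ (2 * M + 1) := by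
        rw [← mul_pow]
        apply one_le_pow₀
        rw [div_le_iff₀ hL0] at hδL
        linarith
      have h7 : 1 ≤ (k : ℝ) ^ (2 * M - 1) := one_le_pow₀ hk0
      rw [div_div, div_le_div_iff₀ (by positivity) (by positivity), one_mul]
      have h10 : L ^ B' = L ^ (2 * M + 1) * (L * (L ^ B * L ^ ((B + 2) * (2 * M)))) := by
        rw [← pow_add, ← pow_succ', ← pow_add, hB']; congr 1; ring
      have h11 : 1 ≤ L ^ ((B + 2) * (2 * M)) := one_le_pow₀ hL1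
      rw [h10]
      calc Z * (2 * M) * L ^ B ≤ L * L ^ B := mul_le_mul_of_nonneg_right hE5 (by positivity)
        _ = 1 * 1 * (L * (L ^ B * 1)) := by ring
        _ ≤ (δ ^ (2 * M + 1) * L ^ (2 * M + 1)) * (k : ℝ) ^ (2 * M - 1) * (L * (L ^ B * L ^ ((B + 2) * (2 * M)))) := by
          apply mul_le_mul (mul_le_mul h6 h7 zero_le_one (by positivity)) _ (by positivity) (by positivity)
          apply mul_le_mul_of_nonneg_left _ hL0.le
          exact mul_le_mul_of_nonneg_left h11 (by positivity)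
        _ = _ := by ring
    have h5 := mul_le_mul_of_nonneg_right h4 (by positivity : 0 ≤ N / η)
    linarith

end Pool.Agent.H15.JD
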