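import Pool.Agent.H15.JD.Dual

/-! Chains of primes: all the integer parts of `n / (a_{j+1} ... a_k)` are primes, for almost all dilations `a_j`. -/

set_option autoImplicit false

namespace Pool.Agent.H15.JD
open Finset Filter Pool.Agent.H15.FD

/-- the weight `log n` at the primes -/
noncomputable def lp (n : ℕ) : ℝ := if n.Prime then Real.log n else 0

lemma lp_nonneg (n : ℕ) : 0 ≤ lp n := by
  unfold lp
  split_ifs with h
  · exact Real.log_nonneg (by exact_mod_cast h.one_lt.le)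
  · exact le_rfl

lemma lp_le (n : ℕ) (X : ℝ) (hn : (n : ℝ) ≤ X) (hX : 1 ≤ X) : lp n ≤ Real.log X := by
  unfold lp
  split_ifs with h
  · exact Real.log_le_log (by exact_mod_cast h.pos) hn
  · exact Real.log_nonneg hX

lemma lp_mul (a m : ℕ) (ha : 2 ≤ a) (hm : 2 ≤ m) : lp (a * m) = 0 := by
  unfold lp
  rw [if_neg (Nat.not_prime_mul (by omega) (by omega))]

/-- the window at an integer -/
lemma Th1_nat (a m : ℕ) (ha : 2 ≤ a) (hm : 2 ≤ m) : Th1 a (m : ℝ) 1 = ∑ n ∈ Ico (a * m) (a * (m + 1)), lp n := by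
  unfold Th1
  have e1 : ⌊(a : ℝ) * (m : ℝ)⌋₊ = a * m := by
    rw [show (a : ℝ) * (m : ℝ) = ((a * m : ℕ) : ℝ) by push_cast; ring, Nat.floor_natCast]
  have e2 : ⌊(a : ℝ) * ((m : ℝ) + 1)⌋₊ = a * (m + 1) := by
    rw [show (a : ℝ) * ((m : ℝ) + 1) = ((a * (m + 1) : ℕ) : ℝ) by push_cast; ring, Nat.floor_natCast]
  rw [e1, e2, sum_filter]
  have h1 : ∑ n ∈ Icc (a * m) (a * (m + 1)), lp n = lp (a * m) + ∑ n ∈ Ioc (a * m) (a * (m + 1)), lp n := by
    rw [← Finset.Icc_erase_left]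
    exact (Finset.add_sum_erase _ _ (mem_Icc.2 ⟨le_rfl, Nat.mul_le_mul_left _ (by omega)⟩)).symm
  have h2 : ∑ n ∈ Icc (a * m) (a * (m + 1)), lp n = lp (a * (m + 1)) + ∑ n ∈ Ico (a * m) (a * (m + 1)), lp n := by
    rw [← Finset.Icc_erase_right]
    exact (Finset.add_sum_erase _ _ (mem_Icc.2 ⟨Nat.mul_le_mul_left _ (by omega), le_rfl⟩)).symm
  rw [lp_mul a m ha hm, zero_add] at h1
  rw [lp_mul a (m + 1) ha (by omega), zero_add] at h2
  rw [← h2, h1]
  rfl

lemma sum_fib (a M : ℕ) (ha : 0 < a) (S : Finset ℕ) (w : ℕ → ℝ) (hS : ∀ m ∈ S, m < M) :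
    ∑ n ∈ (range (M * a)).filter (fun n => n / a ∈ S), w (n / a) * lp n =
      ∑ m ∈ S, w m * ∑ n ∈ Ico (a * m) (a * (m + 1)), lp n := by
  rw [← Finset.sum_fiberwise_of_maps_to (g := fun n => n / a) (t := S) (fun n hn => by
    rw [mem_filter] at hn; exact hn.2)]
  apply sum_congr rfl
  intro m hm
  rw [mul_sum]
  have hset : ((range (M * a)).filter (fun n => n / a ∈ S)).filter (fun n => n / a = m) = Ico (a * m) (a * (m + 1)) := by
    ext n
    rw [mem_filter, mem_filter, mem_range, mem_Ico]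
    constructor
    · rintro ⟨_, h⟩
      rw [Nat.div_eq_iff ha] at h
      constructor
      · rw [mul_comm]; exact h.1
      · have := h.2
        rw [mul_add, mul_one, mul_comm a m]
        omega
    · rintro ⟨h1, h2⟩
      have h3 : n / a = m := by
        rw [Nat.div_eq_iff ha]
        rw [mul_comm] at h1
        rw [mul_add, mul_one, mul_comm a m] at h2
        omega
      refine ⟨⟨?_, by rw [h3]; exact hm⟩, h3⟩
      refine lt_of_lt_of_le h2 ?_
      rw [mul_comm]
      exact Nat.mul_le_mul_right _ (hS m hm)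
  rw [hset]
  apply sum_congr rfl
  intro n hn
  rw [mem_Ico] at hn
  have h3 : n / a = m := by
    rw [Nat.div_eq_iff ha]
    obtain ⟨h1, h2⟩ := hn
    rw [mul_comm] at h1
    rw [mul_add, mul_one, mul_comm a m] at h2
    omega
  rw [h3]

/-- one step of a chain -/
theorem chstep (B B' : ℕ) : ∃ (C : ℕ) (N₀ : ℝ), ∀ (N : ℕ) (P : ℝ) (A : Finset ℕ) (S : Finset ℕ) (w : ℕ → ℝ), N₀ ≤ N →
    Real.log N ^ C ≤ P → P ≤ (N : ℝ) ^ B → (∀ a ∈ A, a.Prime ∧ P / 2 < a ∧ (a : ℝ) ≤ P) → P / Real.log N ^ B ≤ A.card →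
    (∀ m ∈ S, N ≤ m ∧ m < 2 * N) → (∀ m ∈ S, |w m| ≤ 1) →
    ∃ E ⊆ A, (E.card : ℝ) ≤ 1 / Real.log N ^ B' * A.card ∧
      ∀ a ∈ A, a ∉ E → |∑ n ∈ (range (2 * N * a)).filter (fun n => n / a ∈ S), w (n / a) * lp n - a * ∑ m ∈ S, w m| ≤
        a * (N / Real.log N ^ B') := by
  classical
  obtain ⟨C, N₁, hD⟩ := dual B B'
  have hev : ∀ᶠ N : ℝ in atTop, N₁ ≤ N ∧ 1 ≤ Real.log N ∧ 2 ≤ N ∧ Real.log N ^ C ≤ N := by
    have h2 := (Real.isLittleO_pow_log_id_atTop (n := C)).bound (show (0 : ℝ) < 1 by norm_num)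
    refine (eventually_ge_atTop _).and ((Real.tendsto_log_atTop.eventually_ge_atTop _).and ((eventually_ge_atTop _).and ?_))
    filter_upwards [h2, Real.tendsto_log_atTop.eventually_ge_atTop 1, eventually_ge_atTop (1 : ℝ)] with N h3 h4 h5
    rw [Real.norm_eq_abs, Real.norm_eq_abs, one_mul, id, abs_of_nonneg (by positivity), abs_of_nonneg (by linarith)] at h3
    exact h3
  obtain ⟨N₀, hN₀⟩ := eventually_atTop.1 hev
  refine ⟨C, N₀, ?_⟩
  intro N P A S w hN hCP hPN hA hcard hS hw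
  obtain ⟨hE1, hE2, hE3, hE4⟩ := hN₀ N hN
  have hL0 : 0 < Real.log N := by linarith
  have hP1 : 1 ≤ P := (one_le_pow₀ hE2).trans hCP
  have hLC : 0 < Real.log N ^ C := by positivity
  have hLB : 1 ≤ Real.log N ^ B := one_le_pow₀ hE2
  have hLB' : 1 ≤ Real.log N ^ B' := one_le_pow₀ hE2
  obtain ⟨E, hE, hEc, hEb⟩ := hD N P 1 1 0 A (S.map Nat.castEmbedding) (fun x => w ⌊x⌋₊) hE1 hCP hPN hA hcard
    (by
      rw [div_le_one (by positivity)]
      nlinarith only [hP1, hLB]) le_rfl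
    (by
      intro x hx
      rw [Finset.mem_map] at hx
      obtain ⟨m, hm, rfl⟩ := hx
      have h1 := hS m hm
      simp only [Nat.castEmbedding_apply]
      constructor
      · exact_mod_cast h1.1
      · exact_mod_cast h1.2.le)
    (by
      intro x hx x' hx' hne
      rw [Finset.mem_map] at hx hx'
      obtain ⟨m, hm, rfl⟩ := hx
      obtain ⟨m', hm', rfl⟩ := hx'
      simp only [Nat.castEmbedding_apply] at hne ⊢
      have h1 : (m : ℤ) ≠ m' := by
        intro h
        apply hne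
        have : m = m' := by exact_mod_cast h
        rw [this]
      have h2 : (1 : ℤ) ≤ |(m : ℤ) - m'| := Int.one_le_abs (sub_ne_zero.2 h1)
      exact_mod_cast h2) le_rfl (Nat.cast_nonneg N) le_rfl
    (by
      rw [one_le_div hLC]
      exact hE4)
    (by
      intro x hx
      rw [Finset.mem_map] at hx
      obtain ⟨m, hm, rfl⟩ := hx
      simp only [Nat.castEmbedding_apply, Nat.floor_natCast]
      exact (hw m hm).trans hLB')
  refine ⟨E, hE, hEc, ?_⟩
  intro a ha haE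
  have h1 := hEb a ha haE
  have ha2 := (hA a ha).1.two_le
  have ha0 : (0 : ℝ) < a := by exact_mod_cast (hA a ha).1.pos
  have h2 : ∑ x ∈ S.map Nat.castEmbedding, (fun x : ℝ => w ⌊x⌋₊) x * (Th1 a (x + 0) 1 / (a * 1) - 1) =
      (∑ n ∈ (range (2 * N * a)).filter (fun n => n / a ∈ S), w (n / a) * lp n - a * ∑ m ∈ S, w m) / a := by
    rw [sum_fib a (2 * N) (by omega) S w (fun m hm => (hS m hm).2), sum_map, eq_div_iff ha0.ne', sum_mul, mul_sum, ← sum_sub_distrib]
    apply sum_congr rfl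
    intro m hm
    have hm2 : 2 ≤ m := by
      have h3 := (hS m hm).1
      have h4 : 2 ≤ N := by exact_mod_cast hE3
      omega
    simp only [Nat.castEmbedding_apply, Nat.floor_natCast, add_zero, mul_one]
    rw [Th1_nat a m ha2 hm2]
    field_simp
  rw [h2, abs_div, abs_of_pos ha0, div_le_iff₀ ha0, div_one] at h1
  linarith

/-- the sum over the chains -/
noncomputable def chs {k : ℕ} (N : ℕ) (S : Finset ℕ) (w : ℕ → ℝ) (a : Fin k → ℕ) : ℝ :=
  ∑ n ∈ (range (2 * N * ∏ j, a j)).filter (fun n => n / (∏ j, a j) ∈ S),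
    w (n / (∏ j, a j)) * ∏ j, lp (n / ∏ i ∈ Ioi j, a i)

lemma chs_succ {k : ℕ} (N : ℕ) (S : Finset ℕ) (w : ℕ → ℝ) (a : Fin (k + 1) → ℕ) (h : 0 < ∏ j, Fin.tail a j) :
    chs N S w a = chs (N * a 0) ((range (2 * N * a 0)).filter (fun n => n / a 0 ∈ S)) (fun n => w (n / a 0) * lp n)
      (Fin.tail a) := by
  unfold chs
  have hQ : ∏ j, a j = a 0 * ∏ j, Fin.tail a j := by rw [Fin.prod_univ_succ]; rfl
  rw [hQ]
  obtain ⟨Q, hQd⟩ : ∃ Q : ℕ, Q = ∏ j, Fin.tail a j := ⟨_, rfl⟩
  rw [← hQd] at h ⊢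
  have hdiv : ∀ n : ℕ, n / (a 0 * Q) = n / Q / a 0 := by
    intro n
    rw [Nat.div_div_eq_div_mul, mul_comm]
  have hset : (range (2 * N * (a 0 * Q))).filter (fun n => n / (a 0 * Q) ∈ S) =
      (range (2 * (N * a 0) * Q)).filter (fun n => n / Q ∈ (range (2 * N * a 0)).filter (fun n => n / a 0 ∈ S)) := by
    ext n
    rw [mem_filter, mem_filter, mem_filter, mem_range, mem_range, mem_range, hdiv]
    have e : 2 * N * (a 0 * Q) = 2 * (N * a 0) * Q := by ring
    have e2 : 2 * N * a 0 = 2 * (N * a 0) := by ring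
    rw [e, e2]
    constructor
    · rintro ⟨h1, h2⟩
      exact ⟨h1, (Nat.div_lt_iff_lt_mul h).2 h1, h2⟩
    · rintro ⟨h1, _, h2⟩
      exact ⟨h1, h2⟩
  rw [hset]
  apply sum_congr rfl
  intro n _
  rw [Fin.prod_univ_succ, hdiv, Fin.prod_Ioi_zero]
  have e3 : ∏ j : Fin k, a j.succ = Q := by rw [hQd]; rfl
  rw [e3]
  simp only [Fin.prod_Ioi_succ]
  rw [mul_assoc]
  rfl

lemma chs_div {k : ℕ} (N : ℕ) (S : Finset ℕ) (w : ℕ → ℝ) (a : Fin k → ℕ) (c : ℝ) :
    chs N S (fun n => w n / c) a = chs N S w a / c := by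
  unfold chs
  rw [sum_div]
  apply sum_congr rfl
  intro n _
  ring

/-- **Chains of primes.** -/
theorem chain (k : ℕ) : ∀ B : ℕ, ∃ (C : ℕ) (N₀ : ℝ), ∀ (N : ℕ) (P : Fin k → ℝ) (A : Fin k → Finset ℕ) (S : Finset ℕ)
    (w : ℕ → ℝ), N₀ ≤ N → (∀ j, Real.log N ^ C ≤ P j) → (∀ j, P j ≤ (N : ℝ) ^ B) →
    (∀ j, ∀ a ∈ A j, a.Prime ∧ P j / 2 < a ∧ (a : ℝ) ≤ P j) → (∀ j, P j / Real.log N ^ B ≤ (A j).card) →
    (∀ m ∈ S, N ≤ m ∧ m < 2 * N) → (∀ m ∈ S, |w m| ≤ 1) →
    ∃ E ⊆ Fintype.piFinset A, (E.card : ℝ) ≤ (∏ j, ((A j).card : ℝ)) / Real.log N ^ B ∧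
      ∀ a ∈ Fintype.piFinset A, a ∉ E → |chs N S w a - (∏ j, (a j : ℝ)) * ∑ m ∈ S, w m| ≤
        (∏ j, (a j : ℝ)) * (N / Real.log N ^ B) := by
  classical
  induction k with
  | zero =>
    intro B
    refine ⟨0, 1, ?_⟩
    intro N P A S w hN _ _ _ _ hS hw
    have hlog : 0 ≤ Real.log N := Real.log_natCast_nonneg N
    refine ⟨∅, empty_subset _, by rw [card_empty]; push_cast; positivity, ?_⟩
    intro a _ _
    have h1 : chs N S w a = ∑ m ∈ S, w m := by
      unfold chs
      simp only [univ_eq_empty, prod_empty, mul_one, Nat.div_one]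
      refine sum_congr ?_ (fun _ _ => rfl)
      ext n; rw [mem_filter, mem_range]; exact ⟨fun h => h.2, fun h => ⟨(hS n h).2, h⟩⟩
    rw [h1]
    simp only [univ_eq_empty, prod_empty, one_mul, sub_self, abs_zero]
    positivity
  | succ k ih =>
    intro B
    obtain ⟨C1, N1, h1⟩ := chstep B (B + 1)
    obtain ⟨C2, N2, h2⟩ := ih (B + 2)
    have hev : ∀ᶠ N : ℝ in atTop, N1 ≤ N ∧ N2 ≤ N ∧ ((B : ℝ) + 1) ^ C2 ≤ Real.log N ∧ 2 * ((B : ℝ) + 2) ≤ Real.log N ∧ 2 ≤ N :=
      (eventually_ge_atTop _).and ((eventually_ge_atTop _).and ((Real.tendsto_log_atTop.eventually_ge_atTop _).and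
        ((Real.tendsto_log_atTop.eventually_ge_atTop _).and (eventually_ge_atTop _))))
    obtain ⟨N₀, hN₀⟩ := eventually_atTop.1 hev
    refine ⟨max C1 (C2 + 1), N₀, ?_⟩
    intro N P A S w hN hCP hPN hA hcard hS hw
    obtain ⟨hE1, hE2, hE3, hE4, hE5⟩ := hN₀ N hN
    have hB0 : (0 : ℝ) ≤ B := Nat.cast_nonneg B
    have hL1' : 1 ≤ Real.log N := by linarith
    have h1' := h1 N (P 0) (A 0) S w hE1 ((pow_le_pow_right₀ hL1' (le_max_left _ _)).trans (hCP 0)) (hPN 0) (hA 0)
      (hcard 0) hS hw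
    obtain ⟨L, hL⟩ : ∃ L : ℝ, L = Real.log N := ⟨_, rfl⟩
    rw [← hL] at h1' hE3 hE4 hCP hcard ⊢
    clear hL1'
    have hL1 : 1 ≤ L := by linarith
    have hL0 : 0 < L := by linarith
    have hN0 : (0 : ℝ) < N := by linarith
    have hN1 : (1 : ℝ) ≤ N := by linarith
    obtain ⟨E0, hE0, hE0c, hE0b⟩ := h1'
    obtain ⟨Λ, hΛ⟩ : ∃ Λ : ℝ, Λ = ((B : ℝ) + 2) * L := ⟨_, rfl⟩
    have hΛ0 : 0 < Λ := by rw [hΛ]; positivity
    have hih : ∀ a0 ∈ A 0, ∃ E ⊆ Fintype.piFinset (Fin.tail A),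
        (E.card : ℝ) ≤ (∏ j, ((Fin.tail A j).card : ℝ)) / L ^ (B + 2) ∧
        ∀ a ∈ Fintype.piFinset (Fin.tail A), a ∉ E →
          |chs (N * a0) ((range (2 * N * a0)).filter (fun n => n / a0 ∈ S)) (fun n => w (n / a0) * lp n) a -
            (∏ j, (a j : ℝ)) * ∑ n ∈ (range (2 * N * a0)).filter (fun n => n / a0 ∈ S), w (n / a0) * lp n| ≤
            (∏ j, (a j : ℝ)) * (a0 * (N * (Λ / L ^ (B + 2)))) := by
      intro a0 ha0
      have ha0' := hA 0 a0 ha0
      have hap : 0 < a0 := ha0'.1.pos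
      have ha1 : (1 : ℝ) ≤ a0 := by exact_mod_cast hap
      have haN : (a0 : ℝ) ≤ (N : ℝ) ^ B := ha0'.2.2.trans (hPN 0)
      have hcast : ((N * a0 : ℕ) : ℝ) = N * a0 := by push_cast; ring
      have hNN : (N : ℝ) ≤ N * a0 := le_mul_of_one_le_right hN0.le ha1
      have hLL : L ≤ Real.log ((N * a0 : ℕ) : ℝ) := by
        rw [hcast, hL]; exact Real.log_le_log hN0 hNN
      have hLU : Real.log ((N * a0 : ℕ) : ℝ) ≤ ((B : ℝ) + 1) * L := by
        rw [hcast, Real.log_mul hN0.ne' (by positivity), ← hL]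
        have : Real.log a0 ≤ B * L := by
          rw [hL, ← Real.log_pow]
          exact Real.log_le_log (by positivity) haN
        linarith
      obtain ⟨L', hL'⟩ : ∃ L' : ℝ, L' = Real.log ((N * a0 : ℕ) : ℝ) := ⟨_, rfl⟩
      have h3 := h2 (N * a0) (Fin.tail P) (Fin.tail A) ((range (2 * N * a0)).filter (fun n => n / a0 ∈ S))
        (fun n => w (n / a0) * lp n / Λ) (by rw [hcast]; linarith)
      rw [← hL'] at h3 hLL hLU
      have hL'0 : 0 < L' := by linarith
      obtain ⟨E, hE, hEc, hEb⟩ := h3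
        (by
          intro j
          refine le_trans ?_ (hCP j.succ)
          refine (pow_le_pow_left₀ hL'0.le hLU C2).trans ?_
          rw [mul_pow]
          refine (mul_le_mul_of_nonneg_right hE3 (by positivity)).trans ?_
          rw [← pow_succ']
          exact pow_le_pow_right₀ hL1 (le_max_right _ _))
        (by
          intro j
          refine (hPN j.succ).trans ?_
          rw [hcast]
          exact (pow_le_pow_left₀ hN0.le hNN B).trans (pow_le_pow_right₀ (by linarith) (by omega)))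
        (fun j => hA j.succ)
        (by
          intro j
          refine le_trans ?_ (hcard j.succ)
          have hP0 : 0 ≤ P j.succ := le_trans (by positivity) (hCP j.succ)
          apply div_le_div_of_nonneg_left hP0 (by positivity)
          exact (pow_le_pow_left₀ hL0.le hLL B).trans (pow_le_pow_right₀ (by linarith) (by omega)))
        (by
          intro n hn
          rw [mem_filter, mem_range] at hn
          have h4 := (hS _ hn.2).1
          rw [Nat.le_div_iff_mul_le hap] at h4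
          exact ⟨h4, by rw [← mul_assoc]; exact hn.1⟩)
        (by
          intro n hn
          rw [mem_filter, mem_range] at hn
          rw [abs_div, abs_of_pos hΛ0, div_le_one hΛ0, abs_mul, abs_of_nonneg (lp_nonneg n)]
          have h4 : lp n ≤ Λ := by
            have h5 : (n : ℝ) ≤ (N : ℝ) ^ (B + 2) := by
              have h6 : (n : ℝ) ≤ 2 * N * a0 := by exact_mod_cast hn.1.le
              refine h6.trans ?_
              rw [pow_add]
              have h7 : 2 * (N : ℝ) * a0 ≤ (N * N) * (N : ℝ) ^ B :=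
                mul_le_mul (mul_le_mul_of_nonneg_right hE5 hN0.le) haN (by positivity) (by positivity)
              linarith [show (N : ℝ) ^ B * (N : ℝ) ^ 2 = (N * N) * (N : ℝ) ^ B by ring]
            refine (lp_le n _ h5 (one_le_pow₀ hN1)).trans (le_of_eq ?_)
            rw [Real.log_pow, ← hL, hΛ]
            push_cast
            ring
          have h5 := mul_le_mul (hw _ hn.2) h4 (lp_nonneg n) zero_le_one
          linarith)
      refine ⟨E, hE, ?_, ?_⟩
      · refine hEc.trans ?_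
        apply div_le_div_of_nonneg_left (prod_nonneg fun _ _ => Nat.cast_nonneg _) (by positivity)
        exact pow_le_pow_left₀ hL0.le hLL _
      · intro a ha haE
        have h4 := hEb a ha haE
        rw [chs_div (N * a0) _ (fun n => w (n / a0) * lp n) a Λ, ← sum_div, ← mul_div_assoc, ← sub_div, abs_div, abs_of_pos hΛ0,
          div_le_iff₀ hΛ0] at h4
        refine h4.trans ?_
        rw [hcast, mul_assoc]
        apply mul_le_mul_of_nonneg_left _ (prod_nonneg fun _ _ => Nat.cast_nonneg _)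
        have h5 : (N : ℝ) * a0 / L' ^ (B + 2) * Λ ≤ (N : ℝ) * a0 / L ^ (B + 2) * Λ := by
          apply mul_le_mul_of_nonneg_right _ hΛ0.le
          exact div_le_div_of_nonneg_left (by positivity) (by positivity) (pow_le_pow_left₀ hL0.le hLL _)
        refine h5.trans (le_of_eq ?_)
        ring
    choose! G hG1 hG2 hG3 using hih
    obtain ⟨E, hEd⟩ : ∃ E : Finset (Fin (k + 1) → ℕ), E = (Fintype.piFinset A).filter (fun a : Fin (k + 1) → ℕ => a 0 ∈ E0 ∨ (Fin.tail a : Fin k → ℕ) ∈ G (a 0)) := ⟨_, rfl⟩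
    refine ⟨E, by rw [hEd]; exact filter_subset _ _, ?_, ?_⟩
    · obtain ⟨Q, hQ⟩ : ∃ Q : ℝ, Q = ∏ j, ((Fin.tail A j).card : ℝ) := ⟨_, rfl⟩
      have hQ0 : 0 ≤ Q := by rw [hQ]; exact prod_nonneg fun _ _ => Nat.cast_nonneg _
      have hprod : ∏ j, ((A j).card : ℝ) = (A 0).card * Q := by
        rw [Fin.prod_univ_succ, hQ]; rfl
      have hsub : E ⊆ (A 0).biUnion (fun a0 => (if a0 ∈ E0 then Fintype.piFinset (Fin.tail A) else G a0).image (fun b => (Fin.cons a0 b : Fin (k + 1) → ℕ))) := by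
        intro a ha
        rw [hEd, mem_filter, Fin.mem_piFinset_iff_zero_tail] at ha
        rw [mem_biUnion]
        refine ⟨a 0, ha.1.1, ?_⟩
        rw [mem_image]
        refine ⟨Fin.tail a, ?_, Fin.cons_self_tail a⟩
        by_cases h0 : a 0 ∈ E0
        · rw [if_pos h0]; exact ha.1.2
        · rw [if_neg h0]
          exact ha.2.resolve_left h0
      have h1 := (card_le_card hsub).trans card_biUnion_le
      have h2 : (E.card : ℝ) ≤ ∑ a0 ∈ A 0, ((if a0 ∈ E0 then Q else 0) + Q / L ^ (B + 2)) := by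
        refine ((Nat.cast_le (α := ℝ)).2 h1).trans ?_
        push_cast
        apply sum_le_sum
        intro a0 ha0
        have h3 : (((if a0 ∈ E0 then Fintype.piFinset (Fin.tail A) else G a0).image (fun b => (Fin.cons a0 b : Fin (k + 1) → ℕ))).card : ℝ) ≤
            ((if a0 ∈ E0 then Fintype.piFinset (Fin.tail A) else G a0).card : ℝ) := by exact_mod_cast card_image_le
        refine h3.trans ?_
        by_cases h0 : a0 ∈ E0
        · rw [if_pos h0, if_pos h0, Fintype.card_piFinset]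
          push_cast
          rw [← hQ]
          have : 0 ≤ Q / L ^ (B + 2) := by positivity
          linarith
        · rw [if_neg h0, if_neg h0, zero_add]
          have := hG2 a0 ha0
          rw [← hQ] at this
          exact this
      refine h2.trans ?_
      rw [sum_add_distrib, ← sum_filter, sum_const, sum_const, nsmul_eq_mul, nsmul_eq_mul, hprod]
      have h3 : (A 0).filter (fun a0 => a0 ∈ E0) = E0 := by
        ext a; rw [mem_filter]; exact ⟨fun h => h.2, fun h => ⟨hE0 h, h⟩⟩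
      rw [h3]
      have h4 := mul_le_mul_of_nonneg_right hE0c hQ0
      have h5 : 1 / L ^ (B + 1) * ((A 0).card : ℝ) * Q + (A 0).card * (Q / L ^ (B + 2)) = (A 0).card * Q / L ^ B * (1 / L + 1 / L ^ 2) := by
        rw [pow_add, pow_add]; field_simp
      have h6 : 1 / L + 1 / L ^ 2 ≤ 1 := by
        have h7 : 1 / L ≤ 1 / 2 := one_div_le_one_div_of_le (by norm_num) (by linarith)
        have h8 : 1 / L ^ 2 ≤ 1 / 2 := one_div_le_one_div_of_le (by norm_num) (by nlinarith only [hE4, hB0])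
        linarith
      have h7 := mul_le_mul_of_nonneg_left h6 (by positivity : 0 ≤ ((A 0).card : ℝ) * Q / L ^ B)
      linarith
    · intro a ha haE
      rw [hEd, mem_filter, not_and, not_or] at haE
      obtain ⟨h1, h2⟩ := haE ha
      have hap : ∀ j, 0 < a j := fun j => (hA j (a j) (Fintype.mem_piFinset.1 ha j)).1.pos
      rw [Fin.mem_piFinset_iff_zero_tail] at ha
      have h3 := hE0b (a 0) ha.1 h1
      have h4 := hG3 (a 0) ha.1 (Fin.tail a) ha.2 h2
      rw [chs_succ N S w a (prod_pos fun j _ => hap j.succ)]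
      obtain ⟨R, hR⟩ : ∃ R : ℝ, R = ∏ j, (Fin.tail a j : ℝ) := ⟨_, rfl⟩
      have hR0 : 0 ≤ R := by rw [hR]; exact prod_nonneg fun _ _ => Nat.cast_nonneg _
      have hprod : ∏ j, (a j : ℝ) = a 0 * R := by rw [Fin.prod_univ_succ, hR]; rfl
      rw [hprod]
      rw [← hR] at h4
      obtain ⟨X, hX⟩ : ∃ X : ℝ, X = chs (N * a 0) ((range (2 * N * a 0)).filter (fun n => n / a 0 ∈ S))
        (fun n => w (n / a 0) * lp n) (Fin.tail a) := ⟨_, rfl⟩
      obtain ⟨Y, hY⟩ : ∃ Y : ℝ, Y = ∑ n ∈ (range (2 * N * a 0)).filter (fun n => n / a 0 ∈ S), w (n / a 0) * lp n := ⟨_, rfl⟩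
      rw [← hX, ← hY] at h4
      rw [← hY] at h3
      rw [← hX]
      have e1 : X - a 0 * R * ∑ m ∈ S, w m = (X - R * Y) + R * (Y - a 0 * ∑ m ∈ S, w m) := by ring
      rw [e1]
      refine (abs_add_le _ _).trans ?_
      rw [abs_mul, abs_of_nonneg hR0]
      have h5 := mul_le_mul_of_nonneg_left h3 hR0
      have h6 : R * (a 0 * (N * (Λ / L ^ (B + 2)))) + R * (a 0 * (N / L ^ (B + 1))) = a 0 * R * (N / L ^ B) * ((B + 3) / L) := by
        rw [hΛ, pow_add, pow_add]; field_simp; ring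
      have h7 : ((B : ℝ) + 3) / L ≤ 1 := by
        rw [div_le_one hL0]; linarith
      have h8 : 0 ≤ (a 0 : ℝ) * R * (N / L ^ B) := by positivity
      have h9 := mul_le_mul_of_nonneg_left h7 h8
      linarith

end Pool.Agent.H15.JD
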