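import Pool.Agent.H15.JD.Ch

/-! The number of the chains of primes which start at almost every integer. -/

set_option autoImplicit false

namespace Pool.Agent.H15.JD
open Finset Filter

/-- the chains which start at `m` -/
noncomputable def tch {k : ℕ} (a : Fin k → ℕ) (m : ℕ) : ℝ :=
  ∑ n ∈ Ico ((∏ j, a j) * m) ((∏ j, a j) * (m + 1)), ∏ j, lp (n / ∏ i ∈ Ioi j, a i)

lemma sum_fib' (a M : ℕ) (ha : 0 < a) (S : Finset ℕ) (w f : ℕ → ℝ) (hS : ∀ m ∈ S, m < M) :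
    ∑ n ∈ (range (M * a)).filter (fun n => n / a ∈ S), w (n / a) * f n =
      ∑ m ∈ S, w m * ∑ n ∈ Ico (a * m) (a * (m + 1)), f n := by
  rw [← Finset.sum_fiberwise_of_maps_to (g := fun n => n / a) (t := S) (fun n hn => by
    rw [mem_filter] at hn; exact hn.2)]
  apply sum_congr rfl
  intro m hm
  rw [mul_sum]
  have hset : ((range (M * a)).filter (fun n => n / a ∈ S)).filter (fun n => n / a = m) = Ico (a * m) (a * (m + 1)) := by
    ext n
    rw [mem_filter, mem_filter, mem_range, mem_Ico]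
    constructor
    · rintro ⟨_, h⟩
      rw [Nat.div_eq_iff ha] at h
      constructor
      · rw [mul_comm]; exact h.1
      · have := h.2
        rw [mul_add, mul_one, mul_comm a m]
        omega
    · rintro ⟨h1, h2⟩
      have h3 : n / a = m := by
        rw [Nat.div_eq_iff ha]
        rw [mul_comm] at h1
        rw [mul_add, mul_one, mul_comm a m] at h2
        omega
      refine ⟨⟨?_, by rw [h3]; exact hm⟩, h3⟩
      refine lt_of_lt_of_le h2 ?_
      rw [mul_comm]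
      exact Nat.mul_le_mul_right _ (hS m hm)
  rw [hset]
  apply sum_congr rfl
  intro n hn
  rw [mem_Ico] at hn
  have h3 : n / a = m := by
    rw [Nat.div_eq_iff ha]
    obtain ⟨h1, h2⟩ := hn
    rw [mul_comm] at h1
    rw [mul_add, mul_one, mul_comm a m] at h2
    omega
  rw [h3]

lemma chs_fib {k : ℕ} (N : ℕ) (S : Finset ℕ) (w : ℕ → ℝ) (a : Fin k → ℕ) (ha : 0 < ∏ j, a j) (hS : ∀ m ∈ S, m < 2 * N) :
    chs N S w a = ∑ m ∈ S, w m * tch a m := by
  unfold chs tch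
  exact sum_fib' (∏ j, a j) (2 * N) ha S w (fun n => ∏ j, lp (n / ∏ i ∈ Ioi j, a i)) hS

lemma tch_nonneg {k : ℕ} (a : Fin k → ℕ) (m : ℕ) : 0 ≤ tch a m :=
  sum_nonneg fun _ _ => prod_nonneg fun _ _ => lp_nonneg _

lemma tch_le {k : ℕ} (a : Fin k → ℕ) (m : ℕ) (X Λ : ℝ) (hX : 1 ≤ X) (h : (((∏ j, a j) * (m + 1) : ℕ) : ℝ) ≤ X)
    (hΛ : Real.log X ≤ Λ) : tch a m ≤ (∏ j, (a j : ℝ)) * Λ ^ k := by
  unfold tch
  have hΛ0 : 0 ≤ Λ := (Real.log_nonneg hX).trans hΛ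
  have h1 : ∀ n ∈ Ico ((∏ j, a j) * m) ((∏ j, a j) * (m + 1)), ∏ j, lp (n / ∏ i ∈ Ioi j, a i) ≤ Λ ^ k := by
    intro n hn
    rw [mem_Ico] at hn
    have h2 : ∏ j : Fin k, lp (n / ∏ i ∈ Ioi j, a i) ≤ ∏ j : Fin k, Λ := by
      apply Finset.prod_le_prod
      · intro j _; exact lp_nonneg _
      · intro j _
        refine (lp_le _ X ?_ hX).trans hΛ
        have h3 : n / ∏ i ∈ Ioi j, a i ≤ (∏ j, a j) * (m + 1) := (Nat.div_le_self _ _).trans hn.2.le
        exact le_trans (by exact_mod_cast h3) h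
    refine h2.trans (le_of_eq ?_)
    rw [prod_const, card_univ, Fintype.card_fin]
  refine (sum_le_sum h1).trans (le_of_eq ?_)
  rw [sum_const, nsmul_eq_mul, Nat.card_Ico]
  have h4 : (∏ j, a j) * (m + 1) - (∏ j, a j) * m = ∏ j, a j := by
    rw [mul_add, mul_one, Nat.add_sub_cancel_left]
  rw [h4]
  push_cast
  rfl

/-- **The chains which start at almost every integer.** -/
theorem chain_dual (k B : ℕ) : ∃ (C : ℕ) (N₀ : ℝ), ∀ (N : ℕ) (P : Fin k → ℝ) (A : Fin k → Finset ℕ), N₀ ≤ N →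
    (∀ j, Real.log N ^ C ≤ P j) → (∀ j, P j ≤ (N : ℝ) ^ B) →
    (∀ j, ∀ a ∈ A j, a.Prime ∧ P j / 2 < a ∧ (a : ℝ) ≤ P j) → (∀ j, P j / Real.log N ^ B ≤ (A j).card) →
    (((Ico N (2 * N)).filter (fun m => (∑ a ∈ Fintype.piFinset A, ∏ j, (a j : ℝ)) / Real.log N ^ B <
      |∑ a ∈ Fintype.piFinset A, tch a m - ∑ a ∈ Fintype.piFinset A, ∏ j, (a j : ℝ)|)).card : ℝ) ≤ N / Real.log N ^ B := by
  classical
  obtain ⟨C, N₁, hR⟩ := chain k (2 * B + k + 1)
  obtain ⟨c, hc⟩ : ∃ c : ℝ, c = (k : ℝ) * B + 2 := ⟨_, rfl⟩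
  have hc0 : 0 < c := by rw [hc]; positivity
  have hev : ∀ᶠ N : ℝ in atTop, N₁ ≤ N ∧ 1 + 2 ^ k * (c ^ k + 1) ≤ Real.log N ∧ 2 ≤ N :=
    (eventually_ge_atTop _).and ((Real.tendsto_log_atTop.eventually_ge_atTop _).and (eventually_ge_atTop _))
  obtain ⟨N₀, hN₀⟩ := eventually_atTop.1 hev
  refine ⟨C, N₀, ?_⟩
  intro N P A hN hCP hPN hA hcard
  obtain ⟨hE1, hE2, hE3⟩ := hN₀ N hN
  have hck : 0 < 2 ^ k * (c ^ k + 1) := by positivity
  obtain ⟨T, hT⟩ : ∃ T : ℝ, T = ∑ a ∈ Fintype.piFinset A, ∏ j, (a j : ℝ) := ⟨_, rfl⟩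
  rw [← hT]
  obtain ⟨S, hS⟩ : ∃ S : Finset ℕ, S = (Ico N (2 * N)).filter (fun m => T / Real.log N ^ B < |∑ a ∈ Fintype.piFinset A, tch a m - T|) := ⟨_, rfl⟩
  rw [← hS]
  obtain ⟨w, hw⟩ : ∃ w : ℕ → ℝ, w = fun m => if 0 ≤ ∑ a ∈ Fintype.piFinset A, tch a m - T then 1 else -1 := ⟨_, rfl⟩
  have hw1 : ∀ m, |w m| ≤ 1 := by
    intro m
    rw [hw]
    simp only
    split_ifs <;> simp
  have hwm : ∀ m, |∑ a ∈ Fintype.piFinset A, tch a m - T| = w m * (∑ a ∈ Fintype.piFinset A, tch a m - T) := by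
    intro m
    rw [hw]
    simp only
    split_ifs with h
    · rw [abs_of_nonneg h, one_mul]
    · rw [abs_of_neg (not_le.1 h)]; ring
  have hSm : ∀ m ∈ S, N ≤ m ∧ m < 2 * N := by
    intro m hm
    rw [hS, mem_filter, mem_Ico] at hm
    exact hm.1
  have hL1' : 1 ≤ Real.log N := by linarith
  have hR' := hR N P A S w hE1 hCP (fun j => (hPN j).trans (pow_le_pow_right₀ (by linarith) (by omega))) hA
    (by
      intro j
      refine le_trans ?_ (hcard j)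
      have hP0 : 0 ≤ P j := le_trans (by positivity) (hCP j)
      apply div_le_div_of_nonneg_left hP0 (by positivity)
      exact pow_le_pow_right₀ hL1' (by omega)) hSm (fun m _ => hw1 m)
  obtain ⟨E, hE, hEc, hEb⟩ := hR'
  obtain ⟨L, hL⟩ : ∃ L : ℝ, L = Real.log N := ⟨_, rfl⟩
  rw [← hL] at hE2 hCP hcard hS hEc hEb ⊢
  clear hL1'
  have hL1 : 1 ≤ L := by linarith
  have hL0 : 0 < L := by linarith
  have hN0 : (0 : ℝ) < N := by linarith
  have hN1 : (1 : ℝ) ≤ N := by linarith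
  have hP0 : ∀ j, 0 < P j := fun j => lt_of_lt_of_le (by positivity) (hCP j)
  have hapos : ∀ a ∈ Fintype.piFinset A, ∀ j, 0 < a j := fun a ha j => (hA j (a j) (Fintype.mem_piFinset.1 ha j)).1.pos
  have hQpos : ∀ a ∈ Fintype.piFinset A, 0 < ∏ j, a j := fun a ha => prod_pos fun j _ => hapos a ha j
  have hQposR : ∀ a ∈ Fintype.piFinset A, (0 : ℝ) < ∏ j, (a j : ℝ) := fun a ha => prod_pos fun j _ => by exact_mod_cast hapos a ha j
  have hQle : ∀ a ∈ Fintype.piFinset A, ∏ j, (a j : ℝ) ≤ ∏ j, P j := by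
    intro a ha
    apply Finset.prod_le_prod
    · intro j _; exact Nat.cast_nonneg _
    · intro j _; exact (hA j (a j) (Fintype.mem_piFinset.1 ha j)).2.2
  obtain ⟨R, hRd⟩ : ∃ R : ℝ, R = ∏ j, P j := ⟨_, rfl⟩
  rw [← hRd] at hQle
  have hR0 : 0 < R := by rw [hRd]; exact prod_pos fun j _ => hP0 j
  have hRN : R ≤ (N : ℝ) ^ (k * B) := by
    rw [hRd]
    have h1 : ∏ j : Fin k, P j ≤ ∏ j : Fin k, (N : ℝ) ^ B := by
      apply Finset.prod_le_prod
      · intro j _; exact (hP0 j).le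
      · intro j _; exact hPN j
    refine h1.trans (le_of_eq ?_)
    rw [prod_const, card_univ, Fintype.card_fin, ← pow_mul, mul_comm]
  obtain ⟨K, hK⟩ : ∃ K : ℝ, K = ∏ j, ((A j).card : ℝ) := ⟨_, rfl⟩
  rw [← hK] at hEc
  have hK0 : 0 < K := by
    rw [hK]
    apply prod_pos
    intro j _
    refine lt_of_lt_of_le ?_ (hcard j)
    have := hP0 j
    positivity
  -- the lower bound of `T`
  have hTK : K * R ≤ 2 ^ k * T := by
    have h1 : ∀ a ∈ Fintype.piFinset A, R / 2 ^ k ≤ ∏ j, (a j : ℝ) := by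
      intro a ha
      have h2 : ∏ j : Fin k, (P j / 2) ≤ ∏ j, (a j : ℝ) := by
        apply Finset.prod_le_prod
        · intro j _; have := hP0 j; positivity
        · intro j _; exact (hA j (a j) (Fintype.mem_piFinset.1 ha j)).2.1.le
      rw [prod_div_distrib, prod_const, card_univ, Fintype.card_fin, ← hRd] at h2
      exact h2
    have h3 := card_nsmul_le_sum _ _ _ h1
    rw [nsmul_eq_mul, Fintype.card_piFinset, ← hT] at h3
    push_cast at h3
    rw [← hK, ← mul_div_assoc, div_le_iff₀ (by positivity)] at h3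
    linarith
  have hT0 : 0 < T := by
    have h1 : 0 < K * R := by positivity
    have h2 : (0 : ℝ) < 2 ^ k := by positivity
    by_contra hcon
    push Not at hcon
    nlinarith only [h1, h2, hcon, hTK]
  -- the two bounds
  have hlow : S.card * (T / L ^ B) ≤ ∑ a ∈ Fintype.piFinset A, |chs N S w a - (∏ j, (a j : ℝ)) * ∑ m ∈ S, w m| := by
    have h1 : S.card * (T / L ^ B) ≤ ∑ m ∈ S, |∑ a ∈ Fintype.piFinset A, tch a m - T| := by
      rw [← nsmul_eq_mul]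
      apply card_nsmul_le_sum
      intro m hm
      rw [hS, mem_filter] at hm
      exact hm.2.le
    refine h1.trans ?_
    have h2 : ∑ m ∈ S, |∑ a ∈ Fintype.piFinset A, tch a m - T| =
        ∑ a ∈ Fintype.piFinset A, (chs N S w a - (∏ j, (a j : ℝ)) * ∑ m ∈ S, w m) := by
      have h3 : ∀ a ∈ Fintype.piFinset A, chs N S w a - (∏ j, (a j : ℝ)) * ∑ m ∈ S, w m =
          ∑ m ∈ S, w m * (tch a m - ∏ j, (a j : ℝ)) := by
        intro a ha
        rw [chs_fib N S w a (hQpos a ha) (fun m hm => (hSm m hm).2), mul_sum, ← sum_sub_distrib]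
        apply sum_congr rfl
        intro m _
        ring
      rw [sum_congr rfl h3, sum_comm]
      apply sum_congr rfl
      intro m _
      rw [hwm, ← mul_sum, sum_sub_distrib, hT]
    rw [h2]
    exact sum_le_sum fun a _ => le_abs_self _
  obtain ⟨Λ, hΛ⟩ : ∃ Λ : ℝ, Λ = c * L := ⟨_, rfl⟩
  have hΛ0 : 0 < Λ := by rw [hΛ]; positivity
  have hScard : (S.card : ℝ) ≤ N := by
    have h1 : S.card ≤ (Ico N (2 * N)).card := by rw [hS]; exact card_filter_le _ _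
    rw [Nat.card_Ico] at h1
    have h2 : S.card ≤ N := by omega
    exact_mod_cast h2
  have hsw : |∑ m ∈ S, w m| ≤ S.card := by
    refine (abs_sum_le_sum_abs _ _).trans ?_
    refine (sum_le_sum fun m _ => hw1 m).trans ?_
    rw [sum_const, nsmul_eq_mul, mul_one]
  have htriv : ∀ a ∈ Fintype.piFinset A, |chs N S w a - (∏ j, (a j : ℝ)) * ∑ m ∈ S, w m| ≤ R * (N * (Λ ^ k + 1)) := by
    intro a ha
    have hQ := hQposR a ha
    have h1 : |chs N S w a| ≤ S.card * ((∏ j, (a j : ℝ)) * Λ ^ k) := by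
      rw [chs_fib N S w a (hQpos a ha) (fun m hm => (hSm m hm).2)]
      refine (abs_sum_le_sum_abs _ _).trans ?_
      rw [← nsmul_eq_mul]
      apply sum_le_card_nsmul
      intro m hm
      rw [abs_mul, abs_of_nonneg (tch_nonneg a m)]
      have h2 := mul_le_mul_of_nonneg_right (hw1 m) (tch_nonneg a m)
      rw [one_mul] at h2
      refine h2.trans (tch_le a m ((N : ℝ) ^ (k * B + 2)) Λ (one_le_pow₀ hN1) ?_ ?_)
      · push_cast
        rw [pow_add]
        apply mul_le_mul ((hQle a ha).trans hRN) _ (by positivity) (by positivity)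
        have h3 : ((m + 1 : ℕ) : ℝ) ≤ ((2 * N : ℕ) : ℝ) := by exact_mod_cast (hSm m hm).2
        push_cast at h3
        nlinarith only [h3, hE3]
      · rw [Real.log_pow, ← hL, hΛ, hc]
        push_cast
        exact le_rfl
    have h2 : |(∏ j, (a j : ℝ)) * ∑ m ∈ S, w m| ≤ S.card * (∏ j, (a j : ℝ)) := by
      rw [abs_mul, abs_of_pos hQ, mul_comm]
      exact mul_le_mul_of_nonneg_right hsw hQ.le
    refine (abs_sub _ _).trans ?_
    have h3 : S.card * ((∏ j, (a j : ℝ)) * Λ ^ k) + S.card * (∏ j, (a j : ℝ)) = S.card * (∏ j, (a j : ℝ)) * (Λ ^ k + 1) := by ring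
    have h4 : S.card * (∏ j, (a j : ℝ)) * (Λ ^ k + 1) ≤ (N * R) * (Λ ^ k + 1) :=
      mul_le_mul_of_nonneg_right (mul_le_mul hScard (hQle a ha) hQ.le hN0.le) (by positivity)
    linarith
  have hup : ∑ a ∈ Fintype.piFinset A, |chs N S w a - (∏ j, (a j : ℝ)) * ∑ m ∈ S, w m| ≤
      T * (N / L ^ (2 * B + k + 1)) + E.card * (R * (N * (Λ ^ k + 1))) := by
    calc ∑ a ∈ Fintype.piFinset A, |chs N S w a - (∏ j, (a j : ℝ)) * ∑ m ∈ S, w m|
        ≤ ∑ a ∈ Fintype.piFinset A, ((∏ j, (a j : ℝ)) * (N / L ^ (2 * B + k + 1)) + if a ∈ E then R * (N * (Λ ^ k + 1)) else 0) := by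
          apply sum_le_sum
          intro a ha
          have h0 : 0 ≤ (∏ j, (a j : ℝ)) * (N / L ^ (2 * B + k + 1)) := by have := hQposR a ha; positivity
          by_cases haE : a ∈ E
          · rw [if_pos haE]
            have := htriv a ha
            linarith
          · rw [if_neg haE, add_zero]
            exact hEb a ha haE
      _ = _ := by
          rw [sum_add_distrib, ← sum_mul, ← hT, ← sum_filter, sum_const, nsmul_eq_mul]
          congr 3
          have : (Fintype.piFinset A).filter (fun a => a ∈ E) = E := by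
            ext x; rw [mem_filter]; exact ⟨fun h => h.2, fun h => ⟨hE h, h⟩⟩
          rw [this]
  have h1 : E.card * (R * (N * (Λ ^ k + 1))) ≤ (K / L ^ (2 * B + k + 1)) * (R * (N * (Λ ^ k + 1))) :=
    mul_le_mul_of_nonneg_right hEc (by positivity)
  have h2 : (K / L ^ (2 * B + k + 1)) * (R * (N * (Λ ^ k + 1))) ≤ (2 ^ k * T) * (N / L ^ (2 * B + k + 1) * (Λ ^ k + 1)) := by
    have h3 : (K / L ^ (2 * B + k + 1)) * (R * (N * (Λ ^ k + 1))) = (K * R) * (N / L ^ (2 * B + k + 1) * (Λ ^ k + 1)) := by ring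
    rw [h3]
    exact mul_le_mul_of_nonneg_right hTK (by positivity)
  have h3 : S.card * (T / L ^ B) ≤ T * (N / L ^ (2 * B + k + 1)) * (1 + 2 ^ k * (Λ ^ k + 1)) := by linarith
  have h4 : 1 + 2 ^ k * (Λ ^ k + 1) ≤ L ^ (k + 1) := by
    have h5 : Λ ^ k + 1 ≤ (c ^ k + 1) * L ^ k := by
      rw [hΛ, mul_pow]
      have : 1 ≤ L ^ k := one_le_pow₀ hL1
      linarith
    have h6 : 1 + 2 ^ k * (Λ ^ k + 1) ≤ (1 + 2 ^ k * (c ^ k + 1)) * L ^ k := by
      have h7 := mul_le_mul_of_nonneg_left h5 (by positivity : (0 : ℝ) ≤ 2 ^ k)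
      have : 1 ≤ L ^ k := one_le_pow₀ hL1
      linarith
    refine h6.trans ?_
    rw [pow_succ']
    exact mul_le_mul_of_nonneg_right hE2 (by positivity)
  have h5 := mul_le_mul_of_nonneg_left h4 (by positivity : 0 ≤ T * (N / L ^ (2 * B + k + 1)))
  have h6 : T * (N / L ^ (2 * B + k + 1)) * L ^ (k + 1) = (T / L ^ B) * (N / L ^ B) := by
    rw [show 2 * B + k + 1 = B + (B + (k + 1)) by ring, pow_add, pow_add]
    field_simp
  rw [h6] at h5
  have h7 : (T / L ^ B) * S.card ≤ (T / L ^ B) * (N / L ^ B) := by linarith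
  exact le_of_mul_le_mul_left h7 (by positivity)

/-- both forms together -/
theorem chain_both (k B : ℕ) : ∃ (C : ℕ) (N₀ : ℝ), ∀ (N : ℕ) (P : Fin k → ℝ) (A : Fin k → Finset ℕ), N₀ ≤ N →
    (∀ j, Real.log N ^ C ≤ P j) → (∀ j, P j ≤ (N : ℝ) ^ B) →
    (∀ j, ∀ a ∈ A j, a.Prime ∧ P j / 2 < a ∧ (a : ℝ) ≤ P j) → (∀ j, P j / Real.log N ^ B ≤ (A j).card) →
    (∀ (S : Finset ℕ) (w : ℕ → ℝ), (∀ m ∈ S, N ≤ m ∧ m < 2 * N) → (∀ m ∈ S, |w m| ≤ 1) →
      ∃ E ⊆ Fintype.piFinset A, (E.card : ℝ) ≤ (∏ j, ((A j).card : ℝ)) / Real.log N ^ B ∧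
        ∀ a ∈ Fintype.piFinset A, a ∉ E → |∑ m ∈ S, w m * tch a m - (∏ j, (a j : ℝ)) * ∑ m ∈ S, w m| ≤
          (∏ j, (a j : ℝ)) * (N / Real.log N ^ B)) ∧
    (((Ico N (2 * N)).filter (fun m => (∑ a ∈ Fintype.piFinset A, ∏ j, (a j : ℝ)) / Real.log N ^ B <
      |∑ a ∈ Fintype.piFinset A, tch a m - ∑ a ∈ Fintype.piFinset A, ∏ j, (a j : ℝ)|)).card : ℝ) ≤ N / Real.log N ^ B := by
  obtain ⟨C1, N1, h1⟩ := chain k B
  obtain ⟨C2, N2, h2⟩ := chain_dual k B
  have hev : ∀ᶠ N : ℝ in atTop, N1 ≤ N ∧ N2 ≤ N ∧ 1 ≤ Real.log N :=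
    (eventually_ge_atTop _).and ((eventually_ge_atTop _).and (Real.tendsto_log_atTop.eventually_ge_atTop _))
  obtain ⟨N₀, hN₀⟩ := eventually_atTop.1 hev
  refine ⟨max C1 C2, N₀, ?_⟩
  intro N P A hN hCP hPN hA hcard
  obtain ⟨hE1, hE2, hE3⟩ := hN₀ N hN
  refine ⟨?_, h2 N P A hE2 (fun j => (pow_le_pow_right₀ hE3 (le_max_right _ _)).trans (hCP j)) hPN hA hcard⟩
  intro S w hS hw
  obtain ⟨E, hE, hEc, hEb⟩ := h1 N P A S w hE1 (fun j => (pow_le_pow_right₀ hE3 (le_max_left _ _)).trans (hCP j)) hPN hA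
    hcard hS hw
  refine ⟨E, hE, hEc, ?_⟩
  intro a ha haE
  have h3 := hEb a ha haE
  rw [chs_fib N S w a (prod_pos fun j _ => (hA j (a j) (Fintype.mem_piFinset.1 ha j)).1.pos) (fun m hm => (hS m hm).2)] at h3
  exact h3

end Pool.Agent.H15.JD
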