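import Mathlib

/-! The induction over the number of dilations. -/

set_option autoImplicit false

namespace Pool.Agent.H15.JD
open Finset

lemma ind (S : Finset ℝ) (V W ε τ : ℝ) (hV : 1 ≤ V) (hε : 0 ≤ ε) : ∀ (r : ℕ) (A : Fin r → Finset ℕ)
    (D : Fin r → ℕ → ℝ → ℝ), (∀ j, ∀ a ∈ A j, ∀ x ∈ S, |D j a x| ≤ V) →
    (∀ j, ∀ w : ℝ → ℝ, (∀ x ∈ S, |w x| ≤ W) → ∃ E ⊆ A j, (E.card : ℝ) ≤ ε * (A j).card ∧
      ∀ a ∈ A j, a ∉ E → |∑ x ∈ S, w x * (D j a x - 1)| ≤ τ) →
    ∀ (W0 : ℝ) (w : ℝ → ℝ), 0 ≤ W0 → W0 * V ^ r ≤ W → (∀ x ∈ S, |w x| ≤ W0) →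
    ∃ E ⊆ Fintype.piFinset A, (E.card : ℝ) ≤ r * ε * ∏ j, ((A j).card : ℝ) ∧
      ∀ a ∈ Fintype.piFinset A, a ∉ E → |∑ x ∈ S, w x * ∏ j, D j (a j) x - ∑ x ∈ S, w x| ≤ r * τ := by
  classical
  intro r
  induction r with
  | zero =>
    intro A D _ _ W0 w _ _ _
    refine ⟨∅, empty_subset _, by simp, ?_⟩
    intro a _ _
    simp
  | succ r ih =>
    intro A D hD hE W0 w hW0 hW hw
    have hV0 : 0 < V := by linarith
    have hWW : W0 ≤ W := by
      refine le_trans ?_ hW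
      exact le_mul_of_one_le_right hW0 (one_le_pow₀ hV)
    obtain ⟨E0, hE0, hE0c, hE0b⟩ := hE 0 w (fun x hx => (hw x hx).trans hWW)
    have hih : ∀ a0 ∈ A 0, ∃ E ⊆ Fintype.piFinset (Fin.tail A), (E.card : ℝ) ≤ r * ε * ∏ j, ((Fin.tail A j).card : ℝ) ∧
        ∀ a ∈ Fintype.piFinset (Fin.tail A), a ∉ E →
          |∑ x ∈ S, (w x * D 0 a0 x) * ∏ j, Fin.tail D j (a j) x - ∑ x ∈ S, w x * D 0 a0 x| ≤ r * τ := by
      intro a0 ha0
      apply ih (Fin.tail A) (Fin.tail D) (fun j a ha x hx => hD j.succ a ha x hx) (fun j => hE j.succ) (W0 * V)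
        (fun x => w x * D 0 a0 x) (by positivity)
      · rw [mul_assoc, ← pow_succ']; exact hW
      · intro x hx
        rw [abs_mul]
        exact mul_le_mul (hw x hx) (hD 0 a0 ha0 x hx) (abs_nonneg _) hW0
    choose! G hG1 hG2 hG3 using hih
    obtain ⟨E, hEd⟩ : ∃ E : Finset (Fin (r + 1) → ℕ), E = (Fintype.piFinset A).filter (fun a : Fin (r + 1) → ℕ => a 0 ∈ E0 ∨ (Fin.tail a : Fin r → ℕ) ∈ G (a 0)) := ⟨_, rfl⟩
    refine ⟨E, by rw [hEd]; exact filter_subset _ _, ?_, ?_⟩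
    · obtain ⟨Q, hQ⟩ : ∃ Q : ℝ, Q = ∏ j, ((Fin.tail A j).card : ℝ) := ⟨_, rfl⟩
      have hQ0 : 0 ≤ Q := by rw [hQ]; exact prod_nonneg fun _ _ => Nat.cast_nonneg _
      have hprod : ∏ j, ((A j).card : ℝ) = (A 0).card * Q := by
        rw [Fin.prod_univ_succ, hQ]; rfl
      have hsub : E ⊆ (A 0).biUnion (fun a0 => (if a0 ∈ E0 then Fintype.piFinset (Fin.tail A) else G a0).image (fun b => (Fin.cons a0 b : Fin (r + 1) → ℕ))) := by
        intro a ha
        rw [hEd, mem_filter, Fin.mem_piFinset_iff_zero_tail] at ha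
        rw [mem_biUnion]
        refine ⟨a 0, ha.1.1, ?_⟩
        rw [mem_image]
        refine ⟨Fin.tail a, ?_, Fin.cons_self_tail a⟩
        by_cases h0 : a 0 ∈ E0
        · rw [if_pos h0]; exact ha.1.2
        · rw [if_neg h0]
          exact ha.2.resolve_left h0
      have h1 := (card_le_card hsub).trans card_biUnion_le
      have h2 : (E.card : ℝ) ≤ ∑ a0 ∈ A 0, ((if a0 ∈ E0 then Q else 0) + r * ε * Q) := by
        refine ((Nat.cast_le (α := ℝ)).2 h1).trans ?_
        push_cast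
        apply sum_le_sum
        intro a0 ha0
        have h3 : (((if a0 ∈ E0 then Fintype.piFinset (Fin.tail A) else G a0).image (fun b => (Fin.cons a0 b : Fin (r + 1) → ℕ))).card : ℝ) ≤
            ((if a0 ∈ E0 then Fintype.piFinset (Fin.tail A) else G a0).card : ℝ) := by exact_mod_cast card_image_le
        refine h3.trans ?_
        by_cases h0 : a0 ∈ E0
        · rw [if_pos h0, if_pos h0, Fintype.card_piFinset]
          push_cast
          rw [← hQ]
          have : 0 ≤ (r : ℝ) * ε * Q := by positivity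
          linarith
        · rw [if_neg h0, if_neg h0, zero_add]
          have := hG2 a0 ha0
          rw [← hQ] at this
          exact this
      refine h2.trans ?_
      rw [sum_add_distrib, ← sum_filter, sum_const, sum_const, nsmul_eq_mul, nsmul_eq_mul, hprod]
      have h3 : (A 0).filter (fun a0 => a0 ∈ E0) = E0 := by
        ext a; rw [mem_filter]; exact ⟨fun h => h.2, fun h => ⟨hE0 h, h⟩⟩
      rw [h3]
      have h4 := mul_le_mul_of_nonneg_right hE0c hQ0
      push_cast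
      linarith
    · intro a ha haE
      rw [hEd, mem_filter, not_and, not_or] at haE
      obtain ⟨h1, h2⟩ := haE ha
      rw [Fin.mem_piFinset_iff_zero_tail] at ha
      have h3 := hE0b (a 0) ha.1 h1
      have h4 := hG3 (a 0) ha.1 (Fin.tail a) ha.2 h2
      have e1 : ∑ x ∈ S, w x * ∏ j, D j (a j) x - ∑ x ∈ S, w x =
          (∑ x ∈ S, (w x * D 0 (a 0) x) * ∏ j, Fin.tail D j (Fin.tail a j) x - ∑ x ∈ S, w x * D 0 (a 0) x) +
          ∑ x ∈ S, w x * (D 0 (a 0) x - 1) := by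
        have e2 : ∑ x ∈ S, w x * (D 0 (a 0) x - 1) = ∑ x ∈ S, w x * D 0 (a 0) x - ∑ x ∈ S, w x := by
          rw [← sum_sub_distrib]
          apply sum_congr rfl; intro x _; ring
        have e3 : ∑ x ∈ S, w x * ∏ j, D j (a j) x = ∑ x ∈ S, (w x * D 0 (a 0) x) * ∏ j, Fin.tail D j (Fin.tail a j) x := by
          apply sum_congr rfl
          intro x _
          rw [Fin.prod_univ_succ, mul_assoc]
          rfl
        rw [e2, e3]
        ring
      rw [e1]
      refine (abs_add_le _ _).trans ?_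
      push_cast
      linarith

end Pool.Agent.H15.JD
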