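import Pool.Agent.H15.JD.Pts
import Pool.Agent.H15.JD.Ind

/-! For arbitrary weights the windows at almost every dilate are as expected on average. -/

set_option autoImplicit false

namespace Pool.Agent.H15.JD
open Finset Filter Pool.Agent.H15.FD

/-- the number of the points of a separated set -/
lemma card_sep (S : Finset ℝ) (N η : ℝ) (hη : 0 < η) (hN : η ≤ N) (hS : ∀ x ∈ S, N ≤ x ∧ x ≤ 2 * N)
    (hsep : ∀ x ∈ S, ∀ x' ∈ S, x ≠ x' → η ≤ |x - x'|) : (S.card : ℝ) ≤ 2 * (N / η) := by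
  classical
  have hN0 : 0 < N := by linarith
  have h1 : S.card ≤ (range (⌊N / η⌋₊ + 1)).card := by
    apply card_le_card_of_injOn (fun x => ⌊(x - N) / η⌋₊)
    · intro x hx
      have hx' := hS x hx
      simp only [coe_range, Set.mem_Iio]
      rw [Nat.lt_succ_iff]
      apply Nat.floor_le_floor
      exact div_le_div_of_nonneg_right (by linarith) hη.le
    · intro x hx x' hx' hxx
      by_contra hne
      have h2 := hsep x hx x' hx' hne
      simp only at hxx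
      have hx1 := hS x hx
      have hx2 := hS x' hx'
      have f1 := Nat.floor_le (a := (x - N) / η) (div_nonneg (by linarith) hη.le)
      have f2 := Nat.lt_floor_add_one ((x - N) / η)
      have f3 := Nat.floor_le (a := (x' - N) / η) (div_nonneg (by linarith) hη.le)
      have f4 := Nat.lt_floor_add_one ((x' - N) / η)
      rw [← hxx] at f3 f4
      have h3 : |(x - N) / η - (x' - N) / η| < 1 := by rw [abs_lt]; constructor <;> linarith
      rw [← sub_div, abs_div, abs_of_pos hη, div_lt_one hη] at h3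
      have : x - N - (x' - N) = x - x' := by ring
      rw [this] at h3
      linarith
  rw [card_range] at h1
  have h2 : (S.card : ℝ) ≤ ⌊N / η⌋₊ + 1 := by exact_mod_cast h1
  have h3 := Nat.floor_le (a := N / η) (by positivity)
  have h4 : 1 ≤ N / η := by rw [one_le_div hη]; exact hN
  linarith

/-- the trivial bound -/
lemma Th1_le (a : ℕ) (x ℓ Z : ℝ) (hx : 0 ≤ x) (hℓ : 0 ≤ ℓ) (hZ : a * (x + ℓ) ≤ Z) (hZ1 : 1 ≤ Z) :
    Th1 a x ℓ ≤ (a * ℓ + 1) * Real.log Z := by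
  have h0 : (a : ℝ) * x ≤ a * (x + ℓ) := mul_le_mul_of_nonneg_left (by linarith) (Nat.cast_nonneg a)
  have h1 := theta_diff_le (a * x) (a * (x + ℓ)) (by positivity) h0 Z hZ
  rw [theta_sub _ _ (by positivity) h0] at h1
  unfold Th1
  refine h1.trans ?_
  apply mul_le_mul_of_nonneg_right _ (Real.log_nonneg hZ1)
  have h3 : ((Ioc ⌊(a : ℝ) * x⌋₊ ⌊(a : ℝ) * (x + ℓ)⌋₊).filter Nat.Prime).card ≤
      ⌊(a : ℝ) * (x + ℓ)⌋₊ - ⌊(a : ℝ) * x⌋₊ := by
    refine (card_filter_le _ _).trans ?_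
    rw [Nat.card_Ioc]
  have h4 : ((⌊(a : ℝ) * (x + ℓ)⌋₊ - ⌊(a : ℝ) * x⌋₊ : ℕ) : ℝ) ≤ a * ℓ + 1 := by
    rw [Nat.cast_sub (Nat.floor_le_floor h0)]
    have h5 : (⌊(a : ℝ) * (x + ℓ)⌋₊ : ℝ) ≤ a * (x + ℓ) := Nat.floor_le (by positivity)
    have h6 := Nat.lt_floor_add_one ((a : ℝ) * x)
    linarith [mul_add (a : ℝ) x ℓ]
  exact ((Nat.cast_le (α := ℝ)).2 h3).trans h4

/-- one sign -/
lemma dual1 (B B' : ℕ) : ∃ (C : ℕ) (N₀ : ℝ), ∀ (N P η ℓ u : ℝ) (A : Finset ℕ) (S : Finset ℝ) (w : ℝ → ℝ), N₀ ≤ N →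
    Real.log N ^ C ≤ P → P ≤ N ^ B → (∀ a ∈ A, a.Prime ∧ P / 2 < a ∧ (a : ℝ) ≤ P) →
    P / Real.log N ^ (B + B' + 1) ≤ A.card →
    1 / (P * Real.log N ^ B) ≤ η → η ≤ 1 → (∀ x ∈ S, N ≤ x ∧ x ≤ 2 * N) → (∀ x ∈ S, ∀ x' ∈ S, x ≠ x' → η ≤ |x - x'|) →
    0 ≤ u → u ≤ N → η ≤ ℓ → ℓ ≤ N / Real.log N ^ C → (∀ x ∈ S, |w x| ≤ Real.log N ^ B') →
    ∃ a ∈ A, ∑ x ∈ S, w x * (Th1 a (x + u) ℓ / (a * ℓ) - 1) ≤ N / η / Real.log N ^ B' := by
  classical
  obtain ⟨C, N₁, hR⟩ := mean_pts (B + B' + 1) (2 * B' + B + 4)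
  obtain ⟨b, hb⟩ : ∃ b : ℝ, b = (B : ℝ) + 2 := ⟨_, rfl⟩
  have hb2 : 2 ≤ b := by rw [hb]; have : (0 : ℝ) ≤ B := Nat.cast_nonneg B; linarith
  have hev : ∀ᶠ N : ℝ in atTop, N₁ ≤ N ∧ 20 * b + 100 ≤ Real.log N ∧ 100 ≤ N :=
    (eventually_ge_atTop _).and ((Real.tendsto_log_atTop.eventually_ge_atTop _).and (eventually_ge_atTop _))
  obtain ⟨N₀, hN₀⟩ := eventually_atTop.1 hev
  refine ⟨C, N₀, ?_⟩
  intro N P η ℓ u A S w hN hCP hPN hA hcard hη hη1 hS hsep hu0 hu1 hℓ1 hℓ2 hw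
  obtain ⟨hE1, hE2, hE3⟩ := hN₀ N hN
  have hR' := hR N P η ℓ u A S hE1
  obtain ⟨L, hL⟩ : ∃ L : ℝ, L = Real.log N := ⟨_, rfl⟩
  rw [← hL] at hE2 hCP hcard hη hℓ2 hw hR' ⊢
  have hL0 : 0 < L := by linarith
  have hL1 : 1 ≤ L := by linarith
  have hNp : 0 < N := by linarith
  have hP0 : 0 < P := lt_of_lt_of_le (by positivity) hCP
  have hP1 : 1 ≤ P := (one_le_pow₀ hL1).trans hCP
  have hη0 : 0 < η := lt_of_lt_of_le (by positivity) hη
  have hℓ0 : 0 < ℓ := by linarith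
  have hℓN : ℓ ≤ N := hℓ2.trans (div_le_self hNp.le (one_le_pow₀ hL1))
  have hpts := hR' hCP (hPN.trans (pow_le_pow_right₀ (by linarith) (by omega))) hA hcard
    (by
      refine le_trans ?_ hη
      apply one_div_le_one_div_of_le (by positivity)
      exact mul_le_mul_of_nonneg_left (pow_le_pow_right₀ hL1 (by omega)) hP0.le) hη1 hS hsep hu0 hu1 hℓ1 hℓ2
  obtain ⟨T, hT⟩ : ∃ T : ℝ, T = ∑ a ∈ A, (a : ℝ) := ⟨_, rfl⟩
  have hAc : (0 : ℝ) < A.card := lt_of_lt_of_le (by positivity) hcard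
  have hAne : A.Nonempty := by rw [← card_pos]; exact_mod_cast hAc
  have ha0 : ∀ a ∈ A, (0 : ℝ) < a := fun a ha => by exact_mod_cast (hA a ha).1.pos
  have hT0 : 0 < T := by rw [hT]; exact sum_pos ha0 hAne
  rw [← hT] at hpts
  obtain ⟨Bd, hBd⟩ : ∃ Bd : Finset ℝ, Bd = S.filter (fun x => ℓ * T / L ^ (2 * B' + B + 4) < |∑ a ∈ A, Th1 a (x + u) ℓ - ℓ * T|) := ⟨_, rfl⟩
  rw [← hBd] at hpts
  by_contra hcon
  push Not at hcon
  -- the lower bound
  have hlow : ℓ * T * (N / η / L ^ B') < ∑ x ∈ S, w x * (∑ a ∈ A, Th1 a (x + u) ℓ - ℓ * T) := by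
    have h1 : ∑ x ∈ S, w x * (∑ a ∈ A, Th1 a (x + u) ℓ - ℓ * T) =
        ∑ a ∈ A, (a * ℓ) * ∑ x ∈ S, w x * (Th1 a (x + u) ℓ / (a * ℓ) - 1) := by
      have h2 : ∀ a ∈ A, (a * ℓ) * ∑ x ∈ S, w x * (Th1 a (x + u) ℓ / (a * ℓ) - 1) =
          ∑ x ∈ S, w x * (Th1 a (x + u) ℓ - a * ℓ) := by
        intro a ha
        have := ha0 a ha
        rw [mul_sum]
        apply sum_congr rfl
        intro x _
        field_simp
      rw [sum_congr rfl h2, sum_comm]
      apply sum_congr rfl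
      intro x _
      rw [← mul_sum, sum_sub_distrib, hT, mul_sum]
      congr 2
      apply sum_congr rfl; intro a _; ring
    have h3 : ℓ * T * (N / η / L ^ B') = ∑ a ∈ A, (a * ℓ) * (N / η / L ^ B') := by
      rw [← sum_mul, ← sum_mul, hT]; ring
    rw [h1, h3]
    apply sum_lt_sum_of_nonempty hAne
    intro a ha
    have := ha0 a ha
    exact mul_lt_mul_of_pos_left (hcon a ha) (by positivity)
  -- the upper bound
  obtain ⟨V, hV⟩ : ∃ V : ℝ, V = (1 + 2 * L ^ B) * (b * L) + 1 := ⟨_, rfl⟩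
  have hLBB : 1 ≤ L ^ B := one_le_pow₀ hL1
  have hV0 : 0 < V := by rw [hV]; positivity
  have htriv : ∀ x ∈ S, |∑ a ∈ A, Th1 a (x + u) ℓ - ℓ * T| ≤ V * (ℓ * T) := by
    intro x hx
    have hx' := hS x hx
    have hlog : Real.log (4 * (P * N)) ≤ b * L := by
      have h1 : 4 * (P * N) ≤ N ^ (B + 2) := by
        have h2 : 4 * (P * N) ≤ N ^ B * (4 * N) := by
          have := mul_le_mul_of_nonneg_right hPN hNp.le
          linarith
        refine h2.trans ?_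
        rw [pow_add]
        refine mul_le_mul_of_nonneg_left ?_ (by positivity)
        nlinarith only [hE3]
      refine (Real.log_le_log (by positivity) h1).trans (le_of_eq ?_)
      rw [Real.log_pow, ← hL, hb]
      push_cast
      ring
    have hone : ∀ a ∈ A, Th1 a (x + u) ℓ ≤ (1 + 2 * L ^ B) * (b * L) * (a * ℓ) := by
      intro a ha
      have ha' := hA a ha
      have hap := ha0 a ha
      have h4 : (a : ℝ) * (x + u + ℓ) ≤ 4 * (P * N) := by
        have h5 : (a : ℝ) * (x + u + ℓ) ≤ P * (4 * N) := mul_le_mul ha'.2.2 (by linarith) (by linarith) (by linarith)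
        linarith
      have h5 := Th1_le a (x + u) ℓ (4 * (P * N)) (by linarith) hℓ0.le h4 (by nlinarith only [hP1, hE3])
      refine h5.trans ?_
      have h6 : 1 ≤ 2 * L ^ B * (a * ℓ) := by
        have h7 : 1 / (P * L ^ B) ≤ ℓ := hη.trans hℓ1
        rw [div_le_iff₀ (by positivity)] at h7
        have h8 := mul_le_mul_of_nonneg_right ha'.2.1.le (by positivity : 0 ≤ ℓ * L ^ B)
        linarith [show P / 2 * (ℓ * L ^ B) = ℓ * (P * L ^ B) / 2 by ring, show (a : ℝ) * (ℓ * L ^ B) = L ^ B * (a * ℓ) by ring]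
      have h9 : (a : ℝ) * ℓ + 1 ≤ (1 + 2 * L ^ B) * (a * ℓ) := by linarith
      have h10 : 0 ≤ Real.log (4 * (P * N)) := Real.log_nonneg (by nlinarith only [hP1, hE3])
      calc ((a : ℝ) * ℓ + 1) * Real.log (4 * (P * N)) ≤ ((1 + 2 * L ^ B) * (a * ℓ)) * (b * L) :=
            mul_le_mul h9 hlog h10 (by positivity)
        _ = _ := by ring
    have hsum : ∑ a ∈ A, Th1 a (x + u) ℓ ≤ (V - 1) * (ℓ * T) := by
      calc ∑ a ∈ A, Th1 a (x + u) ℓ ≤ ∑ a ∈ A, (1 + 2 * L ^ B) * (b * L) * (a * ℓ) := sum_le_sum hone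
        _ = (V - 1) * (ℓ * T) := by rw [hV, ← mul_sum, ← sum_mul, hT]; ring
    have hsum0 : 0 ≤ ∑ a ∈ A, Th1 a (x + u) ℓ := sum_nonneg fun a _ => Th1_nonneg _ _ _
    have hlT : 0 < ℓ * T := by positivity
    have hV1 : 1 ≤ V := by rw [hV]; have : 0 ≤ (1 + 2 * L ^ B) * (b * L) := by positivity
                           linarith
    rw [abs_le]
    constructor
    · nlinarith only [hsum0, hV1, hlT]
    · linarith [show V * (ℓ * T) = (V - 1) * (ℓ * T) + ℓ * T by ring]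
  have hLB' : 0 < L ^ B' := by positivity
  have hup : ∑ x ∈ S, w x * (∑ a ∈ A, Th1 a (x + u) ℓ - ℓ * T) ≤
      S.card * (L ^ B' * (ℓ * T / L ^ (2 * B' + B + 4))) + Bd.card * (L ^ B' * (V * (ℓ * T))) := by
    calc ∑ x ∈ S, w x * (∑ a ∈ A, Th1 a (x + u) ℓ - ℓ * T)
        ≤ ∑ x ∈ S, (L ^ B' * (ℓ * T / L ^ (2 * B' + B + 4)) + if x ∈ Bd then L ^ B' * (V * (ℓ * T)) else 0) := by
          apply sum_le_sum
          intro x hx
          have h0 : 0 ≤ L ^ B' * (ℓ * T / L ^ (2 * B' + B + 4)) := by positivity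
          have h1 : w x * (∑ a ∈ A, Th1 a (x + u) ℓ - ℓ * T) ≤ L ^ B' * |∑ a ∈ A, Th1 a (x + u) ℓ - ℓ * T| := by
            refine (le_abs_self _).trans ?_
            rw [abs_mul]
            exact mul_le_mul_of_nonneg_right (hw x hx) (abs_nonneg _)
          by_cases hxB : x ∈ Bd
          · rw [if_pos hxB]
            have h2 := mul_le_mul_of_nonneg_left (htriv x hx) hLB'.le
            linarith
          · rw [if_neg hxB, add_zero]
            refine h1.trans (mul_le_mul_of_nonneg_left ?_ hLB'.le)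
            by_contra hc
            push Not at hc
            apply hxB
            rw [hBd, mem_filter]
            exact ⟨hx, hc⟩
      _ = _ := by
          rw [sum_add_distrib, sum_const, nsmul_eq_mul, ← sum_filter, sum_const, nsmul_eq_mul]
          congr 3
          have : S.filter (fun x => x ∈ Bd) = Bd := by
            ext x; rw [mem_filter]; constructor
            · exact fun h => h.2
            · intro h; refine ⟨?_, h⟩; rw [hBd, mem_filter] at h; exact h.1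
          rw [this]
  have hSc := card_sep S N η hη0 (by linarith) hS hsep
  have hNη : 0 < N / η := by positivity
  have hfin : S.card * (L ^ B' * (ℓ * T / L ^ (2 * B' + B + 4))) + Bd.card * (L ^ B' * (V * (ℓ * T))) ≤
      ℓ * T * (N / η / L ^ B') := by
    have h1 : S.card * (L ^ B' * (ℓ * T / L ^ (2 * B' + B + 4))) ≤ (2 * (N / η)) * (L ^ B' * (ℓ * T / L ^ (2 * B' + B + 4))) :=
      mul_le_mul_of_nonneg_right hSc (by positivity)
    have h2 : Bd.card * (L ^ B' * (V * (ℓ * T))) ≤ (N / η / L ^ (2 * B' + B + 4)) * (L ^ B' * (V * (ℓ * T))) :=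
      mul_le_mul_of_nonneg_right hpts (by positivity)
    have h3 : L ^ (2 * B' + B + 4) = L ^ B' * (L ^ B' * L ^ (B + 4)) := by rw [← pow_add, ← pow_add]; congr 1; ring
    have h4 : (2 * (N / η)) * (L ^ B' * (ℓ * T / L ^ (2 * B' + B + 4))) + (N / η / L ^ (2 * B' + B + 4)) * (L ^ B' * (V * (ℓ * T))) =
        ℓ * T * (N / η / L ^ B') * ((2 + V) / L ^ (B + 4)) := by
      rw [h3]; field_simp
    have h5 : (2 + V) / L ^ (B + 4) ≤ 1 := by
      rw [div_le_one (by positivity), hV]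
      have h6 : L ^ (B + 4) = L ^ B * (L * (L * (L * L))) := by rw [pow_add]; ring
      rw [h6]
      have h7 : (1 + 2 * L ^ B) * (b * L) ≤ L ^ B * (L * L) := by
        have h8 : (1 + 2 * L ^ B) * (b * L) ≤ (3 * L ^ B) * (b * L) := mul_le_mul_of_nonneg_right (by linarith) (by positivity)
        have h9 : (3 * L ^ B) * (b * L) = L ^ B * (L * (3 * b)) := by ring
        have h10 : L ^ B * (L * (3 * b)) ≤ L ^ B * (L * L) := by
          apply mul_le_mul_of_nonneg_left _ (by positivity)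
          exact mul_le_mul_of_nonneg_left (by linarith) hL0.le
        linarith
      have h8 : 1 ≤ L ^ B * (L * L) := by nlinarith only [hLBB, hL1]
      have h9 : 4 * (L ^ B * (L * L)) ≤ L ^ B * (L * (L * (L * L))) := by
        have h10 : 4 ≤ L * L := by nlinarith only [hE2, hb2]
        have h11 := mul_le_mul_of_nonneg_left h10 (by positivity : 0 ≤ L ^ B * (L * L))
        linarith
      linarith
    have h6 : 0 ≤ ℓ * T * (N / η / L ^ B') := by positivity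
    have h7 := mul_le_mul_of_nonneg_left h5 h6
    linarith
  linarith

/-- **Duality.** For a given weight almost every dilation is as expected on average. -/
theorem dual (B B' : ℕ) : ∃ (C : ℕ) (N₀ : ℝ), ∀ (N P η ℓ u : ℝ) (A : Finset ℕ) (S : Finset ℝ) (w : ℝ → ℝ), N₀ ≤ N →
    Real.log N ^ C ≤ P → P ≤ N ^ B → (∀ a ∈ A, a.Prime ∧ P / 2 < a ∧ (a : ℝ) ≤ P) → P / Real.log N ^ B ≤ A.card →
    1 / (P * Real.log N ^ B) ≤ η → η ≤ 1 → (∀ x ∈ S, N ≤ x ∧ x ≤ 2 * N) → (∀ x ∈ S, ∀ x' ∈ S, x ≠ x' → η ≤ |x - x'|) →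
    0 ≤ u → u ≤ N → η ≤ ℓ → ℓ ≤ N / Real.log N ^ C → (∀ x ∈ S, |w x| ≤ Real.log N ^ B') →
    ∃ E ⊆ A, (E.card : ℝ) ≤ 1 / Real.log N ^ B' * A.card ∧
      ∀ a ∈ A, a ∉ E → |∑ x ∈ S, w x * (Th1 a (x + u) ℓ / (a * ℓ) - 1)| ≤ N / η / Real.log N ^ B' := by
  classical
  obtain ⟨C, N₁, hR⟩ := dual1 B B'
  have hev : ∀ᶠ N : ℝ in atTop, N₁ ≤ N ∧ 4 ≤ Real.log N :=
    (eventually_ge_atTop _).and (Real.tendsto_log_atTop.eventually_ge_atTop _)
  obtain ⟨N₀, hN₀⟩ := eventually_atTop.1 hev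
  refine ⟨C, N₀, ?_⟩
  intro N P η ℓ u A S w hN hCP hPN hA hcard hη hη1 hS hsep hu0 hu1 hℓ1 hℓ2 hw
  obtain ⟨hE1, hE2⟩ := hN₀ N hN
  have hR1 := fun (A' : Finset ℕ) (w' : ℝ → ℝ) => hR N P η ℓ u A' S w' hE1
  obtain ⟨L, hL⟩ : ∃ L : ℝ, L = Real.log N := ⟨_, rfl⟩
  rw [← hL] at hE2 hCP hcard hη hℓ2 hw hR1 ⊢
  have hL0 : 0 < L := by linarith
  have hL1 : 1 ≤ L := by linarith
  have hP0 : 0 < P := lt_of_lt_of_le (by positivity) hCP
  -- each sign
  have hsgn : ∀ w' : ℝ → ℝ, (∀ x ∈ S, |w' x| ≤ L ^ B') →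
      ((A.filter (fun a => N / η / L ^ B' < ∑ x ∈ S, w' x * (Th1 a (x + u) ℓ / (a * ℓ) - 1))).card : ℝ) ≤ 1 / L ^ B' / 2 * A.card := by
    intro w' hw'
    by_contra hc
    push Not at hc
    have hden : P / L ^ (B + B' + 1) ≤ (A.filter (fun a => N / η / L ^ B' < ∑ x ∈ S, w' x * (Th1 a (x + u) ℓ / (a * ℓ) - 1))).card := by
      refine le_trans ?_ hc.le
      have h1 := mul_le_mul_of_nonneg_left hcard (by positivity : 0 ≤ 1 / L ^ B' / 2)
      refine le_trans ?_ h1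
      have h2 : 1 / L ^ B' / 2 * (P / L ^ B) = P / L ^ (B + B' + 1) * (L / 2) := by
        rw [pow_succ, pow_add]; field_simp
      rw [h2]
      have h3 : 0 ≤ P / L ^ (B + B' + 1) := by positivity
      nlinarith only [h3, hE2]
    obtain ⟨a, ha, hab⟩ := hR1 _ w' hCP hPN (fun a ha => hA a (by rw [mem_filter] at ha; exact ha.1)) hden hη hη1 hS hsep hu0 hu1 hℓ1 hℓ2 hw'
    rw [mem_filter] at ha
    linarith [ha.2]
  have h1 := hsgn w hw
  have h2 := hsgn (fun x => - w x) (fun x hx => by rw [abs_neg]; exact hw x hx)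
  refine ⟨A.filter (fun a => N / η / L ^ B' < ∑ x ∈ S, w x * (Th1 a (x + u) ℓ / (a * ℓ) - 1)) ∪
    A.filter (fun a => N / η / L ^ B' < ∑ x ∈ S, (fun x => - w x) x * (Th1 a (x + u) ℓ / (a * ℓ) - 1)),
    union_subset (filter_subset _ _) (filter_subset _ _), ?_, ?_⟩
  · refine ((Nat.cast_le (α := ℝ)).2 (card_union_le _ _)).trans ?_
    push_cast
    linarith
  · intro a ha haE
    rw [mem_union, mem_filter, mem_filter, not_or, not_and, not_and] at haE
    have h3 := not_lt.1 (haE.1 ha)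
    have h4 := not_lt.1 (haE.2 ha)
    have h5 : ∑ x ∈ S, (fun x => - w x) x * (Th1 a (x + u) ℓ / (a * ℓ) - 1) = - ∑ x ∈ S, w x * (Th1 a (x + u) ℓ / (a * ℓ) - 1) := by
      rw [← sum_neg_distrib]
      apply sum_congr rfl; intro x _; ring
    rw [h5] at h4
    rw [abs_le]
    constructor <;> linarith

end Pool.Agent.H15.JD
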