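import Pool.Agent.H15.JD.Dual

/-! Joint windows at almost all tuples of dilates. -/

set_option autoImplicit false

namespace Pool.Agent.H15.JD
open Finset Filter Pool.Agent.H15.FD

lemma Dn (B : ℕ) (N P η ℓ x : ℝ) (a : ℕ) (hN : 100 ≤ N) (hP1 : 1 ≤ P) (hPN : P ≤ N ^ B) (haP : P / 2 < a) (haP2 : (a : ℝ) ≤ P)
    (hη : 1 / (P * Real.log N ^ B) ≤ η) (hℓ : η ≤ ℓ) (hx0 : 0 ≤ x) (hx : x + ℓ ≤ 4 * N) :
    0 ≤ Th1 a x ℓ / (a * ℓ) ∧ Th1 a x ℓ / (a * ℓ) ≤ (1 + 2 * Real.log N ^ B) * (((B : ℝ) + 2) * Real.log N) := by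
  have hNp : 0 < N := by linarith
  obtain ⟨L, hL⟩ : ∃ L : ℝ, L = Real.log N := ⟨_, rfl⟩
  rw [← hL] at hη ⊢
  have hL0 : 0 < L := by rw [hL]; exact Real.log_pos (by linarith)
  have hP0 : 0 < P := by linarith
  have hη0 : 0 < η := lt_of_lt_of_le (by positivity) hη
  have hℓ0 : 0 < ℓ := by linarith
  have hap : (0 : ℝ) < a := by linarith
  constructor
  · exact div_nonneg (Th1_nonneg _ _ _) (by positivity)
  · rw [div_le_iff₀ (by positivity)]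
    have hlog : Real.log (4 * (P * N)) ≤ ((B : ℝ) + 2) * L := by
      have h1 : 4 * (P * N) ≤ N ^ (B + 2) := by
        have h2 : 4 * (P * N) ≤ N ^ B * (4 * N) := by
          have := mul_le_mul_of_nonneg_right hPN hNp.le
          linarith
        refine h2.trans ?_
        rw [pow_add]
        refine mul_le_mul_of_nonneg_left ?_ (by positivity)
        nlinarith only [hN]
      refine (Real.log_le_log (by positivity) h1).trans (le_of_eq ?_)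
      rw [Real.log_pow, ← hL]
      push_cast
      ring
    have h4 : (a : ℝ) * (x + ℓ) ≤ 4 * (P * N) := by
      have h5 : (a : ℝ) * (x + ℓ) ≤ P * (4 * N) := mul_le_mul haP2 hx (by linarith) (by linarith)
      linarith
    have h5 := Th1_le a x ℓ (4 * (P * N)) hx0 hℓ0.le h4 (by nlinarith only [hP1, hN])
    refine h5.trans ?_
    have h6 : 1 ≤ 2 * L ^ B * (a * ℓ) := by
      have h7 : 1 / (P * L ^ B) ≤ ℓ := hη.trans hℓ
      rw [div_le_iff₀ (by positivity)] at h7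
      have h8 := mul_le_mul_of_nonneg_right haP.le (by positivity : 0 ≤ ℓ * L ^ B)
      linarith [show P / 2 * (ℓ * L ^ B) = ℓ * (P * L ^ B) / 2 by ring, show (a : ℝ) * (ℓ * L ^ B) = L ^ B * (a * ℓ) by ring]
    have h9 : (a : ℝ) * ℓ + 1 ≤ (1 + 2 * L ^ B) * (a * ℓ) := by linarith
    have h10 : 0 ≤ Real.log (4 * (P * N)) := Real.log_nonneg (by nlinarith only [hP1, hN])
    calc ((a : ℝ) * ℓ + 1) * Real.log (4 * (P * N)) ≤ ((1 + 2 * L ^ B) * (a * ℓ)) * (((B : ℝ) + 2) * L) :=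
          mul_le_mul h9 hlog h10 (by positivity)
      _ = _ := by ring

/-- **Joint windows.** -/
theorem joint (B r : ℕ) (hr : 1 ≤ r) : ∃ (C : ℕ) (N₀ : ℝ), ∀ (N η : ℝ) (P : Fin r → ℝ) (A : Fin r → Finset ℕ) (S : Finset ℝ) (w : ℝ → ℝ)
    (u ℓ : Fin r → ℝ), N₀ ≤ N → (∀ j, Real.log N ^ C ≤ P j) → (∀ j, P j ≤ N ^ B) →
    (∀ j, ∀ a ∈ A j, a.Prime ∧ P j / 2 < a ∧ (a : ℝ) ≤ P j) → (∀ j, P j / Real.log N ^ B ≤ (A j).card) →
    (∀ j, 1 / (P j * Real.log N ^ B) ≤ η) → η ≤ 1 → (∀ x ∈ S, N ≤ x ∧ x ≤ 2 * N) →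
    (∀ x ∈ S, ∀ x' ∈ S, x ≠ x' → η ≤ |x - x'|) → (∀ x ∈ S, |w x| ≤ 1) →
    (∀ j, 0 ≤ u j ∧ u j ≤ N) → (∀ j, η ≤ ℓ j ∧ ℓ j ≤ N / Real.log N ^ C) →
    ∃ E : Finset (Fin r → ℕ), E ⊆ Fintype.piFinset A ∧ (E.card : ℝ) ≤ (∏ j, ((A j).card : ℝ)) / Real.log N ^ B ∧
      ∀ a ∈ Fintype.piFinset A, a ∉ E →
        |∑ x ∈ S, w x * ∏ j, Th1 (a j) (x + u j) (ℓ j) - (∏ j, ((a j : ℝ) * ℓ j)) * ∑ x ∈ S, w x| ≤
          (∏ j, ((a j : ℝ) * ℓ j)) * (N / η / Real.log N ^ B) := by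
  classical
  obtain ⟨B', hB'⟩ : ∃ B' : ℕ, B' = (B + 4) * r + B + 1 := ⟨_, rfl⟩
  obtain ⟨C, N₁, hR⟩ := dual B B'
  obtain ⟨b, hb⟩ : ∃ b : ℝ, b = (B : ℝ) + 2 := ⟨_, rfl⟩
  have hb2 : 2 ≤ b := by rw [hb]; have : (0 : ℝ) ≤ B := Nat.cast_nonneg B; linarith
  have hev : ∀ᶠ N : ℝ in atTop, N₁ ≤ N ∧ 20 * b + 100 + r ≤ Real.log N ∧ 100 ≤ N :=
    (eventually_ge_atTop _).and ((Real.tendsto_log_atTop.eventually_ge_atTop _).and (eventually_ge_atTop _))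
  obtain ⟨N₀, hN₀⟩ := eventually_atTop.1 hev
  refine ⟨C, N₀, ?_⟩
  intro N η P A S w u ℓ hN hCP hPN hA hcard hη hη1 hS hsep hw hu hℓ
  obtain ⟨hE1, hE2, hE3⟩ := hN₀ N hN
  have hR1 := fun (j : Fin r) (w' : ℝ → ℝ) => hR N (P j) η (ℓ j) (u j) (A j) S w' hE1 (hCP j) (hPN j) (hA j) (hcard j) (hη j) hη1 hS hsep
    (hu j).1 (hu j).2 (hℓ j).1 (hℓ j).2
  have hbd : ∀ j, ∀ a ∈ A j, ∀ x ∈ S, |Th1 a (x + u j) (ℓ j) / (a * ℓ j)| ≤ Real.log N ^ (B + 4) := by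
    intro j a ha x hx
    have hx' := hS x hx
    have hL1 : 1 ≤ Real.log N := by have : (0 : ℝ) ≤ r := Nat.cast_nonneg r; linarith
    have hP1 : 1 ≤ P j := (one_le_pow₀ hL1).trans (hCP j)
    have hℓN : ℓ j ≤ N := (hℓ j).2.trans (div_le_self (by linarith) (one_le_pow₀ hL1))
    obtain ⟨h1, h2⟩ := Dn B N (P j) η (ℓ j) (x + u j) a hE3 hP1 (hPN j) (hA j a ha).2.1 (hA j a ha).2.2 (hη j) (hℓ j).1
      (by linarith [(hu j).1]) (by linarith [(hu j).2])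
    rw [abs_of_nonneg h1]
    refine h2.trans ?_
    obtain ⟨L, hL⟩ : ∃ L : ℝ, L = Real.log N := ⟨_, rfl⟩
    rw [← hL, ← hb]
    rw [← hL] at hE2 hL1
    have hr0 : (0 : ℝ) ≤ r := Nat.cast_nonneg r
    have hLB : 1 ≤ L ^ B := one_le_pow₀ hL1
    have h3 : (1 + 2 * L ^ B) * (b * L) ≤ (3 * L ^ B) * (L * L) := by
      apply mul_le_mul (by linarith) _ (by positivity) (by positivity)
      exact mul_le_mul_of_nonneg_right (by linarith) (by linarith)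
    refine h3.trans ?_
    rw [pow_add]
    have h4 : 3 ≤ L * L := by nlinarith only [hL1, hE2, hb2, hr0]
    have h5 := mul_le_mul_of_nonneg_left h4 (by positivity : 0 ≤ L ^ B * (L * L))
    linarith [show L ^ B * L ^ 4 = L ^ B * (L * L) * (L * L) by ring]
  obtain ⟨L, hL⟩ : ∃ L : ℝ, L = Real.log N := ⟨_, rfl⟩
  rw [← hL] at hE2 hCP hcard hη hℓ hR1 hbd ⊢
  have hr0 : (0 : ℝ) ≤ r := Nat.cast_nonneg r
  have hL0 : 0 < L := by linarith
  have hL1 : 1 ≤ L := by linarith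
  have hNp : 0 < N := by linarith
  obtain ⟨E, hE, hEc, hEb⟩ := ind S (L ^ (B + 4)) (L ^ B') (1 / L ^ B') (N / η / L ^ B') (one_le_pow₀ hL1) (by positivity) r A
    (fun j a x => Th1 a (x + u j) (ℓ j) / (a * ℓ j)) hbd (fun j w' hw' => hR1 j w' hw') 1 w (by norm_num)
    (by rw [one_mul, ← pow_mul]; exact pow_le_pow_right₀ hL1 (by rw [hB']; omega)) hw
  have hrL : (r : ℝ) / L ^ B' ≤ 1 / L ^ B := by
    rw [div_le_div_iff₀ (by positivity) (by positivity)]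
    have h1 : L ^ B' = L ^ ((B + 4) * r) * (L ^ B * L) := by rw [hB', ← pow_succ, ← pow_add]; congr 1
    have h2 : 1 ≤ L ^ ((B + 4) * r) := one_le_pow₀ hL1
    rw [h1]
    have h3 : (r : ℝ) * L ^ B ≤ L ^ B * L := by
      rw [mul_comm]; exact mul_le_mul_of_nonneg_left (by linarith) (by positivity)
    have h4 : L ^ B * L ≤ L ^ ((B + 4) * r) * (L ^ B * L) := le_mul_of_one_le_left (by positivity) h2
    linarith
  refine ⟨E, hE, ?_, ?_⟩
  · refine hEc.trans ?_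
    have h1 : 0 ≤ ∏ j, ((A j).card : ℝ) := prod_nonneg fun _ _ => Nat.cast_nonneg _
    have h2 := mul_le_mul_of_nonneg_right hrL h1
    linarith [show (r : ℝ) / L ^ B' * ∏ j, ((A j).card : ℝ) = r * (1 / L ^ B') * ∏ j, ((A j).card : ℝ) by ring,
      show 1 / L ^ B * ∏ j, ((A j).card : ℝ) = (∏ j, ((A j).card : ℝ)) / L ^ B by ring]
  · intro a ha haE
    have h1 := hEb a ha haE
    have haA := Fintype.mem_piFinset.1 ha
    have hpos : ∀ j, 0 < (a j : ℝ) * ℓ j := by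
      intro j
      have h2 : (0 : ℝ) < a j := by exact_mod_cast ((hA j _ (haA j)).1).pos
      have h3 : 0 < ℓ j := by
        have h4 := hη j
        have h5 : 0 < P j := lt_of_lt_of_le (by positivity) (hCP j)
        have : 0 < 1 / (P j * L ^ B) := by positivity
        linarith [(hℓ j).1]
      positivity
    obtain ⟨Q, hQ⟩ : ∃ Q : ℝ, Q = ∏ j, ((a j : ℝ) * ℓ j) := ⟨_, rfl⟩
    have hQ0 : 0 < Q := by rw [hQ]; exact prod_pos fun j _ => hpos j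
    have e1 : ∑ x ∈ S, w x * ∏ j, Th1 (a j) (x + u j) (ℓ j) - Q * ∑ x ∈ S, w x =
        Q * (∑ x ∈ S, w x * ∏ j, (Th1 (a j) (x + u j) (ℓ j) / (a j * ℓ j)) - ∑ x ∈ S, w x) := by
      have e2 : ∀ x ∈ S, w x * ∏ j, Th1 (a j) (x + u j) (ℓ j) = Q * (w x * ∏ j, (Th1 (a j) (x + u j) (ℓ j) / (a j * ℓ j))) := by
        intro x _
        rw [prod_div_distrib, ← hQ]
        field_simp
      rw [sum_congr rfl e2, ← mul_sum, ← mul_sub]
    rw [← hQ, e1, abs_mul, abs_of_pos hQ0]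
    apply mul_le_mul_of_nonneg_left _ hQ0.le
    refine h1.trans ?_
    have h4 := hη ⟨0, hr⟩
    have h5 : 0 < P ⟨0, hr⟩ := lt_of_lt_of_le (by positivity) (hCP _)
    have h6 : 0 < 1 / (P ⟨0, hr⟩ * L ^ B) := by positivity
    have h7 : 0 < η := by linarith
    have h2 : 0 ≤ N / η := by positivity
    have h3 := mul_le_mul_of_nonneg_right hrL h2
    linarith [show (r : ℝ) / L ^ B' * (N / η) = r * (N / η / L ^ B') by ring, show 1 / L ^ B * (N / η) = N / η / L ^ B by ring]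

end Pool.Agent.H15.JD
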