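import Pool.Agent.H15.JD.Mo

/-! Windows of logarithmic length at the dilates of a point by typical tuples of primes. -/

set_option autoImplicit false

namespace Pool.Agent.H15.JD
open Finset Filter Pool.Agent.H15.FD

/-- induction over the number of dilations, for an arbitrary sequence of bounds -/
lemma indm (ε : ℝ) (hε : 0 ≤ ε) (S : Finset ℝ) (p : ℕ → ℝ → Prop)
    [∀ a, DecidablePred (p a)] (Φ : ℕ → ℝ) : ∀ (k : ℕ) (A : Fin k → Finset ℕ),
    (∀ j, ∀ F ⊆ S, ∃ E ⊆ A j, (E.card : ℝ) ≤ ε * (A j).card ∧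
      ∀ a ∈ A j, a ∉ E → ∀ i, (F.card : ℝ) ≤ Φ i → ((F.filter (p a)).card : ℝ) ≤ Φ (i + 1)) →
    ∀ F ⊆ S, ∃ E ⊆ Fintype.piFinset A, (E.card : ℝ) ≤ k * ε * ∏ j, ((A j).card : ℝ) ∧
      ∀ a ∈ Fintype.piFinset A, a ∉ E → ∀ i, (F.card : ℝ) ≤ Φ i →
        ((F.filter (fun x => ∀ j, p (a j) x)).card : ℝ) ≤ Φ (i + k) := by
  classical
  intro k
  induction k with
  | zero =>
    intro A _ F _
    refine ⟨∅, empty_subset _, by simp, ?_⟩
    intro a _ _ i hi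
    simpa using hi
  | succ r ih =>
    intro A hE F hF
    obtain ⟨E0, hE0, hE0c, hE0b⟩ := hE 0 F hF
    have hih : ∀ a0 ∈ A 0, ∃ E ⊆ Fintype.piFinset (Fin.tail A), (E.card : ℝ) ≤ r * ε * ∏ j, ((Fin.tail A j).card : ℝ) ∧
        ∀ a ∈ Fintype.piFinset (Fin.tail A), a ∉ E → ∀ i, ((F.filter (p a0)).card : ℝ) ≤ Φ i →
          (((F.filter (p a0)).filter (fun x => ∀ j, p (a j) x)).card : ℝ) ≤ Φ (i + r) := by
      intro a0 _
      exact ih (Fin.tail A) (fun j => hE j.succ) (F.filter (p a0)) ((filter_subset _ _).trans hF)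
    choose! G hG1 hG2 hG3 using hih
    obtain ⟨E, hEd⟩ : ∃ E : Finset (Fin (r + 1) → ℕ), E = (Fintype.piFinset A).filter (fun a : Fin (r + 1) → ℕ => a 0 ∈ E0 ∨ (Fin.tail a : Fin r → ℕ) ∈ G (a 0)) := ⟨_, rfl⟩
    refine ⟨E, by rw [hEd]; exact filter_subset _ _, ?_, ?_⟩
    · obtain ⟨Q, hQ⟩ : ∃ Q : ℝ, Q = ∏ j, ((Fin.tail A j).card : ℝ) := ⟨_, rfl⟩
      have hQ0 : 0 ≤ Q := by rw [hQ]; exact prod_nonneg fun _ _ => Nat.cast_nonneg _
      have hprod : ∏ j, ((A j).card : ℝ) = (A 0).card * Q := by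
        rw [Fin.prod_univ_succ, hQ]; rfl
      have hsub : E ⊆ (A 0).biUnion (fun a0 => (if a0 ∈ E0 then Fintype.piFinset (Fin.tail A) else G a0).image (fun b => (Fin.cons a0 b : Fin (r + 1) → ℕ))) := by
        intro a ha
        rw [hEd, mem_filter, Fin.mem_piFinset_iff_zero_tail] at ha
        rw [mem_biUnion]
        refine ⟨a 0, ha.1.1, ?_⟩
        rw [mem_image]
        refine ⟨Fin.tail a, ?_, Fin.cons_self_tail a⟩
        by_cases h0 : a 0 ∈ E0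
        · rw [if_pos h0]; exact ha.1.2
        · rw [if_neg h0]
          exact ha.2.resolve_left h0
      have h1 := (card_le_card hsub).trans card_biUnion_le
      have h2 : (E.card : ℝ) ≤ ∑ a0 ∈ A 0, ((if a0 ∈ E0 then Q else 0) + r * ε * Q) := by
        refine ((Nat.cast_le (α := ℝ)).2 h1).trans ?_
        push_cast
        apply sum_le_sum
        intro a0 ha0
        have h3 : (((if a0 ∈ E0 then Fintype.piFinset (Fin.tail A) else G a0).image (fun b => (Fin.cons a0 b : Fin (r + 1) → ℕ))).card : ℝ) ≤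
            ((if a0 ∈ E0 then Fintype.piFinset (Fin.tail A) else G a0).card : ℝ) := by exact_mod_cast card_image_le
        refine h3.trans ?_
        by_cases h0 : a0 ∈ E0
        · rw [if_pos h0, if_pos h0, Fintype.card_piFinset]
          push_cast
          rw [← hQ]
          have : 0 ≤ (r : ℝ) * ε * Q := by positivity
          linarith
        · rw [if_neg h0, if_neg h0, zero_add]
          have := hG2 a0 ha0
          rw [← hQ] at this
          exact this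
      refine h2.trans ?_
      rw [sum_add_distrib, ← sum_filter, sum_const, sum_const, nsmul_eq_mul, nsmul_eq_mul, hprod]
      have h3 : (A 0).filter (fun a0 => a0 ∈ E0) = E0 := by
        ext a; rw [mem_filter]; exact ⟨fun h => h.2, fun h => ⟨hE0 h, h⟩⟩
      rw [h3]
      have h4 := mul_le_mul_of_nonneg_right hE0c hQ0
      push_cast
      linarith
    · intro a ha haE i hi
      rw [hEd, mem_filter, not_and, not_or] at haE
      obtain ⟨h1, h2⟩ := haE ha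
      rw [Fin.mem_piFinset_iff_zero_tail] at ha
      have h3 := hE0b (a 0) ha.1 h1 i hi
      have h4 := hG3 (a 0) ha.1 (Fin.tail a) ha.2 h2 (i + 1) h3
      have e1 : F.filter (fun x => ∀ j, p (a j) x) = (F.filter (p (a 0))).filter (fun x => ∀ j, p (Fin.tail a j) x) := by
        ext x
        rw [mem_filter, mem_filter, mem_filter, Fin.forall_fin_succ]
        simp only [Fin.tail]
        tauto
      rw [e1]
      have e2 : i + (r + 1) = i + 1 + r := by omega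
      rw [e2]
      exact h4

/-- the numerical step -/
lemma num_step (M : ℕ) (c K lam R f g : ℝ) (hc : 0 < c) (hK : (M : ℝ) ≤ c * K) (hlam : 0 < lam) (hR : 0 < R)
    (hgf : g ≤ f) (hstep : (c * lam) ^ M * f ^ (M + 1) ≤ (f - g) ^ M * R) (n : ℝ) (hn : 1 ≤ n)
    (hf : f ≤ (K / (lam * n)) ^ M * R) : g ≤ (K / (lam * (n + 1))) ^ M * R := by
  by_contra hcon
  push Not at hcon
  rcases Nat.eq_zero_or_pos M with hM | hM
  · subst hM
    rw [pow_zero, one_mul] at hcon hf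
    linarith
  have hMr : (0 : ℝ) < M := by exact_mod_cast hM
  have hK0 : 0 < K := by
    by_contra h
    push Not at h
    have : c * K ≤ 0 := mul_nonpos_of_nonneg_of_nonpos hc.le h
    linarith
  have hn1 : 0 < n + 1 := by linarith
  have hg1 : 0 < g := lt_of_le_of_lt (by positivity) hcon
  have hf0 : 0 < f := by linarith
  -- f - g > M f / (n + 1)
  have h1 : (c * K * f / (n + 1)) ^ M * R < (f - g) ^ M * R := by
    calc (c * K * f / (n + 1)) ^ M * R = (c * lam * f) ^ M * ((K / (lam * (n + 1))) ^ M * R) := by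
          rw [← mul_assoc, ← mul_pow]
          congr 2
          field_simp
      _ < (c * lam * f) ^ M * f := mul_lt_mul_of_pos_left (lt_of_lt_of_le hcon hgf) (by positivity)
      _ = (c * lam) ^ M * f ^ (M + 1) := by rw [mul_pow (c * lam) f, pow_succ]; ring
      _ ≤ _ := hstep
  have h2 : (c * K * f / (n + 1)) ^ M < (f - g) ^ M := lt_of_mul_lt_mul_right h1 hR.le
  have h3 : c * K * f / (n + 1) < f - g := lt_of_pow_lt_pow_left₀ M (by linarith) h2
  have h4 : M * f / (n + 1) ≤ c * K * f / (n + 1) := by gcongr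
  have h5 : g < f * (1 + M * (-(1 / (n + 1)))) := by
    have e : f * (1 + M * (-(1 / (n + 1)))) = f - M * f / (n + 1) := by field_simp; ring
    rw [e]; linarith
  have h6 : 1 + (M : ℝ) * (-(1 / (n + 1))) ≤ (1 + -(1 / (n + 1))) ^ M := by
    apply one_add_mul_le_pow
    have : 1 / (n + 1) ≤ 1 := by rw [div_le_one hn1]; linarith
    linarith
  have h7 : g < (K / (lam * n)) ^ M * R * (1 + -(1 / (n + 1))) ^ M := by
    calc g < f * (1 + M * (-(1 / (n + 1)))) := h5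
      _ ≤ f * (1 + -(1 / (n + 1))) ^ M := mul_le_mul_of_nonneg_left h6 hf0.le
      _ ≤ _ := by
        apply mul_le_mul_of_nonneg_right hf
        apply pow_nonneg
        have : 1 / (n + 1) ≤ 1 := by rw [div_le_one hn1]; linarith
        linarith
  have h8 : (K / (lam * n)) ^ M * R * (1 + -(1 / (n + 1))) ^ M = (K / (lam * (n + 1))) ^ M * R := by
    have : (K / (lam * n)) ^ M * (1 + -(1 / (n + 1))) ^ M = (K / (lam * (n + 1))) ^ M := by
      rw [← mul_pow]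
      congr 1
      field_simp
      ring
    rw [← this]; ring
  rw [h8] at h7
  linarith

/-- One dilation, windows of logarithmic length. -/
theorem step2 (B B' : ℕ) : ∃ C : ℕ, ∀ (M : ℕ) (δ : ℝ), 1 ≤ M → 0 ≤ δ → δ < 1 → ∃ c : ℝ, 0 < c ∧ ∃ N₀ : ℝ,
    ∀ (N P η lam : ℝ) (q : ℕ) (A : Finset ℕ) (S : Finset ℝ),
    N₀ ≤ N → Real.log N ^ C ≤ P → P ≤ N ^ B → (∀ a ∈ A, a.Prime ∧ P / 2 < a ∧ (a : ℝ) ≤ P) →
    P / Real.log N ^ B ≤ A.card → 0 < lam → lam ≤ 1 → 8 ≤ lam * Real.log N → lam * Real.log N ≤ P * (q * η) → 1 ≤ q →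
    (q : ℝ) ≤ Real.log N ^ B → 0 < η → q * η ≤ 1 →
    (∀ x ∈ S, N ≤ x ∧ x ≤ 2 * N) → (∀ x ∈ S, ∀ x' ∈ S, x ≠ x' → η ≤ |x - x'|) →
    ∃ E ⊆ A, (E.card : ℝ) ≤ 1 / Real.log N ^ (B' + 1) * A.card ∧
      ∀ a ∈ A, a ∉ E → (S.card : ℝ) ≤ N / η / Real.log N ^ B' ∨
        (c * lam) ^ M * (S.card : ℝ) ^ (M + 1) ≤
          (S.card - ((S.filter (fun x => Th1 a x (q * η) ≤ δ * (a * (q * η)))).card : ℝ)) ^ M * (N / η) := by
  classical
  obtain ⟨C₁, N₁, hR⟩ := dual B (B' + 1)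
  refine ⟨C₁, ?_⟩
  intro M δ hM hδ hδ1
  obtain ⟨K₁, hK₁, N₂, hQ⟩ := mom_pts2 B M
  obtain ⟨e, he⟩ : ∃ e : ℝ, e = (1 - δ) / 2 := ⟨_, rfl⟩
  have he0 : 0 < e := by rw [he]; linarith
  obtain ⟨c, hcd⟩ : ∃ c : ℝ, c = min 1 (e ^ (M + 1) / K₁) := ⟨_, rfl⟩
  have hc0 : 0 < c := by rw [hcd]; exact lt_min one_pos (by positivity)
  have hc1 : c ≤ 1 := by rw [hcd]; exact min_le_left _ _
  have hc2 : c * K₁ ≤ e ^ (M + 1) := by
    have : c ≤ e ^ (M + 1) / K₁ := by rw [hcd]; exact min_le_right _ _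
    rwa [le_div_iff₀ hK₁] at this
  have hev : ∀ᶠ N : ℝ in atTop, 1 * Real.log N ^ C₁ ≤ N ^ (1 : ℝ) ∧ (N₁ ≤ N ∧ N₂ ≤ N) ∧ 1 / e ≤ Real.log N ∧ 2 ≤ Real.log N ∧ 100 ≤ N :=
    (Pool.Agent.H15.FD.ev_pow _ _ 1 one_pos).and (((eventually_ge_atTop _).and (eventually_ge_atTop _)).and
      ((Real.tendsto_log_atTop.eventually_ge_atTop _).and ((Real.tendsto_log_atTop.eventually_ge_atTop _).and (eventually_ge_atTop _))))
  obtain ⟨N₀, hN₀⟩ := eventually_atTop.1 hev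
  refine ⟨c, hc0, N₀, ?_⟩
  intro N P η lam q A S hN hCP hPN hA hcard hlam hlam1 hlam8 hlamP hq hqB hη0 hqη hS hsep
  obtain ⟨hE0, ⟨hE1, hE2⟩, hE3, hE4, hE5⟩ := hN₀ N hN
  obtain ⟨L, hL⟩ : ∃ L : ℝ, L = Real.log N := ⟨_, rfl⟩
  have hL1 : 1 ≤ L := by rw [hL]; linarith
  have hL0 : 0 < L := by linarith
  have hNp : 0 < N := by linarith
  have hP1 : 1 ≤ P := by
    have h1 : 1 ≤ Real.log N ^ C₁ := by rw [← hL]; exact one_le_pow₀ hL1
    linarith
  have hq1 : (1 : ℝ) ≤ q := by exact_mod_cast hq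
  have hη1 : η ≤ 1 := (le_mul_of_one_le_left hη0.le hq1).trans hqη
  have hη' : 1 / (P * L ^ B) ≤ η := by
    rw [div_le_iff₀ (by positivity)]
    have h1 : 1 ≤ P * (q * η) := by linarith
    rw [← hL] at hqB
    calc (1 : ℝ) ≤ P * (q * η) := h1
      _ = (P * η) * q := by ring
      _ ≤ (P * η) * L ^ B := mul_le_mul_of_nonneg_left hqB (by positivity)
      _ = _ := by ring
  obtain ⟨ℓ, hℓd⟩ : ∃ ℓ : ℝ, ℓ = q * η := ⟨_, rfl⟩
  have hℓη : η ≤ ℓ := by rw [hℓd]; exact le_mul_of_one_le_left hη0.le hq1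
  have hℓ0 : 0 < ℓ := by linarith
  have hℓ : ℓ ≤ N / L ^ C₁ := by
    rw [hℓd]
    refine hqη.trans ?_
    rw [le_div_iff₀ (by positivity)]
    rw [Real.rpow_one, one_mul] at hE0
    rw [one_mul, hL]; exact hE0
  obtain ⟨E, hE, hEc, hEb⟩ := hR N P η ℓ 0 A S (fun _ => 1) hE1 hCP hPN hA hcard (by rw [← hL]; exact hη') hη1 hS hsep
    le_rfl hNp.le hℓη (by rw [← hL]; exact hℓ) (fun x _ => by rw [abs_one, ← hL]; exact one_le_pow₀ hL1)
  refine ⟨E, hE, hEc, ?_⟩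
  intro a ha haE
  rcases le_or_gt (S.card : ℝ) (N / η / Real.log N ^ B') with hsm | hlg
  · left; exact hsm
  right
  have h1 := hEb a ha haE
  simp only [add_zero, one_mul] at h1
  have haP := hA a ha
  have hap : (0 : ℝ) < a := by linarith
  have haη : 0 < (a : ℝ) * ℓ := by positivity
  have h2 := hQ N P η lam q a S hE2 hPN haP.2.1 haP.2.2 hlam hlam1 hlam8 hlamP hq hη0 hqη hS hsep
  rw [← hℓd] at h2 ⊢
  rw [← hL] at h1 hlg
  obtain ⟨R, hRd⟩ : ∃ R : ℝ, R = N / η := ⟨_, rfl⟩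
  rw [← hRd] at h1 h2 hlg ⊢
  have hR0 : 0 < R := by rw [hRd]; positivity
  obtain ⟨Z, hZ⟩ : ∃ Z : Finset ℝ, Z = S.filter (fun x => Th1 a x ℓ ≤ δ * (a * ℓ)) := ⟨_, rfl⟩
  rw [← hZ]
  have hZS : Z ⊆ S := by rw [hZ]; exact filter_subset _ _
  obtain ⟨s, hs⟩ : ∃ s : ℝ, s = S.card := ⟨_, rfl⟩
  obtain ⟨z, hz⟩ : ∃ z : ℝ, z = Z.card := ⟨_, rfl⟩
  rw [sum_sub_distrib, sum_const, nsmul_eq_mul, mul_one, ← hs] at h1
  rw [← hs] at hlg ⊢
  rw [← hz]
  have hz0 : 0 ≤ z := by rw [hz]; exact Nat.cast_nonneg _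
  have hzs : z ≤ s := by rw [hz, hs]; exact_mod_cast card_le_card hZS
  have hcsd : ((S \ Z).card : ℝ) = s - z := by
    rw [card_sdiff_of_subset hZS, Nat.cast_sub (card_le_card hZS), hs, hz]
  have h3 := (abs_le.1 h1).1
  -- split the sum
  have h4 : ∑ x ∈ S, Th1 a x ℓ / (a * ℓ) = ∑ x ∈ S \ Z, Th1 a x ℓ / (a * ℓ) + ∑ x ∈ Z, Th1 a x ℓ / (a * ℓ) :=
    (sum_sdiff hZS).symm
  have h5 : ∑ x ∈ Z, Th1 a x ℓ / (a * ℓ) ≤ δ * z := by
    have h6 : ∀ x ∈ Z, Th1 a x ℓ / (a * ℓ) ≤ δ := by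
      intro x hx
      rw [hZ, mem_filter] at hx
      rw [div_le_iff₀ haη]; exact hx.2
    have h7 := sum_le_card_nsmul _ _ _ h6
    rw [nsmul_eq_mul, ← hz] at h7
    linarith
  obtain ⟨D, hD⟩ : ∃ D : ℝ, D = ∑ x ∈ S \ Z, Th1 a x ℓ / (a * ℓ) := ⟨_, rfl⟩
  rw [← hD] at h4
  have hDm : D ^ (M + 1) ≤ (s - z) ^ M * (K₁ / lam ^ M * R) := by
    rw [hD, ← hcsd]
    refine (pow_sum_le_card_mul_sum_pow (fun x _ => div_nonneg (Th1_nonneg _ _ _) haη.le) M).trans ?_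
    apply mul_le_mul_of_nonneg_left _ (by positivity)
    refine le_trans ?_ h2
    apply sum_le_sum_of_subset_of_nonneg sdiff_subset
    intro x _ _
    exact pow_nonneg (div_nonneg (Th1_nonneg _ _ _) haη.le) _
  have hs0 : 0 < s := lt_of_le_of_lt (by positivity) hlg
  -- the lower bound for D
  have hτ : R / L ^ (B' + 1) ≤ e * s := by
    rw [div_le_iff₀ (by positivity)]
    have h6 : R < s * L ^ B' := by rwa [div_lt_iff₀ (by positivity)] at hlg
    have h7 : 1 ≤ e * L := by rw [div_le_iff₀ he0] at hE3; rw [hL]; linarith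
    calc R ≤ (s * L ^ B') * 1 := by rw [mul_one]; exact h6.le
      _ ≤ (s * L ^ B') * (e * L) := mul_le_mul_of_nonneg_left h7 (by positivity)
      _ = _ := by rw [pow_succ]; ring
  have hDl : e * s ≤ D := by
    have h6 : δ * z ≤ s - 2 * e * s := by
      have h7 := mul_le_mul_of_nonneg_left hzs hδ
      have h8 : 2 * e = 1 - δ := by rw [he]; ring
      rw [h8]; linarith
    linarith
  have hDm2 : (e * s) ^ (M + 1) ≤ (s - z) ^ M * (K₁ / lam ^ M * R) :=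
    (pow_le_pow_left₀ (by positivity) hDl _).trans hDm
  have h6 : (c * lam) ^ M * s ^ (M + 1) * K₁ ≤ (s - z) ^ M * R * K₁ := by
    have h7 : (c * lam) ^ M * s ^ (M + 1) * K₁ ≤ lam ^ M * (e * s) ^ (M + 1) := by
      rw [mul_pow, mul_pow e s]
      have h8 : c ^ M ≤ c := pow_le_of_le_one hc0.le hc1 (by omega)
      have h9 : c ^ M * K₁ ≤ e ^ (M + 1) := (mul_le_mul_of_nonneg_right h8 hK₁.le).trans hc2
      calc c ^ M * lam ^ M * s ^ (M + 1) * K₁ = (lam ^ M * s ^ (M + 1)) * (c ^ M * K₁) := by ring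
        _ ≤ (lam ^ M * s ^ (M + 1)) * e ^ (M + 1) := mul_le_mul_of_nonneg_left h9 (by positivity)
        _ = _ := by ring
    calc (c * lam) ^ M * s ^ (M + 1) * K₁ ≤ lam ^ M * (e * s) ^ (M + 1) := h7
      _ ≤ lam ^ M * ((s - z) ^ M * (K₁ / lam ^ M * R)) := mul_le_mul_of_nonneg_left hDm2 (by positivity)
      _ = _ := by field_simp
  exact le_of_mul_le_mul_right h6 hK₁

/-- **Windows of logarithmic length.** -/
theorem logwin (B : ℕ) : ∃ C : ℕ, ∀ (M : ℕ) (δ : ℝ), 1 ≤ M → 0 ≤ δ → δ < 1 → ∃ K N₀ : ℝ, 0 < K ∧ ∀ (N η lam : ℝ) (q k : ℕ)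
    (P : Fin k → ℝ) (A : Fin k → Finset ℕ) (S : Finset ℝ), N₀ ≤ N → 1 ≤ k → (k : ℝ) ≤ Real.log N ^ B →
    (∀ j, Real.log N ^ C ≤ P j) → (∀ j, P j ≤ N ^ B) →
    (∀ j, ∀ a ∈ A j, a.Prime ∧ P j / 2 < a ∧ (a : ℝ) ≤ P j) → (∀ j, P j / Real.log N ^ B ≤ (A j).card) →
    lam ≤ 1 → 8 ≤ lam * Real.log N → (∀ j, lam * Real.log N ≤ P j * (q * η)) → 1 ≤ q → (q : ℝ) ≤ Real.log N ^ B →
    0 < η → q * η ≤ 1 →
    (∀ x ∈ S, N ≤ x ∧ x ≤ 2 * N) → (∀ x ∈ S, ∀ x' ∈ S, x ≠ x' → η ≤ |x - x'|) →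
    ∃ E : Finset (Fin k → ℕ), E ⊆ Fintype.piFinset A ∧ (E.card : ℝ) ≤ (∏ j, ((A j).card : ℝ)) / Real.log N ^ B ∧
      ∀ a ∈ Fintype.piFinset A, a ∉ E → ∀ F ⊆ S, (∀ x ∈ F, ∀ j, Th1 (a j) x (q * η) ≤ δ * (a j * (q * η))) →
        (F.card : ℝ) ≤ ((K / (lam * k)) ^ M + 1 / Real.log N ^ B) * (N / η) := by
  classical
  obtain ⟨C, hC⟩ := step2 B (2 * B)
  refine ⟨C, ?_⟩
  intro M δ hM hδ hδ1
  obtain ⟨c, hc, N₁, hR⟩ := hC M δ hM hδ hδ1
  obtain ⟨K, hKd⟩ : ∃ K : ℝ, K = max 2 (M / c) := ⟨_, rfl⟩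
  have hK2 : 2 ≤ K := by rw [hKd]; exact le_max_left _ _
  have hKc : (M : ℝ) ≤ c * K := by
    have : M / c ≤ K := by rw [hKd]; exact le_max_right _ _
    rw [div_le_iff₀ hc] at this
    linarith
  have hev : ∀ᶠ N : ℝ in atTop, N₁ ≤ N ∧ 1 ≤ Real.log N ∧ 1 ≤ N :=
    (eventually_ge_atTop _).and ((Real.tendsto_log_atTop.eventually_ge_atTop _).and (eventually_ge_atTop _))
  obtain ⟨N₀, hN₀⟩ := eventually_atTop.1 hev
  refine ⟨K, N₀, by linarith, ?_⟩
  intro N η lam q k P A S hN hk1 hk hCP hPN hA hcard hlam1 hlam8 hlamP hq hqB hη0 hqη hS hsep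
  have hq1 : (1 : ℝ) ≤ q := by exact_mod_cast hq
  have hη1 : η ≤ 1 := (le_mul_of_one_le_left hη0.le hq1).trans hqη
  obtain ⟨hE1, hE2, hE3⟩ := hN₀ N hN
  have hNp : 0 < N := by linarith
  have hlam : 0 < lam := by
    by_contra h
    push Not at h
    have : lam * Real.log N ≤ 0 := mul_nonpos_of_nonpos_of_nonneg h (by linarith)
    linarith
  obtain ⟨L, hL⟩ : ∃ L : ℝ, L = Real.log N := ⟨_, rfl⟩
  obtain ⟨R, hRd⟩ : ∃ R : ℝ, R = N / η := ⟨_, rfl⟩
  have hR0 : 0 < R := by rw [hRd]; positivity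
  obtain ⟨Φ, hΦ⟩ : ∃ Φ : ℕ → ℝ, Φ = fun i : ℕ => max ((K / (lam * (i + 1))) ^ M * R) (R / L ^ (2 * B)) := ⟨_, rfl⟩
  have hR1 : ∀ j, ∀ F ⊆ S, ∃ E ⊆ A j, (E.card : ℝ) ≤ 1 / L ^ (2 * B + 1) * (A j).card ∧
      ∀ a ∈ A j, a ∉ E → ∀ i, (F.card : ℝ) ≤ Φ i → ((F.filter (fun x => Th1 a x (q * η) ≤ δ * (a * (q * η)))).card : ℝ) ≤ Φ (i + 1) := by
    intro j F hF
    obtain ⟨E, hE, hEc, hEb⟩ := hR N (P j) η lam q (A j) F hE1 (hCP j) (hPN j) (hA j) (hcard j) hlam hlam1 hlam8 (hlamP j) hq hqB hη0 hqη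
      (fun x hx => hS x (hF hx)) (fun x hx x' hx' => hsep x (hF hx) x' (hF hx'))
    rw [← hL, ← hRd] at hEb
    rw [← hL] at hEc
    refine ⟨E, hE, hEc, ?_⟩
    intro a ha haE i hi
    have hle : ((F.filter (fun x => Th1 a x (q * η) ≤ δ * (a * (q * η)))).card : ℝ) ≤ F.card := by exact_mod_cast card_filter_le _ _
    have hΦi : Φ i = max ((K / (lam * (i + 1))) ^ M * R) (R / L ^ (2 * B)) := by rw [hΦ]
    have hΦi1 : Φ (i + 1) = max ((K / (lam * ((i + 1 : ℕ) + 1))) ^ M * R) (R / L ^ (2 * B)) := by rw [hΦ]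
    rw [hΦi1]
    rcases le_or_gt (F.card : ℝ) (R / L ^ (2 * B)) with h | h
    · exact (hle.trans h).trans (le_max_right _ _)
    · have h1 := (hEb a ha haE).resolve_left (by linarith)
      rw [hΦi] at hi
      have h2 : (F.card : ℝ) ≤ (K / (lam * (i + 1))) ^ M * R := by
        rcases le_max_iff.1 hi with h3 | h3
        · exact h3
        · linarith
      have h3 := num_step M c K lam R F.card _ hc hKc hlam hR0 hle h1 ((i : ℝ) + 1) (by have : (0 : ℝ) ≤ i := Nat.cast_nonneg i; linarith) h2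
      refine le_trans ?_ (le_max_left _ _)
      push_cast
      exact h3
  obtain ⟨E, hE, hEc, hEb⟩ := indm (1 / L ^ (2 * B + 1)) (by rw [hL]; positivity) S (fun a x => Th1 a x (q * η) ≤ δ * (a * (q * η))) Φ k A hR1 S Subset.rfl
  rw [← hL] at hk hE2 ⊢
  rw [← hRd]
  have hL0 : 0 < L := by linarith
  have hLB : 0 < L ^ B := by positivity
  have hkL : (k : ℝ) * (1 / L ^ (2 * B + 1)) ≤ 1 / L ^ B := by
    rw [mul_one_div, div_le_div_iff₀ (by positivity) (by positivity), pow_succ, two_mul, pow_add, one_mul]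
    have h1 := mul_le_mul_of_nonneg_right hk hLB.le
    have h2 : L ^ B * L ^ B ≤ L ^ B * L ^ B * L := le_mul_of_one_le_right (by positivity) hE2
    linarith
  refine ⟨E, hE, ?_, ?_⟩
  · refine hEc.trans ?_
    have h1 : 0 ≤ ∏ j, ((A j).card : ℝ) := prod_nonneg fun _ _ => Nat.cast_nonneg _
    have h2 := mul_le_mul_of_nonneg_right hkL h1
    linarith [show 1 / L ^ B * ∏ j, ((A j).card : ℝ) = (∏ j, ((A j).card : ℝ)) / L ^ B by ring]
  · intro a ha haE F hF hFp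
    have hS0 : (S.card : ℝ) ≤ Φ 0 := by
      have h1 := card_sep S N η hη0 (by linarith) hS hsep
      have h2 : Φ 0 = max ((K / (lam * ((0 : ℕ) + 1))) ^ M * R) (R / L ^ (2 * B)) := by rw [hΦ]
      rw [h2]
      refine le_trans ?_ (le_max_left _ _)
      rw [← hRd] at h1
      refine h1.trans ?_
      apply mul_le_mul_of_nonneg_right _ hR0.le
      push_cast
      rw [zero_add, mul_one]
      have h3 : 2 ≤ K / lam := by rw [le_div_iff₀ hlam]; linarith [mul_le_of_le_one_right (show (0 : ℝ) ≤ 2 by norm_num) hlam1]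
      calc (2 : ℝ) ≤ K / lam := h3
        _ ≤ (K / lam) ^ M := le_self_pow₀ (by linarith) (by omega)
    have h1 := hEb a ha haE 0 hS0
    rw [zero_add] at h1
    have hsub : F ⊆ S.filter (fun x => ∀ j, Th1 (a j) x (q * η) ≤ δ * (a j * (q * η))) := by
      intro x hx
      rw [mem_filter]
      exact ⟨hF hx, fun j => hFp x hx j⟩
    have h2 : (F.card : ℝ) ≤ ((S.filter (fun x => ∀ j, Th1 (a j) x (q * η) ≤ δ * (a j * (q * η)))).card : ℝ) := by exact_mod_cast card_le_card hsub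
    refine h2.trans (h1.trans ?_)
    have h3 : Φ k = max ((K / (lam * (k + 1))) ^ M * R) (R / L ^ (2 * B)) := by rw [hΦ]
    rw [h3]
    have hk0 : (0 : ℝ) < k := by exact_mod_cast hk1
    apply max_le
    · have h4 : (K / (lam * (k + 1))) ^ M ≤ (K / (lam * k)) ^ M := by
        apply pow_le_pow_left₀ (by positivity)
        apply div_le_div_of_nonneg_left (by linarith) (by positivity)
        apply mul_le_mul_of_nonneg_left _ hlam.le
        linarith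
      have h5 : 0 ≤ 1 / L ^ B := by positivity
      apply mul_le_mul_of_nonneg_right _ hR0.le
      linarith
    · have h4 : R / L ^ (2 * B) ≤ 1 / L ^ B * R := by
        rw [div_mul_eq_mul_div, one_mul]
        apply div_le_div_of_nonneg_left hR0.le hLB
        exact pow_le_pow_right₀ hE2 (by omega)
      have h5 : 0 ≤ (K / (lam * k)) ^ M := by positivity
      refine h4.trans ?_
      apply mul_le_mul_of_nonneg_right _ hR0.le
      linarith

end Pool.Agent.H15.JD
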