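import Pool.Agent.H15.JD.Qt

/-! Every further dilation leaves at most about three quarters of the points without a prime. -/

set_option autoImplicit false

namespace Pool.Agent.H15.JD
open Finset Filter Pool.Agent.H15.FD

/-- One dilation: at most about three quarters of the points have no prime in their windows. -/
theorem step (B B' : ℕ) (δ ε : ℝ) (hδ1 : δ ≤ 1) (hε : 0 < ε) (hε1 : ε ≤ 1) : ∃ (C : ℕ) (N₀ : ℝ), ∀ (N P η : ℝ) (A : Finset ℕ) (S : Finset ℝ),
    N₀ ≤ N → Real.log N ^ C ≤ P → P ≤ N ^ B → (∀ a ∈ A, a.Prime ∧ P / 2 < a ∧ (a : ℝ) ≤ P) →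
    P / Real.log N ^ B ≤ A.card → Real.log N ^ C / P ≤ η → η ≤ 1 → (∀ x ∈ S, N ≤ x ∧ x ≤ 2 * N) →
    (∀ x ∈ S, ∀ x' ∈ S, x ≠ x' → η ≤ |x - x'|) →
    ∃ E ⊆ A, (E.card : ℝ) ≤ 1 / Real.log N ^ B' * A.card ∧
      ∀ a ∈ A, a ∉ E → ((S.filter (fun x => Th1 a x η ≤ δ * (a * η))).card : ℝ) ≤
        (3 / (4 - δ) + ε) * S.card + N / η / Real.log N ^ B' := by
  classical
  obtain ⟨B₂, hB₂⟩ : ∃ B₂ : ℕ, B₂ = B + B' + 5 := ⟨_, rfl⟩
  obtain ⟨C₁, N₁, hR⟩ := dual B (B' + 1)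
  obtain ⟨N₂, hQ⟩ := bad_pts B B₂ ε hε hε1
  obtain ⟨b, hb⟩ : ∃ b : ℝ, b = (B : ℝ) + 2 := ⟨_, rfl⟩
  have hb2 : 2 ≤ b := by rw [hb]; have : (0 : ℝ) ≤ B := Nat.cast_nonneg B; linarith
  have hev : ∀ᶠ N : ℝ in atTop, 1 * Real.log N ^ C₁ ≤ N ^ (1 : ℝ) ∧ (N₁ ≤ N ∧ N₂ ≤ N) ∧ 20 * b + 100 ≤ Real.log N ∧ 100 ≤ N :=
    (Pool.Agent.H15.FD.ev_pow _ _ 1 one_pos).and (((eventually_ge_atTop _).and (eventually_ge_atTop _)).and
      ((Real.tendsto_log_atTop.eventually_ge_atTop _).and (eventually_ge_atTop _)))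
  obtain ⟨N₀, hN₀⟩ := eventually_atTop.1 hev
  refine ⟨C₁ + B₂ + 21, N₀, ?_⟩
  intro N P η A S hN hCP hPN hA hcard hη hη1 hS hsep
  obtain ⟨hE0, ⟨hE1, hE2⟩, hE3, hE4⟩ := hN₀ N hN
  obtain ⟨L, hL⟩ : ∃ L : ℝ, L = Real.log N := ⟨_, rfl⟩
  have hL1 : 1 ≤ L := by rw [hL]; linarith
  have hL0 : 0 < L := by linarith
  have hNp : 0 < N := by linarith
  have hCP' : L ^ C₁ ≤ P := by
    rw [hL]; refine le_trans ?_ hCP
    rw [hL] at hL1
    exact pow_le_pow_right₀ hL1 (by omega)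
  have hP1 : 1 ≤ P := (one_le_pow₀ hL1).trans hCP'
  have hP0 : 0 < P := by linarith
  have hPη : L ^ (C₁ + B₂ + 21) ≤ η * P := by
    rw [div_le_iff₀ hP0] at hη; rw [hL]; exact hη
  have hη0 : 0 < η := by
    have h1 : 0 < η * P := lt_of_lt_of_le (by positivity) hPη
    exact pos_of_mul_pos_left h1 hP0.le
  have hη' : 1 / (P * L ^ B) ≤ η := by
    rw [div_le_iff₀ (by positivity)]
    have h1 : 1 ≤ η * P := (one_le_pow₀ hL1).trans hPη
    have h2 : 1 ≤ L ^ B := one_le_pow₀ hL1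
    calc (1 : ℝ) ≤ (η * P) * L ^ B := by nlinarith only [h1, h2]
      _ = _ := by ring
  have hℓ : η ≤ N / L ^ C₁ := by
    refine hη1.trans ?_
    rw [le_div_iff₀ (by positivity)]
    rw [Real.rpow_one, one_mul] at hE0
    rw [one_mul, hL]; exact hE0
  obtain ⟨E, hE, hEc, hEb⟩ := hR N P η η 0 A S (fun _ => 1) hE1 (by rw [← hL]; exact hCP') hPN hA hcard (by rw [← hL]; exact hη') hη1 hS hsep
    le_rfl hNp.le le_rfl (by rw [← hL]; exact hℓ) (fun x _ => by rw [abs_one, ← hL]; exact one_le_pow₀ hL1)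
  rw [← hL] at hEc hEb ⊢
  refine ⟨E, hE, ?_, ?_⟩
  · refine hEc.trans ?_
    apply mul_le_mul_of_nonneg_right _ (Nat.cast_nonneg _)
    apply one_div_le_one_div_of_le (by positivity)
    exact pow_le_pow_right₀ hL1 (by omega)
  · intro a ha haE
    have h1 := hEb a ha haE
    simp only [add_zero, one_mul] at h1
    have haP := hA a ha
    have hap : (0 : ℝ) < a := by linarith
    have haη : 0 < (a : ℝ) * η := by positivity
    have hy : L ^ (B₂ + 20) ≤ a * η := by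
      have h2 : L ^ (B₂ + 20) * 2 ≤ L ^ (C₁ + B₂ + 21) := by
        have h3 : L ^ (C₁ + B₂ + 21) = L ^ (B₂ + 20) * (L * L ^ C₁) := by rw [← pow_succ', ← pow_add]; congr 1; omega
        rw [h3]
        apply mul_le_mul_of_nonneg_left _ (by positivity)
        have h4 : 1 ≤ L ^ C₁ := one_le_pow₀ hL1
        have h5 : 2 ≤ L := by rw [hL]; linarith
        nlinarith only [h4, h5]
      have h6 : η * P / 2 ≤ a * η := by nlinarith only [haP.2.1, hη0]
      linarith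
    have h2 := hQ N P η a S hE2 hP1 hPN haP.2.1 haP.2.2 (by rw [← hL]; exact hy) hη1 hS hsep
    rw [← hL] at h2
    obtain ⟨Z, hZ⟩ : ∃ Z : Finset ℝ, Z = S.filter (fun x => Th1 a x η ≤ δ * (a * η)) := ⟨_, rfl⟩
    obtain ⟨T, hT⟩ : ∃ T : Finset ℝ, T = S.filter (fun x => (4 + ε) * (a * η) < Th1 a x η) := ⟨_, rfl⟩
    rw [← hZ]
    rw [← hT] at h2
    -- pointwise bound
    obtain ⟨V, hV⟩ : ∃ V : ℝ, V = L ^ (B + 3) := ⟨_, rfl⟩
    have hV0 : 0 ≤ V := by rw [hV]; positivity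
    have hpt : ∀ x ∈ S, Th1 a x η / (a * η) ≤ (4 + ε) - (4 + ε - δ) * (if x ∈ Z then 1 else 0) + V * (if x ∈ T then 1 else 0) := by
      intro x hx
      by_cases hxZ : x ∈ Z
      · rw [if_pos hxZ]
        rw [hZ, mem_filter] at hxZ
        have : 0 ≤ V * (if x ∈ T then 1 else 0) := mul_nonneg hV0 (by split_ifs <;> norm_num)
        have h3 : Th1 a x η / (a * η) ≤ δ := by rw [div_le_iff₀ haη]; exact hxZ.2
        linarith
      · rw [if_neg hxZ]
        by_cases hxT : x ∈ T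
        · rw [if_pos hxT]
          have hx' := hS x hx
          have h3 := (Dn B N P η η x a hE4 hP1 hPN haP.2.1 haP.2.2 (by rw [← hL]; exact hη') le_rfl (by linarith) (by linarith)).2
          rw [← hL, ← hb] at h3
          have hLB : 1 ≤ L ^ B := one_le_pow₀ hL1
          have h4 : (1 + 2 * L ^ B) * (b * L) ≤ (3 * L ^ B) * (L * L / 3) := by
            apply mul_le_mul (by linarith) _ (by positivity) (by positivity)
            rw [hL]
            rw [hL] at hL0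
            have := mul_le_mul_of_nonneg_right (show b ≤ Real.log N / 3 by linarith) hL0.le
            linarith
          have h5 : (3 * L ^ B) * (L * L / 3) ≤ V := by
            rw [hV, pow_add]
            have : 0 ≤ L ^ B * (L * L) := by positivity
            nlinarith only [this, hL1]
          linarith
        · rw [if_neg hxT]
          have h3 : Th1 a x η ≤ (4 + ε) * (a * η) := by
            by_contra h3
            push Not at h3
            exact hxT (by rw [hT, mem_filter]; exact ⟨hx, h3⟩)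
          rw [div_le_iff₀ haη]
          linarith
    have hsum := sum_le_sum hpt
    rw [sum_add_distrib, sum_sub_distrib, ← mul_sum, ← mul_sum, sum_ite_mem, sum_ite_mem, sum_const, sum_const, sum_const] at hsum
    have hZS : S ∩ Z = Z := by rw [inter_eq_right, hZ]; exact filter_subset _ _
    have hTS : S ∩ T = T := by rw [inter_eq_right, hT]; exact filter_subset _ _
    rw [hZS, hTS, nsmul_eq_mul, nsmul_eq_mul, nsmul_eq_mul, mul_one, mul_one] at hsum
    rw [sum_sub_distrib, sum_const, nsmul_eq_mul, mul_one] at h1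
    have h3 := (abs_le.1 h1).1
    obtain ⟨τ, hτ⟩ : ∃ τ : ℝ, τ = N / η := ⟨_, rfl⟩
    rw [← hτ] at h2 h3 ⊢
    have hτ0 : 0 ≤ τ := by rw [hτ]; positivity
    -- V * bad ≤ τ / L^(B'+1)
    have h4 : V * (T.card : ℝ) ≤ τ / L ^ (B' + 1) := by
      refine (mul_le_mul_of_nonneg_left h2 hV0).trans ?_
      rw [mul_div_assoc', div_le_div_iff₀ (by positivity) (by positivity), hV, hB₂]
      have e : L ^ (B + B' + 5) = L ^ (B + 3) * L ^ (B' + 1) * L := by rw [← pow_add, ← pow_succ]; congr 1; omega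
      rw [e]
      have : 0 ≤ τ * (L ^ (B + 3) * L ^ (B' + 1)) := by positivity
      nlinarith only [this, hL1]
    have h5 : τ / L ^ (B' + 1) * 2 ≤ τ / L ^ B' := by
      rw [div_mul_eq_mul_div, div_le_div_iff₀ (by positivity) (by positivity), pow_succ]
      have h6 : 2 ≤ L := by rw [hL]; linarith
      have : 0 ≤ τ * L ^ B' := by positivity
      nlinarith only [this, h6]
    have h7 : (4 + ε - δ) * (Z.card : ℝ) ≤ (3 + ε) * S.card + τ / L ^ B' := by linarith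
    have h8 : 0 ≤ τ / L ^ B' := by positivity
    have h9 : (0 : ℝ) ≤ S.card := Nat.cast_nonneg _
    have h10 : (3 + ε) * (S.card : ℝ) ≤ (4 + ε - δ) * ((3 / (4 - δ) + ε) * S.card) := by
      have h13 : (3 + ε) ≤ (4 + ε - δ) * (3 / (4 - δ) + ε) := by
        have h14 : (4 + ε - δ) * (3 / (4 - δ) + ε) = 3 + ε * (3 / (4 - δ)) + (4 - δ) * ε + ε ^ 2 := by
          have : 4 - δ ≠ 0 := by linarith
          field_simp
          ring
        rw [h14]
        have h15 : 0 ≤ 3 / (4 - δ) := div_nonneg (by norm_num) (by linarith)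
        have h16 := mul_nonneg hε.le h15
        nlinarith only [hε, h16, hδ1]
      calc (3 + ε) * (S.card : ℝ) ≤ ((4 + ε - δ) * (3 / (4 - δ) + ε)) * S.card := mul_le_mul_of_nonneg_right h13 h9
        _ = _ := by ring
    have h11 : τ / L ^ B' ≤ (4 + ε - δ) * (τ / L ^ B') := le_mul_of_one_le_left h8 (by linarith)
    have h12 : (4 + ε - δ) * (Z.card : ℝ) ≤ (4 + ε - δ) * ((3 / (4 - δ) + ε) * S.card + τ / L ^ B') := by rw [mul_add]; linarith
    exact le_of_mul_le_mul_left h12 (by linarith)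

lemma indq (σ ε τ : ℝ) (hσ : 0 ≤ σ) (hσ1 : σ ≤ 1) (hε : 0 ≤ ε) (hτ : 0 ≤ τ) (S : Finset ℝ) (p : ℕ → ℝ → Prop)
    [∀ a, DecidablePred (p a)] : ∀ (k : ℕ) (A : Fin k → Finset ℕ),
    (∀ j, ∀ F ⊆ S, ∃ E ⊆ A j, (E.card : ℝ) ≤ ε * (A j).card ∧
      ∀ a ∈ A j, a ∉ E → ((F.filter (p a)).card : ℝ) ≤ σ * F.card + τ) →
    ∀ F ⊆ S, ∃ E ⊆ Fintype.piFinset A, (E.card : ℝ) ≤ k * ε * ∏ j, ((A j).card : ℝ) ∧
      ∀ a ∈ Fintype.piFinset A, a ∉ E → ((F.filter (fun x => ∀ j, p (a j) x)).card : ℝ) ≤ σ ^ k * F.card + k * τ := by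
  classical
  intro k
  induction k with
  | zero =>
    intro A _ F _
    refine ⟨∅, empty_subset _, by simp, ?_⟩
    intro a _ _
    simp
  | succ r ih =>
    intro A hE F hF
    obtain ⟨E0, hE0, hE0c, hE0b⟩ := hE 0 F hF
    have hih : ∀ a0 ∈ A 0, ∃ E ⊆ Fintype.piFinset (Fin.tail A), (E.card : ℝ) ≤ r * ε * ∏ j, ((Fin.tail A j).card : ℝ) ∧
        ∀ a ∈ Fintype.piFinset (Fin.tail A), a ∉ E →
          (((F.filter (p a0)).filter (fun x => ∀ j, p (a j) x)).card : ℝ) ≤ σ ^ r * (F.filter (p a0)).card + r * τ := by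
      intro a0 _
      exact ih (Fin.tail A) (fun j => hE j.succ) (F.filter (p a0)) ((filter_subset _ _).trans hF)
    choose! G hG1 hG2 hG3 using hih
    obtain ⟨E, hEd⟩ : ∃ E : Finset (Fin (r + 1) → ℕ), E = (Fintype.piFinset A).filter (fun a : Fin (r + 1) → ℕ => a 0 ∈ E0 ∨ (Fin.tail a : Fin r → ℕ) ∈ G (a 0)) := ⟨_, rfl⟩
    refine ⟨E, by rw [hEd]; exact filter_subset _ _, ?_, ?_⟩
    · obtain ⟨Q, hQ⟩ : ∃ Q : ℝ, Q = ∏ j, ((Fin.tail A j).card : ℝ) := ⟨_, rfl⟩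
      have hQ0 : 0 ≤ Q := by rw [hQ]; exact prod_nonneg fun _ _ => Nat.cast_nonneg _
      have hprod : ∏ j, ((A j).card : ℝ) = (A 0).card * Q := by
        rw [Fin.prod_univ_succ, hQ]; rfl
      have hsub : E ⊆ (A 0).biUnion (fun a0 => (if a0 ∈ E0 then Fintype.piFinset (Fin.tail A) else G a0).image (fun b => (Fin.cons a0 b : Fin (r + 1) → ℕ))) := by
        intro a ha
        rw [hEd, mem_filter, Fin.mem_piFinset_iff_zero_tail] at ha
        rw [mem_biUnion]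
        refine ⟨a 0, ha.1.1, ?_⟩
        rw [mem_image]
        refine ⟨Fin.tail a, ?_, Fin.cons_self_tail a⟩
        by_cases h0 : a 0 ∈ E0
        · rw [if_pos h0]; exact ha.1.2
        · rw [if_neg h0]
          exact ha.2.resolve_left h0
      have h1 := (card_le_card hsub).trans card_biUnion_le
      have h2 : (E.card : ℝ) ≤ ∑ a0 ∈ A 0, ((if a0 ∈ E0 then Q else 0) + r * ε * Q) := by
        refine ((Nat.cast_le (α := ℝ)).2 h1).trans ?_
        push_cast
        apply sum_le_sum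
        intro a0 ha0
        have h3 : (((if a0 ∈ E0 then Fintype.piFinset (Fin.tail A) else G a0).image (fun b => (Fin.cons a0 b : Fin (r + 1) → ℕ))).card : ℝ) ≤
            ((if a0 ∈ E0 then Fintype.piFinset (Fin.tail A) else G a0).card : ℝ) := by exact_mod_cast card_image_le
        refine h3.trans ?_
        by_cases h0 : a0 ∈ E0
        · rw [if_pos h0, if_pos h0, Fintype.card_piFinset]
          push_cast
          rw [← hQ]
          have : 0 ≤ (r : ℝ) * ε * Q := by positivity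
          linarith
        · rw [if_neg h0, if_neg h0, zero_add]
          have := hG2 a0 ha0
          rw [← hQ] at this
          exact this
      refine h2.trans ?_
      rw [sum_add_distrib, ← sum_filter, sum_const, sum_const, nsmul_eq_mul, nsmul_eq_mul, hprod]
      have h3 : (A 0).filter (fun a0 => a0 ∈ E0) = E0 := by
        ext a; rw [mem_filter]; exact ⟨fun h => h.2, fun h => ⟨hE0 h, h⟩⟩
      rw [h3]
      have h4 := mul_le_mul_of_nonneg_right hE0c hQ0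
      push_cast
      linarith
    · intro a ha haE
      rw [hEd, mem_filter, not_and, not_or] at haE
      obtain ⟨h1, h2⟩ := haE ha
      rw [Fin.mem_piFinset_iff_zero_tail] at ha
      have h3 := hE0b (a 0) ha.1 h1
      have h4 := hG3 (a 0) ha.1 (Fin.tail a) ha.2 h2
      have e1 : F.filter (fun x => ∀ j, p (a j) x) = (F.filter (p (a 0))).filter (fun x => ∀ j, p (Fin.tail a j) x) := by
        ext x
        rw [mem_filter, mem_filter, mem_filter, Fin.forall_fin_succ]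
        simp only [Fin.tail]
        tauto
      rw [e1]
      refine h4.trans ?_
      have h5 : σ ^ r * ((F.filter (p (a 0))).card : ℝ) ≤ σ ^ r * (σ * F.card + τ) :=
        mul_le_mul_of_nonneg_left h3 (by positivity)
      have h6 : σ ^ r * τ ≤ τ := mul_le_of_le_one_left hτ (pow_le_one₀ hσ hσ1)
      push_cast
      rw [pow_succ]
      linarith [show σ ^ r * (σ * (F.card : ℝ) + τ) = σ ^ r * σ * F.card + σ ^ r * τ by ring]

/-- **Every further dilation finds primes at a quarter of the remaining points.** -/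
theorem quarter (B : ℕ) (δ ε : ℝ) (hδ1 : δ < 1) (hε : 0 < ε) : ∃ (C : ℕ) (N₀ : ℝ), ∀ (N η : ℝ) (k : ℕ)
    (P : Fin k → ℝ) (A : Fin k → Finset ℕ) (S : Finset ℝ), N₀ ≤ N → (k : ℝ) ≤ Real.log N ^ B →
    (∀ j, Real.log N ^ C ≤ P j) → (∀ j, P j ≤ N ^ B) →
    (∀ j, ∀ a ∈ A j, a.Prime ∧ P j / 2 < a ∧ (a : ℝ) ≤ P j) → (∀ j, P j / Real.log N ^ B ≤ (A j).card) →
    (∀ j, Real.log N ^ C / P j ≤ η) → 0 < η → η ≤ 1 → (∀ x ∈ S, N ≤ x ∧ x ≤ 2 * N) →
    (∀ x ∈ S, ∀ x' ∈ S, x ≠ x' → η ≤ |x - x'|) →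
    ∃ E : Finset (Fin k → ℕ), E ⊆ Fintype.piFinset A ∧ (E.card : ℝ) ≤ (∏ j, ((A j).card : ℝ)) / Real.log N ^ B ∧
      ∀ a ∈ Fintype.piFinset A, a ∉ E → ∀ F ⊆ S,
        (∀ x ∈ F, ∀ j, ∑ p ∈ (Ioc ⌊(a j : ℝ) * x⌋₊ ⌊(a j : ℝ) * (x + η)⌋₊).filter Nat.Prime, Real.log p ≤ δ * (a j * η)) →
        (F.card : ℝ) ≤ (3 / (4 - δ) + ε) ^ k * S.card + N / η / Real.log N ^ B := by
  classical
  have hσ : 3 / (4 - δ) < 1 := by rw [div_lt_one (by linarith)]; linarith
  have hσ0 : 0 < 3 / (4 - δ) := div_pos (by norm_num) (by linarith)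
  obtain ⟨ε', hε'⟩ : ∃ ε' : ℝ, ε' = min ε (1 - 3 / (4 - δ)) := ⟨_, rfl⟩
  have hε0 : 0 < ε' := by rw [hε']; exact lt_min hε (by linarith)
  have hε4 : ε' ≤ 1 - 3 / (4 - δ) := by rw [hε']; exact min_le_right _ _
  have hεε : ε' ≤ ε := by rw [hε']; exact min_le_left _ _
  obtain ⟨C, N₁, hR⟩ := step B (2 * B) δ ε' hδ1.le hε0 (by linarith)
  have hev : ∀ᶠ N : ℝ in atTop, N₁ ≤ N ∧ 1 ≤ Real.log N ∧ 1 ≤ N :=
    (eventually_ge_atTop _).and ((Real.tendsto_log_atTop.eventually_ge_atTop _).and (eventually_ge_atTop _))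
  obtain ⟨N₀, hN₀⟩ := eventually_atTop.1 hev
  refine ⟨C, N₀, ?_⟩
  intro N η k P A S hN hk hCP hPN hA hcard hη hη0 hη1 hS hsep
  obtain ⟨hE1, hE2, hE3⟩ := hN₀ N hN
  have hNp : 0 < N := by linarith
  obtain ⟨L, hL⟩ : ∃ L : ℝ, L = Real.log N := ⟨_, rfl⟩
  have hR1 := fun (j : Fin k) (F : Finset ℝ) (hF : F ⊆ S) => hR N (P j) η (A j) F hE1 (hCP j) (hPN j) (hA j) (hcard j) (hη j) hη1
    (fun x hx => hS x (hF hx)) (fun x hx x' hx' => hsep x (hF hx) x' (hF hx'))
  rw [← hL] at hR1 hk hE2 ⊢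
  have hL0 : 0 < L := by linarith
  have hLB : 0 < L ^ B := by positivity
  obtain ⟨E, hE, hEc, hEb⟩ := indq (3 / (4 - δ) + ε') (1 / L ^ (2 * B)) (N / η / L ^ (2 * B)) (by linarith) (by linarith) (by positivity)
    (by positivity) S (fun a x => Th1 a x η ≤ δ * (a * η)) k A hR1 S Subset.rfl
  have hkL : (k : ℝ) / L ^ (2 * B) ≤ 1 / L ^ B := by
    rw [div_le_div_iff₀ (by positivity) (by positivity), two_mul, pow_add, one_mul]
    exact mul_le_mul_of_nonneg_right hk hLB.le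
  refine ⟨E, hE, ?_, ?_⟩
  · refine hEc.trans ?_
    have h1 : 0 ≤ ∏ j, ((A j).card : ℝ) := prod_nonneg fun _ _ => Nat.cast_nonneg _
    have h2 := mul_le_mul_of_nonneg_right hkL h1
    linarith [show (k : ℝ) / L ^ (2 * B) * ∏ j, ((A j).card : ℝ) = k * (1 / L ^ (2 * B)) * ∏ j, ((A j).card : ℝ) by ring,
      show 1 / L ^ B * ∏ j, ((A j).card : ℝ) = (∏ j, ((A j).card : ℝ)) / L ^ B by ring]
  · intro a ha haE F hF hFp
    have h1 := hEb a ha haE
    have hsub : F ⊆ S.filter (fun x => ∀ j, Th1 (a j) x η ≤ δ * (a j * η)) := by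
      intro x hx
      rw [mem_filter]
      exact ⟨hF hx, fun j => hFp x hx j⟩
    have h2 : (F.card : ℝ) ≤ ((S.filter (fun x => ∀ j, Th1 (a j) x η ≤ δ * (a j * η))).card : ℝ) := by exact_mod_cast card_le_card hsub
    refine h2.trans (h1.trans ?_)
    have h3 : (0 : ℝ) ≤ S.card := Nat.cast_nonneg _
    have h4 : (3 / (4 - δ) + ε') ^ k ≤ (3 / (4 - δ) + ε) ^ k := pow_le_pow_left₀ (by linarith) (by linarith) k
    have h5 := mul_le_mul_of_nonneg_right h4 h3
    have h6 : 0 ≤ N / η := by positivity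
    have h7 := mul_le_mul_of_nonneg_right hkL h6
    linarith [show (k : ℝ) / L ^ (2 * B) * (N / η) = k * (N / η / L ^ (2 * B)) by ring, show 1 / L ^ B * (N / η) = N / η / L ^ B by ring]

end Pool.Agent.H15.JD
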