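import Pool.Graph.R_pool_sql_team_seeded_2aa45f1a.Results.MP_e87c7d_nt.MomentsInShortIntervals
import Pool.Agent.H15.JD.Qk

/-! All moments of the number of primes in the windows at the points of a separated set. -/

set_option autoImplicit false

namespace Pool.Agent.H15.JD
open Finset Filter Pool.Agent.H15.FD

/-- all moments of the number of primes in short intervals -/
theorem mom (m : ℕ) (hm : 1 ≤ m) : ∃ c₁ : ℝ, 0 < c₁ ∧ ∃ K₀ : ℕ, ∀ K T : ℕ, K₀ ≤ K → 1 ≤ T → T ≤ 2 ^ K →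
    ∑ t ∈ range (2 ^ K), (((Ioc t (t + T)).filter Nat.Prime).card : ℝ) ^ m ≤
      c₁ * (min 1 ((T : ℝ) / K) * max 1 ((T : ℝ) / K) ^ m) * 2 ^ K := by
  classical
  obtain ⟨c, hc, r, hr, h⟩ := Pool.Agent.Results.MP_e87c7d_nt.MomentsInShortIntervals.result m hm 1
  obtain ⟨κ, c₁, hκ, hc₁, h⟩ := h r le_rfl 2 le_rfl
  obtain ⟨K₀, hK₀⟩ := eventually_atTop.1 h
  refine ⟨c₁, hc₁, K₀, ?_⟩
  intro K T hK hT hT2
  have hch : Pool.Agent.Q315.RD.choices K (fun _ => range 2) = 2 ^ K := by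
    unfold Pool.Agent.Q315.RD.choices
    simp
  have h1 := (hK₀ K hK 0 T (Nat.zero_le _) hT (by rw [one_mul]; exact hT2) (fun _ => range 2) ⟨fun _ _ => Subset.rfl, by
    rw [hch]
    push_cast
    exact le_mul_of_one_le_left (by positivity) (Real.one_le_exp (by positivity))⟩).1
  rw [hch] at h1
  have hds : Pool.Agent.Results.MP_e87c7d_nt.MomentsInShortIntervals.digitSet 2 K (fun _ => range 2) = range (2 ^ K) := by
    unfold Pool.Agent.Results.MP_e87c7d_nt.MomentsInShortIntervals.digitSet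
    apply filter_true_of_mem
    intro t _ i _
    rw [mem_range]
    exact Nat.mod_lt _ (by norm_num)
  rw [hds] at h1
  simp only [zero_add] at h1
  push_cast at h1
  exact h1

/-- from windows to integers -/
lemma mom_int (a m : ℕ) (h y : ℝ) (W H X : ℕ) (hy : y = a * h) (ha : (0 : ℝ) < a) (hW : (W : ℝ) + 2 ≤ y) (hH : y + 2 + W ≤ H)
    (S : Finset ℝ) (hS : ∀ x ∈ S, (a : ℝ) * x < X ∧ (W : ℝ) + 1 ≤ a * x ∧ 0 ≤ x)
    (hsep : ∀ x ∈ S, ∀ x' ∈ S, x ≠ x' → h ≤ |x - x'|) :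
    (∑ x ∈ S, (((Ioc ⌊(a : ℝ) * x⌋₊ ⌊(a : ℝ) * (x + h)⌋₊).filter Nat.Prime).card : ℝ) ^ m) * (W + 1) ≤
      ∑ t ∈ range X, (((Ioc t (t + H)).filter Nat.Prime).card : ℝ) ^ m := by
  classical
  obtain ⟨f, hf⟩ : ∃ f : ℝ → Finset ℕ, f = fun x : ℝ => Icc (⌊(a : ℝ) * x⌋₊ - W) ⌊(a : ℝ) * x⌋₊ := ⟨_, rfl⟩
  have hW0 : (0 : ℝ) ≤ W := Nat.cast_nonneg W
  have hy0 : 0 < y := by linarith
  have hfl : ∀ x ∈ S, W ≤ ⌊(a : ℝ) * x⌋₊ := by
    intro x hx
    have h1 := (hS x hx).2.1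
    apply Nat.le_floor
    linarith
  have hsub : S.biUnion f ⊆ range X := by
    intro m hm
    rw [mem_biUnion] at hm
    obtain ⟨x, hx, hm⟩ := hm
    rw [hf] at hm
    simp only [mem_Icc] at hm
    obtain ⟨h1, h2, h3⟩ := hS x hx
    rw [mem_range]
    have h4 : (⌊(a : ℝ) * x⌋₊ : ℝ) ≤ a * x := Nat.floor_le (by positivity)
    have h5 : (m : ℝ) ≤ ⌊(a : ℝ) * x⌋₊ := by exact_mod_cast hm.2
    have h6 : (m : ℝ) < X := by linarith
    exact_mod_cast h6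
  have hdis : (S : Set ℝ).PairwiseDisjoint f := by
    have key : ∀ x ∈ S, ∀ x' ∈ S, x < x' → Disjoint (f x) (f x') := by
      intro x hx x' hx' hlt
      rw [disjoint_left]
      intro m hm hm'
      rw [hf] at hm hm'
      simp only [mem_Icc] at hm hm'
      have h4 := hfl x' hx'
      have hx0 := (hS x hx).2.2
      have h5 : (⌊(a : ℝ) * x⌋₊ : ℝ) ≤ a * x := Nat.floor_le (by positivity)
      have h6 := Nat.lt_floor_add_one ((a : ℝ) * x')
      have h7 : (m : ℝ) ≤ ⌊(a : ℝ) * x⌋₊ := by exact_mod_cast hm.2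
      have h8 : ((⌊(a : ℝ) * x'⌋₊ - W : ℕ) : ℝ) ≤ m := by exact_mod_cast hm'.1
      rw [Nat.cast_sub (by omega)] at h8
      have h10 := hsep x hx x' hx' hlt.ne
      rw [abs_sub_comm, abs_of_pos (by linarith)] at h10
      have h9 : a * h ≤ a * (x' - x) := mul_le_mul_of_nonneg_left h10 ha.le
      rw [← hy, mul_sub] at h9
      linarith
    intro x hx x' hx' hne
    rcases lt_or_gt_of_ne hne with h | h
    · exact key x hx x' hx' h
    · exact (key x' hx' x hx h).symm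
  have hcard : ∀ x ∈ S, ((W : ℝ) + 1) ≤ ((f x).card : ℝ) := by
    intro x hx
    rw [hf]
    simp only [Nat.card_Icc]
    have h4 := hfl x hx
    have : W + 1 ≤ ⌊(a : ℝ) * x⌋₊ + 1 - (⌊(a : ℝ) * x⌋₊ - W) := by omega
    exact_mod_cast this
  calc (∑ x ∈ S, (((Ioc ⌊(a : ℝ) * x⌋₊ ⌊(a : ℝ) * (x + h)⌋₊).filter Nat.Prime).card : ℝ) ^ m) * (W + 1)
      = ∑ x ∈ S, (((Ioc ⌊(a : ℝ) * x⌋₊ ⌊(a : ℝ) * (x + h)⌋₊).filter Nat.Prime).card : ℝ) ^ m * (W + 1) := by rw [sum_mul]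
    _ ≤ ∑ x ∈ S, ∑ t ∈ f x, (((Ioc t (t + H)).filter Nat.Prime).card : ℝ) ^ m := by
        apply sum_le_sum
        intro x hx
        obtain ⟨v, hv⟩ : ∃ v : ℝ, v = (((Ioc ⌊(a : ℝ) * x⌋₊ ⌊(a : ℝ) * (x + h)⌋₊).filter Nat.Prime).card : ℝ) ^ m := ⟨_, rfl⟩
        have hv0 : 0 ≤ v := by rw [hv]; positivity
        have h1 : ∀ t ∈ f x, v ≤ (((Ioc t (t + H)).filter Nat.Prime).card : ℝ) ^ m := by
          intro t ht
          rw [hf] at ht
          simp only [mem_Icc] at ht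
          rw [hv]
          have hx0 := (hS x hx).2.2
          have h4 := hfl x hx
          have h6 := Nat.lt_floor_add_one ((a : ℝ) * x)
          have h8 : ((⌊(a : ℝ) * x⌋₊ - W : ℕ) : ℝ) ≤ t := by exact_mod_cast ht.1
          rw [Nat.cast_sub (by omega)] at h8
          have h9 : (a : ℝ) * (x + h) = a * x + y := by rw [hy]; ring
          have h10 : ⌊(a : ℝ) * (x + h)⌋₊ ≤ t + H := by
            have h11 : (⌊(a : ℝ) * (x + h)⌋₊ : ℝ) ≤ a * (x + h) := Nat.floor_le (by rw [h9]; positivity)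
            have h12 : (⌊(a : ℝ) * (x + h)⌋₊ : ℝ) ≤ ((t + H : ℕ) : ℝ) := by push_cast; linarith
            exact_mod_cast h12
          have h13 : ((Ioc ⌊(a : ℝ) * x⌋₊ ⌊(a : ℝ) * (x + h)⌋₊).filter Nat.Prime).card ≤ ((Ioc t (t + H)).filter Nat.Prime).card := by
            apply card_le_card
            apply filter_subset_filter
            exact Ioc_subset_Ioc ht.2 h10
          have h14 : (((Ioc ⌊(a : ℝ) * x⌋₊ ⌊(a : ℝ) * (x + h)⌋₊).filter Nat.Prime).card : ℝ) ≤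
              (((Ioc t (t + H)).filter Nat.Prime).card : ℝ) := by exact_mod_cast h13
          exact pow_le_pow_left₀ (Nat.cast_nonneg _) h14 m
        have h2 := card_nsmul_le_sum (f x) _ v h1
        rw [nsmul_eq_mul] at h2
        rw [← hv, mul_comm]
        exact (mul_le_mul_of_nonneg_right (hcard x hx) hv0).trans h2
    _ = ∑ t ∈ S.biUnion f, (((Ioc t (t + H)).filter Nat.Prime).card : ℝ) ^ m := (sum_biUnion hdis).symm
    _ ≤ _ := sum_le_sum_of_subset_of_nonneg hsub (fun _ _ _ => by positivity)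

/-- All moments of the normalised number of primes. -/
theorem mom_pts (B M : ℕ) : ∃ K₁ : ℝ, 0 < K₁ ∧ ∃ N₀ : ℝ, ∀ (N P η lam : ℝ) (a : ℕ) (S : Finset ℝ), N₀ ≤ N →
    P ≤ N ^ B → P / 2 < a → (a : ℝ) ≤ P → 0 < lam → lam ≤ 1 → 8 ≤ lam * Real.log N → lam * Real.log N ≤ P * η → 0 < η → η ≤ 1 →
    (∀ x ∈ S, N ≤ x ∧ x ≤ 2 * N) → (∀ x ∈ S, ∀ x' ∈ S, x ≠ x' → η ≤ |x - x'|) →
    ∑ x ∈ S, (Th1 a x η / (a * η)) ^ (M + 1) ≤ K₁ / lam ^ M * (N / η) := by
  classical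
  obtain ⟨c₁, hc₁, K₀, hmom⟩ := mom (M + 1) (by omega)
  obtain ⟨b, hb⟩ : ∃ b : ℝ, b = (B : ℝ) + 2 := ⟨_, rfl⟩
  have hb2 : 2 ≤ b := by rw [hb]; have : (0 : ℝ) ≤ B := Nat.cast_nonneg B; linarith
  have hev : ∀ᶠ N : ℝ in atTop, (K₀ : ℝ) ≤ Real.log N ∧ 8 ≤ Real.log N ∧ 100 ≤ N :=
    (Real.tendsto_log_atTop.eventually_ge_atTop _).and ((Real.tendsto_log_atTop.eventually_ge_atTop _).and (eventually_ge_atTop _))
  obtain ⟨N₀, hN₀⟩ := eventually_atTop.1 hev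
  refine ⟨16 * c₁ * (3 * b) ^ (M + 1), by positivity, N₀, ?_⟩
  intro N P η lam a S hN hPN haP haP2 hlam hlam1 hlam8 hlamP hη0 hη1 hS hsep
  obtain ⟨hE1, hE2, hE3⟩ := hN₀ N hN
  obtain ⟨L, hL⟩ : ∃ L : ℝ, L = Real.log N := ⟨_, rfl⟩
  rw [← hL] at hE1 hE2 hlam8 hlamP
  have hL0 : 0 < L := by linarith
  have hNp : 0 < N := by linarith
  have hP0 : 0 < P := by
    by_contra hc
    push Not at hc
    have : P * η ≤ 0 := mul_nonpos_of_nonpos_of_nonneg hc hη0.le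
    linarith
  have hPη : P * η ≤ P := mul_le_of_le_one_right hP0.le hη1
  have hP8 : 8 ≤ P := by linarith
  have ha0 : (0 : ℝ) < a := by linarith
  obtain ⟨y, hy⟩ : ∃ y : ℝ, y = a * η := ⟨_, rfl⟩
  have hy1 : P * η < 2 * y := by rw [hy]; nlinarith only [haP, hη0]
  have hy4 : 4 ≤ y := by linarith
  have hy0 : 0 < y := by linarith
  have hyP : y ≤ P := by rw [hy]; nlinarith only [haP2, hη1, hη0, ha0]
  -- the parameters
  obtain ⟨W, hW⟩ : ∃ W : ℕ, W = ⌊y⌋₊ - 2 := ⟨_, rfl⟩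
  have hfl1 : (⌊y⌋₊ : ℝ) ≤ y := Nat.floor_le hy0.le
  have hfl2 : y < ⌊y⌋₊ + 1 := Nat.lt_floor_add_one y
  have hfl3 : 4 ≤ ⌊y⌋₊ := Nat.le_floor (by exact_mod_cast hy4)
  have hWr : (W : ℝ) = ⌊y⌋₊ - 2 := by rw [hW, Nat.cast_sub (by omega)]; norm_num
  have hW2 : (W : ℝ) + 2 ≤ y := by linarith
  have hW3 : y / 2 ≤ (W : ℝ) + 1 := by linarith
  obtain ⟨H, hH⟩ : ∃ H : ℕ, H = ⌈2 * y⌉₊ := ⟨_, rfl⟩
  have hH1 : 2 * y ≤ H := by rw [hH]; exact Nat.le_ceil _
  have hH2 : (H : ℝ) ≤ 3 * y := by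
    have := Nat.ceil_lt_add_one (show 0 ≤ 2 * y by linarith)
    rw [hH]; linarith
  obtain ⟨K, hK⟩ : ∃ K : ℕ, K = Nat.log 2 ⌊2 * P * N⌋₊ + 1 := ⟨_, rfl⟩
  have hPN0 : 0 < 2 * P * N := by positivity
  have hPN1 : 16 * N ≤ 2 * P * N := by nlinarith only [hP8, hNp]
  have hK1 : 2 * P * N < 2 ^ K := by
    have h1 := Nat.lt_pow_succ_log_self (b := 2) (by norm_num) ⌊2 * P * N⌋₊
    have h2 : ((⌊2 * P * N⌋₊ : ℝ) + 1) ≤ 2 ^ K := by rw [hK]; exact_mod_cast h1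
    linarith [Nat.lt_floor_add_one (2 * P * N)]
  have hK2 : (2 : ℝ) ^ K ≤ 4 * P * N := by
    have h1 := Nat.pow_log_le_self 2 (x := ⌊2 * P * N⌋₊) (by
      have : 1 ≤ ⌊2 * P * N⌋₊ := Nat.le_floor (by push_cast; linarith)
      omega)
    have h2 : (2 : ℝ) ^ (Nat.log 2 ⌊2 * P * N⌋₊) ≤ ⌊2 * P * N⌋₊ := by exact_mod_cast h1
    have h3 : (⌊2 * P * N⌋₊ : ℝ) ≤ 2 * P * N := Nat.floor_le hPN0.le
    rw [hK, pow_succ]
    linarith
  have hKL : L ≤ K := by
    have h1 : N ≤ 2 ^ K := by linarith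
    have h2 : Real.log N ≤ K * Real.log 2 := by rw [← Real.log_pow]; exact Real.log_le_log hNp h1
    have h3 : Real.log 2 ≤ 1 := by linarith [Real.log_two_lt_d9]
    have h4 : (K : ℝ) * Real.log 2 ≤ K := mul_le_of_le_one_right (Nat.cast_nonneg _) h3
    rw [hL]; linarith
  have hK0 : K₀ ≤ K := by
    have : (K₀ : ℝ) ≤ K := hE1.trans hKL
    exact_mod_cast this
  have hHr1 : (1 : ℝ) ≤ H := by linarith
  have h1 := hmom K H hK0 (by exact_mod_cast hHr1) (by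
    have h2 : (H : ℝ) ≤ 2 ^ K := by nlinarith only [hH2, hyP, hK1, hPN1, hP8, hE3, hP0]
    exact_mod_cast h2)
  have h2 := mom_int a (M + 1) η y W H (2 ^ K) hy ha0 hW2 (by linarith) S (by
    intro x hx
    have hx' := hS x hx
    refine ⟨?_, ?_, by linarith⟩
    · push_cast
      have h3 : (a : ℝ) * x ≤ P * (2 * N) := mul_le_mul haP2 hx'.2 (by linarith) hP0.le
      linarith
    · have h3 : (a : ℝ) * 1 ≤ a * x := mul_le_mul_of_nonneg_left (by linarith) ha0.le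
      have h4 : y ≤ a := by rw [hy]; exact mul_le_of_le_one_right ha0.le hη1
      linarith) hsep
  obtain ⟨T1, hT1⟩ : ∃ T1 : ℝ, T1 = ∑ x ∈ S, (((Ioc ⌊(a : ℝ) * x⌋₊ ⌊(a : ℝ) * (x + η)⌋₊).filter Nat.Prime).card : ℝ) ^ (M + 1) := ⟨_, rfl⟩
  rw [← hT1] at h2
  have hT0 : 0 ≤ T1 := by rw [hT1]; exact sum_nonneg fun _ _ => by positivity
  obtain ⟨v, hv⟩ : ∃ v : ℝ, v = 3 * y / L := ⟨_, rfl⟩
  have hv0 : 0 < v := by rw [hv]; positivity
  have hlamv : lam ≤ v := by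
    rw [hv, le_div_iff₀ hL0]; linarith
  have hHK : (H : ℝ) / K ≤ v := by
    rw [hv]
    calc (H : ℝ) / K ≤ (H : ℝ) / L := div_le_div_of_nonneg_left (by positivity) hL0 hKL
      _ ≤ 3 * y / L := div_le_div_of_nonneg_right hH2 hL0.le
  have hHK0 : 0 ≤ (H : ℝ) / K := by positivity
  have hord : min 1 ((H : ℝ) / K) * max 1 ((H : ℝ) / K) ^ (M + 1) ≤ min 1 v * max 1 v ^ (M + 1) := by
    gcongr
  have h3 : T1 ≤ 16 * c₁ * (min 1 v * max 1 v ^ (M + 1)) * (N / η) := by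
    have h4 : T1 * (y / 2) ≤ c₁ * (min 1 v * max 1 v ^ (M + 1)) * (4 * P * N) := by
      calc T1 * (y / 2) ≤ T1 * (W + 1) := mul_le_mul_of_nonneg_left hW3 hT0
        _ ≤ _ := h2
        _ ≤ _ := h1
        _ ≤ c₁ * (min 1 v * max 1 v ^ (M + 1)) * (4 * P * N) := by gcongr
    have h5 : c₁ * (min 1 v * max 1 v ^ (M + 1)) * (4 * P * N) ≤ (16 * c₁ * (min 1 v * max 1 v ^ (M + 1)) * (N / η)) * (y / 2) := by
      have h6 : P ≤ 2 * a := by linarith
      have e : (16 * c₁ * (min 1 v * max 1 v ^ (M + 1)) * (N / η)) * (y / 2) = c₁ * (min 1 v * max 1 v ^ (M + 1)) * (4 * (2 * a) * N) := by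
        rw [hy]; field_simp; ring
      rw [e]
      have h7 : 0 ≤ min 1 v := le_min zero_le_one hv0.le
      gcongr
    exact le_of_mul_le_mul_right (h4.trans h5) (by linarith)
  -- the normalisation
  have h4 : ∀ x ∈ S, (Th1 a x η / (a * η)) ^ (M + 1) ≤
      (3 * b / v) ^ (M + 1) * (((Ioc ⌊(a : ℝ) * x⌋₊ ⌊(a : ℝ) * (x + η)⌋₊).filter Nat.Prime).card : ℝ) ^ (M + 1) := by
    intro x hx
    have hx' := hS x hx
    rw [← mul_pow]
    apply pow_le_pow_left₀ (div_nonneg (Th1_nonneg _ _ _) (by positivity))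
    rw [← hy, div_le_iff₀ hy0]
    have h5 : Th1 a x η ≤ (((Ioc ⌊(a : ℝ) * x⌋₊ ⌊(a : ℝ) * (x + η)⌋₊).filter Nat.Prime).card : ℝ) * (b * L) := by
      unfold Th1
      have hxp : 0 ≤ (a : ℝ) * (x + η) := mul_nonneg ha0.le (by linarith)
      have hall : ∀ p ∈ (Ioc ⌊(a : ℝ) * x⌋₊ ⌊(a : ℝ) * (x + η)⌋₊).filter Nat.Prime, Real.log p ≤ b * L := by
       intro p hp
       rw [mem_filter, mem_Ioc] at hp
       have h6 : (p : ℝ) ≤ a * (x + η) := (Nat.le_floor_iff hxp).1 hp.1.2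
       have h7 : (a : ℝ) * (x + η) ≤ N ^ (B + 2) := by
         have h8 : (a : ℝ) * (x + η) ≤ N ^ B * (3 * N) := by
           apply mul_le_mul (haP2.trans hPN) (by linarith) (by linarith) (by positivity)
         refine h8.trans ?_
         rw [pow_add]
         refine mul_le_mul_of_nonneg_left ?_ (by positivity)
         nlinarith only [hE3]
       refine (Real.log_le_log (by exact_mod_cast hp.2.pos) (h6.trans h7)).trans (le_of_eq ?_)
       rw [Real.log_pow, ← hL, hb]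
       push_cast
       ring
      have h9 := sum_le_card_nsmul _ _ _ hall
      rw [nsmul_eq_mul] at h9
      exact h9
    refine h5.trans (le_of_eq ?_)
    rw [hv]
    field_simp
  have h5 : ∑ x ∈ S, (Th1 a x η / (a * η)) ^ (M + 1) ≤ (3 * b / v) ^ (M + 1) * T1 := by
    rw [hT1, mul_sum]
    exact sum_le_sum h4
  refine h5.trans ?_
  have h6 : (3 * b / v) ^ (M + 1) * (min 1 v * max 1 v ^ (M + 1)) ≤ (3 * b) ^ (M + 1) / lam ^ M := by
    rcases le_total 1 v with h | h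
    · rw [min_eq_left h, max_eq_right h, one_mul, ← mul_pow, div_mul_cancel₀ _ hv0.ne']
      rw [le_div_iff₀ (by positivity)]
      exact mul_le_of_le_one_right (by positivity) (pow_le_one₀ hlam.le hlam1)
    · rw [min_eq_right h, max_eq_left h, one_pow, mul_one, div_pow, div_mul_eq_mul_div, div_le_div_iff₀ (by positivity) (by positivity)]
      have h7 : lam ^ M ≤ v ^ M := pow_le_pow_left₀ hlam.le hlamv M
      have e1 : (3 * b) ^ (M + 1) * v ^ (M + 1) = (3 * b) ^ (M + 1) * v * v ^ M := by rw [pow_succ v]; ring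
      rw [e1]
      gcongr
  calc (3 * b / v) ^ (M + 1) * T1 ≤ (3 * b / v) ^ (M + 1) * (16 * c₁ * (min 1 v * max 1 v ^ (M + 1)) * (N / η)) :=
        mul_le_mul_of_nonneg_left h3 (by positivity)
    _ = 16 * c₁ * (N / η) * ((3 * b / v) ^ (M + 1) * (min 1 v * max 1 v ^ (M + 1))) := by ring
    _ ≤ 16 * c₁ * (N / η) * ((3 * b) ^ (M + 1) / lam ^ M) := mul_le_mul_of_nonneg_left h6 (by positivity)
    _ = _ := by ring

/-- The same for windows which are `q` times as long as the distances of the points. -/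
theorem mom_pts2 (B M : ℕ) : ∃ K₁ : ℝ, 0 < K₁ ∧ ∃ N₀ : ℝ, ∀ (N P η lam : ℝ) (q a : ℕ) (S : Finset ℝ), N₀ ≤ N →
    P ≤ N ^ B → P / 2 < a → (a : ℝ) ≤ P → 0 < lam → lam ≤ 1 → 8 ≤ lam * Real.log N → lam * Real.log N ≤ P * (q * η) → 1 ≤ q →
    0 < η → q * η ≤ 1 → (∀ x ∈ S, N ≤ x ∧ x ≤ 2 * N) → (∀ x ∈ S, ∀ x' ∈ S, x ≠ x' → η ≤ |x - x'|) →
    ∑ x ∈ S, (Th1 a x (q * η) / (a * (q * η))) ^ (M + 1) ≤ K₁ / lam ^ M * (N / η) := by
  classical
  obtain ⟨K₁, hK₁, N₀, h⟩ := mom_pts B M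
  refine ⟨2 * K₁, by positivity, max N₀ 1, ?_⟩
  intro N P η lam q a S hN hPN haP haP2 hlam hlam1 hlam8 hlamP hq hη0 hη1 hS hsep
  have hN0 : N₀ ≤ N := (le_max_left _ _).trans hN
  have hNp : 0 < N := lt_of_lt_of_le one_pos ((le_max_right _ _).trans hN)
  have hq0 : (1 : ℝ) ≤ q := by exact_mod_cast hq
  have hap : 0 < (a : ℝ) := by
    by_contra hc
    push Not at hc
    have h1 : P < 0 := by linarith
    have h2 : P * (q * η) < 0 := mul_neg_of_neg_of_pos h1 (by positivity)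
    linarith
  obtain ⟨f, hf⟩ : ∃ f : ℝ → ℕ, f = fun x => ⌊x / η⌋₊ % (q + 1) := ⟨_, rfl⟩
  have hmaps : ∀ x ∈ S, f x ∈ range (q + 1) := by
    intro x _
    rw [hf, mem_range]
    exact Nat.mod_lt _ (by omega)
  rw [← sum_fiberwise_of_maps_to hmaps]
  have hone : ∀ i ∈ range (q + 1), ∑ x ∈ S with f x = i, (Th1 a x (q * η) / (a * (q * η))) ^ (M + 1) ≤
      K₁ / lam ^ M * (N / (q * η)) := by
    intro i _
    apply h N P (q * η) lam a _ hN0 hPN haP haP2 hlam hlam1 hlam8 hlamP (by positivity) hη1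
    · intro x hx
      exact hS x (mem_filter.1 hx).1
    · intro x hx x' hx' hne
      rw [mem_filter] at hx hx'
      have key : ∀ u ∈ S, ∀ u' ∈ S, u < u' → f u = f u' → q * η ≤ u' - u := by
        intro u hu u' hu' hlt hfe
        have hu0 : 0 ≤ u / η := div_nonneg (by linarith [hS u hu]) hη0.le
        have hu0' : 0 ≤ u' / η := div_nonneg (by linarith [hS u' hu']) hη0.le
        have h1 := hsep u hu u' hu' hlt.ne
        rw [abs_sub_comm, abs_of_pos (by linarith)] at h1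
        have h2 : u / η + 1 ≤ u' / η := by
          rw [div_add_one hη0.ne']
          exact div_le_div_of_nonneg_right (by linarith) hη0.le
        have h3 : ⌊u / η⌋₊ < ⌊u' / η⌋₊ := by
          have : ⌊u / η⌋₊ + 1 ≤ ⌊u' / η⌋₊ := by
            apply Nat.le_floor
            push_cast
            linarith [Nat.floor_le hu0]
          omega
        have h4 : ⌊u / η⌋₊ + (q + 1) ≤ ⌊u' / η⌋₊ := by
          rw [hf] at hfe
          have h5 : ⌊u / η⌋₊ ≡ ⌊u' / η⌋₊ [MOD (q + 1)] := hfe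
          have h6 := (Nat.modEq_iff_dvd' h3.le).1 h5
          have h7 := Nat.le_of_dvd (by omega) h6
          omega
        have h5 : u / η + q < u' / η := by
          have h6 : u / η < ⌊u / η⌋₊ + 1 := Nat.lt_floor_add_one _
          have h7 : (⌊u' / η⌋₊ : ℝ) ≤ u' / η := Nat.floor_le hu0'
          have h8 : ((⌊u / η⌋₊ + (q + 1) : ℕ) : ℝ) ≤ ⌊u' / η⌋₊ := by exact_mod_cast h4
          push_cast at h8
          linarith
        rw [div_add' _ _ _ hη0.ne', div_lt_div_iff_of_pos_right hη0] at h5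
        linarith
      rcases lt_or_gt_of_ne hne with h1 | h1
      · have := key x hx.1 x' hx'.1 h1 (hx.2.trans hx'.2.symm)
        rw [abs_sub_comm, abs_of_pos (by linarith)]
        exact this
      · have := key x' hx'.1 x hx.1 h1 (hx'.2.trans hx.2.symm)
        rw [abs_of_pos (by linarith)]
        exact this
  refine (sum_le_sum hone).trans ?_
  rw [sum_const, card_range, nsmul_eq_mul]
  push_cast
  have e : (q + 1 : ℝ) * (K₁ / lam ^ M * (N / (q * η))) = ((q + 1) / q) * (K₁ / lam ^ M * (N / η)) := by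
    field_simp
  rw [e]
  have h1 : ((q : ℝ) + 1) / q ≤ 2 := by rw [div_le_iff₀ (by linarith)]; linarith
  calc ((q + 1) / q : ℝ) * (K₁ / lam ^ M * (N / η)) ≤ 2 * (K₁ / lam ^ M * (N / η)) :=
        mul_le_mul_of_nonneg_right h1 (by positivity)
    _ = _ := by ring

end Pool.Agent.H15.JD
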