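import Pool.Agent.H15.JD.Lw

/-! Prescribed behaviour at all windows: induction over the dilations. -/

set_option autoImplicit false

namespace Pool.Agent.H15.JD
open Finset Filter Pool.Agent.H15.FD

/-- induction over the number of dilations, general form -/
lemma indg (ε : ℝ) (hε : 0 ≤ ε) (S : Finset ℝ) (Q : ℕ → Finset ℝ → Prop) : ∀ (k : ℕ) (A : Fin k → Finset ℕ)
    (p : Fin k → ℕ → ℝ → Prop) [∀ j a, DecidablePred (p j a)],
    (∀ j, ∀ F ⊆ S, ∃ E ⊆ A j, (E.card : ℝ) ≤ ε * (A j).card ∧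
      ∀ a ∈ A j, a ∉ E → ∀ i, Q i F → Q (i + 1) (F.filter (p j a))) →
    ∀ F ⊆ S, ∃ E ⊆ Fintype.piFinset A, (E.card : ℝ) ≤ k * ε * ∏ j, ((A j).card : ℝ) ∧
      ∀ a ∈ Fintype.piFinset A, a ∉ E → ∀ i, Q i F → ∃ F' ⊆ F, Q (i + k) F' ∧ ∀ x ∈ F', ∀ j, p j (a j) x := by
  classical
  intro k
  induction k with
  | zero =>
    intro A p _ _ F _
    refine ⟨∅, empty_subset _, by simp, ?_⟩
    intro a _ _ i hi
    exact ⟨F, Subset.rfl, by simpa using hi, fun x _ j => Fin.elim0 j⟩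
  | succ r ih =>
    intro A p _ hE F hF
    obtain ⟨E0, hE0, hE0c, hE0b⟩ := hE 0 F hF
    have hih : ∀ a0 ∈ A 0, ∃ E ⊆ Fintype.piFinset (Fin.tail A), (E.card : ℝ) ≤ r * ε * ∏ j, ((Fin.tail A j).card : ℝ) ∧
        ∀ a ∈ Fintype.piFinset (Fin.tail A), a ∉ E → ∀ i, Q i (F.filter (p 0 a0)) →
          ∃ F' ⊆ F.filter (p 0 a0), Q (i + r) F' ∧ ∀ x ∈ F', ∀ j, p j.succ (a j) x := by
      intro a0 _
      exact ih (Fin.tail A) (fun j => p j.succ) (fun j => hE j.succ) (F.filter (p 0 a0)) ((filter_subset _ _).trans hF)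
    choose! G hG1 hG2 hG3 using hih
    obtain ⟨E, hEd⟩ : ∃ E : Finset (Fin (r + 1) → ℕ), E = (Fintype.piFinset A).filter (fun a : Fin (r + 1) → ℕ => a 0 ∈ E0 ∨ (Fin.tail a : Fin r → ℕ) ∈ G (a 0)) := ⟨_, rfl⟩
    refine ⟨E, by rw [hEd]; exact filter_subset _ _, ?_, ?_⟩
    · obtain ⟨Q', hQ⟩ : ∃ Q' : ℝ, Q' = ∏ j, ((Fin.tail A j).card : ℝ) := ⟨_, rfl⟩
      have hQ0 : 0 ≤ Q' := by rw [hQ]; exact prod_nonneg fun _ _ => Nat.cast_nonneg _
      have hprod : ∏ j, ((A j).card : ℝ) = (A 0).card * Q' := by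
        rw [Fin.prod_univ_succ, hQ]; rfl
      have hsub : E ⊆ (A 0).biUnion (fun a0 => (if a0 ∈ E0 then Fintype.piFinset (Fin.tail A) else G a0).image (fun b => (Fin.cons a0 b : Fin (r + 1) → ℕ))) := by
        intro a ha
        rw [hEd, mem_filter, Fin.mem_piFinset_iff_zero_tail] at ha
        rw [mem_biUnion]
        refine ⟨a 0, ha.1.1, ?_⟩
        rw [mem_image]
        refine ⟨Fin.tail a, ?_, Fin.cons_self_tail a⟩
        by_cases h0 : a 0 ∈ E0
        · rw [if_pos h0]; exact ha.1.2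
        · rw [if_neg h0]
          exact ha.2.resolve_left h0
      have h1 := (card_le_card hsub).trans card_biUnion_le
      have h2 : (E.card : ℝ) ≤ ∑ a0 ∈ A 0, ((if a0 ∈ E0 then Q' else 0) + r * ε * Q') := by
        refine ((Nat.cast_le (α := ℝ)).2 h1).trans ?_
        push_cast
        apply sum_le_sum
        intro a0 ha0
        have h3 : (((if a0 ∈ E0 then Fintype.piFinset (Fin.tail A) else G a0).image (fun b => (Fin.cons a0 b : Fin (r + 1) → ℕ))).card : ℝ) ≤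
            ((if a0 ∈ E0 then Fintype.piFinset (Fin.tail A) else G a0).card : ℝ) := by exact_mod_cast card_image_le
        refine h3.trans ?_
        by_cases h0 : a0 ∈ E0
        · rw [if_pos h0, if_pos h0, Fintype.card_piFinset]
          push_cast
          rw [← hQ]
          have : 0 ≤ (r : ℝ) * ε * Q' := by positivity
          linarith
        · rw [if_neg h0, if_neg h0, zero_add]
          have := hG2 a0 ha0
          rw [← hQ] at this
          exact this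
      refine h2.trans ?_
      rw [sum_add_distrib, ← sum_filter, sum_const, sum_const, nsmul_eq_mul, nsmul_eq_mul, hprod]
      have h3 : (A 0).filter (fun a0 => a0 ∈ E0) = E0 := by
        ext a; rw [mem_filter]; exact ⟨fun h => h.2, fun h => ⟨hE0 h, h⟩⟩
      rw [h3]
      have h4 := mul_le_mul_of_nonneg_right hE0c hQ0
      push_cast
      linarith
    · intro a ha haE i hi
      rw [hEd, mem_filter, not_and, not_or] at haE
      obtain ⟨h1, h2⟩ := haE ha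
      rw [Fin.mem_piFinset_iff_zero_tail] at ha
      have h3 := hE0b (a 0) ha.1 h1 i hi
      obtain ⟨F', hF', hQF, hpF⟩ := hG3 (a 0) ha.1 (Fin.tail a) ha.2 h2 (i + 1) h3
      refine ⟨F', hF'.trans (filter_subset _ _), ?_, ?_⟩
      · have e2 : i + (r + 1) = i + 1 + r := by omega
        rw [e2]
        exact hQF
      · intro x hx j
        refine Fin.cases ?_ (fun j => ?_) j
        · exact (mem_filter.1 (hF' hx)).2
        · exact hpF x hx j

/-- **Primes in all windows at the points of a sparse set.** -/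
theorem simul (B : ℕ) (δ ε : ℝ) (hδ1 : δ < 1) (hε : 0 < ε) : ∃ (C : ℕ) (N₀ : ℝ), ∀ (N η : ℝ) (k : ℕ)
    (P : Fin k → ℝ) (A : Fin k → Finset ℕ) (S : Finset ℝ), N₀ ≤ N → (k : ℝ) ≤ Real.log N ^ B →
    (∀ j, Real.log N ^ C ≤ P j) → (∀ j, P j ≤ N ^ B) →
    (∀ j, ∀ a ∈ A j, a.Prime ∧ P j / 2 < a ∧ (a : ℝ) ≤ P j) → (∀ j, P j / Real.log N ^ B ≤ (A j).card) →
    (∀ j, Real.log N ^ C / P j ≤ η) → 0 < η → η ≤ 1 → (∀ x ∈ S, N ≤ x ∧ x ≤ 2 * N) →
    (∀ x ∈ S, ∀ x' ∈ S, x ≠ x' → η ≤ |x - x'|) →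
    ∃ E : Finset (Fin k → ℕ), E ⊆ Fintype.piFinset A ∧ (E.card : ℝ) ≤ (∏ j, ((A j).card : ℝ)) / Real.log N ^ B ∧
      ∀ a ∈ Fintype.piFinset A, a ∉ E → ∃ F ⊆ S,
        (max 0 ((1 - δ) / (4 - δ) - ε)) ^ k * S.card - N / η / Real.log N ^ B ≤ F.card ∧
        ∀ x ∈ F, ∀ j, δ * (a j * η) < Th1 (a j) x η := by
  classical
  obtain ⟨ε', hε'⟩ : ∃ ε' : ℝ, ε' = min ε ((1 - δ) / (4 - δ)) := ⟨_, rfl⟩
  have hρ0 : 0 < (1 - δ) / (4 - δ) := div_pos (by linarith) (by linarith)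
  have hρ1 : (1 - δ) / (4 - δ) ≤ 1 := by rw [div_le_one (by linarith)]; linarith
  have hε0 : 0 < ε' := by rw [hε']; exact lt_min hε hρ0
  have hε4 : ε' ≤ (1 - δ) / (4 - δ) := by rw [hε']; exact min_le_right _ _
  have hεε : ε' ≤ ε := by rw [hε']; exact min_le_left _ _
  obtain ⟨ρ, hρ⟩ : ∃ ρ : ℝ, ρ = (1 - δ) / (4 - δ) - ε' := ⟨_, rfl⟩
  have hρn : 0 ≤ ρ := by rw [hρ]; linarith
  have hρle : ρ ≤ 1 := by rw [hρ]; linarith
  obtain ⟨C, N₁, hR⟩ := step B (2 * B) δ ε' hδ1.le hε0 (by linarith)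
  have hev : ∀ᶠ N : ℝ in atTop, N₁ ≤ N ∧ 1 ≤ Real.log N ∧ 1 ≤ N :=
    (eventually_ge_atTop _).and ((Real.tendsto_log_atTop.eventually_ge_atTop _).and (eventually_ge_atTop _))
  obtain ⟨N₀, hN₀⟩ := eventually_atTop.1 hev
  refine ⟨C, N₀, ?_⟩
  intro N η k P A S hN hk hCP hPN hA hcard hη hη0 hη1 hS hsep
  obtain ⟨hE1, hE2, hE3⟩ := hN₀ N hN
  have hNp : 0 < N := by linarith
  obtain ⟨L, hL⟩ : ∃ L : ℝ, L = Real.log N := ⟨_, rfl⟩
  obtain ⟨τ, hτ⟩ : ∃ τ : ℝ, τ = N / η / L ^ (2 * B) := ⟨_, rfl⟩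
  have hτ0 : 0 ≤ τ := by
    rw [hτ, hL]; positivity
  have hstep : ∀ j, ∀ F ⊆ S, ∃ E ⊆ A j, (E.card : ℝ) ≤ 1 / L ^ (2 * B) * (A j).card ∧
      ∀ a ∈ A j, a ∉ E → ∀ i : ℕ, ρ ^ i * S.card - i * τ ≤ (F.card : ℝ) →
        ρ ^ (i + 1) * S.card - (i + 1 : ℕ) * τ ≤ ((F.filter (fun x => δ * (a * η) < Th1 a x η)).card : ℝ) := by
    intro j F hF
    obtain ⟨E, hE, hEc, hEb⟩ := hR N (P j) η (A j) F hE1 (hCP j) (hPN j) (hA j) (hcard j) (hη j) hη1
      (fun x hx => hS x (hF hx)) (fun x hx x' hx' => hsep x (hF hx) x' (hF hx'))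
    rw [← hL] at hEc hEb
    rw [← hτ] at hEb
    refine ⟨E, hE, hEc, ?_⟩
    intro a ha haE i hi
    have h1 := hEb a ha haE
    have h2 : (F.card : ℝ) = ((F.filter (fun x => Th1 a x η ≤ δ * (a * η))).card : ℝ) + ((F.filter (fun x => δ * (a * η) < Th1 a x η)).card : ℝ) := by
      have h3 := card_filter_add_card_filter_not (s := F) (fun x => Th1 a x η ≤ δ * (a * η))
      simp only [not_le] at h3
      exact_mod_cast h3.symm
    have h3 : ρ * F.card - τ ≤ ((F.filter (fun x => δ * (a * η) < Th1 a x η)).card : ℝ) := by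
      have h4 : 3 / (4 - δ) + ε' = 1 - ρ := by
        rw [hρ]
        have : (4 - δ) ≠ 0 := by linarith
        field_simp
        ring
      rw [h4] at h1
      linarith [show (1 - ρ) * (F.card : ℝ) = F.card - ρ * F.card by ring]
    refine le_trans ?_ h3
    have h4 := mul_le_mul_of_nonneg_left hi hρn
    have h5 : ρ * (i * τ) ≤ i * τ := mul_le_of_le_one_left (by positivity) hρle
    push_cast
    rw [pow_succ]
    linarith [show ρ * (ρ ^ i * (S.card : ℝ) - i * τ) = ρ ^ i * ρ * S.card - ρ * (i * τ) by ring]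
  obtain ⟨E, hE, hEc, hEb⟩ := indg (1 / L ^ (2 * B)) (by rw [hL]; positivity) S
    (fun i F => ρ ^ i * S.card - i * τ ≤ (F.card : ℝ)) k A (fun _ a x => δ * (a * η) < Th1 a x η) hstep S Subset.rfl
  rw [← hL] at hk hE2 ⊢
  have hL0 : 0 < L := by linarith
  have hLB : 0 < L ^ B := by positivity
  have hkL : (k : ℝ) / L ^ (2 * B) ≤ 1 / L ^ B := by
    rw [div_le_div_iff₀ (by positivity) (by positivity), two_mul, pow_add, one_mul]
    exact mul_le_mul_of_nonneg_right hk hLB.le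
  refine ⟨E, hE, ?_, ?_⟩
  · refine hEc.trans ?_
    have h1 : 0 ≤ ∏ j, ((A j).card : ℝ) := prod_nonneg fun _ _ => Nat.cast_nonneg _
    have h2 := mul_le_mul_of_nonneg_right hkL h1
    linarith [show (k : ℝ) / L ^ (2 * B) * ∏ j, ((A j).card : ℝ) = k * (1 / L ^ (2 * B)) * ∏ j, ((A j).card : ℝ) by ring,
      show 1 / L ^ B * ∏ j, ((A j).card : ℝ) = (∏ j, ((A j).card : ℝ)) / L ^ B by ring]
  · intro a ha haE
    obtain ⟨F, hF, hQ, hp⟩ := hEb a ha haE 0 (by simp)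
    refine ⟨F, hF, ?_, hp⟩
    rw [zero_add] at hQ
    refine le_trans ?_ hQ
    have h3 : (0 : ℝ) ≤ S.card := Nat.cast_nonneg _
    have h4 : (max 0 ((1 - δ) / (4 - δ) - ε)) ^ k ≤ ρ ^ k := by
      apply pow_le_pow_left₀ (le_max_left _ _)
      apply max_le hρn
      rw [hρ]; linarith
    have h5 := mul_le_mul_of_nonneg_right h4 h3
    have h6 : 0 ≤ N / η := by positivity
    have h7 := mul_le_mul_of_nonneg_right hkL h6
    have h8 : (k : ℝ) * τ ≤ N / η / L ^ B := by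
      rw [hτ]
      linarith [show (k : ℝ) / L ^ (2 * B) * (N / η) = k * (N / η / L ^ (2 * B)) by ring, show 1 / L ^ B * (N / η) = N / η / L ^ B by ring]
    linarith

end Pool.Agent.H15.JD
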