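import Pool.Agent.H15.JD.Pa

/-! Every pattern of windows with and without primes occurs at a positive proportion of the points of a dense set. -/

set_option autoImplicit false

namespace Pool.Agent.H15.JD
open Finset Filter Pool.Agent.H15.FD

/-- windows shorter than the average distance of the primes -/
theorem miss (B B' : ℕ) : ∃ (C : ℕ) (N₀ : ℝ), ∀ (N P η κ : ℝ) (A : Finset ℕ) (S : Finset ℝ),
    N₀ ≤ N → Real.log N ^ C ≤ P → P ≤ N ^ B → (∀ a ∈ A, a.Prime ∧ P / 2 < a ∧ (a : ℝ) ≤ P) →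
    P / Real.log N ^ B ≤ A.card → 1 / (P * Real.log N ^ B) ≤ η → 0 < κ → P * η ≤ (1 - κ) * Real.log N → 0 < η → η ≤ 1 →
    (∀ x ∈ S, N ≤ x ∧ x ≤ 2 * N) → (∀ x ∈ S, ∀ x' ∈ S, x ≠ x' → η ≤ |x - x'|) →
    ∃ E ⊆ A, (E.card : ℝ) ≤ 1 / Real.log N ^ B' * A.card ∧
      ∀ a ∈ A, a ∉ E → κ * S.card - N / η / Real.log N ^ B' ≤ ((S.filter (fun x => Th1 a x η = 0)).card : ℝ) := by
  classical
  obtain ⟨C₁, N₁, hR⟩ := dual B B'
  have hev : ∀ᶠ N : ℝ in atTop, 1 * Real.log N ^ C₁ ≤ N ^ (1 : ℝ) ∧ N₁ ≤ N ∧ 1 ≤ Real.log N ∧ 100 ≤ N :=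
    (Pool.Agent.H15.FD.ev_pow _ _ 1 one_pos).and ((eventually_ge_atTop _).and
      ((Real.tendsto_log_atTop.eventually_ge_atTop _).and (eventually_ge_atTop _)))
  obtain ⟨N₀, hN₀⟩ := eventually_atTop.1 hev
  refine ⟨C₁, N₀, ?_⟩
  intro N P η κ A S hN hCP hPN hA hcard hη hκ hP hη0 hη1 hS hsep
  obtain ⟨hE0, hE1, hE2, hE3⟩ := hN₀ N hN
  have hNp : 0 < N := by linarith
  obtain ⟨L, hL⟩ : ∃ L : ℝ, L = Real.log N := ⟨_, rfl⟩
  rw [← hL] at hE2 hP
  have hL0 : 0 < L := by linarith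
  have hP1 : 1 ≤ P := by
    have : 1 ≤ Real.log N ^ C₁ := by rw [← hL]; exact one_le_pow₀ hE2
    linarith
  have hκ1 : 0 < 1 - κ := by
    by_contra h
    push Not at h
    have h1 : (1 - κ) * L ≤ 0 := mul_nonpos_of_nonpos_of_nonneg h hL0.le
    have h2 : 0 < P * η := by positivity
    linarith
  have hℓ : η ≤ N / Real.log N ^ C₁ := by
    refine hη1.trans ?_
    rw [le_div_iff₀ (by rw [← hL]; positivity), one_mul]
    rw [Real.rpow_one, one_mul] at hE0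
    exact hE0
  obtain ⟨E, hE, hEc, hEb⟩ := hR N P η η 0 A S (fun _ => 1) hE1 hCP hPN hA hcard hη hη1 hS hsep
    le_rfl hNp.le le_rfl hℓ (fun x _ => by rw [abs_one, ← hL]; exact one_le_pow₀ hE2)
  refine ⟨E, hE, hEc, ?_⟩
  intro a ha haE
  have h1 := hEb a ha haE
  simp only [add_zero, one_mul] at h1
  have haP := hA a ha
  have hap : (0 : ℝ) < a := by linarith
  have ha1 : (1 : ℝ) ≤ a := by exact_mod_cast (hA a ha).1.one_le
  have haη : 0 < (a : ℝ) * η := by positivity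
  obtain ⟨Z, hZ⟩ : ∃ Z : Finset ℝ, Z = S.filter (fun x => Th1 a x η = 0) := ⟨_, rfl⟩
  obtain ⟨Y, hY⟩ : ∃ Y : Finset ℝ, Y = S.filter (fun x => ¬ Th1 a x η = 0) := ⟨_, rfl⟩
  have hZY : (S.card : ℝ) = Z.card + Y.card := by
    rw [hZ, hY]
    exact_mod_cast (card_filter_add_card_filter_not (s := S) (fun x => Th1 a x η = 0)).symm
  rw [← hZ]
  have h2 : (Y.card : ℝ) * (1 / (1 - κ)) ≤ ∑ x ∈ S, Th1 a x η / (a * η) := by
    have h3 : ∑ x ∈ Y, Th1 a x η / (a * η) ≤ ∑ x ∈ S, Th1 a x η / (a * η) := by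
      apply sum_le_sum_of_subset_of_nonneg (by rw [hY]; exact filter_subset _ _)
      intro x _ _
      exact div_nonneg (Th1_nonneg _ _ _) haη.le
    refine le_trans ?_ h3
    rw [← nsmul_eq_mul]
    apply card_nsmul_le_sum
    intro x hx
    rw [hY, mem_filter] at hx
    have hx' := hS x hx.1
    have hx0 : 0 ≤ x := by linarith
    rw [div_le_div_iff₀ hκ1 haη, one_mul]
    -- there is a prime in the window
    obtain ⟨p, hp, hp0⟩ : ∃ p ∈ (Ioc ⌊(a : ℝ) * x⌋₊ ⌊(a : ℝ) * (x + η)⌋₊).filter Nat.Prime, Real.log p ≠ 0 := by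
      by_contra hcon
      push Not at hcon
      apply hx.2
      unfold Th1
      exact sum_eq_zero hcon
    have h4 : Real.log p ≤ Th1 a x η := by
      unfold Th1
      apply single_le_sum (f := fun p : ℕ => Real.log p) _ hp
      intro q hq
      exact Real.log_nonneg (by exact_mod_cast (mem_filter.1 hq).2.one_le)
    have h5 : N < p := by
      rw [mem_filter, mem_Ioc] at hp
      have h6 := Nat.lt_of_floor_lt hp.1.1
      have h7 : x ≤ a * x := le_mul_of_one_le_left hx0 ha1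
      linarith
    have h6 : L ≤ Real.log p := by rw [hL]; exact Real.log_le_log hNp h5.le
    have h7 : (a : ℝ) * η ≤ (1 - κ) * L := (mul_le_mul_of_nonneg_right haP.2.2 hη0.le).trans hP
    calc (a : ℝ) * η ≤ (1 - κ) * L := h7
      _ ≤ (1 - κ) * Th1 a x η := mul_le_mul_of_nonneg_left (h6.trans h4) hκ1.le
      _ = _ := by ring
  rw [sum_sub_distrib, sum_const, nsmul_eq_mul, mul_one] at h1
  have h3 := (abs_le.1 h1).2
  rw [← hL] at h3 ⊢
  obtain ⟨τ, hτ⟩ : ∃ τ : ℝ, τ = N / η / L ^ B' := ⟨_, rfl⟩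
  rw [← hτ] at h3 ⊢
  have hτ0 : 0 ≤ τ := by rw [hτ]; positivity
  have h4 : (Y.card : ℝ) * (1 / (1 - κ)) ≤ S.card + τ := by linarith
  rw [mul_one_div, div_le_iff₀ hκ1] at h4
  have h5 : τ * (1 - κ) ≤ τ := mul_le_of_le_one_right hτ0 (by linarith)
  linarith [show ((S.card : ℝ) + τ) * (1 - κ) = S.card - κ * S.card + τ * (1 - κ) by ring]

/-- **All patterns.** -/
theorem patterns (B k : ℕ) (σ lam κ : ℝ) (hσ : 0 < σ) (hlam : 0 < lam) (hκ : 0 < κ) : ∃ c : ℝ, 0 < c ∧ ∃ (C : ℕ) (N₀ : ℝ),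
    ∀ (N η : ℝ) (P : Fin k → ℝ) (A : Fin k → Finset ℕ) (S : Finset ℝ), N₀ ≤ N →
    (∀ j, Real.log N ^ C ≤ P j) → (∀ j, P j ≤ N ^ B) →
    (∀ j, ∀ a ∈ A j, a.Prime ∧ P j / 2 < a ∧ (a : ℝ) ≤ P j) → (∀ j, P j / Real.log N ^ B ≤ (A j).card) →
    (∀ j, lam * Real.log N ≤ P j * η) → 0 < η → η ≤ 1 →
    (∀ x ∈ S, N ≤ x ∧ x ≤ 2 * N) → (∀ x ∈ S, ∀ x' ∈ S, x ≠ x' → η ≤ |x - x'|) → σ * (N / η) ≤ S.card →
    ∃ E : Finset (Fin k → ℕ), E ⊆ Fintype.piFinset A ∧ (E.card : ℝ) ≤ (∏ j, ((A j).card : ℝ)) / Real.log N ^ B ∧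
      ∀ a ∈ Fintype.piFinset A, a ∉ E → ∀ J : Finset (Fin k), (∀ j, j ∉ J → P j * η ≤ (1 - κ) * Real.log N) →
        ∃ F ⊆ S, c * (N / η) ≤ F.card ∧ ∀ x ∈ F, ∀ j, (0 < Th1 (a j) x η ↔ j ∈ J) := by
  classical
  -- the constants
  obtain ⟨lam', hlam'⟩ : ∃ lam' : ℝ, lam' = min lam 1 := ⟨_, rfl⟩
  have hl0 : 0 < lam' := by rw [hlam']; exact lt_min hlam one_pos
  have hl1 : lam' ≤ 1 := by rw [hlam']; exact min_le_right _ _
  have hll : lam' ≤ lam := by rw [hlam']; exact min_le_left _ _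
  obtain ⟨κ', hκ'⟩ : ∃ κ' : ℝ, κ' = min κ 1 := ⟨_, rfl⟩
  have hk0 : 0 < κ' := by rw [hκ']; exact lt_min hκ one_pos
  have hkk1 : κ' ≤ 1 := by rw [hκ']; exact min_le_right _ _
  have hkk : κ' ≤ κ := by rw [hκ']; exact min_le_left _ _
  obtain ⟨B', hB'⟩ : ∃ B' : ℕ, B' = B + 1 := ⟨_, rfl⟩
  obtain ⟨C₁, hC₁⟩ := step2 B B'
  obtain ⟨c₂, hc₂, N₁, hR⟩ := hC₁ 1 0 le_rfl le_rfl one_pos
  obtain ⟨C₂, N₂, hM⟩ := miss B (B' + 1)
  obtain ⟨θ, hθ⟩ : ∃ θ : ℝ, θ = min (κ' / 2) (c₂ * lam') := ⟨_, rfl⟩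
  have hθ0 : 0 < θ := by rw [hθ]; exact lt_min (by linarith) (by positivity)
  have hθ1 : θ ≤ κ' / 2 := by rw [hθ]; exact min_le_left _ _
  have hθ2 : θ ≤ c₂ * lam' := by rw [hθ]; exact min_le_right _ _
  obtain ⟨s, hs⟩ : ∃ s : ℕ → ℝ, s = fun i => Nat.rec (min σ 1) (fun _ r => θ * r ^ 2) i := ⟨_, rfl⟩
  have hs0 : s 0 = min σ 1 := by subst hs; rfl
  have hs1 : ∀ i, s (i + 1) = θ * s i ^ 2 := by intro i; subst hs; rfl
  have hspos : ∀ i, 0 < s i ∧ s i ≤ 1 := by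
    intro i
    induction i with
    | zero => rw [hs0]; exact ⟨lt_min hσ one_pos, min_le_right _ _⟩
    | succ i ih =>
      rw [hs1]
      refine ⟨by have := ih.1; positivity, ?_⟩
      have h1 : s i ^ 2 ≤ 1 := pow_le_one₀ ih.1.le ih.2
      have h2 : θ ≤ 1 := by linarith
      calc θ * s i ^ 2 ≤ 1 * 1 := mul_le_mul h2 h1 (by positivity) zero_le_one
        _ = 1 := one_mul 1
  have hsanti : ∀ i n, i ≤ n → s n ≤ s i := by
    intro i n hin
    induction n, hin using Nat.le_induction with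
    | base => exact le_rfl
    | succ n _ ih =>
      refine le_trans ?_ ih
      rw [hs1]
      have h1 := hspos n
      have h2 : θ ≤ 1 := by linarith
      calc θ * s n ^ 2 ≤ 1 * s n ^ 2 := mul_le_mul_of_nonneg_right h2 (by positivity)
        _ = s n * s n := by ring
        _ ≤ s n * 1 := mul_le_mul_of_nonneg_left h1.2 h1.1.le
        _ = s n := mul_one _
  have hev : ∀ᶠ N : ℝ in atTop, (N₁ ≤ N ∧ N₂ ≤ N) ∧ (2 / (κ' * s k) ≤ Real.log N ∧ 8 / lam' ≤ Real.log N) ∧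
      ((2 : ℝ) ^ k * k ≤ Real.log N ∧ 2 / s k ≤ Real.log N) ∧ 2 ≤ Real.log N ∧ 100 ≤ N :=
    ((eventually_ge_atTop _).and (eventually_ge_atTop _)).and
      (((Real.tendsto_log_atTop.eventually_ge_atTop _).and (Real.tendsto_log_atTop.eventually_ge_atTop _)).and
      (((Real.tendsto_log_atTop.eventually_ge_atTop _).and (Real.tendsto_log_atTop.eventually_ge_atTop _)).and
      ((Real.tendsto_log_atTop.eventually_ge_atTop _).and (eventually_ge_atTop _))))
  obtain ⟨N₀, hN₀⟩ := eventually_atTop.1 hev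
  refine ⟨s k, (hspos k).1, C₁ + C₂, N₀, ?_⟩
  intro N η P A S hN hCP hPN hA hcard hlamP hη0 hη1 hS hsep hσS
  obtain ⟨⟨hE1, hE2⟩, ⟨hE3, hE4⟩, ⟨hE5, hE6⟩, hE7, hE8⟩ := hN₀ N hN
  have hNp : 0 < N := by linarith
  obtain ⟨L, hL⟩ : ∃ L : ℝ, L = Real.log N := ⟨_, rfl⟩
  rw [← hL] at hE3 hE4 hE5 hE6 hE7
  have hL0 : 0 < L := by linarith
  have hL1 : 1 ≤ L := by linarith
  obtain ⟨R, hRd⟩ : ∃ R : ℝ, R = N / η := ⟨_, rfl⟩
  have hR0 : 0 < R := by rw [hRd]; positivity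
  have hlamL : 8 ≤ lam' * L := by rw [div_le_iff₀ hl0] at hE4; linarith
  have hlamP' : ∀ j, lam' * L ≤ P j * η := by
    intro j
    have h1 := hlamP j
    rw [← hL] at h1
    exact (mul_le_mul_of_nonneg_right hll hL0.le).trans h1
  have hPj : ∀ j, 1 ≤ P j := by
    intro j
    have h1 : 1 ≤ Real.log N ^ (C₁ + C₂) := by rw [← hL]; exact one_le_pow₀ hL1
    exact h1.trans (hCP j)
  have hη' : ∀ j, 1 / (P j * Real.log N ^ B) ≤ η := by
    intro j
    have h0 := hPj j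
    rw [← hL, div_le_iff₀ (by positivity)]
    have h1 : 1 ≤ P j * η := by linarith [hlamP' j]
    have h2 : 1 ≤ L ^ B := one_le_pow₀ hL1
    calc (1 : ℝ) ≤ (P j * η) * L ^ B := by nlinarith only [h1, h2]
      _ = _ := by ring
  have hC1 : ∀ j, Real.log N ^ C₁ ≤ P j := fun j => by
    refine le_trans ?_ (hCP j)
    rw [← hL]; exact pow_le_pow_right₀ hL1 (by omega)
  have hC2 : ∀ j, Real.log N ^ C₂ ≤ P j := fun j => by
    refine le_trans ?_ (hCP j)
    rw [← hL]; exact pow_le_pow_right₀ hL1 (by omega)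
  have hsk := hspos k
  -- the small quantities
  have hsm : ∀ i, i ≤ k → R / L ^ B' < s i * R := by
    intro i hi
    have h1 := hsanti i k hi
    have h2 : 1 / L ^ B' < s k := by
      rw [div_lt_iff₀ (by positivity)]
      rw [div_le_iff₀ hsk.1] at hE6
      have h3 : L ≤ L ^ B' := by
        calc L = L ^ 1 := (pow_one L).symm
          _ ≤ L ^ B' := pow_le_pow_right₀ hL1 (by omega)
      have h4 : s k * L ≤ s k * L ^ B' := mul_le_mul_of_nonneg_left h3 hsk.1.le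
      linarith
    calc R / L ^ B' = (1 / L ^ B') * R := by ring
      _ < s k * R := mul_lt_mul_of_pos_right h2 hR0
      _ ≤ s i * R := mul_le_mul_of_nonneg_right h1 hR0.le
  have hsm2 : ∀ i, i ≤ k → R / L ^ (B' + 1) ≤ κ' / 2 * (s i * R) := by
    intro i hi
    have h1 := hsanti i k hi
    have h2 : 1 / L ^ (B' + 1) ≤ κ' / 2 * s k := by
      rw [div_le_iff₀ (by positivity)]
      rw [div_le_iff₀ (by have := hsk.1; positivity)] at hE3
      have h3 : L ≤ L ^ (B' + 1) := by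
        calc L = L ^ 1 := (pow_one L).symm
          _ ≤ L ^ (B' + 1) := pow_le_pow_right₀ hL1 (by omega)
      have h4 : κ' / 2 * s k * L ≤ κ' / 2 * s k * L ^ (B' + 1) := mul_le_mul_of_nonneg_left h3 (by have := hsk.1; positivity)
      linarith
    calc R / L ^ (B' + 1) = (1 / L ^ (B' + 1)) * R := by ring
      _ ≤ κ' / 2 * s k * R := mul_le_mul_of_nonneg_right h2 hR0.le
      _ ≤ κ' / 2 * (s i * R) := by
        rw [mul_assoc]
        apply mul_le_mul_of_nonneg_left _ (by linarith)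
        exact mul_le_mul_of_nonneg_right h1 hR0.le
  -- one pattern
  have hpat : ∀ J : Finset (Fin k), ∃ E : Finset (Fin k → ℕ), E ⊆ Fintype.piFinset A ∧
      (E.card : ℝ) ≤ k * (1 / L ^ (B' + 1)) * ∏ j, ((A j).card : ℝ) ∧
      ((∀ j, j ∉ J → P j * η ≤ (1 - κ) * Real.log N) → ∀ a ∈ Fintype.piFinset A, a ∉ E →
        ∃ F ⊆ S, s k * (N / η) ≤ F.card ∧ ∀ x ∈ F, ∀ j, (0 < Th1 (a j) x η ↔ j ∈ J)) := by
    intro J
    by_cases hJ : ∀ j, j ∉ J → P j * η ≤ (1 - κ) * Real.log N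
    swap
    · refine ⟨∅, empty_subset _, ?_, fun h => absurd h hJ⟩
      rw [card_empty, Nat.cast_zero]
      exact mul_nonneg (by positivity) (prod_nonneg fun _ _ => Nat.cast_nonneg _)
    have hstep : ∀ j, ∀ F ⊆ S, ∃ E ⊆ A j, (E.card : ℝ) ≤ 1 / L ^ (B' + 1) * (A j).card ∧
        ∀ a ∈ A j, a ∉ E → ∀ i : ℕ, (i ≤ k → s i * R ≤ (F.card : ℝ)) →
          (i + 1 ≤ k → s (i + 1) * R ≤ ((F.filter (fun x => 0 < Th1 a x η ↔ j ∈ J)).card : ℝ)) := by
      intro j F hF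
      by_cases hj : j ∈ J
      · obtain ⟨E, hE, hEc, hEb⟩ := hR N (P j) η lam' 1 (A j) F hE1 (hC1 j) (hPN j) (hA j) (hcard j) hl0 hl1
          (by rw [← hL]; exact hlamL) (by rw [← hL, Nat.cast_one, one_mul]; exact hlamP' j) le_rfl
          (by rw [← hL, Nat.cast_one]; exact one_le_pow₀ hL1) hη0 (by rw [Nat.cast_one, one_mul]; exact hη1)
          (fun x hx => hS x (hF hx)) (fun x hx x' hx' => hsep x (hF hx) x' (hF hx'))
        rw [← hL] at hEc hEb
        rw [← hRd] at hEb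
        refine ⟨E, hE, hEc, ?_⟩
        intro a ha haE i hi hik
        have h1 := hi (by omega)
        have h2 := (hEb a ha haE).resolve_left (by have := hsm i (by omega); linarith)
        rw [pow_one, pow_one, Nat.cast_one, one_mul, zero_mul] at h2
        have h3 : (F.card : ℝ) - ((F.filter (fun x => Th1 a x η ≤ 0)).card : ℝ) =
            ((F.filter (fun x => 0 < Th1 a x η ↔ j ∈ J)).card : ℝ) := by
          have h4 := card_filter_add_card_filter_not (s := F) (fun x => Th1 a x η ≤ 0)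
          simp only [not_le] at h4
          have h5 : F.filter (fun x => 0 < Th1 a x η ↔ j ∈ J) = F.filter (fun x => 0 < Th1 a x η) := by
            apply filter_congr
            intro x _
            simp [hj]
          rw [h5]
          have h6 : ((F.filter (fun x => Th1 a x η ≤ 0)).card : ℝ) + ((F.filter (fun x => 0 < Th1 a x η)).card : ℝ) = F.card := by
            exact_mod_cast h4
          linarith
        rw [h3] at h2
        rw [hs1]
        have h7 : (s i * R) ^ 2 ≤ (F.card : ℝ) ^ (1 + 1) := pow_le_pow_left₀ (by have := (hspos i).1; positivity) h1 2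
        have h8 : θ * (s i * R) ^ 2 ≤ ((F.filter (fun x => 0 < Th1 a x η ↔ j ∈ J)).card : ℝ) * R := by
          calc θ * (s i * R) ^ 2 ≤ c₂ * lam' * (F.card : ℝ) ^ (1 + 1) := mul_le_mul hθ2 h7 (by positivity) (by positivity)
            _ ≤ _ := h2
        have h9 : θ * s i ^ 2 * R * R ≤ ((F.filter (fun x => 0 < Th1 a x η ↔ j ∈ J)).card : ℝ) * R := by
          calc θ * s i ^ 2 * R * R = θ * (s i * R) ^ 2 := by ring
            _ ≤ _ := h8
        exact le_of_mul_le_mul_right h9 hR0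
      · obtain ⟨E, hE, hEc, hEb⟩ := hM N (P j) η κ' (A j) F hE2 (hC2 j) (hPN j) (hA j) (hcard j) (hη' j) hk0
          ((hJ j hj).trans (mul_le_mul_of_nonneg_right (by linarith) (by rw [← hL]; exact hL0.le))) hη0 hη1
          (fun x hx => hS x (hF hx)) (fun x hx x' hx' => hsep x (hF hx) x' (hF hx'))
        rw [← hL] at hEc hEb
        rw [← hRd] at hEb
        refine ⟨E, hE, hEc, ?_⟩
        intro a ha haE i hi hik
        have h1 := hi (by omega)
        have h2 := hEb a ha haE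
        have h5 : F.filter (fun x => 0 < Th1 a x η ↔ j ∈ J) = F.filter (fun x => Th1 a x η = 0) := by
          apply filter_congr
          intro x _
          have := Th1_nonneg a x η
          constructor
          · intro h
            by_contra hne
            exact hj (h.1 (lt_of_le_of_ne this (Ne.symm hne)))
          · intro h
            rw [h]
            simp [hj]
        rw [h5]
        refine le_trans ?_ h2
        have h6 := hsm2 i (by omega)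
        have h7 : κ' * (s i * R) ≤ κ' * F.card := mul_le_mul_of_nonneg_left h1 hk0.le
        have h8 : s (i + 1) * R ≤ κ' / 2 * (s i * R) := by
          rw [hs1]
          have h9 := hspos i
          have h10 : θ * s i ^ 2 ≤ κ' / 2 * s i := by
            have h11 : s i ^ 2 ≤ s i := by
              calc s i ^ 2 = s i * s i := by ring
                _ ≤ s i * 1 := mul_le_mul_of_nonneg_left h9.2 h9.1.le
                _ = s i := mul_one _
            exact mul_le_mul hθ1 h11 (by positivity) (by linarith)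
          calc θ * s i ^ 2 * R ≤ κ' / 2 * s i * R := mul_le_mul_of_nonneg_right h10 hR0.le
            _ = _ := by ring
        linarith
    obtain ⟨E, hE, hEc, hEb⟩ := indg (1 / L ^ (B' + 1)) (by positivity) S
      (fun i F => i ≤ k → s i * R ≤ (F.card : ℝ)) k A (fun j a x => 0 < Th1 a x η ↔ j ∈ J) hstep S Subset.rfl
    refine ⟨E, hE, hEc, fun _ a ha haE => ?_⟩
    obtain ⟨F, hF, hQ, hp⟩ := hEb a ha haE 0 (fun _ => by
      refine le_trans ?_ hσS
      rw [hs0, ← hRd]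
      exact mul_le_mul_of_nonneg_right (min_le_left _ _) hR0.le)
    refine ⟨F, hF, ?_, hp⟩
    rw [zero_add] at hQ
    rw [← hRd]
    exact hQ le_rfl
  choose G hG1 hG2 hG3 using hpat
  refine ⟨(univ : Finset (Finset (Fin k))).biUnion G, ?_, ?_, ?_⟩
  · intro a ha
    rw [mem_biUnion] at ha
    obtain ⟨J, _, hJ⟩ := ha
    exact hG1 J hJ
  · have h1 : (((univ : Finset (Finset (Fin k))).biUnion G).card : ℝ) ≤ ∑ J : Finset (Fin k), ((G J).card : ℝ) := by
      exact_mod_cast card_biUnion_le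
    have hprod : 0 ≤ ∏ j, ((A j).card : ℝ) := prod_nonneg fun _ _ => Nat.cast_nonneg _
    refine h1.trans ((sum_le_sum fun J _ => hG2 J).trans ?_)
    rw [sum_const, card_univ, Fintype.card_finset, Fintype.card_fin, nsmul_eq_mul]
    push_cast
    have h2 : (2 : ℝ) ^ k * (k * (1 / L ^ (B' + 1))) ≤ 1 / L ^ B := by
      have e : (2 : ℝ) ^ k * (k * (1 / L ^ (B' + 1))) = (2 ^ k * k) / L ^ (B' + 1) := by ring
      rw [e, div_le_div_iff₀ (by positivity) (by positivity), one_mul, hB']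
      have e2 : L ^ (B + 1 + 1) = L * L ^ (B + 1) := by rw [← pow_succ']
      rw [e2]
      have h3 : L ^ B ≤ L ^ (B + 1) := pow_le_pow_right₀ hL1 (by omega)
      exact mul_le_mul hE5 h3 (by positivity) hL0.le
    have h3 := mul_le_mul_of_nonneg_right h2 hprod
    rw [← hL]
    linarith [show (2 : ℝ) ^ k * (k * (1 / L ^ (B' + 1))) * ∏ j, ((A j).card : ℝ) = 2 ^ k * (k * (1 / L ^ (B' + 1)) * ∏ j, ((A j).card : ℝ)) by ring,
      show 1 / L ^ B * ∏ j, ((A j).card : ℝ) = (∏ j, ((A j).card : ℝ)) / L ^ B by ring]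
  · intro a ha haE J hJ
    apply hG3 J hJ a ha
    intro h
    exact haE (mem_biUnion.2 ⟨J, mem_univ _, h⟩)

end Pool.Agent.H15.JD

namespace Pool.Agent.H15.JD
open Finset Filter Pool.Agent.H15.FD

lemma Th1_pos_iff (a : ℕ) (x η : ℝ) (h : 0 ≤ (a : ℝ) * (x + η)) :
    0 < Th1 a x η ↔ ∃ p : ℕ, p.Prime ∧ (a : ℝ) * x < p ∧ (p : ℝ) ≤ a * (x + η) := by
  constructor
  · intro h1
    by_contra hcon
    push Not at hcon
    have h2 : Th1 a x η = 0 := by
      unfold Th1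
      rw [filter_false_of_mem, sum_empty]
      intro p hp hpp
      rw [mem_Ioc] at hp
      have h3 := hcon p hpp (Nat.lt_of_floor_lt hp.1)
      have h4 := (Nat.le_floor_iff h).1 hp.2
      linarith
    linarith
  · rintro ⟨p, hp, h1, h2⟩
    unfold Th1
    have hx : p ∈ (Ioc ⌊(a : ℝ) * x⌋₊ ⌊(a : ℝ) * (x + η)⌋₊).filter Nat.Prime := by
      rw [mem_filter, mem_Ioc]
      refine ⟨⟨?_, Nat.le_floor h2⟩, hp⟩
      rcases le_or_gt 0 ((a : ℝ) * x) with h3 | h3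
      · exact (Nat.floor_lt h3).2 h1
      · rw [Nat.floor_of_nonpos h3.le]; exact hp.pos
    have h3 : Real.log p ≤ ∑ q ∈ (Ioc ⌊(a : ℝ) * x⌋₊ ⌊(a : ℝ) * (x + η)⌋₊).filter Nat.Prime, Real.log q := by
      apply single_le_sum (f := fun p : ℕ => Real.log p) _ hx
      intro q hq
      exact Real.log_nonneg (by exact_mod_cast (mem_filter.1 hq).2.one_le)
    exact lt_of_lt_of_le (Real.log_pos (by exact_mod_cast hp.one_lt)) h3

/-- **All patterns**, final form. -/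
theorem patterns' (B k : ℕ) (σ lam κ : ℝ) (hσ : 0 < σ) (hlam : 0 < lam) (hκ : 0 < κ) : ∃ c : ℝ, 0 < c ∧ ∃ (C : ℕ) (N₀ : ℝ),
    ∀ (N η : ℝ) (P : Fin k → ℝ) (A : Fin k → Finset ℕ) (S : Finset ℝ), N₀ ≤ N →
    (∀ j, Real.log N ^ C ≤ P j) → (∀ j, P j ≤ N ^ B) →
    (∀ j, ∀ a ∈ A j, a.Prime ∧ P j / 2 < a ∧ (a : ℝ) ≤ P j) → (∀ j, P j / Real.log N ^ B ≤ (A j).card) →
    (∀ j, lam * Real.log N ≤ P j * η) → 0 < η → η ≤ 1 →
    (∀ x ∈ S, N ≤ x ∧ x ≤ 2 * N) → (∀ x ∈ S, ∀ x' ∈ S, x ≠ x' → η ≤ |x - x'|) → σ * (N / η) ≤ S.card →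
    ∃ E : Finset (Fin k → ℕ), E ⊆ Fintype.piFinset A ∧ (E.card : ℝ) ≤ (∏ j, ((A j).card : ℝ)) / Real.log N ^ B ∧
      ∀ a ∈ Fintype.piFinset A, a ∉ E → ∀ J : Finset (Fin k), (∀ j, j ∉ J → P j * η ≤ (1 - κ) * Real.log N) →
        ∃ F ⊆ S, c * (N / η) ≤ F.card ∧
          ∀ x ∈ F, ∀ j, ((∃ p : ℕ, p.Prime ∧ (a j : ℝ) * x < p ∧ (p : ℝ) ≤ a j * (x + η)) ↔ j ∈ J) := by
  obtain ⟨c, hc, C, N₀, h⟩ := patterns B k σ lam κ hσ hlam hκ
  refine ⟨c, hc, C, max N₀ 1, ?_⟩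
  intro N η P A S hN hCP hPN hA hcard hlamP hη0 hη1 hS hsep hσS
  obtain ⟨E, hE, hEc, hEb⟩ := h N η P A S ((le_max_left _ _).trans hN) hCP hPN hA hcard hlamP hη0 hη1 hS hsep hσS
  refine ⟨E, hE, hEc, ?_⟩
  intro a ha haE J hJ
  obtain ⟨F, hF, hc, hp⟩ := hEb a ha haE J hJ
  refine ⟨F, hF, hc, ?_⟩
  intro x hx j
  rw [← hp x hx j, Th1_pos_iff]
  have h1 := (hS x (hF hx)).1
  have h2 : 1 ≤ N := (le_max_right _ _).trans hN
  have : 0 ≤ x + η := by linarith
  positivity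

end Pool.Agent.H15.JD
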