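import Pool.Agent.H15.FD.Mn

/-! The average over a dense set of dilations at the points of a separated set, with a shift. -/

set_option autoImplicit false

namespace Pool.Agent.H15.JD
open Finset Filter Pool.Agent.H15.FD

/-- the window at one dilate -/
noncomputable def Th1 (a : ℕ) (x ℓ : ℝ) : ℝ :=
  ∑ p ∈ (Ioc ⌊(a : ℝ) * x⌋₊ ⌊(a : ℝ) * (x + ℓ)⌋₊).filter Nat.Prime, Real.log p

lemma Th1_nonneg (a : ℕ) (x ℓ : ℝ) : 0 ≤ Th1 a x ℓ := by
  unfold Th1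
  apply sum_nonneg
  intro p hp
  rw [mem_filter] at hp
  exact Real.log_nonneg (by exact_mod_cast hp.2.one_lt.le)

lemma pts_one (B B' : ℕ) : ∃ (C : ℕ) (N₀ : ℝ), ∀ (N N' P η ℓ : ℝ) (A : Finset ℕ) (X : Finset ℝ), N₀ ≤ N → N ≤ N' → N' ≤ 2 * N →
    Real.log N ^ C ≤ P → P ≤ N ^ B → (∀ a ∈ A, a.Prime ∧ P / 2 < a ∧ (a : ℝ) ≤ P) → P / Real.log N ^ B ≤ A.card →
    1 / (P * Real.log N ^ B) ≤ η → η ≤ 1 → (∀ x ∈ X, N' ≤ x ∧ x ≤ 2 * N') → (∀ x ∈ X, ∀ x' ∈ X, x ≠ x' → η ≤ |x - x'|) →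
    η ≤ ℓ → ℓ ≤ N / Real.log N ^ C →
    (∀ x ∈ X, ℓ * (∑ a ∈ A, (a : ℝ)) / Real.log N ^ B' < |∑ a ∈ A, Th1 a x ℓ - ℓ * ∑ a ∈ A, (a : ℝ)|) →
    (X.card : ℝ) ≤ 2 * (N / η / Real.log N ^ (B' + 1)) := by
  classical
  obtain ⟨C', N₁, hR⟩ := Pool.Agent.Results.MP_711652_nt.PolylogPrimeDilations.result (2 * (B + B' + 1))
  have hev : ∀ᶠ N : ℝ in atTop, N₁ ≤ N ∧ 4 ≤ Real.log N ∧ 4 ≤ N :=
    (eventually_ge_atTop _).and ((Real.tendsto_log_atTop.eventually_ge_atTop _).and (eventually_ge_atTop _))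
  obtain ⟨N₀, hN₀⟩ := eventually_atTop.1 hev
  refine ⟨2 * C', N₀, ?_⟩
  intro N N' P η ℓ A X hN hN1 hN2 hCP hPN hA hcard hη hη1 hX hsep hℓ1 hℓ2 hbad
  obtain ⟨hE1, hE2, hE4⟩ := hN₀ N hN
  obtain ⟨L, hL⟩ : ∃ L : ℝ, L = Real.log N := ⟨_, rfl⟩
  obtain ⟨L', hL'⟩ : ∃ L' : ℝ, L' = Real.log N' := ⟨_, rfl⟩
  have hR' := hR N' P η A X
  rw [← hL] at hE2 hCP hcard hη hℓ2 hbad ⊢
  rw [← hL'] at hR'
  have hNp : 0 < N := by linarith
  have hN'p : 0 < N' := by linarith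
  have hL1 : L ≤ L' := by rw [hL, hL']; exact Real.log_le_log hNp hN1
  have hL2 : L' ≤ L + 1 := by
    have h1 : L' ≤ Real.log (2 * N) := by rw [hL']; exact Real.log_le_log hN'p hN2
    rw [Real.log_mul (by norm_num) hNp.ne', ← hL] at h1
    have := Real.log_two_lt_d9
    linarith
  have hL0 : 0 < L := by linarith
  have hL'0 : 0 < L' := by linarith
  have hL'1 : 1 ≤ L' := by linarith
  have hL1' : 1 ≤ L := by linarith
  have hL'L : L' ≤ L ^ 2 := by nlinarith only [hL2, hE2]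
  have hPp : 0 < P := lt_of_lt_of_le (by positivity) hCP
  have hηp : 0 < η := lt_of_lt_of_le (by positivity) hη
  have hLB : L ^ B ≤ L' ^ (2 * (B + B' + 1)) := by
    calc L ^ B ≤ L' ^ B := pow_le_pow_left₀ hL0.le hL1 B
      _ ≤ L' ^ (2 * (B + B' + 1)) := pow_le_pow_right₀ hL'1 (by omega)
  have hLB' : L ^ (B' + 1) ≤ L' ^ (2 * (B + B' + 1)) := by
    calc L ^ (B' + 1) ≤ L' ^ (B' + 1) := pow_le_pow_left₀ hL0.le hL1 _
      _ ≤ L' ^ (2 * (B + B' + 1)) := pow_le_pow_right₀ hL'1 (by omega)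
  have hLC : L' ^ C' ≤ L ^ (2 * C') := by
    calc L' ^ C' ≤ (L ^ 2) ^ C' := pow_le_pow_left₀ hL'0.le hL'L C'
      _ = L ^ (2 * C') := by rw [← pow_mul]
  obtain ⟨T, hT⟩ : ∃ T : ℝ, T = ∑ a ∈ A, (a : ℝ) := ⟨_, rfl⟩
  have hT0 : 0 ≤ T := by rw [hT]; exact sum_nonneg fun _ _ => Nat.cast_nonneg _
  obtain ⟨X', hX', hX'c, hX'b⟩ := hR' (by linarith) (hLC.trans hCP)
    (by
      refine hPN.trans ?_
      calc N ^ B ≤ N' ^ B := pow_le_pow_left₀ hNp.le hN1 B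
        _ ≤ N' ^ (2 * (B + B' + 1)) := pow_le_pow_right₀ (by linarith) (by omega))
    hA
    ((div_le_div_of_nonneg_left hPp.le (by positivity) hLB).trans hcard)
    (by
      refine le_trans ?_ hη
      apply one_div_le_one_div_of_le (by positivity)
      exact mul_le_mul_of_nonneg_left hLB hPp.le)
    hη1 hX hsep
  have hXX : X ⊆ X' := by
    intro x hx
    by_contra hxX
    have h1 := hX'b x hx hxX ℓ hℓ1 (by
      refine hℓ2.trans ?_
      exact div_le_div₀ hN'p.le hN1 (by positivity) hLC)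
    have h2 := hbad x hx
    rw [← hT] at h1 h2
    have h4 : ℓ * T / L' ^ (2 * (B + B' + 1)) ≤ ℓ * T / L ^ B' := by
      apply div_le_div_of_nonneg_left (mul_nonneg (by linarith) hT0) (by positivity)
      exact (pow_le_pow_right₀ hL1' (by omega)).trans hLB'
    unfold Th1 at h2
    linarith
  have h1 : (X.card : ℝ) ≤ X'.card := by exact_mod_cast card_le_card hXX
  refine h1.trans (hX'c.trans ?_)
  have h2 : N' / (η * L' ^ (2 * (B + B' + 1))) ≤ 2 * N / (η * L ^ (B' + 1)) := by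
    apply div_le_div₀ (by positivity) hN2 (by positivity)
    exact mul_le_mul_of_nonneg_left hLB' hηp.le
  refine h2.trans (le_of_eq ?_)
  field_simp

/-- few points of a separated set are bad for the average over a dense set of dilations -/
theorem mean_pts (B B' : ℕ) : ∃ (C : ℕ) (N₀ : ℝ), ∀ (N P η ℓ u : ℝ) (A : Finset ℕ) (S : Finset ℝ), N₀ ≤ N →
    Real.log N ^ C ≤ P → P ≤ N ^ B → (∀ a ∈ A, a.Prime ∧ P / 2 < a ∧ (a : ℝ) ≤ P) → P / Real.log N ^ B ≤ A.card →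
    1 / (P * Real.log N ^ B) ≤ η → η ≤ 1 → (∀ x ∈ S, N ≤ x ∧ x ≤ 2 * N) → (∀ x ∈ S, ∀ x' ∈ S, x ≠ x' → η ≤ |x - x'|) →
    0 ≤ u → u ≤ N → η ≤ ℓ → ℓ ≤ N / Real.log N ^ C →
    ((S.filter (fun x => ℓ * (∑ a ∈ A, (a : ℝ)) / Real.log N ^ B' < |∑ a ∈ A, Th1 a (x + u) ℓ - ℓ * ∑ a ∈ A, (a : ℝ)|)).card : ℝ) ≤
      N / η / Real.log N ^ B' := by
  classical
  obtain ⟨C, N₁, hR⟩ := pts_one B B'
  have hev : ∀ᶠ N : ℝ in atTop, N₁ ≤ N ∧ 4 ≤ Real.log N ∧ 1 ≤ N :=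
    (eventually_ge_atTop _).and ((Real.tendsto_log_atTop.eventually_ge_atTop _).and (eventually_ge_atTop _))
  obtain ⟨N₀, hN₀⟩ := eventually_atTop.1 hev
  refine ⟨C, N₀, ?_⟩
  intro N P η ℓ u A S hN hCP hPN hA hcard hη hη1 hS hsep hu0 hu1 hℓ1 hℓ2
  obtain ⟨hE1, hE2, hE3⟩ := hN₀ N hN
  obtain ⟨F, hF⟩ : ∃ F : Finset ℝ, F = S.filter (fun x => ℓ * (∑ a ∈ A, (a : ℝ)) / Real.log N ^ B' < |∑ a ∈ A, Th1 a (x + u) ℓ - ℓ * ∑ a ∈ A, (a : ℝ)|) := ⟨_, rfl⟩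
  rw [← hF]
  have hinj : Function.Injective (fun x : ℝ => x + u) := add_left_injective u
  have hFS : ∀ x ∈ F, x ∈ S := fun x hx => by rw [hF, mem_filter] at hx; exact hx.1
  have hFb : ∀ x ∈ F, ℓ * (∑ a ∈ A, (a : ℝ)) / Real.log N ^ B' < |∑ a ∈ A, Th1 a (x + u) ℓ - ℓ * ∑ a ∈ A, (a : ℝ)| :=
    fun x hx => by rw [hF, mem_filter] at hx; exact hx.2
  have hsepF : ∀ G : Finset ℝ, G ⊆ F → ∀ x ∈ G.image (fun x : ℝ => x + u), ∀ x' ∈ G.image (fun x : ℝ => x + u), x ≠ x' → η ≤ |x - x'| := by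
    intro G hG x hx x' hx' hne
    rw [mem_image] at hx hx'
    obtain ⟨y, hy, rfl⟩ := hx
    obtain ⟨y', hy', rfl⟩ := hx'
    have h1 : y ≠ y' := by rintro rfl; exact hne rfl
    have h2 := hsep y (hFS y (hG hy)) y' (hFS y' (hG hy')) h1
    rwa [add_sub_add_right_eq_sub]
  have a1 := hR N N P η ℓ A ((F.filter (fun x => x + u ≤ 2 * N)).image (fun x : ℝ => x + u)) hE1 le_rfl (by linarith) hCP hPN hA hcard hη hη1
    (by
      intro x hx
      rw [mem_image] at hx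
      obtain ⟨y, hy, rfl⟩ := hx
      rw [mem_filter] at hy
      have := hS y (hFS y hy.1)
      exact ⟨by linarith, hy.2⟩)
    (hsepF _ (filter_subset _ _)) hℓ1 hℓ2
    (by
      intro x hx
      rw [mem_image] at hx
      obtain ⟨y, hy, rfl⟩ := hx
      rw [mem_filter] at hy
      exact hFb y hy.1)
  have a2 := hR N (2 * N) P η ℓ A ((F.filter (fun x => ¬ (x + u ≤ 2 * N))).image (fun x : ℝ => x + u)) hE1 (by linarith) le_rfl hCP hPN hA hcard hη hη1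
    (by
      intro x hx
      rw [mem_image] at hx
      obtain ⟨y, hy, rfl⟩ := hx
      rw [mem_filter, not_le] at hy
      have := hS y (hFS y hy.1)
      exact ⟨hy.2.le, by linarith⟩)
    (hsepF _ (filter_subset _ _)) hℓ1 hℓ2
    (by
      intro x hx
      rw [mem_image] at hx
      obtain ⟨y, hy, rfl⟩ := hx
      rw [mem_filter] at hy
      exact hFb y hy.1)
  rw [card_image_of_injective _ hinj] at a1 a2
  have h1 : (F.card : ℝ) = (F.filter (fun x => x + u ≤ 2 * N)).card + (F.filter (fun x => ¬ (x + u ≤ 2 * N))).card := by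
    exact_mod_cast (card_filter_add_card_filter_not (s := F) (fun x => x + u ≤ 2 * N)).symm
  rw [h1]
  obtain ⟨L, hL⟩ : ∃ L : ℝ, L = Real.log N := ⟨_, rfl⟩
  rw [← hL] at a1 a2 hE2 hη hCP ⊢
  have hL0 : 0 < L := by linarith
  have hPp : 0 < P := lt_of_lt_of_le (by positivity) hCP
  have hηp : 0 < η := lt_of_lt_of_le (by positivity) hη
  have h2 : N / η / L ^ B' = L * (N / η / L ^ (B' + 1)) := by rw [pow_succ]; field_simp
  rw [h2]
  have h3 : 0 < N / η / L ^ (B' + 1) := by positivity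
  have h4 := mul_le_mul_of_nonneg_right hE2 h3.le
  linarith

end Pool.Agent.H15.JD
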