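import Pool.Agent.H15.JD.Dual

/-! Primes `p` with `⌊(n - p) / m⌋` in an arbitrary set, for all `n` with `⌊n / m⌋ = M`, every `M` and almost all primes `m`. -/

set_option autoImplicit false

namespace Pool.Agent.H15.JD
open Finset Filter Pool.Agent.H15.FD

lemma Th1_theta (a : ℕ) (x ℓ : ℝ) (hx : 0 ≤ x) (hℓ : 0 ≤ ℓ) :
    Th1 a x ℓ = Chebyshev.theta (a * (x + ℓ)) - Chebyshev.theta (a * x) := by
  unfold Th1
  rw [theta_sub _ _ (by positivity) (mul_le_mul_of_nonneg_left (by linarith) (Nat.cast_nonneg a))]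

lemma tele (a K i1 i2 : ℕ) (x : ℝ) (hK : 0 < K) (hx : 0 ≤ x) (hi : i1 ≤ i2) :
    ∑ i ∈ Ico i1 i2, Th1 a (x + i / K) (1 / K) = Chebyshev.theta (a * (x + i2 / K)) - Chebyshev.theta (a * (x + i1 / K)) := by
  induction i2, hi using Nat.le_induction with
  | base => simp
  | succ n hn ih =>
    rw [sum_Ico_succ_top hn, ih, Th1_theta a _ _ (by positivity) (by positivity)]
    have e : (a : ℝ) * (x + n / K + 1 / K) = a * (x + ((n + 1 : ℕ) : ℝ) / K) := by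
      push_cast; ring
    rw [e]
    ring

/-- comparison of a window with cells of length `1 / K` -/
lemma cells_window (a K : ℕ) (x u : ℝ) (hK : 2 ≤ K) (hx : 0 ≤ x) (hu : 0 ≤ u) :
    ∑ i ∈ Ico (⌊u * K⌋₊ + 1) (⌊u * K⌋₊ + K), Th1 a (x + i / K) (1 / K) ≤ Th1 a (x + u) 1 ∧
    Th1 a (x + u) 1 ≤ ∑ i ∈ Ico ⌊u * K⌋₊ (⌊u * K⌋₊ + K + 1), Th1 a (x + i / K) (1 / K) := by
  have hK0 : (0 : ℝ) < K := by exact_mod_cast (by omega : 0 < K)
  obtain ⟨i0, hi0⟩ : ∃ i0 : ℕ, i0 = ⌊u * K⌋₊ := ⟨_, rfl⟩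
  rw [← hi0]
  have h1 : (i0 : ℝ) ≤ u * K := by rw [hi0]; exact Nat.floor_le (by positivity)
  have h2 : u * K < i0 + 1 := by rw [hi0]; exact Nat.lt_floor_add_one _
  have h3 : (i0 : ℝ) / K ≤ u := by rwa [div_le_iff₀ hK0]
  have h4 : u ≤ ((i0 : ℝ) + 1) / K := by rw [le_div_iff₀ hK0]; exact h2.le
  rw [tele a K _ _ x (by omega) hx (by omega), tele a K _ _ x (by omega) hx (by omega),
    Th1_theta a (x + u) 1 (by positivity) zero_le_one]
  have hm : ∀ y z : ℝ, y ≤ z → Chebyshev.theta (a * y) ≤ Chebyshev.theta (a * z) := fun y z h =>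
    Chebyshev.theta_mono (mul_le_mul_of_nonneg_left h (Nat.cast_nonneg a))
  have e1 : ((i0 + K : ℕ) : ℝ) / K = i0 / K + 1 := by push_cast; field_simp
  have e2 : ((i0 + K + 1 : ℕ) : ℝ) / K = (i0 + 1) / K + 1 := by push_cast; field_simp; ring
  have e3 : ((i0 + 1 : ℕ) : ℝ) / K = ((i0 : ℝ) + 1) / K := by push_cast; rfl
  constructor
  · have h5 := hm (x + ((i0 + K : ℕ) : ℝ) / K) (x + u + 1) (by rw [e1]; linarith)
    have h6 := hm (x + u) (x + ((i0 + 1 : ℕ) : ℝ) / K) (by rw [e3]; linarith)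
    linarith
  · have h5 := hm (x + u + 1) (x + ((i0 + K + 1 : ℕ) : ℝ) / K) (by rw [e2]; linarith)
    have h6 := hm (x + (i0 : ℝ) / K) (x + u) (by linarith)
    linarith

/-- the primes with a given quotient -/
lemma quot_window (n m M q : ℕ) (hm : 0 < m) (hnm : n / m = M) (hq : 1 ≤ q) (hqM : q + 1 ≤ M) :
    Th1 m ((M : ℝ) - q - 1 + ((n - m * M : ℕ) : ℝ) / m) 1 =
      ∑ p ∈ (range n).filter (fun p => p.Prime ∧ (n - p) / m = q), Real.log p := by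
  have h0 : m * M ≤ n := by rw [← hnm]; exact Nat.mul_div_le n m
  have hn : n < m * M + m := by
    have := Nat.lt_mul_div_succ n hm
    rw [hnm] at this
    linarith [mul_add m M 1, this]
  obtain ⟨s, hs⟩ : ∃ s, s = n - m * M := ⟨_, rfl⟩
  have hns : n = m * M + s := by omega
  rw [← hs]
  obtain ⟨d, hd⟩ : ∃ d, M = q + 1 + d := ⟨M - (q + 1), by omega⟩
  have hm0 : (m : ℝ) ≠ 0 := by exact_mod_cast hm.ne'
  have e1 : (m : ℝ) * ((M : ℝ) - q - 1 + (s : ℝ) / m) = ((m * d + s : ℕ) : ℝ) := by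
    rw [hd]; push_cast; field_simp; ring
  have e2 : (m : ℝ) * ((M : ℝ) - q - 1 + (s : ℝ) / m + 1) = ((m * d + s + m : ℕ) : ℝ) := by
    rw [hd]; push_cast; field_simp; ring
  unfold Th1
  rw [e1, e2, Nat.floor_natCast, Nat.floor_natCast]
  have hn2 : n = m * q + m + (m * d + s) := by rw [hns, hd]; ring
  have hmq : m ≤ m * q := Nat.le_mul_of_pos_right m hq
  congr 1
  ext p
  simp only [mem_filter, mem_Ioc, mem_range]
  constructor
  · rintro ⟨⟨h1, h2⟩, h3⟩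
    refine ⟨by omega, h3, ?_⟩
    rw [Nat.div_eq_iff hm]
    constructor
    · have : q * m = m * q := mul_comm _ _
      omega
    · have : q * m = m * q := mul_comm _ _
      omega
  · rintro ⟨h1, h2, h3⟩
    rw [Nat.div_eq_iff hm] at h3
    have : q * m = m * q := mul_comm _ _
    refine ⟨⟨by omega, by omega⟩, h2⟩

lemma quot_sum (n m M : ℕ) (Q : Finset ℕ) (hm : 0 < m) (hnm : n / m = M) (hQ : ∀ q ∈ Q, 1 ≤ q ∧ q + 1 ≤ M) :
    ∑ p ∈ (range n).filter (fun p => p.Prime ∧ (n - p) / m ∈ Q), Real.log (p : ℝ) =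
      ∑ q ∈ Q, Th1 m ((M : ℝ) - q - 1 + ((n - m * M : ℕ) : ℝ) / m) 1 := by
  classical
  rw [← sum_fiberwise_of_maps_to (s := (range n).filter (fun p => p.Prime ∧ (n - p) / m ∈ Q)) (t := Q)
    (g := fun p => (n - p) / m) (fun p hp => (mem_filter.1 hp).2.2)]
  apply sum_congr rfl
  intro q hq
  rw [quot_window n m M q hm hnm (hQ q hq).1 (hQ q hq).2]
  congr 1
  ext p
  simp only [mem_filter, mem_range]
  constructor
  · rintro ⟨⟨h1, h2, _⟩, h4⟩; exact ⟨h1, h2, h4⟩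
  · rintro ⟨h1, h2, h3⟩; exact ⟨⟨h1, h2, h3 ▸ hq⟩, h3⟩

end Pool.Agent.H15.JD
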