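import Pool.Agent.H15.JD.Qu

/-! Primes `p` with `⌊(n - p) / m⌋` in an arbitrary set, for all `n` with `⌊n / m⌋ = M`: main theorem. -/

set_option autoImplicit false

namespace Pool.Agent.H15.JD
open Finset Filter Pool.Agent.H15.FD

/-- all shifts at once -/
theorem shifts (B : ℕ) : ∃ (C M₀ : ℕ), ∀ (M : ℕ) (P : ℝ) (A Q : Finset ℕ), M₀ ≤ M →
    Real.log M ^ C ≤ P → P ≤ (M : ℝ) ^ B → (∀ a ∈ A, a.Prime ∧ P / 2 < a ∧ (a : ℝ) ≤ P) → P / Real.log M ^ B ≤ A.card →
    (∀ q ∈ Q, 1 ≤ q ∧ 2 * q ≤ M) →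
    ∃ E ⊆ A, (E.card : ℝ) ≤ A.card / Real.log M ^ B ∧ ∀ m ∈ A, m ∉ E → ∀ u : ℝ, 0 ≤ u → u < 1 →
      |∑ q ∈ Q, Th1 m ((M : ℝ) - q - 1 + u) 1 - m * Q.card| ≤ m * M / Real.log M ^ B := by
  classical
  obtain ⟨B2, hB2⟩ : ∃ B2 : ℕ, B2 = 2 * B + 6 := ⟨_, rfl⟩
  obtain ⟨C, N₁, hD⟩ := dual (B + 1) B2
  have hlog : Tendsto (fun M : ℕ => Real.log (M : ℝ)) atTop atTop := Real.tendsto_log_atTop.comp tendsto_natCast_atTop_atTop
  have hev : ∀ᶠ M : ℕ in atTop, (4 * N₁ ≤ (M : ℝ) ∧ (4 : ℝ) ^ (B + 2) * 4 ≤ M) ∧ (2 ^ (2 * B + 20) ≤ Real.log M) ∧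
      Real.log (M : ℝ) ^ (C + 1) ≤ M := by
    refine ((tendsto_natCast_atTop_atTop.eventually_ge_atTop _).and (tendsto_natCast_atTop_atTop.eventually_ge_atTop _)).and
      ((hlog.eventually_ge_atTop _).and ?_)
    have h1 : ∀ᶠ x : ℝ in atTop, Real.log x ^ (C + 1) ≤ x := by
      have h2 := (isLittleO_log_rpow_rpow_atTop (C + 1 : ℝ) (show (0 : ℝ) < 1 by norm_num)).bound (show (0 : ℝ) < 1 by norm_num)
      filter_upwards [h2, eventually_ge_atTop 1] with x hx hx1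
      rw [Real.rpow_one, one_mul] at hx
      have h3 : Real.log x ^ ((C : ℝ) + 1) = Real.log x ^ (C + 1) := by
        rw [← Real.rpow_natCast]; push_cast; rfl
      rw [h3] at hx
      calc Real.log x ^ (C + 1) ≤ ‖Real.log x ^ (C + 1)‖ := le_abs_self _
        _ ≤ ‖x‖ := hx
        _ = x := by rw [Real.norm_of_nonneg (by linarith)]
    exact tendsto_natCast_atTop_atTop.eventually h1
  obtain ⟨M₀, hM₀⟩ := eventually_atTop.1 hev
  refine ⟨C + B + 4, M₀, ?_⟩
  intro M P A Q hM hCP hPM hA hcard hQ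
  obtain ⟨⟨hE1, hE2⟩, hE3, hE4⟩ := hM₀ M hM
  obtain ⟨L, hL⟩ : ∃ L : ℝ, L = Real.log M := ⟨_, rfl⟩
  rw [← hL] at hCP hcard hE3 hE4 ⊢
  have h220 : (2 : ℝ) ^ 20 ≤ 2 ^ (2 * B + 20) := pow_le_pow_right₀ (by norm_num) (by omega)
  have hL1 : (1048576 : ℝ) ≤ L := by
    have : (2 : ℝ) ^ 20 = 1048576 := by norm_num
    linarith
  have hL0 : 0 < L := by linarith
  have hLone : 1 ≤ L := by linarith
  have hM64 : (64 : ℝ) ≤ M := by
    have h1 : (4 : ℝ) ^ 2 ≤ 4 ^ (B + 2) := pow_le_pow_right₀ (by norm_num) (by omega)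
    linarith
  have hM0 : (0 : ℝ) < M := by linarith
  obtain ⟨N, hN⟩ : ∃ N : ℝ, N = M / 2 - 1 := ⟨_, rfl⟩
  have hN4 : (M : ℝ) / 4 ≤ N := by rw [hN]; linarith
  have hNM : N ≤ M := by rw [hN]; linarith
  have hN0 : 0 < N := by linarith
  obtain ⟨L', hL'⟩ : ∃ L' : ℝ, L' = Real.log N := ⟨_, rfl⟩
  have hL'L : L' ≤ L := by rw [hL, hL']; exact Real.log_le_log hN0 hNM
  have hLL' : L / 2 ≤ L' := by
    have h1 : Real.log ((M : ℝ) / 4) ≤ L' := by rw [hL']; exact Real.log_le_log (by linarith) hN4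
    rw [Real.log_div hM0.ne' (by norm_num), ← hL] at h1
    have h2 : Real.log 4 ≤ 4 := by
      have := Real.log_le_sub_one_of_pos (show (0 : ℝ) < 4 by norm_num); linarith
    linarith
  have hL'0 : 0 < L' := by linarith
  have hL'1 : 1 ≤ L' := by linarith
  have hP0 : 0 < P := lt_of_lt_of_le (by positivity) hCP
  -- the number of cells
  obtain ⟨K, hK⟩ : ∃ K : ℕ, K = ⌈L ^ (B + 2)⌉₊ := ⟨_, rfl⟩
  have hK1 : L ^ (B + 2) ≤ K := by rw [hK]; exact Nat.le_ceil _
  have hK2 : (K : ℝ) ≤ 2 * L ^ (B + 2) := by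
    have h1 := Nat.ceil_lt_add_one (a := L ^ (B + 2)) (by positivity)
    rw [← hK] at h1
    have h2 : 1 ≤ L ^ (B + 2) := one_le_pow₀ hLone
    linarith
  have hLB2 : L ≤ L ^ (B + 2) := by
    calc L = L ^ 1 := (pow_one L).symm
      _ ≤ L ^ (B + 2) := pow_le_pow_right₀ hLone (by omega)
  have hKr : (2 : ℝ) ≤ K := by linarith
  have hK0 : (0 : ℝ) < K := by linarith
  have hK2n : 2 ≤ K := by exact_mod_cast hKr
  -- the points
  obtain ⟨S, hS⟩ : ∃ S : Finset ℝ, S = Q.image (fun q : ℕ => (M : ℝ) - q - 1) := ⟨_, rfl⟩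
  have hinj : Set.InjOn (fun q : ℕ => (M : ℝ) - q - 1) Q := by
    intro q _ q' _ h
    have h1 : (q : ℝ) = q' := by simp only at h; linarith
    exact_mod_cast h1
  have hScard : S.card = Q.card := by rw [hS]; exact card_image_of_injOn hinj
  have hSsum : ∀ f : ℝ → ℝ, ∑ x ∈ S, f x = ∑ q ∈ Q, f ((M : ℝ) - q - 1) := fun f => by rw [hS]; exact sum_image hinj
  have hSN : ∀ x ∈ S, N ≤ x ∧ x ≤ 2 * N := by
    intro x hx
    rw [hS, mem_image] at hx
    obtain ⟨q, hq, rfl⟩ := hx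
    obtain ⟨h1, h2⟩ := hQ q hq
    have h1' : (1 : ℝ) ≤ q := by exact_mod_cast h1
    have h2' : (2 : ℝ) * q ≤ M := by exact_mod_cast h2
    rw [hN]
    constructor <;> linarith
  have hSsep : ∀ x ∈ S, ∀ x' ∈ S, x ≠ x' → 1 / (K : ℝ) ≤ |x - x'| := by
    intro x hx x' hx' hne
    rw [hS, mem_image] at hx hx'
    obtain ⟨q, hq, rfl⟩ := hx
    obtain ⟨q', hq', rfl⟩ := hx'
    have h1 : (q : ℤ) ≠ q' := by
      intro h
      apply hne
      have : (q : ℝ) = q' := by exact_mod_cast h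
      rw [this]
    have h2 : (1 : ℝ) ≤ |(((q' : ℤ) - (q : ℤ) : ℤ) : ℝ)| := by
      have h3 : 1 ≤ |(q' : ℤ) - (q : ℤ)| := Int.one_le_abs (sub_ne_zero.2 (Ne.symm h1))
      rw [← Int.cast_abs]
      exact_mod_cast h3
    have h4 : (M : ℝ) - q - 1 - ((M : ℝ) - q' - 1) = (((q' : ℤ) - (q : ℤ) : ℤ) : ℝ) := by push_cast; ring
    rw [h4]
    refine le_trans ?_ h2
    rw [div_le_one hK0]; linarith
  have hQcard : (Q.card : ℝ) ≤ M := by
    have h1 : Q.card ≤ (Icc 1 M).card := by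
      apply card_le_card
      intro q hq
      rw [mem_Icc]
      have := hQ q hq
      omega
    rw [Nat.card_Icc] at h1
    have h2 : Q.card ≤ M := by omega
    exact_mod_cast h2
  -- the exceptional sets
  have hPpow : P ≤ N ^ (B + 1) := by
    refine hPM.trans ?_
    have h1 : (M : ℝ) ^ B ≤ (4 * N) ^ B := pow_le_pow_left₀ hM0.le (by linarith) _
    refine h1.trans ?_
    rw [mul_pow, pow_succ N, mul_comm]
    apply mul_le_mul_of_nonneg_left _ (by positivity)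
    have h2 : (4 : ℝ) ^ B ≤ 4 ^ (B + 2) := pow_le_pow_right₀ (by norm_num) (by omega)
    linarith
  have hLC : L' ^ C ≤ P := by
    have h1 : L' ^ C ≤ L ^ C := pow_le_pow_left₀ hL'0.le hL'L _
    exact h1.trans ((pow_le_pow_right₀ hLone (by omega)).trans hCP)
  have h2B : (2 : ℝ) ^ (2 * B + 20) ≤ L := hE3
  have hLB1 : L ^ B ≤ L' ^ (B + 1) := by
    have h1 : L ^ B ≤ (2 * L') ^ B := pow_le_pow_left₀ hL0.le (by linarith) _
    refine h1.trans ?_
    rw [mul_pow, pow_succ L', mul_comm]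
    apply mul_le_mul_of_nonneg_left _ (by positivity)
    have h2 : (2 : ℝ) ^ (B + 1) ≤ 2 ^ (2 * B + 20) := pow_le_pow_right₀ (by norm_num) (by omega)
    rw [pow_succ] at h2
    linarith
  have hcard' : P / L' ^ (B + 1) ≤ A.card :=
    (div_le_div_of_nonneg_left hP0.le (by positivity) hLB1).trans hcard
  have hη1 : 1 / (P * L' ^ (B + 1)) ≤ 1 / (K : ℝ) := by
    apply one_div_le_one_div_of_le hK0
    have h1 : (K : ℝ) ≤ P := by
      refine hK2.trans ?_
      refine le_trans ?_ hCP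
      calc 2 * L ^ (B + 2) ≤ L * L ^ (B + 2) := mul_le_mul_of_nonneg_right (by linarith) (by positivity)
        _ = L ^ (B + 3) := by ring
        _ ≤ L ^ (C + B + 4) := pow_le_pow_right₀ hLone (by omega)
    have h2 : 1 ≤ L' ^ (B + 1) := one_le_pow₀ hL'1
    nlinarith only [h1, h2, hP0]
  have hK1' : 1 / (K : ℝ) ≤ 1 := by rw [div_le_one hK0]; linarith
  have hlast : 1 / (K : ℝ) ≤ N / L' ^ C := by
    refine hK1'.trans ?_
    rw [le_div_iff₀ (by positivity), one_mul]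
    have h1 : L' ^ C ≤ L ^ C := pow_le_pow_left₀ hL'0.le hL'L _
    have h2 : L ^ C * 4 ≤ L ^ (C + 1) := by
      rw [pow_succ]
      exact mul_le_mul_of_nonneg_left (by linarith) (by positivity)
    linarith
  have hex : ∀ i ∈ range (2 * K + 2), ∃ E ⊆ A, (E.card : ℝ) ≤ 1 / L' ^ B2 * A.card ∧
      ∀ a ∈ A, a ∉ E → |∑ x ∈ S, (1 : ℝ) * (Th1 a (x + (i : ℝ) / K) (1 / K) / (a * (1 / K)) - 1)| ≤ N / (1 / (K : ℝ)) / L' ^ B2 := by
    intro i hi
    rw [mem_range] at hi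
    have hi' : (i : ℝ) ≤ 2 * K + 2 := by exact_mod_cast hi.le
    have h1 := hD N P (1 / K) (1 / K) ((i : ℝ) / K) A S (fun _ => 1) (by linarith)
    rw [← hL'] at h1
    apply h1 hLC hPpow hA hcard' hη1 hK1' hSN hSsep (by positivity) _ le_rfl hlast
    · intro x _
      rw [abs_one]
      exact one_le_pow₀ hL'1
    · rw [div_le_iff₀ hK0]
      have : 4 ≤ N := by linarith
      nlinarith only [hi', this, hKr]
  choose! E hEA hEc hEb using hex
  refine ⟨(range (2 * K + 2)).biUnion E, ?_, ?_, ?_⟩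
  · intro a ha
    rw [mem_biUnion] at ha
    obtain ⟨i, hi, ha⟩ := ha
    exact hEA i hi ha
  · have h1 : (((range (2 * K + 2)).biUnion E).card : ℝ) ≤ ∑ i ∈ range (2 * K + 2), ((E i).card : ℝ) := by
      exact_mod_cast card_biUnion_le
    have h2 : ∑ i ∈ range (2 * K + 2), ((E i).card : ℝ) ≤ (2 * K + 2) * (1 / L' ^ B2 * A.card) := by
      have h3 := sum_le_card_nsmul (range (2 * K + 2)) (fun i => ((E i).card : ℝ)) (1 / L' ^ B2 * A.card) hEc
      rw [card_range, nsmul_eq_mul] at h3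
      push_cast at h3
      exact h3
    have h4 : (2 * (K : ℝ) + 2) * (1 / L' ^ B2) ≤ 1 / L ^ B := by
      rw [mul_one_div, div_le_div_iff₀ (by positivity) (by positivity), one_mul]
      have h5 : 2 * (K : ℝ) + 2 ≤ 6 * L ^ (B + 2) := by
        have : 1 ≤ L ^ (B + 2) := one_le_pow₀ hLone
        linarith
      have h6 : (L / 2) ^ B2 ≤ L' ^ B2 := pow_le_pow_left₀ (by linarith) hLL' _
      refine le_trans ?_ h6
      rw [div_pow, le_div_iff₀ (by positivity)]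
      have h7 : L ^ B2 = L ^ (B + 2) * L ^ B * (L ^ 4) := by
        rw [hB2, ← pow_add, ← pow_add]; congr 1; ring
      have h8 : 6 * (2 : ℝ) ^ B2 ≤ L ^ 4 := by
        have h9 : 6 * (2 : ℝ) ^ B2 ≤ 2 ^ (2 * B + 20) := by
          rw [hB2, show 2 * B + 20 = (2 * B + 6) + 14 by ring, pow_add _ (2 * B + 6) 14]
          have : (0 : ℝ) < 2 ^ (2 * B + 6) := by positivity
          nlinarith
        calc 6 * (2 : ℝ) ^ B2 ≤ L := h9.trans h2B
          _ = L ^ 1 := (pow_one L).symm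
          _ ≤ L ^ 4 := pow_le_pow_right₀ hLone (by norm_num)
      rw [h7]
      calc (2 * (K : ℝ) + 2) * L ^ B * 2 ^ B2 ≤ (6 * L ^ (B + 2)) * L ^ B * 2 ^ B2 := by gcongr
        _ = L ^ (B + 2) * L ^ B * (6 * 2 ^ B2) := by ring
        _ ≤ L ^ (B + 2) * L ^ B * (L ^ 4) := mul_le_mul_of_nonneg_left h8 (by positivity)
    have h5 := mul_le_mul_of_nonneg_right h4 (Nat.cast_nonneg (α := ℝ) A.card)
    calc (((range (2 * K + 2)).biUnion E).card : ℝ) ≤ (2 * K + 2) * (1 / L' ^ B2 * A.card) := h1.trans h2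
      _ = (2 * (K : ℝ) + 2) * (1 / L' ^ B2) * A.card := by ring
      _ ≤ 1 / L ^ B * A.card := h5
      _ = A.card / L ^ B := by ring
  · intro m hm hmE u hu0 hu1
    rw [mem_biUnion, not_exists] at hmE
    have hm1 := (hA m hm).1.pos
    have hm0 : (0 : ℝ) < m := by exact_mod_cast hm1
    -- one cell
    have hcell : ∀ i ∈ range (2 * K + 2), |∑ q ∈ Q, Th1 m ((M : ℝ) - q - 1 + (i : ℝ) / K) (1 / K) - m / K * Q.card| ≤
        m * N / L' ^ B2 := by
      intro i hi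
      have h1 := hEb i hi m hm (fun h => hmE i ⟨hi, h⟩)
      rw [hSsum] at h1
      have h2 : ∑ q ∈ Q, Th1 m ((M : ℝ) - q - 1 + (i : ℝ) / K) (1 / K) - m / K * Q.card =
          (m / K) * ∑ q ∈ Q, (1 : ℝ) * (Th1 m ((M : ℝ) - q - 1 + (i : ℝ) / K) (1 / K) / (m * (1 / K)) - 1) := by
        rw [mul_sum]
        have h3 : ∀ q ∈ Q, (m / K : ℝ) * (1 * (Th1 m ((M : ℝ) - q - 1 + (i : ℝ) / K) (1 / K) / (m * (1 / K)) - 1)) =
            Th1 m ((M : ℝ) - q - 1 + (i : ℝ) / K) (1 / K) - m / K := by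
          intro q _
          field_simp
        rw [sum_congr rfl h3, sum_sub_distrib, sum_const, nsmul_eq_mul]
        ring
      rw [h2, abs_mul, abs_of_nonneg (by positivity : (0 : ℝ) ≤ m / K)]
      calc (m / K : ℝ) * |∑ q ∈ Q, (1 : ℝ) * (Th1 m ((M : ℝ) - q - 1 + (i : ℝ) / K) (1 / K) / (m * (1 / K)) - 1)| ≤
          (m / K) * (N / (1 / (K : ℝ)) / L' ^ B2) := mul_le_mul_of_nonneg_left h1 (by positivity)
        _ = _ := by field_simp
    obtain ⟨i0, hi0⟩ : ∃ i0 : ℕ, i0 = ⌊u * K⌋₊ := ⟨_, rfl⟩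
    have hi0K : i0 < K := by
      rw [hi0, Nat.floor_lt (by positivity)]
      calc u * K < 1 * K := mul_lt_mul_of_pos_right hu1 hK0
        _ = K := one_mul _
    obtain ⟨D, hDd⟩ : ∃ D : ℝ, D = m * N / L' ^ B2 := ⟨_, rfl⟩
    have hD0 : 0 ≤ D := by rw [hDd]; positivity
    rw [← hDd] at hcell
    have hwin : ∀ q ∈ Q, ∑ i ∈ Ico (i0 + 1) (i0 + K), Th1 m ((M : ℝ) - q - 1 + (i : ℝ) / K) (1 / K) ≤ Th1 m ((M : ℝ) - q - 1 + u) 1 ∧
        Th1 m ((M : ℝ) - q - 1 + u) 1 ≤ ∑ i ∈ Ico i0 (i0 + K + 1), Th1 m ((M : ℝ) - q - 1 + (i : ℝ) / K) (1 / K) := by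
      intro q hq
      have h1 : 0 ≤ (M : ℝ) - q - 1 := by
        obtain ⟨h1, h2⟩ := hQ q hq
        have h2' : (2 : ℝ) * q ≤ M := by exact_mod_cast h2
        linarith
      have h2 := cells_window m K ((M : ℝ) - q - 1) u hK2n h1 hu0
      rw [← hi0] at h2
      exact h2
    have hup : ∑ q ∈ Q, Th1 m ((M : ℝ) - q - 1 + u) 1 ≤ (K + 1) * (m / K * Q.card + D) := by
      calc ∑ q ∈ Q, Th1 m ((M : ℝ) - q - 1 + u) 1 ≤ ∑ q ∈ Q, ∑ i ∈ Ico i0 (i0 + K + 1), Th1 m ((M : ℝ) - q - 1 + (i : ℝ) / K) (1 / K) :=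
            sum_le_sum fun q hq => (hwin q hq).2
        _ = ∑ i ∈ Ico i0 (i0 + K + 1), ∑ q ∈ Q, Th1 m ((M : ℝ) - q - 1 + (i : ℝ) / K) (1 / K) := sum_comm
        _ ≤ ∑ i ∈ Ico i0 (i0 + K + 1), (m / K * Q.card + D) := by
            apply sum_le_sum
            intro i hi
            rw [mem_Ico] at hi
            have h1 := (abs_le.1 (hcell i (mem_range.2 (by omega)))).2
            linarith
        _ = _ := by
            rw [sum_const, Nat.card_Ico, nsmul_eq_mul]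
            have : i0 + K + 1 - i0 = K + 1 := by omega
            rw [this]; push_cast; ring
    have hlo : (K - 1) * (m / K * Q.card - D) ≤ ∑ q ∈ Q, Th1 m ((M : ℝ) - q - 1 + u) 1 := by
      calc ((K : ℝ) - 1) * (m / K * Q.card - D) = ∑ i ∈ Ico (i0 + 1) (i0 + K), (m / K * Q.card - D) := by
            rw [sum_const, Nat.card_Ico, nsmul_eq_mul]
            have : i0 + K - (i0 + 1) = K - 1 := by omega
            rw [this, Nat.cast_sub (by omega : 1 ≤ K)]; push_cast; ring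
        _ ≤ ∑ i ∈ Ico (i0 + 1) (i0 + K), ∑ q ∈ Q, Th1 m ((M : ℝ) - q - 1 + (i : ℝ) / K) (1 / K) := by
            apply sum_le_sum
            intro i hi
            rw [mem_Ico] at hi
            have h1 := (abs_le.1 (hcell i (mem_range.2 (by omega)))).1
            linarith
        _ = ∑ q ∈ Q, ∑ i ∈ Ico (i0 + 1) (i0 + K), Th1 m ((M : ℝ) - q - 1 + (i : ℝ) / K) (1 / K) := sum_comm
        _ ≤ ∑ q ∈ Q, Th1 m ((M : ℝ) - q - 1 + u) 1 := sum_le_sum fun q hq => (hwin q hq).1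
    -- the error
    have hQ0 : (0 : ℝ) ≤ Q.card := Nat.cast_nonneg _
    have herr : m / K * Q.card + (K + 1) * D ≤ m * M / L ^ B := by
      have h1 : (m : ℝ) / K * Q.card ≤ m * M / L ^ (B + 2) := by
        calc (m : ℝ) / K * Q.card ≤ m / L ^ (B + 2) * M := by
              apply mul_le_mul _ hQcard hQ0 (by positivity)
              exact div_le_div_of_nonneg_left hm0.le (by positivity) hK1
          _ = _ := by ring
      have h2 : (m : ℝ) * M / L ^ (B + 2) ≤ m * M / L ^ B / 2 := by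
        rw [div_div]
        apply div_le_div_of_nonneg_left (by positivity) (by positivity)
        rw [pow_add]
        apply mul_le_mul_of_nonneg_left _ (by positivity)
        nlinarith only [hL1]
      have h3 : ((K : ℝ) + 1) * D ≤ m * M / L ^ B / 2 := by
        rw [hDd, ← mul_div_assoc, div_div, div_le_div_iff₀ (by positivity) (by positivity)]
        have h5 : (K : ℝ) + 1 ≤ 3 * L ^ (B + 2) := by
          have : 1 ≤ L ^ (B + 2) := one_le_pow₀ hLone
          linarith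
        have h6 : (L / 2) ^ B2 ≤ L' ^ B2 := pow_le_pow_left₀ (by linarith) hLL' _
        have h7 : 3 * L ^ (B + 2) * (L ^ B * 2) ≤ L' ^ B2 := by
          refine le_trans ?_ h6
          rw [div_pow, le_div_iff₀ (by positivity)]
          have h7 : L ^ B2 = L ^ (B + 2) * L ^ B * (L ^ 4) := by
            rw [hB2, ← pow_add, ← pow_add]; congr 1; ring
          have h8 : 6 * (2 : ℝ) ^ B2 ≤ L ^ 4 := by
            have h9 : 6 * (2 : ℝ) ^ B2 ≤ 2 ^ (2 * B + 20) := by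
              rw [hB2, show 2 * B + 20 = (2 * B + 6) + 14 by ring, pow_add _ (2 * B + 6) 14]
              have : (0 : ℝ) < 2 ^ (2 * B + 6) := by positivity
              nlinarith
            calc 6 * (2 : ℝ) ^ B2 ≤ L := h9.trans h2B
              _ = L ^ 1 := (pow_one L).symm
              _ ≤ L ^ 4 := pow_le_pow_right₀ hLone (by norm_num)
          rw [h7]
          calc 3 * L ^ (B + 2) * (L ^ B * 2) * 2 ^ B2 = L ^ (B + 2) * L ^ B * (6 * 2 ^ B2) := by ring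
            _ ≤ L ^ (B + 2) * L ^ B * (L ^ 4) := mul_le_mul_of_nonneg_left h8 (by positivity)
        calc ((K : ℝ) + 1) * (m * N) * (L ^ B * 2) ≤ (3 * L ^ (B + 2)) * (m * M) * (L ^ B * 2) := by gcongr
          _ = m * M * (3 * L ^ (B + 2) * (L ^ B * 2)) := by ring
          _ ≤ m * M * L' ^ B2 := mul_le_mul_of_nonneg_left h7 (by positivity)
      linarith
    have hKK : (K : ℝ) * (m / K * Q.card) = m * Q.card := by field_simp
    rw [abs_le]
    constructor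
    · have h1 : ((K : ℝ) - 1) * (m / K * Q.card - D) = m * Q.card - m / K * Q.card - (K - 1) * D := by
        rw [← hKK]; ring
      rw [h1] at hlo
      have h2 : ((K : ℝ) - 1) * D ≤ (K + 1) * D := mul_le_mul_of_nonneg_right (by linarith) hD0
      linarith
    · have h1 : ((K : ℝ) + 1) * (m / K * Q.card + D) = m * Q.card + m / K * Q.card + (K + 1) * D := by
        rw [← hKK]; ring
      rw [h1] at hup
      linarith

end Pool.Agent.H15.JD
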