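import Pool.Agent.H15.JD.Lw

/-! Windows of logarithmic length, uniformly over all separated sets. -/

set_option autoImplicit false

namespace Pool.Agent.H15.JD
open Finset Filter Pool.Agent.H15.FD

lemma Th1_mono (a : ℕ) (x η y ℓ : ℝ) (h1 : x ≤ y) (h2 : y + ℓ ≤ x + η) : Th1 a y ℓ ≤ Th1 a x η := by
  unfold Th1
  apply sum_le_sum_of_subset_of_nonneg
  · apply filter_subset_filter
    apply Ioc_subset_Ioc
    · exact Nat.floor_le_floor (mul_le_mul_of_nonneg_left h1 (Nat.cast_nonneg _))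
    · exact Nat.floor_le_floor (mul_le_mul_of_nonneg_left h2 (Nat.cast_nonneg _))
  · intro p hp _
    exact Real.log_nonneg (by exact_mod_cast (mem_filter.1 hp).2.one_le)

/-- the grid -/
lemma grid (N μ : ℝ) (hμ : 0 < μ) : ∃ G : Finset ℝ, (∀ x ∈ G, N ≤ x ∧ x ≤ 2 * N) ∧
    (∀ x ∈ G, ∀ x' ∈ G, x ≠ x' → μ ≤ |x - x'|) ∧ ∀ i : ℕ, N ≤ i * μ → i * μ ≤ 2 * N → (i * μ : ℝ) ∈ G := by
  classical
  refine ⟨((range (⌊2 * N / μ⌋₊ + 1)).image (fun i : ℕ => (i : ℝ) * μ)).filter (fun x => N ≤ x ∧ x ≤ 2 * N), ?_, ?_, ?_⟩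
  · intro x hx
    exact (mem_filter.1 hx).2
  · intro x hx x' hx' hne
    rw [mem_filter, mem_image] at hx hx'
    obtain ⟨⟨i, _, hi⟩, _⟩ := hx
    obtain ⟨⟨j, _, hj⟩, _⟩ := hx'
    rw [← hi, ← hj, ← sub_mul, abs_mul, abs_of_pos hμ]
    have hij : i ≠ j := by
      rintro rfl
      exact hne (hi.symm.trans hj)
    have h1 : (1 : ℝ) ≤ |(i : ℝ) - j| := by
      have h2 : ((i : ℤ) - j) ≠ 0 := by omega
      have h3 := Int.one_le_abs h2
      have h4 : ((1 : ℤ) : ℝ) ≤ ((|(i : ℤ) - j| : ℤ) : ℝ) := by exact_mod_cast h3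
      push_cast at h4
      exact h4
    exact le_mul_of_one_le_left hμ.le h1
  · intro i h1 h2
    rw [mem_filter, mem_image]
    refine ⟨⟨i, ?_, rfl⟩, h1, h2⟩
    rw [mem_range, Nat.lt_succ_iff]
    apply Nat.le_floor
    rw [le_div_iff₀ hμ]
    exact h2

/-- **Windows of logarithmic length, uniformly.** -/
theorem unif (B : ℕ) : ∃ C : ℕ, ∀ (M : ℕ) (δ : ℝ), 1 ≤ M → 0 ≤ δ → δ < 1 → ∃ K N₀ : ℝ, ∀ (N η lam : ℝ) (k : ℕ)
    (P : Fin k → ℝ) (A : Fin k → Finset ℕ), N₀ ≤ N → 1 ≤ k → (k : ℝ) ≤ Real.log N ^ B →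
    (∀ j, Real.log N ^ C ≤ P j) → (∀ j, P j ≤ N ^ B) →
    (∀ j, ∀ a ∈ A j, a.Prime ∧ P j / 2 < a ∧ (a : ℝ) ≤ P j) → (∀ j, P j / Real.log N ^ B ≤ (A j).card) →
    lam ≤ 1 → 16 ≤ lam * Real.log N → (∀ j, lam * Real.log N ≤ P j * η) → 0 < η → η ≤ 1 →
    ∃ E : Finset (Fin k → ℕ), E ⊆ Fintype.piFinset A ∧ (E.card : ℝ) ≤ (∏ j, ((A j).card : ℝ)) / Real.log N ^ B ∧
      ∀ a ∈ Fintype.piFinset A, a ∉ E → ∀ F : Finset ℝ, (∀ x ∈ F, N ≤ x ∧ x ≤ 2 * N) →
        (∀ x ∈ F, ∀ x' ∈ F, x ≠ x' → η ≤ |x - x'|) →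
        (∀ x ∈ F, ∀ j, ∑ p ∈ (Ioc ⌊(a j : ℝ) * x⌋₊ ⌊(a j : ℝ) * (x + η)⌋₊).filter Nat.Prime, Real.log p ≤ δ * (a j * η)) →
        (F.card : ℝ) ≤ ((K / (lam * k)) ^ M + 1 / Real.log N ^ B) * (N / η) := by
  classical
  obtain ⟨C, hC⟩ := logwin (B + 1)
  refine ⟨C, ?_⟩
  intro M δ hM hδ hδ1
  obtain ⟨q, hqd⟩ : ∃ q : ℕ, q = ⌈δ / (1 - δ)⌉₊ + 1 := ⟨_, rfl⟩
  have hq : 1 ≤ q := by omega
  have hq1 : (1 : ℝ) ≤ q := by exact_mod_cast hq
  have hq0 : (0 : ℝ) < q := by linarith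
  have hqδ : δ * (q + 1) < q := by
    have h1 : δ / (1 - δ) < q := by
      have := Nat.le_ceil (δ / (1 - δ))
      rw [hqd]; push_cast; linarith
    rw [div_lt_iff₀ (by linarith)] at h1
    linarith
  obtain ⟨δ', hδ'⟩ : ∃ δ' : ℝ, δ' = δ * (q + 1) / q := ⟨_, rfl⟩
  obtain ⟨K, N₁, hK, hR⟩ := hC M δ' hM (by rw [hδ']; positivity) (by rw [hδ', div_lt_one hq0]; exact hqδ)
  have hev : ∀ᶠ N : ℝ in atTop, 2 * Real.log N ^ B ≤ N ^ (1 : ℝ) ∧ N₁ ≤ N ∧ 2 * ((q : ℝ) + 1) ≤ Real.log N ∧ 1 ≤ N :=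
    (Pool.Agent.H15.FD.ev_pow _ _ 1 one_pos).and ((eventually_ge_atTop _).and
      ((Real.tendsto_log_atTop.eventually_ge_atTop _).and (eventually_ge_atTop _)))
  obtain ⟨N₀, hN₀⟩ := eventually_atTop.1 hev
  refine ⟨2 * (q + 1) * K, N₀, ?_⟩
  intro N η lam k P A hN hk1 hk hCP hPN hA hcard hlam1 hlam16 hlamP hη0 hη1
  obtain ⟨hE0, hE1, hE2, hE3⟩ := hN₀ N hN
  rw [Real.rpow_one] at hE0
  have hNp : 0 < N := by linarith
  have hLL : 1 ≤ Real.log N := by linarith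
  obtain ⟨μ, hμd⟩ : ∃ μ : ℝ, μ = η / (q + 1) := ⟨_, rfl⟩
  have hμ0 : 0 < μ := by rw [hμd]; positivity
  have hμη : (q + 1) * μ = η := by rw [hμd]; field_simp
  have hqμ : q * μ ≤ 1 := by linarith
  have hlam0 : 0 < lam := by
    by_contra h
    push Not at h
    have : lam * Real.log N ≤ 0 := mul_nonpos_of_nonpos_of_nonneg h (by linarith)
    linarith
  obtain ⟨G, hG1, hG2, hG3⟩ := grid N μ hμ0
  have hpow : Real.log N ^ B ≤ Real.log N ^ (B + 1) := pow_le_pow_right₀ hLL (by omega)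
  obtain ⟨E, hE, hEc, hEb⟩ := hR N μ (lam / 2) q k P A G hE1 hk1 (hk.trans hpow) hCP
    (fun j => (hPN j).trans (pow_le_pow_right₀ hE3 (by omega))) hA
    (fun j => by
      refine le_trans ?_ (hcard j)
      have hPj : 0 ≤ P j := le_trans (by positivity) (hCP j)
      exact div_le_div_of_nonneg_left hPj (by positivity) hpow)
    (by linarith) (by linarith)
    (fun j => by
      have h1 := hlamP j
      have hPj : 0 ≤ P j := le_trans (by positivity) (hCP j)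
      have h2 : P j * η ≤ 2 * (P j * (q * μ)) := by
        rw [← hμη]
        have : (q + 1) * μ ≤ 2 * (q * μ) := by nlinarith only [hq1, hμ0]
        calc P j * ((q + 1) * μ) ≤ P j * (2 * (q * μ)) := mul_le_mul_of_nonneg_left this hPj
          _ = _ := by ring
      linarith)
    hq (by
      have : Real.log N ^ 1 ≤ Real.log N ^ (B + 1) := pow_le_pow_right₀ hLL (by omega)
      rw [pow_one] at this
      linarith) hμ0 hqμ hG1 hG2
  refine ⟨E, hE, ?_, ?_⟩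
  · refine hEc.trans ?_
    have h1 : 0 ≤ ∏ j, ((A j).card : ℝ) := prod_nonneg fun _ _ => Nat.cast_nonneg _
    exact div_le_div_of_nonneg_left h1 (by positivity) hpow
  · intro a ha haE F hF hFsep hFp
    have haA := Fintype.mem_piFinset.1 ha
    obtain ⟨F₁, hF₁⟩ : ∃ F₁ : Finset ℝ, F₁ = F.filter (fun x => x ≤ 2 * N - μ) := ⟨_, rfl⟩
    obtain ⟨F₂, hF₂⟩ : ∃ F₂ : Finset ℝ, F₂ = F.filter (fun x => ¬ x ≤ 2 * N - μ) := ⟨_, rfl⟩
    have hμη' : μ ≤ η := by rw [← hμη]; nlinarith only [hq1, hμ0]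
    have hc12 : (F.card : ℝ) = F₁.card + F₂.card := by
      rw [hF₁, hF₂]
      exact_mod_cast (card_filter_add_card_filter_not (fun x => x ≤ 2 * N - μ)).symm
    have hc2 : (F₂.card : ℝ) ≤ 1 := by
      have : F₂.card ≤ 1 := by
        rw [card_le_one]
        intro x hx x' hx'
        by_contra hne
        rw [hF₂, mem_filter] at hx hx'
        have h1 := hFsep x hx.1 x' hx'.1 hne
        have h2 := hF x hx.1
        have h3 := hF x' hx'.1
        have h4 : |x - x'| < μ := by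
          rw [abs_lt]
          constructor <;> linarith [hx.2, hx'.2]
        linarith
      exact_mod_cast this
    obtain ⟨g, hg⟩ : ∃ g : ℝ → ℝ, g = fun x => (⌈x / μ⌉₊ : ℝ) * μ := ⟨_, rfl⟩
    have hgx : ∀ x, 0 ≤ x → x ≤ g x ∧ g x < x + μ := by
      intro x hx
      rw [hg]
      constructor
      · have h1 := Nat.le_ceil (x / μ)
        rwa [div_le_iff₀ hμ0] at h1
      · have h1 := Nat.ceil_lt_add_one (show 0 ≤ x / μ by positivity)
        have h2 := mul_lt_mul_of_pos_right h1 hμ0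
        rwa [add_mul, div_mul_cancel₀ _ hμ0.ne', one_mul] at h2
    have hinj : Set.InjOn g F₁ := by
      intro x hx x' hx' hxx
      by_contra hne
      rw [mem_coe, hF₁, mem_filter] at hx hx'
      have h1 := hFsep x hx.1 x' hx'.1 hne
      have h2 := hgx x (by linarith [hF x hx.1])
      have h3 := hgx x' (by linarith [hF x' hx'.1])
      rw [hxx] at h2
      have h4 : |x - x'| < μ := by
        rw [abs_lt]
        constructor <;> linarith
      linarith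
    have h1 := hEb a ha haE (F₁.image g) (by
      intro y hy
      rw [mem_image] at hy
      obtain ⟨x, hx, rfl⟩ := hy
      rw [hF₁, mem_filter] at hx
      have h2 := hgx x (by linarith [hF x hx.1])
      have h3 := hF x hx.1
      rw [hg] at h2 ⊢
      exact hG3 _ (by linarith) (by linarith [hx.2])) (by
      intro y hy j
      rw [mem_image] at hy
      obtain ⟨x, hx, rfl⟩ := hy
      rw [hF₁, mem_filter] at hx
      have h2 := hgx x (by linarith [hF x hx.1])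
      have h3 : Th1 (a j) (g x) (q * μ) ≤ Th1 (a j) x η := by
        apply Th1_mono _ _ _ _ _ h2.1
        linarith [hμη, h2.2]
      have h4 : Th1 (a j) x η ≤ δ * (a j * η) := hFp x hx.1 j
      refine (h3.trans h4).trans (le_of_eq ?_)
      rw [hδ', ← hμη]
      field_simp)
    rw [card_image_of_injOn hinj] at h1
    rw [hc12]
    obtain ⟨L, hL⟩ : ∃ L : ℝ, L = Real.log N := ⟨_, rfl⟩
    rw [← hL] at h1 hE0 hE2 hLL ⊢
    have hk0 : (0 : ℝ) < k := by exact_mod_cast hk1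
    have hL0 : 0 < L := by linarith
    obtain ⟨R, hRd⟩ : ∃ R : ℝ, R = N / η := ⟨_, rfl⟩
    have hR0 : 0 < R := by rw [hRd]; positivity
    have hNR : N ≤ R := by rw [hRd, le_div_iff₀ hη0]; exact mul_le_of_le_one_right hNp.le hη1
    have e1 : N / μ = (q + 1) * R := by rw [hRd, hμd]; field_simp
    rw [e1] at h1
    rw [← hRd]
    have e2 : K / (lam / 2 * k) = 2 * K / (lam * k) := by field_simp
    rw [e2] at h1
    have h2 : ((q : ℝ) + 1) * (2 * K / (lam * k)) ^ M ≤ (2 * (q + 1) * K / (lam * k)) ^ M := by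
      have e3 : 2 * ((q : ℝ) + 1) * K / (lam * k) = (q + 1) * (2 * K / (lam * k)) := by ring
      rw [e3, mul_pow]
      apply mul_le_mul_of_nonneg_right _ (by positivity)
      exact le_self_pow₀ (by linarith) (by omega)
    have h3 : ((q : ℝ) + 1) * (1 / L ^ (B + 1)) ≤ 1 / 2 * (1 / L ^ B) := by
      rw [pow_succ, mul_one_div, div_mul_div_comm, div_le_div_iff₀ (by positivity) (by positivity)]
      have := mul_le_mul_of_nonneg_right hE2 (by positivity : 0 ≤ L ^ B)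
      linarith
    have h4 : 1 ≤ 1 / 2 * (1 / L ^ B) * R := by
      have h5 : 1 / 2 * (1 / L ^ B) * R = R / (2 * L ^ B) := by field_simp
      rw [h5, le_div_iff₀ (by positivity), one_mul]
      linarith
    have h5 := mul_le_mul_of_nonneg_right h2 hR0.le
    have h6 := mul_le_mul_of_nonneg_right h3 hR0.le
    have e4 : ((2 * K / (lam * k)) ^ M + 1 / L ^ (B + 1)) * ((q + 1) * R) =
        (q + 1) * (2 * K / (lam * k)) ^ M * R + (q + 1) * (1 / L ^ (B + 1)) * R := by ring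
    rw [e4] at h1
    have e5 : ((2 * (q + 1) * K / (lam * k)) ^ M + 1 / L ^ B) * R =
        (2 * (q + 1) * K / (lam * k)) ^ M * R + 1 / 2 * (1 / L ^ B) * R + 1 / 2 * (1 / L ^ B) * R := by ring
    rw [e5]
    linarith

end Pool.Agent.H15.JD
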